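import Pool.Agent.TH564.KleinC

/-!
# Isometries acting on the closed ball of the Klein model
-/

set_option linter.unusedSectionVars false

namespace Pool.Agent.TH564

open MeasureTheory Filter Topology Set Pool.Agent.W576 Pool.Agent.W31.Bel

/-- Lorentz matrices preserving the future -/
structure IsLor {n : ℕ} (g : Matrix (Fin (n+1)) (Fin (n+1)) ℝ) : Prop where
  form : ∀ x y : Fin (n+1) → ℝ, lor (g.mulVec x) (g.mulVec y) = lor x y
  pos : 0 < g 0 0

/-- projective action -/
noncomputable def pact {n : ℕ} (g : Matrix (Fin (n+1)) (Fin (n+1)) ℝ) (x : Fin n → ℝ) :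
    Fin n → ℝ := fun i => g.mulVec (XX x) i.succ / g.mulVec (XX x) 0

variable {n : ℕ} {g g' : Matrix (Fin (n+1)) (Fin (n+1)) ℝ}

lemma IsLor.cau (hg : IsLor g) {x : Fin (n+1) → ℝ} (hx : Cau x) : Cau (g.mulVec x) := by
  have h0 : Fut (g.mulVec ee) := by
    refine ⟨?_, ?_⟩
    · have : (g.mulVec ee) 0 = g 0 0 := by
        unfold ee; rw [Matrix.mulVec_single_one]; rfl
      rw [this]; exact hg.pos
    · rw [hg.form]; exact fut_ee.2
  refine cau_of_lor h0 ?_ ?_
  · rw [hg.form, lor_comm', lor_ee]; linarith [hx.1]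
  · rw [hg.form]; exact hx.2

lemma IsLor.mulVec_XX (hg : IsLor g) {x : Fin n → ℝ} (hx : ∑ j, (x j) ^ 2 ≤ 1) :
    0 < g.mulVec (XX x) 0 ∧ g.mulVec (XX x) = (g.mulVec (XX x) 0) • XX (pact g x) := by
  have h := (hg.cau (cau_XX hx)).1
  refine ⟨h, ?_⟩
  funext i
  refine Fin.cases ?_ (fun i => ?_) i
  · rw [Pi.smul_apply, XX_zero, smul_eq_mul, mul_one]
  · rw [Pi.smul_apply, XX_succ, smul_eq_mul]
    unfold pact
    field_simp

lemma XX_inj {x y : Fin n → ℝ} (h : XX x = XX y) : x = y := by
  funext i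
  have := congrFun h i.succ
  rwa [XX_succ, XX_succ] at this

lemma IsLor.pact_inj (hg : IsLor g) {x y : Fin n → ℝ} (hx : ∑ j, (x j) ^ 2 ≤ 1)
    (hy : ∑ j, (y j) ^ 2 ≤ 1) (hxy : x ≠ y) : pact g x ≠ pact g y := by
  intro h
  obtain ⟨h1, h2⟩ := hg.mulVec_XX hx
  obtain ⟨h3, h4⟩ := hg.mulVec_XX hy
  rw [← h] at h4
  -- the products are inconsistent
  have e1 : lor (XX x) (XX y) < 0 := lor_XX_neg hx hy hxy
  have k : g.mulVec (XX y) = (g.mulVec (XX y) 0 / g.mulVec (XX x) 0) • g.mulVec (XX x) := by
    rw [h2, smul_smul, h4]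
    simp only [Pi.smul_apply, XX_zero, smul_eq_mul, mul_one]
    congr 1
    field_simp
  set a := g.mulVec (XX y) 0 / g.mulVec (XX x) 0 with ha
  have ha0 : 0 < a := div_pos h3 h1
  -- invariance of the form gives y = a x
  have f1 : lor (XX x) (XX y) = a * lor (XX x) (XX x) := by
    rw [← hg.form (XX x) (XX y), k, lor_smul_right, hg.form]
  have f2 : lor (XX y) (XX y) = a ^ 2 * lor (XX x) (XX x) := by
    rw [← hg.form (XX y) (XX y), k, lor_smul_right, lor_smul_left, hg.form]; ring
  have hN : lor (XX x) (XX x) < 0 := by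
    rw [f1] at e1
    by_contra hcon
    push Not at hcon
    nlinarith [mul_nonneg ha0.le hcon]
  have hF : Fut (XX x) := ⟨by rw [XX_zero]; exact one_pos, hN⟩
  by_cases hz : XX y + (-a) • XX x = 0
  · have h5 := congrFun hz 0
    simp only [Pi.add_apply, Pi.smul_apply, smul_eq_mul, XX_zero, Pi.zero_apply, mul_one] at h5
    have ha1 : a = 1 := by linarith
    rw [ha1] at hz
    apply hxy
    apply XX_inj
    have : XX y = XX x := by
      funext i
      have := congrFun hz i
      simp only [Pi.add_apply, Pi.smul_apply, smul_eq_mul, Pi.zero_apply] at this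
      linarith
    exact this.symm
  · have h6 := lor_pos_of_orth hF hz (by
      rw [lor_add_left, lor_smul_left, lor_comm', f1]; ring)
    rw [lor_add_left, lor_add_right, lor_add_right, lor_smul_left, lor_smul_right, lor_smul_right,
      lor_smul_left, lor_comm' (XX y) (XX x), f1, f2] at h6
    nlinarith

/-- two isometries which agree at two points and at the middle point of the segment have the same
lifts at these points -/
lemma IsLor.lift_eq (hg : IsLor g) (hg' : IsLor g') {x y : Fin n → ℝ}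
    (hx : ∑ j, (x j) ^ 2 ≤ 1) (hy : ∑ j, (y j) ^ 2 ≤ 1) (hxy : x ≠ y)
    (h1 : pact g x = pact g' x) (h2 : pact g y = pact g' y)
    (h3 : pact g ((1/2 : ℝ) • (x + y)) = pact g' ((1/2 : ℝ) • (x + y))) :
    g.mulVec (XX x) = g'.mulVec (XX x) := by
  obtain ⟨px, ex⟩ := hg.mulVec_XX hx
  obtain ⟨py, ey⟩ := hg.mulVec_XX hy
  obtain ⟨px', ex'⟩ := hg'.mulVec_XX hx
  obtain ⟨py', ey'⟩ := hg'.mulVec_XX hy
  have hm : ∑ j, (((1/2 : ℝ) • (x + y)) j) ^ 2 ≤ 1 := by
    have : ∑ j, (((1/2 : ℝ) • (x + y)) j) ^ 2 ≤ ∑ j, ((x j) ^ 2 + (y j) ^ 2) / 2 := by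
      refine Finset.sum_le_sum (fun j _ => ?_)
      simp only [Pi.smul_apply, Pi.add_apply, smul_eq_mul]
      nlinarith [sq_nonneg (x j - y j)]
    refine this.trans ?_
    rw [← Finset.sum_div, Finset.sum_add_distrib]
    linarith
  obtain ⟨pm, em⟩ := hg.mulVec_XX hm
  obtain ⟨pm', em'⟩ := hg'.mulVec_XX hm
  have hmid : XX ((1/2 : ℝ) • (x + y)) = (1/2 : ℝ) • (XX x + XX y) := by
    funext i
    refine Fin.cases ?_ (fun i => ?_) i
    · simp only [Pi.smul_apply, Pi.add_apply, XX_zero, smul_eq_mul]; norm_num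
    · simp only [Pi.smul_apply, Pi.add_apply, XX_succ, smul_eq_mul]
  set a := g.mulVec (XX x) 0 with ha
  set b := g.mulVec (XX y) 0 with hb
  set a' := g'.mulVec (XX x) 0 with ha'
  set b' := g'.mulVec (XX y) 0 with hb'
  rw [← h1] at ex'
  rw [← h2] at ey'
  rw [← h3] at em'
  rw [hmid, Matrix.mulVec_smul, Matrix.mulVec_add] at em em' pm pm'
  have hne := hg.pact_inj hx hy hxy
  set p := pact g x with hp
  set q := pact g y with hq
  set μ := pact g ((1/2 : ℝ) • (x + y)) with hμ
  -- components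
  have c1 : ∀ i, (1/2) * (a * p i + b * q i) = (1/2) * (a + b) * μ i := by
    intro i
    have e0 := congrFun em i.succ
    simp only [Pi.smul_apply, Pi.add_apply, smul_eq_mul, XX_succ] at e0
    have e1 : g.mulVec (XX x) i.succ = a * p i := by
      have := congrFun ex i.succ
      simpa only [Pi.smul_apply, smul_eq_mul, XX_succ] using this
    have e2 : g.mulVec (XX y) i.succ = b * q i := by
      have := congrFun ey i.succ
      simpa only [Pi.smul_apply, smul_eq_mul, XX_succ] using this
    rw [e1, e2] at e0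
    exact e0
  have c2 : ∀ i, (1/2) * (a' * p i + b' * q i) = (1/2) * (a' + b') * μ i := by
    intro i
    have e0 := congrFun em' i.succ
    simp only [Pi.smul_apply, Pi.add_apply, smul_eq_mul, XX_succ] at e0
    have e1 : g'.mulVec (XX x) i.succ = a' * p i := by
      have := congrFun ex' i.succ
      simpa only [Pi.smul_apply, smul_eq_mul, XX_succ] using this
    have e2 : g'.mulVec (XX y) i.succ = b' * q i := by
      have := congrFun ey' i.succ
      simpa only [Pi.smul_apply, smul_eq_mul, XX_succ] using this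
    rw [e1, e2] at e0
    exact e0
  obtain ⟨i0, hi0⟩ := Function.ne_iff.1 hne
  have hratio : a * b' = a' * b := by
    have k1 := c1 i0
    have k2 := c2 i0
    have hs : (a * b' - a' * b) * (p i0 - q i0) = 0 := by
      linear_combination 2 * (a' + b') * k1 - 2 * (a + b) * k2
    rcases mul_eq_zero.1 hs with h | h
    · linarith
    · exact absurd (by linarith) hi0
  have hprod : a * b = a' * b' := by
    have hxyL : lor (XX x) (XX y) < 0 := lor_XX_neg hx hy hxy
    have l1 := hg.form (XX x) (XX y)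
    have l2 := hg'.form (XX x) (XX y)
    rw [ex, ey, lor_smul_left, lor_smul_right] at l1
    rw [ex', ey', lor_smul_left, lor_smul_right] at l2
    have hne2 : lor (XX p) (XX q) ≠ 0 := by
      intro h0
      rw [h0] at l1
      linarith
    have : (a * b - a' * b') * lor (XX p) (XX q) = 0 := by linear_combination l1 - l2
    rcases mul_eq_zero.1 this with h | h
    · linarith
    · exact absurd h hne2
  have haa : a = a' := by
    have h5 : a ^ 2 = a' ^ 2 := by
      have hbb : b * b' ≠ 0 := (mul_pos py py').ne'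
      apply mul_right_cancel₀ hbb
      linear_combination a * b * hratio + (a' * b) * hprod
    exact (sq_eq_sq₀ px.le px'.le).1 h5
  rw [ex, ex', haa]

end Pool.Agent.TH564
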