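import Pool.Agent.TH564.PlaceHi

/-!
# Angular velocities along arcs of configurations: general weights
-/

set_option linter.unusedSectionVars false

namespace Pool.Agent.TH564

open Pool.Agent.W576 Pool.Agent.W576.Arc

theorem arc_sum_gen {r m : ℕ}
    (v : Fin m → Fin (r+3) → ℝ) (c : (Fin (r+2) → Fin m) → ℤ)
    (hccyc : ∀ τ : Fin (r+1) → Fin m, ∑ q, c (Fin.cons q τ) = 0)
    (T : Finset (Fin (r+1) → Fin m))
    (h : (Fin (r+1) → Fin m) → Matrix (Fin (r+3)) (Fin (r+3)) ℝ)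
    (x : (Fin (r+1) → Fin m) → Fin (r+1) → Fin (r+1) → ℝ)
    (ref : (Fin (r+1) → Fin m) → Finset (Fin m)) (hD : FaceData v c T h x ref)
    (W0 : (Fin (r+1) → Fin m) → ℝ)
    (place_sum : ∀ {K : Type} [Field K] [Algebra ℂ K] {κ : Type} [Field κ] (p : Place K κ)
      (g : Finset (Fin m) → Matrix (Fin (r+3)) (Fin (r+3)) K) (_ : IsConf (reHom K) v c g)
      (n : (Fin (r+1) → Fin m) → Finset (Fin m) → ℤ)
      (_ : ∀ τ ∈ T, ∀ s ∈ supp c, (∀ i, τ i ∈ s) →
          p.t ^ (-(n τ s)) * zz (h τ) (g s) (g (ref τ)) ∈ p.O ∧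
          (p.t ^ (-(n τ s)) * zz (h τ) (g s) (g (ref τ)))⁻¹ ∈ p.O),
      ∑ τ ∈ T, W0 τ *
        ((∑ q, c (Fin.cons q τ) * n τ (rng (Fin.cons q τ : Fin (r+2) → Fin m)) : ℤ) : ℝ) = 0)
    (g g' : ℝ → Finset (Fin m) → Matrix (Fin (r+3)) (Fin (r+3)) ℝ)
    (hg : ∀ t ∈ Set.Icc (0:ℝ) 1, IsConf (RingHom.id ℝ) v c (g t))
    (hg' : ∀ t ∈ Set.Icc (0:ℝ) 1, ∀ s i j, HasDerivAt (fun t => g t s i j) (g' t s i j) t)
    (t : ℝ) (ht : t ∈ Set.Ioo (0:ℝ) 1) :
    ∑ τ ∈ T, W0 τ *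
      (∑ q, (c (Fin.cons q τ) : ℝ) *
        lor ((g' t (rng (Fin.cons q τ : Fin (r+2) → Fin m))).mulVec ((h τ).mulVec (Pi.single (ia r) 1)))
          ((g t (rng (Fin.cons q τ : Fin (r+2) → Fin m))).mulVec ((h τ).mulVec (Pi.single (ib r) 1)))) = 0 := by
  classical
  have htI : t ∈ Set.Icc (0:ℝ) 1 := ⟨ht.1.le, ht.2.le⟩
  -- reduction to rational linear functionals
  refine sum_eq_zero_of_rat T (fun τ => W0 τ) _
    fun f => ?_
  obtain ⟨N, e, hN, he⟩ := exists_int_multiple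
    (fun τ : Fin (r+1) → Fin m => f (W0 τ))
  -- membership in the support
  have hsupp : ∀ (τ : Fin (r+1) → Fin m) (q : Fin m), c (Fin.cons q τ) ≠ 0 →
      rng (Fin.cons q τ : Fin (r+2) → Fin m) ∈ supp c ∧
      ∀ i, τ i ∈ rng (Fin.cons q τ : Fin (r+2) → Fin m) := by
    intro τ q hc
    refine ⟨⟨_, hc, rfl⟩, fun i => ?_⟩
    unfold rng
    exact Finset.mem_image.2 ⟨i.succ, Finset.mem_univ _, by simp⟩
  -- finitely many values
  obtain ⟨F, hF⟩ := Pool.Agent.W358.Bel.finite_values conf_rot' v c T h x ref hD e (by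
    intro K _ _ κ _ p gK hgK n hn
    have h1 := place_sum p gK hgK n hn
    have h2 := congrArg f h1
    rw [map_sum, map_zero] at h2
    have h3 : ∀ τ, f (W0 τ *
        ((∑ q, c (Fin.cons q τ) * n τ (rng (Fin.cons q τ : Fin (r+2) → Fin m)) : ℤ) : ℝ)) =
        ((∑ q, c (Fin.cons q τ) * n τ (rng (Fin.cons q τ : Fin (r+2) → Fin m)) : ℤ) : ℚ) *
        f (W0 τ) := by
      intro τ
      rw [mul_comm, ← zsmul_eq_mul, map_zsmul, zsmul_eq_mul]
    simp only [h3] at h2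
    have h4 : ((∑ τ ∈ T, e τ * ∑ q, c (Fin.cons q τ) *
        n τ (rng (Fin.cons q τ : Fin (r+2) → Fin m)) : ℤ) : ℚ) = 0 := by
      rw [Int.cast_sum]
      simp only [Int.cast_mul, he]
      have h5 := congrArg (fun z : ℚ => (N : ℚ) * z) h2
      simp only [mul_zero, Finset.mul_sum] at h5
      rw [← h5]
      exact Finset.sum_congr rfl fun τ _ => by ring
    exact_mod_cast h4)
  -- rotations
  have hrot : ∀ τ ∈ T, ∀ s ∈ supp c, (∀ i, τ i ∈ s) → ∀ t ∈ Set.Icc (0:ℝ) 1,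
      zz (h τ) (Matrix.map (g t s) (fun y : ℝ => (y : ℂ))) (Matrix.map (g t (ref τ)) (fun y : ℝ => (y : ℂ))) * zz (h τ) (Matrix.map (g t (ref τ)) (fun y : ℝ => (y : ℂ))) (Matrix.map (g t s) (fun y : ℝ => (y : ℂ))) = 1 ∧
      (Matrix.map (g t s) (fun y : ℝ => (y : ℂ))).mulVec (epl (h τ)) = zz (h τ) (Matrix.map (g t s) (fun y : ℝ => (y : ℂ))) (Matrix.map (g t (ref τ)) (fun y : ℝ => (y : ℂ))) •
        (Matrix.map (g t (ref τ)) (fun y : ℝ => (y : ℂ))).mulVec (epl (h τ)) ∧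
      (Matrix.map (g t s) (fun y : ℝ => (y : ℂ))).mulVec (emi (h τ)) = zz (h τ) (Matrix.map (g t (ref τ)) (fun y : ℝ => (y : ℂ))) (Matrix.map (g t s) (fun y : ℝ => (y : ℂ))) •
        (Matrix.map (g t (ref τ)) (fun y : ℝ => (y : ℂ))).mulVec (emi (h τ)) := by
    intro τ hτ s hs hτs t ht
    refine Pool.Agent.W365.ConfRot.conf_rot v (x τ) (h τ) (hD.so τ hτ) (hD.det_pos τ hτ).ne' _ _
      (cx_isSO ((hg t ht).so s hs)) (cx_isSO ((hg t ht).so _ (hD.ref_mem τ hτ))) ?_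
    intro i
    have h1 := (hg t ht).inc s hs (ref τ) (hD.ref_mem τ hτ) (τ i) (hτs i) (hD.ref_sub τ hτ i)
    have h2 : ∀ M : Matrix (Fin (r+3)) (Fin (r+3)) ℝ,
        (Matrix.map M (fun y : ℝ => (y : ℂ))).mulVec (fun l => reHom ℂ ((h τ).mulVec (pad (x τ i)) l)) =
        fun l => ((M.mulVec (v (τ i)) l : ℝ) : ℂ) := by
      intro M
      rw [hD.coord τ hτ i]
      ext l
      simp only [Matrix.mulVec, dotProduct, Matrix.map_apply, reHom, RingHom.comp_apply,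
        Algebra.algebraMap_self, RingHom.id_apply, Complex.ofRealHom_eq_coe]
      push_cast
      rfl
    rw [h2, h2]
    ext l
    congr 1
    exact congrFun h1 l
  have hne : ∀ τ ∈ T, ∀ s ∈ supp c, (∀ i, τ i ∈ s) → ∀ t ∈ Set.Icc (0:ℝ) 1,
      zz (h τ) (Matrix.map (g t s) (fun y : ℝ => (y : ℂ))) (Matrix.map (g t (ref τ)) (fun y : ℝ => (y : ℂ))) ≠ 0 := by
    intro τ hτ s hs hτs t ht h0
    have := (hrot τ hτ s hs hτs t ht).1
    rw [h0, zero_mul] at this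
    exact zero_ne_one this
  -- the product
  let W : ℝ → ℂ := fun t => ∏ τ ∈ T, ∏ q : Fin m, (zz (h τ)
          (Matrix.map (g t (rng (Fin.cons q τ : Fin (r+2) → Fin m))) (fun y : ℝ => (y : ℂ))) (Matrix.map (g t (ref τ)) (fun y : ℝ => (y : ℂ)))) ^
          (e τ * c (Fin.cons q τ))
  have hWF : Set.MapsTo W (Set.Icc (0:ℝ) 1) (F : Set ℂ) := fun t ht => hF (g t) (hg t ht)
  have hcont : ContinuousOn W (Set.Icc (0:ℝ) 1) := by
    refine continuousOn_finsetProd _ fun τ hτ => continuousOn_finsetProd _ fun q _ => ?_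
    by_cases hc : c (Fin.cons q τ) = 0
    · simp only [hc, mul_zero, zpow_zero]
      exact continuousOn_const
    · obtain ⟨hs, hτs⟩ := hsupp τ q hc
      refine ContinuousOn.zpow₀ ?_ _ fun t ht => Or.inl (hne τ hτ _ hs hτs t ht)
      intro t' ht'
      have hcA : ∀ s i j, HasDerivAt (fun t => (Matrix.map (g t s) (fun y : ℝ => (y : ℂ))) i j) ((Matrix.map (g' t' s) (fun y : ℝ => (y : ℂ))) i j) t' :=
        fun s i j => (hg' t' ht' s i j).ofReal_comp
      exact (((hasDerivAt_lor (hasDerivAt_mulVec (hcA _) (epl (h τ)))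
        (hasDerivAt_mulVec (hcA _) (emi (h τ)))).const_mul
          (algebraMap ℂ ℂ (1 / 2))).continuousAt).continuousWithinAt
  have hconst : ∀ t' ∈ Set.Icc (0:ℝ) 1, W t' = W t := by
    intro t' ht'
    exact (isPreconnected_Icc).constant_of_mapsTo F.finite_toSet.isDiscrete hcont hWF ht' htI
  have hWne : W t ≠ 0 := by
    refine Finset.prod_ne_zero_iff.2 fun τ hτ => Finset.prod_ne_zero_iff.2 fun q _ => ?_
    by_cases hc : c (Fin.cons q τ) = 0
    · rw [hc, mul_zero, zpow_zero]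
      exact one_ne_zero
    · obtain ⟨hs, hτs⟩ := hsupp τ q hc
      exact zpow_ne_zero _ (hne τ hτ _ hs hτs t htI)
  -- its derivative
  let th : (Fin (r+1) → Fin m) → Finset (Fin m) → ℝ := fun τ s =>
    lor ((g' t s).mulVec ((h τ).mulVec (Pi.single (ia r) 1)))
      ((g t s).mulVec ((h τ).mulVec (Pi.single (ib r) 1)))
  have hder : HasDerivAt W (W t * ∑ τ ∈ T, ∑ q : Fin m, (((e τ * c (Fin.cons q τ) : ℤ) : ℂ) *
      (-Complex.I * ((th τ (rng (Fin.cons q τ : Fin (r+2) → Fin m)) - th τ (ref τ) : ℝ) : ℂ)))) t := by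
    refine hasDerivAt_prod_log T _ _ t fun τ hτ => ?_
    refine hasDerivAt_prod_log _ (fun q t => zz (h τ)
          (Matrix.map (g t (rng (Fin.cons q τ : Fin (r+2) → Fin m))) (fun y : ℝ => (y : ℂ))) (Matrix.map (g t (ref τ)) (fun y : ℝ => (y : ℂ))) ^
          (e τ * c (Fin.cons q τ))) _ t fun q _ => ?_
    by_cases hc : c (Fin.cons q τ) = 0
    · simp only [hc, mul_zero, zpow_zero, Int.cast_zero, zero_mul]
      exact hasDerivAt_const t (1 : ℂ)
    · obtain ⟨hs, hτs⟩ := hsupp τ q hc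
      have hz := log_deriv_zz (h τ) (hD.so τ hτ) (fun t => g t (rng (Fin.cons q τ : Fin (r+2) → Fin m)))
        (fun t => g t (ref τ)) (g' t (rng (Fin.cons q τ : Fin (r+2) → Fin m))) (g' t (ref τ)) ht
        (hg' t htI _) (hg' t htI _) (fun t ht => (hg t ht).so _ hs)
        (fun t ht => (hg t ht).so _ (hD.ref_mem τ hτ)) (hrot τ hτ _ hs hτs)
      exact hasDerivAt_zpow_log hz (hne τ hτ _ hs hτs t htI) _
  have hder0 : HasDerivAt W 0 t := by
    refine (hasDerivAt_const t (W t)).congr_of_eventuallyEq ?_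
    filter_upwards [Icc_mem_nhds ht.1 ht.2] with t' ht'
    exact hconst t' ht'
  have hsum := (mul_eq_zero.1 (hder.unique hder0)).resolve_left hWne
  have hsum2 : ∑ τ ∈ T, ∑ q : Fin m, ((e τ * c (Fin.cons q τ) : ℤ) : ℝ) *
      (th τ (rng (Fin.cons q τ : Fin (r+2) → Fin m)) - th τ (ref τ)) = 0 := by
    have h1 : ((∑ τ ∈ T, ∑ q : Fin m, ((e τ * c (Fin.cons q τ) : ℤ) : ℝ) *
      (th τ (rng (Fin.cons q τ : Fin (r+2) → Fin m)) - th τ (ref τ)) : ℝ) : ℂ) = 0 := by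
      have h2 := congrArg (fun z : ℂ => Complex.I * z) hsum
      simp only [mul_zero, Finset.mul_sum] at h2
      rw [← h2]
      push_cast
      refine Finset.sum_congr rfl fun τ _ => Finset.sum_congr rfl fun q _ => ?_
      linear_combination ((e τ : ℂ) * (c (Fin.cons q τ) : ℂ) *
        ((th τ (rng (Fin.cons q τ : Fin (r+2) → Fin m)) : ℂ) - (th τ (ref τ) : ℂ))) * Complex.I_sq
    exact_mod_cast h1
  have hsum3 : ∀ τ, ∑ q : Fin m, ((e τ * c (Fin.cons q τ) : ℤ) : ℝ) *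
      (th τ (rng (Fin.cons q τ : Fin (r+2) → Fin m)) - th τ (ref τ)) =
      (e τ : ℝ) * ∑ q : Fin m, (c (Fin.cons q τ) : ℝ) *
        th τ (rng (Fin.cons q τ : Fin (r+2) → Fin m)) := by
    intro τ
    have h1 : (∑ q : Fin m, (c (Fin.cons q τ) : ℝ)) = 0 := by
      have := hccyc τ
      exact_mod_cast this
    calc _ = (e τ : ℝ) * ∑ q : Fin m, (c (Fin.cons q τ) : ℝ) *
        th τ (rng (Fin.cons q τ : Fin (r+2) → Fin m)) -
        (e τ : ℝ) * th τ (ref τ) * ∑ q : Fin m, (c (Fin.cons q τ) : ℝ) := by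
          rw [Finset.mul_sum, Finset.mul_sum, ← Finset.sum_sub_distrib]
          refine Finset.sum_congr rfl fun q _ => ?_
          push_cast
          ring
      _ = _ := by rw [h1, mul_zero, sub_zero]
  simp only [hsum3] at hsum2
  have hNR : (N : ℝ) ≠ 0 := by exact_mod_cast hN
  have h6 : (N : ℝ) * ∑ τ ∈ T, ((f (W0 τ) : ℚ) : ℝ) *
      (∑ q : Fin m, (c (Fin.cons q τ) : ℝ) *
        th τ (rng (Fin.cons q τ : Fin (r+2) → Fin m))) = 0 := by
    rw [← hsum2, Finset.mul_sum]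
    refine Finset.sum_congr rfl fun τ _ => ?_
    have := he τ
    have h7 : (e τ : ℝ) = (N : ℝ) *
        ((f (W0 τ) : ℚ) : ℝ) := by
      exact_mod_cast congrArg (fun z : ℚ => (z : ℝ)) this
    rw [h7]
    ring
  exact (mul_eq_zero.1 h6).resolve_left hNR


end Pool.Agent.TH564
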