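import Pool.Agent.TH564.Pert2

/-!
# The volume is constant along arcs of causal configurations in dimension at least four
-/

set_option linter.unusedSectionVars false

namespace Pool.Agent.TH564

open MeasureTheory Filter Topology Set Pool.Agent.W576 Pool.Agent.W31.Bel
open Pool.Agent.W365.DeltaFrame (JJ so_inv so_inv')

section arc

variable {r m : ℕ} {v : Fin m → Fin (r+3) → ℝ} {c : (Fin (r+2) → Fin m) → ℤ}
  {g g' : ℝ → Finset (Fin m) → Matrix (Fin (r+3)) (Fin (r+3)) ℝ}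

lemma ArcHyp.fut_face (hr : 1 ≤ r) (H : ArcHyp v c g g') {s : Finset (Fin m)} (hs : s ∈ supp c)
    (τ : Fin (r+1) → Fin m) (hτ : ∀ i, τ i ∈ s) (hinj : Function.Injective τ) :
    Fut (∑ i, v (τ i)) :=
  fut_sum (fun i => v (τ i)) (fun i => H.hv _) 0 (Fin.last r)
    (H.hneg s hs _ (hτ _) _ (hτ _) (fun h => by
      have := congrArg Fin.val (hinj h); simp at this; omega))

/-- existence of face data -/
lemma ArcHyp.exists_faceData (hr : 1 ≤ r) (H : ArcHyp v c g g') :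
    ∃ (T : Finset (Fin (r+1) → Fin m))
      (h : (Fin (r+1) → Fin m) → Matrix (Fin (r+3)) (Fin (r+3)) ℝ)
      (x : (Fin (r+1) → Fin m) → Fin (r+1) → Fin (r+1) → ℝ)
      (ref : (Fin (r+1) → Fin m) → Finset (Fin m)), FaceData v c T h x ref := by
  classical
  set T : Finset (Fin (r+1) → Fin m) := Finset.univ.filter (fun τ =>
    LinearIndependent ℝ (fun i => v (τ i)) ∧ ∃ s ∈ supp c, ∀ i, τ i ∈ s) with hT
  have hfr : ∀ τ : Fin (r+1) → Fin m, (LinearIndependent ℝ (fun i => v (τ i)) ∧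
      ∃ s ∈ supp c, ∀ i, τ i ∈ s) →
      ∃ h : Matrix (Fin (r+3)) (Fin (r+3)) ℝ, ∃ x : Fin (r+1) → Fin (r+1) → ℝ,
        IsSO h ∧ (∀ i, v (τ i) = h.mulVec (pad (x i))) ∧ 0 < (Matrix.of x).det := by
    rintro τ ⟨hτ, s, hs, hτs⟩
    have hinj : Function.Injective τ := fun i j hij => hτ.injective (by simp only [hij])
    obtain ⟨h, hh, _, x, hx1, hx2⟩ := witt_pad_basis_cau (b := r+1) (n := r+2)
      (by omega) (by omega) (fun i => v (τ i)) (fun i => H.hv _)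
      (H.fut_face hr hs τ hτs hinj) hτ
    exact ⟨h, x, hh, hx1, hx2⟩
  choose! h x hh hx hxdet using hfr
  set ref : (Fin (r+1) → Fin m) → Finset (Fin m) := fun τ =>
    if hh : ∃ s, s ∈ supp c ∧ ∀ i, τ i ∈ s then hh.choose else ∅ with href
  refine ⟨T, h, x, ref, ?_, ?_, ?_, ?_, ?_, ?_⟩
  · intro τ; simp [hT]
  · intro τ hτ
    rw [hT, Finset.mem_filter] at hτ
    exact hh τ hτ.2
  · intro τ hτ
    rw [hT, Finset.mem_filter] at hτ
    exact hx τ hτ.2
  · intro τ hτ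
    rw [hT, Finset.mem_filter] at hτ
    exact hxdet τ hτ.2
  · intro τ hτ
    rw [hT, Finset.mem_filter] at hτ
    have he : ∃ s, s ∈ supp c ∧ ∀ i, τ i ∈ s := hτ.2.2
    simp only [href, dif_pos he]
    exact he.choose_spec.1
  · intro τ hτ
    rw [hT, Finset.mem_filter] at hτ
    have he : ∃ s, s ∈ supp c ∧ ∀ i, τ i ∈ s := hτ.2.2
    simp only [href, dif_pos he]
    exact he.choose_spec.2

lemma UU_zero (t : ℝ) (s : Finset (Fin m)) (j : Fin m) : UU v g t s 0 j = (g t s).mulVec (v j) := by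
  unfold UU; rw [zero_smul, add_zero]

lemma ArcHyp.Delta_face (H : ArcHyp v c g g') {t : ℝ} (ht : t ∈ Ioo (0:ℝ) 1)
    {T : Finset (Fin (r+1) → Fin m)}
    {h : (Fin (r+1) → Fin m) → Matrix (Fin (r+3)) (Fin (r+3)) ℝ}
    {x : (Fin (r+1) → Fin m) → Fin (r+1) → Fin (r+1) → ℝ}
    {ref : (Fin (r+1) → Fin m) → Finset (Fin m)} (hD : FaceData v c T h x ref)
    {s : Finset (Fin m)} (hs : s ∈ supp c) {τ : Fin (r+1) → Fin m} (hτ : τ ∈ T) :
    Delta (YY g g' t s) (fun i => UU v g t s 0 (τ i)) =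
      lor ((g' t s).mulVec ((h τ).mulVec (Pi.single (ia r) 1)))
        ((g t s).mulVec ((h τ).mulVec (Pi.single (ib r) 1))) * (Matrix.of (x τ)).det := by
  have ht' : t ∈ Icc (0:ℝ) 1 := ⟨ht.1.le, ht.2.le⟩
  have h1 : (fun i => UU v g t s 0 (τ i)) = fun i => (g t s * h τ).mulVec (pad (x τ i)) := by
    funext i
    rw [UU_zero, hD.coord τ hτ i, Matrix.mulVec_mulVec]
  rw [h1, Pool.Agent.W365.DeltaFrame.Delta_frame (a := r+1) (by omega)
    (YY g g' t s) (g t s * h τ) (H.YY_skew ht hs) (((H.hg t ht').so s hs).mul (hD.so τ hτ)) (x τ)]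
  congr 1
  rw [← Matrix.mulVec_mulVec, ← Matrix.mulVec_mulVec, H.YY_mulVec ht' hs]
  rfl

lemma ArcHyp.Delta_nonface (_H : ArcHyp v c g g') {t : ℝ}
    {T : Finset (Fin (r+1) → Fin m)}
    {h : (Fin (r+1) → Fin m) → Matrix (Fin (r+3)) (Fin (r+3)) ℝ}
    {x : (Fin (r+1) → Fin m) → Fin (r+1) → Fin (r+1) → ℝ}
    {ref : (Fin (r+1) → Fin m) → Finset (Fin m)} (hD : FaceData v c T h x ref)
    {s : Finset (Fin m)} (hs : s ∈ supp c) {τ : Fin (r+1) → Fin m} (hτ : τ ∉ T)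
    (hτs : ∀ i, τ i ∈ s) :
    Delta (YY g g' t s) (fun i => UU v g t s 0 (τ i)) = 0 := by
  apply Delta_dep
  intro hli
  apply hτ
  rw [hD.mem_T]
  refine ⟨?_, s, hs, hτs⟩
  have h1 : (fun i => UU v g t s 0 (τ i)) = (Matrix.mulVecLin (g t s)) ∘ (fun i => v (τ i)) := by
    funext i; rw [UU_zero]; rfl
  rw [h1] at hli
  exact LinearIndependent.of_comp _ hli

lemma mem_rng_cons2 (q : Fin m) (τ : Fin (r+1) → Fin m) (i : Fin (r+1)) :
    τ i ∈ rng (Fin.cons q τ : Fin (r+2) → Fin m) := mem_rng_cons' q τ i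

lemma inj_tail {q : Fin m} {τ : Fin (r+1) → Fin m}
    (h : Function.Injective (Fin.cons q τ : Fin (r+2) → Fin m)) : Function.Injective τ :=
  (Fin.cons_injective_iff.1 h).2

lemma ArcHyp.gram_zero (H : ArcHyp v c g g') {t : ℝ} (ht : t ∈ Icc (0:ℝ) 1)
    {s : Finset (Fin m)} (hs : s ∈ supp c) {ι : Type*} (τ : ι → Fin m) :
    gram (fun i => UU v g t s 0 (τ i)) = gram (fun i => v (τ i)) := by
  funext i j
  rw [H.gramU ht hs]
  simp [gram]

/-- the main term at `ε = 0` with arbitrary weights -/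
lemma ArcHyp.main_zero (H : ArcHyp v c g g') {t : ℝ} (ht : t ∈ Ioo (0:ℝ) 1)
    {T : Finset (Fin (r+1) → Fin m)}
    {h : (Fin (r+1) → Fin m) → Matrix (Fin (r+3)) (Fin (r+3)) ℝ}
    {x : (Fin (r+1) → Fin m) → Fin (r+1) → Fin (r+1) → ℝ}
    {ref : (Fin (r+1) → Fin m) → Finset (Fin m)} (hD : FaceData v c T h x ref)
    (W : (Fin (r+1) → Fin m) → ℝ)
    (place_sum : ∀ {K : Type} [Field K] [Algebra ℂ K] {κ : Type} [Field κ] (p : Place K κ)
      (g : Finset (Fin m) → Matrix (Fin (r+3)) (Fin (r+3)) K) (_ : IsConf (reHom K) v c g)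
      (n : (Fin (r+1) → Fin m) → Finset (Fin m) → ℤ)
      (_ : ∀ τ ∈ T, ∀ s ∈ supp c, (∀ i, τ i ∈ s) →
          p.t ^ (-(n τ s)) * zz (h τ) (g s) (g (ref τ)) ∈ p.O ∧
          (p.t ^ (-(n τ s)) * zz (h τ) (g s) (g (ref τ)))⁻¹ ∈ p.O),
      ∑ τ ∈ T, (W τ * (Matrix.of (x τ)).det) *
        ((∑ q, c (Fin.cons q τ) * n τ (rng (Fin.cons q τ : Fin (r+2) → Fin m)) : ℤ) : ℝ) = 0) :
    ∑ τ : Fin (r+1) → Fin m, ∑ q : Fin m, (c (Fin.cons q τ) : ℝ) *
      (Delta (YY g g' t (rng (Fin.cons q τ : Fin (r+2) → Fin m)))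
      (fun i => UU v g t (rng (Fin.cons q τ : Fin (r+2) → Fin m)) 0 (τ i)) * W τ) = 0 := by
  classical
  have h1 := arc_sum_gen v c H.hccyc T h x ref hD (fun τ => W τ * (Matrix.of (x τ)).det)
    place_sum g g' H.hg H.hg' t ht
  refine Eq.trans ?_ h1
  symm
  refine Finset.sum_subset_zero_on_sdiff (Finset.subset_univ _) (fun τ hτ => ?_) (fun τ hτ => ?_)
  · rw [Finset.mem_sdiff] at hτ
    refine Finset.sum_eq_zero (fun q _ => ?_)
    by_cases hq : c (Fin.cons q τ) = 0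
    · simp [hq]
    · rw [H.Delta_nonface hD (mem_supp_of hq) hτ.2 (mem_rng_cons2 q τ)]; ring
  · rw [Finset.mul_sum]
    refine Finset.sum_congr rfl (fun q _ => ?_)
    by_cases hq : c (Fin.cons q τ) = 0
    · simp [hq]
    · rw [H.Delta_face ht hD (mem_supp_of hq) hτ]; ring

lemma ArcHyp.contI0 (hr : 2 ≤ r) (H : ArcHyp v c g g') {s : Finset (Fin m)} (hs : s ∈ supp c)
    (τ : Fin (r+1) → Fin m) (hτ : ∀ i, τ i ∈ s) (hinj : Function.Injective τ) :
    ContinuousOn (fun p : ℝ × ℝ => I0 (gram (fun i => UU v g p.1 s p.2 (τ i)))) SQ := by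
  obtain ⟨μ, hμ, hμ'⟩ := H.exists_mu
  obtain ⟨δ, hδ, hδ'⟩ := H.exists_delta
  intro p0 hp0
  refine tendsto_I0 (by simp; omega) _ _ hδ ?_ ?_ ?_
  · filter_upwards [self_mem_nhdsWithin] with p hp i j hij
    exact H.gramU_off hδ' hp.1 hs τ hτ hinj hp.2.1 i j hij
  · filter_upwards [self_mem_nhdsWithin] with p hp i
    have h1 := H.gramU_diag hμ' hp.1 hs τ hp.2.1 i
    have h2 : 0 ≤ 2 * μ * p.2 := by have := hp.2.1; positivity
    linarith
  · intro i j
    exact contOn_lor _ _ (H.contU s (τ i)) (H.contU s (τ j)) p0 hp0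

theorem ArcHyp.vol_const_hi (hr : 2 ≤ r) (H : ArcHyp v c g g') :
    FF v c g 0 0 = FF v c g 0 1 := by
  classical
  refine H.vol_const (by omega) ?_
  obtain ⟨T, h, x, ref, hD⟩ := H.exists_faceData (by omega)
  refine unif_small (fun p => MM v c g g' p.1 p.2) ?_ ?_
  · unfold MM
    refine continuousOn_finsetSum _ (fun τ _ => continuousOn_finsetSum _ (fun q _ => ?_))
    by_cases hq : c (Fin.cons q τ) = 0
    · simp only [hq, Int.cast_zero, zero_mul]
      exact continuousOn_const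
    · refine continuousOn_const.mul (ContinuousOn.mul ?_ ?_)
      · exact contOn_Delta _ _ (H.contY _) (fun i j => H.contU _ _ _)
      · exact H.contI0 hr (mem_supp_of hq) τ (mem_rng_cons2 q τ) (inj_tail (H.inj hq))
  · intro t ht
    have h1 := H.main_zero ht hD (fun τ => I0 (gram fun i => v (τ i))) (by
      intro K _ _ κ _ p gK hgK n hn
      exact place_sum_zero_cau p hr v H.hv c H.hneg H.hcalt H.hccyc T h x ref hD gK hgK n hn)
    unfold MM
    refine Eq.trans ?_ h1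
    refine Finset.sum_congr rfl (fun τ _ => Finset.sum_congr rfl (fun q _ => ?_))
    by_cases hq : c (Fin.cons q τ) = 0
    · simp [hq]
    · simp only
      rw [H.gram_zero ⟨ht.1.le, ht.2.le⟩ (mem_supp_of hq) τ]

end arc

end Pool.Agent.TH564
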