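import Pool.Agent.TH564.Coc

/-!
# Cycles of causal vectors over a big field have volume zero
-/

set_option linter.unusedSectionVars false

namespace Pool.Agent.TH564

open Pool.Agent.W576 MeasureTheory Matrix
open Pool.Agent.W378.B13

section transport
variable {κ : Type*} [Field κ] (ρ : ℝ →+* κ)

lemma CC_real' {r : ℕ} (hr : 1 ≤ r) (x : Fin r → Fin (r+1) → ℝ) (hx : ∀ i, Cau (x i))
    (hS : Fut (∑ i, x i)) (hli : LinearIndependent ℝ x) :
    CC ρ (fun i => ρ ∘ x i) = {z | ∃ y, Fut y ∧ z = ρ ∘ y} := by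
  have hne : Nonempty (Fin r) := ⟨⟨0, hr⟩⟩
  ext z
  constructor
  · rintro ⟨h1, ⟨e, he⟩, b, hb, hbz⟩
    choose a ha ha' using h1
    -- the matrix of functionals
    set M : Matrix (Fin (r+1)) (Fin (r+1)) ℝ :=
      Matrix.of (fun i j => (Fin.cons (nrm x) x : Fin (r+1) → Fin (r+1) → ℝ) i j * eta j) with hM
    have hMv : ∀ y : Fin (r+1) → ℝ, M.mulVec y
        = fun i => lor ((Fin.cons (nrm x) x : Fin (r+1) → Fin (r+1) → ℝ) i) y := by
      intro y; funext i
      rw [Matrix.mulVec, dotProduct]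
      unfold lor
      exact Finset.sum_congr rfl (fun j _ => by rw [hM, Matrix.of_apply]; ring)
    have hMdet : M.det ≠ 0 := by
      intro h0
      obtain ⟨y, hy, hy0⟩ := (Matrix.exists_mulVec_eq_zero_iff).2 h0
      rw [hMv] at hy0
      have g0 : lor (nrm x) y = 0 := by simpa using congrFun hy0 0
      have gi : ∀ i, lor (x i) y = 0 := fun i => by simpa using congrFun hy0 i.succ
      rw [lor_nrm] at g0
      -- y in the span of x
      have hyspan : y ∈ Submodule.span ℝ (Set.range x) := by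
        by_contra hns
        have h3 : LinearIndependent ℝ (Fin.cons y x : Fin (r+1) → Fin (r+1) → ℝ) :=
          (linearIndependent_finCons).2 ⟨hli, hns⟩
        have h4 : LinearIndependent ℝ
            (Matrix.of (Fin.cons y x : Fin (r+1) → Fin (r+1) → ℝ)).row := h3
        have := (Matrix.linearIndependent_rows_iff_isUnit).1 h4
        rw [Matrix.isUnit_iff_isUnit_det] at this
        exact this.ne_zero g0
      obtain ⟨c, hc⟩ := (Submodule.mem_span_range_iff_exists_fun ℝ).1 hyspan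
      have hyy : lor y y = 0 := by
        have e0 : lor y y = lor (∑ i, c i • x i) y := by rw [hc]
        rw [e0, lor_sum_left]
        exact Finset.sum_eq_zero (fun i _ => by rw [gi, mul_zero])
      exact hy (eq_zero_of_orth hS (by
        rw [Pool.Agent.W31.Bel.lor_comm', Pool.Agent.W31.Bel.lor_sum_left]
        exact Finset.sum_eq_zero (fun i _ => gi i)) hyy.le)
    set bvec : Fin (r+1) → ℝ := Fin.cons e a with hbvec
    set y := M⁻¹.mulVec bvec with hy
    have hu : IsUnit M.det := isUnit_iff_ne_zero.2 hMdet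
    have hMy : M.mulVec y = bvec := by
      rw [hy, Matrix.mulVec_mulVec, Matrix.mul_nonsing_inv _ hu, Matrix.one_mulVec]
    -- z = ρ y
    have hMz : (M.map ρ).mulVec z = ρ ∘ bvec := by
      funext i
      have e1 : (M.map ρ).mulVec z i
          = lor ((Fin.cons (nrm (fun i => ρ ∘ x i)) (fun i => ρ ∘ x i) :
              Fin (r+1) → Fin (r+1) → κ) i) z := by
        rw [Matrix.mulVec, dotProduct]
        unfold lor
        refine Finset.sum_congr rfl (fun j _ => ?_)
        rw [Matrix.map_apply, hM, Matrix.of_apply, map_mul, map_eta]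
        have : ρ ((Fin.cons (nrm x) x : Fin (r+1) → Fin (r+1) → ℝ) i j)
            = (Fin.cons (nrm (fun i => ρ ∘ x i)) (fun i => ρ ∘ x i) :
              Fin (r+1) → Fin (r+1) → κ) i j := by
          refine Fin.cases ?_ (fun i => ?_) i
          · simp only [Fin.cons_zero]
            unfold nrm
            have hs : (Pi.single j 1 : Fin (r+1) → κ) = ρ ∘ (Pi.single j 1 : Fin (r+1) → ℝ) := by
              funext k
              simp only [Function.comp, Pi.single_apply]
              split_ifs <;> simp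
            rw [map_mul, map_eta, ← map_det, ← cons_map, hs]
          · simp
        rw [this]; ring
      rw [e1]
      refine Fin.cases ?_ (fun i => ?_) i
      · simp only [Fin.cons_zero, hbvec, Function.comp]
        rw [lor_nrm, he]
      · simp only [Fin.cons_succ, hbvec, Function.comp]
        rw [lor_comm]
        exact ha' i
    have hzy : z = ρ ∘ y := by
      have h5 : (M.map ρ).mulVec (ρ ∘ y) = ρ ∘ bvec := by
        rw [← hMy]
        funext i
        simp [Matrix.mulVec, dotProduct, map_sum]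
      have h6 : (M.map ρ).det ≠ 0 := by
        have : (M.map ρ).det = ρ M.det := by rw [RingHom.map_det]; rfl
        rw [this]
        exact fun h => hMdet ((map_eq_zero ρ).1 h)
      have h7 : (M.map ρ).mulVec (z - ρ ∘ y) = 0 := by
        rw [Matrix.mulVec_sub, hMz, h5, sub_self]
      have := Matrix.eq_zero_of_mulVec_eq_zero h6 h7
      exact sub_eq_zero.1 this
    refine ⟨y, ?_, hzy⟩
    have hyx : ∀ i, lor y (x i) = a i := by
      intro i
      have := ha' i
      rw [hzy, map_lor] at this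
      exact ρ.injective this
    have hyy : lor y y = b := by
      rw [hzy, map_lor] at hbz
      exact ρ.injective hbz
    refine fut_of_lor hS ?_ (by rw [hyy]; exact hb)
    rw [lor_comm, Pool.Agent.W31.Bel.lor_sum_left]
    refine Finset.sum_neg (fun i _ => ?_) Finset.univ_nonempty
    rw [lor_comm, hyx]; exact ha _
  · rintro ⟨y, hy, rfl⟩
    refine ⟨fun i => ⟨lor y (x i), lor_neg_fut_cau hy (hx i), map_lor ρ _ _⟩,
      ⟨(Matrix.of (Fin.cons y x : Fin (r+1) → Fin (r+1) → ℝ)).det, ?_⟩,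
      ⟨lor y y, hy.2, map_lor ρ _ _⟩⟩
    rw [cons_map, map_det]

lemma CC_eq' {r : ℕ} (hr : 1 ≤ r) {P : Matrix (Fin (r+1)) (Fin (r+1)) κ} (hP : IsSO P)
    (x : Fin r → Fin (r+1) → ℝ) (hx : ∀ i, Cau (x i)) (hS : Fut (∑ i, x i)) (hli : LinearIndependent ℝ x) :
    CC ρ (fun i => P.mulVec (ρ ∘ x i)) = {z | ∃ y, Fut y ∧ z = P.mulVec (ρ ∘ y)} := by
  obtain ⟨hQ, h1, h2⟩ := isSO_inv hP
  have key : ∀ z, P.mulVec z ∈ CC ρ (fun i => P.mulVec (ρ ∘ x i)) ↔ z ∈ CC ρ (fun i => ρ ∘ x i) := by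
    intro z
    unfold CC
    simp only [Set.mem_ofPred_eq]
    rw [Pool.Agent.W378.B13.cons_mulVec, det_mulVec hP]
    simp only [hP.1]
  ext z
  rw [← h1 z, key, CC_real' ρ hr x hx hS hli]
  constructor
  · rintro ⟨y, hy, e⟩; exact ⟨y, hy, by rw [e]⟩
  · rintro ⟨y, hy, e⟩
    refine ⟨y, hy, ?_⟩
    rw [h1] at e
    rw [e, h2]

/-- the existence of the transporting isometry -/
lemma exists_P' {r : ℕ} (hr : 1 ≤ r) (x : Fin (r+1) → Fin (r+1) → ℝ)
    (hS : Fut (∑ i : Fin r, x i.succ))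
    (w : Fin (r+1) → Fin (r+1) → κ) (hg : ∀ i j, lor (w i) (w j) = ρ (lor (x i) (x j)))
    (hd : (Matrix.of w).det = ρ (Matrix.of x).det)
    (hli : LinearIndependent ℝ (fun i : Fin r => x i.succ)) :
    ∃ P : Matrix (Fin (r+1)) (Fin (r+1)) κ, IsSO P ∧ ∀ i, w i = P.mulVec (ρ ∘ x i) := by
  have hne : Nonempty (Fin r) := ⟨⟨0, hr⟩⟩
  set x' : Fin r → Fin (r+1) → κ := fun i => ρ ∘ x i.succ with hx'
  set w' : Fin r → Fin (r+1) → κ := fun i => w i.succ with hw'
  have hgram : W576.gram w' = W576.gram x' := by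
    ext i j
    change lor (w i.succ) (w j.succ) = lor (ρ ∘ x i.succ) (ρ ∘ x j.succ)
    rw [hg, map_lor]
  have hgr : (W576.gram x').det ≠ 0 := by
    have h1 : W576.gram x' = (W576.gram (fun i : Fin r => x i.succ)).map ρ :=
      gram_map ρ (fun i : Fin r => x i.succ)
    have h2 := (linInd_iff_gram_cau (fun i : Fin r => x i.succ) hS).1 hli
    rw [h1]
    have : ((W576.gram (fun i : Fin r => x i.succ)).map ρ).det
        = ρ (W576.gram (fun i : Fin r => x i.succ)).det := by rw [RingHom.map_det]; rfl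
    rw [this]
    exact fun h => h2 ((map_eq_zero ρ).1 h)
  set A : Matrix (Fin (r+1)) (Fin (r+1)) κ := Matrix.of (Fin.cons (nrm x') x') with hA
  set B : Matrix (Fin (r+1)) (Fin (r+1)) κ := Matrix.of (Fin.cons (nrm w') w') with hB
  have hAd : A.det = - (W576.gram x').det := det_nrm x' (linInd_of_gram x' hgr)
  have hBd : B.det = - (W576.gram x').det := by
    rw [← hgram]; exact det_nrm w' (linInd_of_gram w' (by rw [hgram]; exact hgr))
  have hA0 : A.det ≠ 0 := by rw [hAd]; exact neg_ne_zero.2 hgr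
  have hB0 : B.det ≠ 0 := by rw [hBd]; exact neg_ne_zero.2 hgr
  have hAu : IsUnit A.det := isUnit_iff_ne_zero.2 hA0
  have hATu : IsUnit (Aᵀ).det := by rw [Matrix.det_transpose]; exact hAu
  set P : Matrix (Fin (r+1)) (Fin (r+1)) κ := Bᵀ * (Aᵀ)⁻¹ with hP
  have hPA : P * Aᵀ = Bᵀ := by
    rw [hP, Matrix.mul_assoc, Matrix.nonsing_inv_mul _ hATu, Matrix.mul_one]
  clear_value P
  have hPdet : P.det = 1 := by
    have := congrArg Matrix.det hPA
    rw [Matrix.det_mul, Matrix.det_transpose, Matrix.det_transpose, hBd, ← hAd] at this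
    exact mul_right_cancel₀ hA0 (by rw [this, one_mul])
  -- Gram matrices of A and B agree
  have hnn : lor (nrm w') (nrm w') = lor (nrm x') (nrm x') := by
    rw [lor_nrm, lor_nrm]
    exact hBd.trans hAd.symm
  have hGAB : B * E κ (r+1) * Bᵀ = A * E κ (r+1) * Aᵀ := by
    have e1 : W576.gram (Fin.cons (nrm w') w' : Fin (r+1) → Fin (r+1) → κ)
        = W576.gram (Fin.cons (nrm x') x' : Fin (r+1) → Fin (r+1) → κ) := by
      ext i j
      change lor ((Fin.cons (nrm w') w' : Fin (r+1) → Fin (r+1) → κ) i)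
        ((Fin.cons (nrm w') w' : Fin (r+1) → Fin (r+1) → κ) j) = _
      change _ = lor ((Fin.cons (nrm x') x' : Fin (r+1) → Fin (r+1) → κ) i)
        ((Fin.cons (nrm x') x' : Fin (r+1) → Fin (r+1) → κ) j)
      refine Fin.cases ?_ (fun i => ?_) i <;> refine Fin.cases ?_ (fun j => ?_) j
      · simpa using hnn
      · simp only [Fin.cons_zero, Fin.cons_succ]; rw [lor_nrm_self, lor_nrm_self]
      · simp only [Fin.cons_zero, Fin.cons_succ]
        rw [lor_comm, lor_nrm_self, lor_comm, lor_nrm_self]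
      · simp only [Fin.cons_succ]
        exact congrFun (congrFun hgram i) j
    rw [gram_eq, gram_eq] at e1
    exact e1
  have hPE : Pᵀ * E κ (r+1) * P = E κ (r+1) := by
    have h1 : A * (Pᵀ * E κ (r+1) * P) * Aᵀ = A * E κ (r+1) * Aᵀ := by
      rw [← hGAB]
      have h2 : A * Pᵀ = B := by
        have := congrArg Matrix.transpose hPA
        rwa [Matrix.transpose_mul, Matrix.transpose_transpose, Matrix.transpose_transpose] at this
      calc A * (Pᵀ * E κ (r+1) * P) * Aᵀ = (A * Pᵀ) * E κ (r+1) * (P * Aᵀ) := by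
            simp only [Matrix.mul_assoc]
        _ = _ := by rw [h2, hPA]
    have h3 : A * (Pᵀ * E κ (r+1) * P) = A * E κ (r+1) := by
      have := congrArg (· * (Aᵀ)⁻¹) h1
      simpa [Matrix.mul_assoc, Matrix.mul_nonsing_inv _ hATu] using this
    have := congrArg (A⁻¹ * ·) h3
    simpa [← Matrix.mul_assoc, Matrix.nonsing_inv_mul _ hAu] using this
  have hlorE : ∀ a b : Fin (r+1) → κ, lor a b = a ⬝ᵥ (E κ (r+1) *ᵥ b) := by
    intro a b
    unfold lor E
    rw [dotProduct]
    refine Finset.sum_congr rfl (fun i _ => ?_)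
    rw [Matrix.mulVec_diagonal]; ring
  have hSO : IsSO P := by
    refine ⟨fun a b => ?_, hPdet⟩
    have e0 : ∀ a c : Fin (r+1) → κ, (P *ᵥ a) ⬝ᵥ c = a ⬝ᵥ (Pᵀ *ᵥ c) := by
      intro a c
      rw [Matrix.dotProduct_mulVec, Matrix.vecMul_transpose]
    rw [hlorE, hlorE, e0, Matrix.mulVec_mulVec, Matrix.mulVec_mulVec, hPE]
  have hrow : ∀ j, P.mulVec (A j) = B j := by
    intro j
    have := congrFun (congrArg Matrix.col hPA) j
    have h1 : (P * Aᵀ).col j = P.mulVec (A j) := by
      funext i; simp [Matrix.col, Matrix.mul_apply, Matrix.mulVec, dotProduct]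
    have h2 : (Bᵀ).col j = B j := by
      funext i; simp [Matrix.col]
    rw [← h1, ← h2]; exact this
  have hsucc : ∀ i : Fin r, w i.succ = P.mulVec (ρ ∘ x i.succ) := by
    intro i
    have := hrow i.succ
    exact this.symm
  refine ⟨P, hSO, fun i => ?_⟩
  refine Fin.cases ?_ hsucc i
  -- the last vertex
  set z := w 0 - P.mulVec (ρ ∘ x 0) with hz
  have hz1 : ∀ i, lor z (w' i) = 0 := by
    intro i
    rw [hz, lor_sub_left, hw']
    change lor (w 0) (w i.succ) - lor (P *ᵥ (ρ ∘ x 0)) (w i.succ) = 0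
    rw [hg]
    rw [hsucc i, hSO.1, map_lor, sub_self]
  have hz2 : lor (nrm w') z = 0 := by
    rw [lor_nrm, ← detCons_apply, hz, map_sub, detCons_apply, detCons_apply]
    have e1 : (Fin.cons (w 0) w' : Fin (r+1) → Fin (r+1) → κ) = w := by
      rw [hw']; funext i; refine Fin.cases ?_ (fun i => ?_) i <;> simp
    have e2 : (Fin.cons (P.mulVec (ρ ∘ x 0)) w' : Fin (r+1) → Fin (r+1) → κ)
        = fun i => P.mulVec (ρ ∘ x i) := by
      funext i; refine Fin.cases ?_ (fun i => ?_) i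
      · simp
      · simp only [Fin.cons_succ, hw']; exact hsucc i
    rw [e1, e2, det_mulVec hSO (fun i => ρ ∘ x i), map_det, hd, sub_self]
  have hz3 : (B * E κ (r+1)).mulVec z = 0 := by
    rw [← Matrix.mulVec_mulVec]
    funext i
    change (B i) ⬝ᵥ (E κ (r+1) *ᵥ z) = 0
    rw [← hlorE]
    refine Fin.cases ?_ (fun i => ?_) i
    · exact hz2
    · rw [lor_comm]; exact hz1 i
  have hBE : (B * E κ (r+1)).det ≠ 0 := by
    rw [Matrix.det_mul, det_E]
    simpa using hB0
  have := Matrix.eq_zero_of_mulVec_eq_zero hBE hz3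
  exact sub_eq_zero.1 this


/-- real model of causal vectors in the right dimension, with prescribed sign of determinant -/
lemma real_model' {r : ℕ} (hr : 1 ≤ r)
    (u : Fin (r+1) → Fin (r+3) → ℝ) (hu : ∀ i, Cau (u i)) (hS : Fut (∑ i, u i)) (D : κ)
    (hD : ρ (W576.gram u).det = - D ^ 2) :
    ∃ x : Fin (r+1) → Fin (r+1) → ℝ, (∀ i, Cau (x i)) ∧ (∀ i j, lor (x i) (x j) = lor (u i) (u j)) ∧
      D = ρ (Matrix.of x).det := by
  set A : Matrix (Fin (r+1)) (Fin (r+1)) ℝ := 1 + Matrix.replicateCol Unit (fun _ => (1:ℝ)) *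
      Matrix.replicateRow Unit (fun _ => (1:ℝ)) with hAdef
  have e : ∀ M : Matrix (Fin (r+1)) (Fin (r+1)) ℝ, ∀ i j, (A * M) i j = M i j + ∑ k, M k j := by
    intro M i j
    rw [hAdef, add_mul, one_mul, Matrix.add_apply, Matrix.mul_apply]
    simp [Matrix.mul_apply]
  have e' : ∀ M : Matrix (Fin (r+1)) (Fin (r+1)) ℝ, ∀ i j, (M * A) i j = M i j + ∑ k, M i k := by
    intro M i j
    rw [hAdef, mul_add, mul_one, Matrix.add_apply, Matrix.mul_apply]
    simp [Matrix.mul_apply]
  have hgs : W576.gram (sh u) = A * W576.gram u * A := by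
    ext i j
    rw [e']
    simp only [e]
    change lor (sh u i) (sh u j) = _
    rw [lor_sh]
    simp only [Finset.sum_add_distrib]
    change _ = lor (u i) (u j) + ∑ k, lor (u k) (u j) + (∑ l, lor (u i) (u l) + ∑ l, ∑ k, lor (u k) (u l))
    rw [Finset.sum_comm (f := fun l k => lor (u k) (u l))]
    ring
  have hA : A.det = (r:ℝ) + 2 := by
    rw [hAdef, Matrix.det_one_add_replicateCol_mul_replicateRow]
    simp [dotProduct]
    ring
  have hgd : (W576.gram (sh u)).det = ((r:ℝ) + 2) ^ 2 * (W576.gram u).det := by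
    rw [hgs, Matrix.det_mul, Matrix.det_mul, hA]; ring
  have hr2 : ((r:ℝ) + 2) ≠ 0 := by positivity
  obtain ⟨X, hX, hXl, hXd⟩ := real_model ρ hr (sh u) (sh_fut u hu hS) (ρ ((r:ℝ)+2) * D) (by
    rw [hgd, map_mul, hD, map_pow]; ring)
  have hxl : ∀ i j, lor (X i - ((Fintype.card (Fin (r+1)) : ℝ) + 1)⁻¹ • ∑ j, X j)
      (X j - ((Fintype.card (Fin (r+1)) : ℝ) + 1)⁻¹ • ∑ j, X j) = lor (u i) (u j) := by
    intro i j
    have h1 : ∀ (d : ℕ) (U : Fin (r+1) → Fin d → ℝ) (c : ℝ) i j, lor (U i - c • ∑ j, U j) (U j - c • ∑ j, U j) =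
        lor (U i) (U j) - c * ∑ k, lor (U i) (U k) - c * ∑ k, lor (U k) (U j) +
          c * c * ∑ k, ∑ l, lor (U k) (U l) := by
      intro d U c i j
      have e1 : ∀ x y : Fin d → ℝ, x - y = x + (-1:ℝ) • y := by intro x y; simp [sub_eq_add_neg]
      rw [e1, e1]
      simp only [Pool.Agent.W31.Bel.lor_add_left, Pool.Agent.W31.Bel.lor_add_right,
        Pool.Agent.W31.Bel.lor_smul_left, Pool.Agent.W31.Bel.lor_smul_right]
      rw [lor_sum_sum, Pool.Agent.W31.Bel.lor_sum_left, Pool.Agent.W31.Bel.lor_comm' (U i) (∑ j, U j),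
        Pool.Agent.W31.Bel.lor_sum_left]
      simp only [Pool.Agent.W31.Bel.lor_comm' _ (U i)]
      ring
    rw [h1]
    conv_rhs => rw [unsh u i, unsh u j, h1]
    simp only [hXl]
  refine ⟨fun i => X i - ((Fintype.card (Fin (r+1)) : ℝ) + 1)⁻¹ • ∑ j, X j, fun i => ?_, hxl, ?_⟩
  · refine cau_of_lor (hX 0) ?_ (by rw [hxl]; exact (hu i).2)
    have h1 : X 0 = sh (fun i => X i - ((Fintype.card (Fin (r+1)) : ℝ) + 1)⁻¹ • ∑ j, X j) 0 :=
      (sh_unsh X 0).symm
    have h2 : lor (X i - ((Fintype.card (Fin (r+1)) : ℝ) + 1)⁻¹ • ∑ j, X j)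
        (sh (fun i => X i - ((Fintype.card (Fin (r+1)) : ℝ) + 1)⁻¹ • ∑ j, X j) 0) =
        lor (u i) (sh u 0) := by
      rw [lor_sh_right, lor_sh_right]
      simp only [hxl]
    rw [h1, h2]
    exact lor_neg_cau_fut (hu i) (sh_fut u hu hS 0)
  · have h1 := det_sh (fun i => X i - ((Fintype.card (Fin (r+1)) : ℝ) + 1)⁻¹ • ∑ j, X j)
    have h2 : sh (fun i => X i - ((Fintype.card (Fin (r+1)) : ℝ) + 1)⁻¹ • ∑ j, X j) = X := by
      funext i; exact sh_unsh X i
    rw [h2] at h1
    rw [h1, map_mul] at hXd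
    have h3 : ρ ((r:ℝ) + 2) ≠ 0 := by
      intro h; exact hr2 ((map_eq_zero ρ).1 h)
    have h4 : (((r + 1 : ℕ) : ℝ) + 1) = (r:ℝ) + 2 := by push_cast; ring
    rw [h4] at hXd
    exact mul_left_cancel₀ h3 hXd

end transport

end Pool.Agent.TH564
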