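import Pool.Agent.TH564.B13k

/-!
# Cycles of causal vectors over a big field have volume zero (second part)
-/

set_option linter.unusedSectionVars false

namespace Pool.Agent.TH564

open Pool.Agent.W576 MeasureTheory Matrix
open Pool.Agent.W378.B13

lemma alt_inj {n m : ℕ} (Z : (Fin n → Fin m) → ℤ)
    (hZalt : ∀ (τ : Fin n → Fin m) (π : Equiv.Perm (Fin n)),
      Z (τ ∘ π) = ((Equiv.Perm.sign π : ℤˣ) : ℤ) * Z τ)
    (τ : Fin n → Fin m) (hz : Z τ ≠ 0) : Function.Injective τ := by
  intro i j hij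
  by_contra hne
  apply hz
  have h1 := hZalt τ (Equiv.swap i j)
  have h2 : τ ∘ (Equiv.swap i j) = τ := by
    funext k
    simp only [Function.comp]
    by_cases hk : k = i
    · subst hk; rw [Equiv.swap_apply_left, hij]
    · by_cases hk2 : k = j
      · subst hk2; rw [Equiv.swap_apply_right, hij]
      · rw [Equiv.swap_apply_of_ne_of_ne hk hk2]
  rw [h2, Equiv.Perm.sign_swap hne] at h1
  simp at h1
  omega

lemma main_cone' {κ : Type*} [Field κ] (ρ : ℝ →+* κ) {r m : ℕ} (hr : 2 ≤ r)
    (v : Fin m → Fin (r+3) → ℝ) (hv : ∀ j, Cau (v j)) (w : Fin m → Fin (r+1) → κ)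
    (τ : Fin (r+1) → Fin m) (hneg : ∀ i j, i ≠ j → lor (v (τ i)) (v (τ j)) < 0)
    (hw : ∀ i j, lor (w (τ i)) (w (τ j)) = ρ (lor (v (τ i)) (v (τ j)))) :
    ρ (I0 (W576.gram fun i => v (τ i))) * (Matrix.of fun i => w (τ i)).det
      = ∑ i : Fin (r+1), (-1 : κ) ^ (i : ℕ) * Theta ρ v w (fun j => τ (i.succAbove j)) := by
  classical
  have hne : Nonempty (Fin r) := ⟨⟨0, by omega⟩⟩
  have h01 : ((⟨0, by omega⟩ : Fin r)) ≠ ⟨1, by omega⟩ := by simp
  have hgr : W576.gram (fun i => w (τ i)) = (W576.gram (fun i => v (τ i))).map ρ := by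
    ext i j; exact hw i j
  have hD : ρ (W576.gram (fun i => v (τ i))).det = - (Matrix.of fun i => w (τ i)).det ^ 2 := by
    rw [← det_gram, hgr, RingHom.map_det]; rfl
  have hSv : Fut (∑ i, v (τ i)) := fut_sum (fun i => v (τ i)) (fun i => hv _) 0 (Fin.last r)
    (hneg _ _ (by intro h; have := congrArg Fin.val h; simp at this; omega))
  obtain ⟨x, hxF, hxl, hxd⟩ := real_model' ρ (by omega) (fun i => v (τ i)) (fun i => hv _) hSv _ hD
  have hxn : ∀ i j, i ≠ j → lor (x i) (x j) < 0 := fun i j hij => by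
    rw [hxl]; exact hneg i j hij
  have hSf : ∀ f : Fin r → Fin (r+1), Function.Injective f → Fut (∑ j, x (f j)) := fun f hf =>
    fut_sum (fun j => x (f j)) (fun j => hxF _) _ _ (hxn _ _ (fun h => h01 (hf h)))
  have hSx : Fut (∑ i, x i) := fut_sum x hxF 0 (Fin.last r)
    (hxn _ _ (by intro h; have := congrArg Fin.val h; simp at this; omega))
  have hgx : W576.gram (fun i => v (τ i)) = W576.gram x := by
    ext i j; exact (hxl i j).symm
  -- independence
  have hind : ∀ q : Fin (r+1), LinearIndependent ℝ (fun j => v (τ (q.succAbove j))) ↔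
      LinearIndependent ℝ (fun j => x (q.succAbove j)) := by
    intro q
    have e1 := linInd_iff_gram_cau (fun j => v (τ (q.succAbove j)))
      (fut_sum (fun j => v (τ (q.succAbove j))) (fun j => hv _) _ _
        (hneg _ _ (fun h => h01 (Fin.succAbove_right_injective h))))
    have e2 := linInd_iff_gram_cau (fun j => x (q.succAbove j))
      (hSf _ Fin.succAbove_right_injective)
    rw [e1, e2]
    have : W576.gram (fun j => v (τ (q.succAbove j))) = W576.gram (fun j => x (q.succAbove j)) := by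
      ext i j; exact (hxl _ _).symm
    rw [this]
  by_cases hex : ∃ q : Fin (r+1), LinearIndependent ℝ (fun j => v (τ (q.succAbove j)))
  · obtain ⟨q, hq⟩ := hex
    -- transporting isometry
    have hP : ∃ P : Matrix (Fin (r+1)) (Fin (r+1)) κ, IsSO P ∧ ∀ i, w (τ i) = P.mulVec (ρ ∘ x i) := by
      set π : Equiv.Perm (Fin (r+1)) := (Fin.cycleRange q).symm with hπ
      have hπ0 : π 0 = q := by rw [hπ]; exact Fin.cycleRange_symm_zero q
      have hπs : ∀ j : Fin r, π j.succ = q.succAbove j := by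
        intro j; rw [hπ]; exact Fin.cycleRange_symm_succ q j
      have hgoal := exists_P' ρ (by omega) (fun i => x (π i))
        (hSf (fun i => π i.succ) (π.injective.comp (Fin.succ_injective _))) (fun i => w (τ (π i)))
        (fun i j => by rw [hw, hxl]) (by
          have e1 := det_perm π (fun i => w (τ i))
          have e2 := det_perm π x
          rw [e1, e2, hxd]; simp)
        (by
          have := (hind q).1 hq
          convert this using 2
          rename_i j
          simp only [hπs])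
      obtain ⟨P, hP, hPx⟩ := hgoal
      refine ⟨P, hP, fun i => ?_⟩
      have := hPx (π.symm i)
      simpa using this
    obtain ⟨P, hP, hPx⟩ := hP
    -- the common apex
    set o : Fin (r+1) → κ := Classical.epsilon (fun z => z ∈ {z | ∃ y : Fin (r+1) → ℝ, Fut y ∧ z = P.mulVec (ρ ∘ y)}) with ho
    have hoC : ∃ y : Fin (r+1) → ℝ, Fut y ∧ o = P.mulVec (ρ ∘ y) := by
      have : ∃ z, z ∈ {z | ∃ y : Fin (r+1) → ℝ, Fut y ∧ z = P.mulVec (ρ ∘ y)} :=
        ⟨P.mulVec (ρ ∘ (∑ i, x i)), ∑ i, x i, hSx, rfl⟩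
      exact Classical.epsilon_spec this
    obtain ⟨y, hy, hoy⟩ := hoC
    have hTh : ∀ i : Fin (r+1), Theta ρ v w (fun j => τ (i.succAbove j))
        = ρ (SV (Fin.cons y (fun j => x (i.succAbove j)) : Fin (r+1) → Fin (r+1) → ℝ)) := by
      intro i
      unfold Theta
      split_ifs with hi
      · have hi' := (hind i).1 hi
        have hCC : CC ρ (fun j => w (τ (i.succAbove j)))
            = {z | ∃ y : Fin (r+1) → ℝ, Fut y ∧ z = P.mulVec (ρ ∘ y)} := by
          have := CC_eq' ρ (by omega) hP (fun j => x (i.succAbove j)) (fun j => hxF _)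
            (hSf _ Fin.succAbove_right_injective) hi'
          rw [← this]
          congr 1
          funext j
          rw [hPx]
        rw [hCC, ← ho, hoy]
        have : (Fin.cons (P.mulVec (ρ ∘ y)) (fun j => w (τ (i.succAbove j))) :
            Fin (r+1) → Fin (r+1) → κ) = fun k => P.mulVec (ρ ∘ (Fin.cons y
              (fun j => x (i.succAbove j)) : Fin (r+1) → Fin (r+1) → ℝ) k) := by
          funext k
          refine Fin.cases ?_ (fun k => ?_) k
          · simp
          · simp only [Fin.cons_succ]; exact hPx _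
        rw [this, WW_eq ρ hP]
      · have hi' : ¬ LinearIndependent ℝ (fun j => x (i.succAbove j)) := fun h => hi ((hind i).2 h)
        have : (Matrix.of (Fin.cons y (fun j => x (i.succAbove j)) :
            Fin (r+1) → Fin (r+1) → ℝ)).det = 0 := by
          refine Matrix.det_eq_zero_of_not_linearIndependent_rows (fun h => hi' ?_)
          have h2 : LinearIndependent ℝ (Fin.cons y (fun j => x (i.succAbove j)) :
            Fin (r+1) → Fin (r+1) → ℝ) := h
          exact (linearIndependent_finCons.1 h2).1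
        unfold SV
        rw [this, zero_mul, map_zero]
    have hcoc := SV_cocycle_cau (b := r) hr
      (Fin.cons y x : Fin (r+2) → Fin (r+1) → ℝ) (by
        intro i
        refine Fin.cases ?_ (fun i => ?_) i
        · simpa using Cau.of_fut hy
        · simpa using hxF i) (by
        intro i j
        refine Fin.cases ?_ (fun i => ?_) i
        · refine Fin.cases ?_ (fun j => ?_) j
          · intro h; exact absurd rfl h
          · intro _; simpa using lor_neg_fut_cau hy (hxF j)
        · refine Fin.cases ?_ (fun j => ?_) j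
          · intro _; simpa using lor_neg_cau_fut (hxF i) hy
          · intro h; simpa using hxn i j (fun h' => h (by rw [h'])))
    rw [Fin.sum_univ_succ] at hcoc
    have e0 : (fun j : Fin (r+1) => (Fin.cons y x : Fin (r+2) → Fin (r+1) → ℝ)
        ((0 : Fin (r+2)).succAbove j)) = x := by
      funext j; simp
    have e1 : ∀ i : Fin (r+1), (fun j : Fin (r+1) => (Fin.cons y x : Fin (r+2) → Fin (r+1) → ℝ)
        (i.succ.succAbove j)) = (Fin.cons y (fun j => x (i.succAbove j)) :
          Fin (r+1) → Fin (r+1) → ℝ) := by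
      intro i
      funext j
      refine Fin.cases ?_ (fun j => ?_) j
      · simp
      · simp
    simp only [e0, e1, Fin.val_zero, pow_zero, one_mul, Fin.val_succ, pow_succ, mul_neg, mul_one,
      neg_mul, Finset.sum_neg_distrib] at hcoc
    have hSV : SV x = ∑ i : Fin (r+1), (-1 : ℝ) ^ (i : ℕ) *
        SV (Fin.cons y (fun j => x (i.succAbove j)) : Fin (r+1) → Fin (r+1) → ℝ) := by linarith
    have hL : ρ (I0 (W576.gram fun i => v (τ i))) * (Matrix.of fun i => w (τ i)).det = ρ (SV x) := by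
      rw [hgx, hxd]
      unfold SV
      rw [map_mul]; ring
    rw [hL, hSV, map_sum]
    refine Finset.sum_congr rfl (fun i _ => ?_)
    rw [hTh, map_mul, map_pow, map_neg, map_one]
  · push Not at hex
    have hL : (Matrix.of fun i => w (τ i)).det = 0 := by
      have h1 : ¬ LinearIndependent ℝ (fun i => v (τ i)) := by
        intro h
        refine hex 0 ?_
        exact h.comp _ (Fin.succAbove_right_injective)
      have h2 : (W576.gram (fun i => v (τ i))).det = 0 := by
        by_contra h3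
        exact h1 (linInd_of_gram _ h3)
      rw [h2, map_zero] at hD
      have : (Matrix.of fun i => w (τ i)).det ^ 2 = 0 := by
        have := hD.symm
        exact neg_eq_zero.1 this
      exact pow_eq_zero_iff (two_ne_zero) |>.1 this
    rw [hL, mul_zero]
    symm
    refine Finset.sum_eq_zero (fun i _ => ?_)
    unfold Theta
    rw [if_neg (hex i), mul_zero]

theorem cycle_vol_zero' {κ : Type} [Field κ] (ρ : ℝ →+* κ) {r m : ℕ} (hr : 2 ≤ r)
    (v : Fin m → Fin (r+3) → ℝ) (hv : ∀ j, Cau (v j))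
    (S : Set (Finset (Fin m))) (hneg : ∀ s ∈ S, ∀ i ∈ s, ∀ j ∈ s, i ≠ j → lor (v i) (v j) < 0) (V : Finset (Fin m)) (w : Fin m → Fin (r+1) → κ)
    (hw : ∀ s ∈ S, ∀ i ∈ s, ∀ j ∈ s, i ∈ V → j ∈ V → lor (w i) (w j) = ρ (lor (v i) (v j)))
    (Z : (Fin (r+1) → Fin m) → ℤ)
    (hZalt : ∀ (τ : Fin (r+1) → Fin m) (π : Equiv.Perm (Fin (r+1))),
      Z (τ ∘ π) = ((Equiv.Perm.sign π : ℤˣ) : ℤ) * Z τ)
    (hZS : ∀ τ, Z τ ≠ 0 → ∃ s ∈ S, ∀ i, τ i ∈ s)
    (hcyc : ∀ ε : Fin r → Fin m, (∀ i, ε i ∈ V) → LinearIndependent ℝ (fun i => v (ε i)) →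
      ∑ q ∈ V, Z (Fin.cons q ε) = 0) :
    ∑ τ ∈ (Finset.univ : Finset (Fin (r+1) → Fin m)).filter (fun τ => ∀ i, τ i ∈ V),
      (Z τ : κ) * ρ (I0 (W576.gram fun i => v (τ i))) * (Matrix.of fun i => w (τ i)).det = 0 := by
  classical
  -- step 1: replace by boundary sums
  have h1 : ∀ τ ∈ (Finset.univ : Finset (Fin (r+1) → Fin m)).filter (fun τ => ∀ i, τ i ∈ V),
      (Z τ : κ) * ρ (I0 (W576.gram fun i => v (τ i))) * (Matrix.of fun i => w (τ i)).det
      = ∑ i : Fin (r+1), (Z τ : κ) * ((-1 : κ) ^ (i : ℕ) * Theta ρ v w (fun j => τ (i.succAbove j))) := by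
    intro τ hτ
    rw [Finset.mem_filter] at hτ
    by_cases hz : Z τ = 0
    · simp [hz]
    · obtain ⟨s, hs, hτs⟩ := hZS τ hz
      have hinj := alt_inj Z hZalt τ hz
      rw [mul_assoc, main_cone' ρ hr v hv w τ
        (fun i j hij => hneg s hs _ (hτs i) _ (hτs j) (fun h => hij (hinj h)))
        (fun i j => hw s hs _ (hτs i) _ (hτs j) (hτ.2 i) (hτ.2 j)),
        Finset.mul_sum]
  rw [Finset.sum_congr rfl h1, Finset.sum_comm]
  refine Finset.sum_eq_zero (fun i _ => ?_)
  -- step 2: reindex by (q, ε)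
  have hZi : ∀ (q : Fin m) (ε : Fin r → Fin m),
      Z (i.insertNth q ε) = (-1) ^ (i : ℕ) * Z (Fin.cons q ε) := by
    intro q ε
    have e1 := hZalt (i.insertNth q ε) (Fin.cycleRange i).symm
    have e2 : (i.insertNth q ε : Fin (r+1) → Fin m) ∘ ((Fin.cycleRange i).symm : Fin (r+1) → Fin (r+1))
        = Fin.cons q ε := Fin.insertNth_comp_cycleRange_symm i q ε
    rw [e2] at e1
    have e3 : ((Equiv.Perm.sign (Fin.cycleRange i).symm : ℤˣ) : ℤ) = (-1) ^ (i : ℕ) := by
      rw [Equiv.Perm.sign_symm, Fin.sign_cycleRange]; simp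
    rw [e3] at e1
    rw [e1, ← mul_assoc, ← pow_add, ← two_mul, pow_mul]; simp
  let e : (Fin m × (Fin r → Fin m)) ≃ (Fin (r+1) → Fin m) := Fin.insertNthEquiv (fun _ => Fin m) i
  have he : ∀ p : Fin m × (Fin r → Fin m), e p = i.insertNth p.1 p.2 := fun p => rfl
  rw [Finset.sum_filter]
  rw [← Equiv.sum_comp e, Fintype.sum_prod_type_right]
  refine Finset.sum_eq_zero (fun ε _ => ?_)
  have h2 : ∀ q : Fin m, (if ∀ k, e (q, ε) k ∈ V then
      (Z (e (q, ε)) : κ) * ((-1 : κ) ^ (i : ℕ) * Theta ρ v w (fun j => e (q, ε) (i.succAbove j))) else 0)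
      = if (∀ k, ε k ∈ V) then (if q ∈ V then (Z (Fin.cons q ε) : κ) * Theta ρ v w ε else 0) else 0 := by
    intro q
    have hc : (∀ k, e (q, ε) k ∈ V) ↔ (q ∈ V ∧ ∀ k, ε k ∈ V) := by
      rw [he]
      constructor
      · intro h
        refine ⟨by simpa using h i, fun k => by simpa using h (i.succAbove k)⟩
      · rintro ⟨h1, h2⟩ k
        rcases Fin.eq_self_or_eq_succAbove i k with h | ⟨j, h⟩
        · rw [h]; simpa using h1
        · rw [h]; simpa using h2 j
    by_cases hq : q ∈ V <;> by_cases hε : ∀ k, ε k ∈ V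
    · rw [if_pos (hc.2 ⟨hq, hε⟩), if_pos hε, if_pos hq]
      have e4 : (fun j => e (q, ε) (i.succAbove j)) = ε := by
        funext j; rw [he]; simp
      rw [e4, he, hZi]
      push_cast
      have : ((-1 : κ) ^ (i : ℕ)) * (-1) ^ (i : ℕ) = 1 := by
        rw [← pow_add, ← two_mul, pow_mul]; simp
      linear_combination (Z (Fin.cons q ε) : κ) * Theta ρ v w ε * this
    · rw [if_neg (fun h => hε (hc.1 h).2), if_neg hε]
    · rw [if_neg (fun h => hq (hc.1 h).1), if_pos hε, if_neg hq]
    · rw [if_neg (fun h => hε (hc.1 h).2), if_neg hε]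
  rw [Finset.sum_congr rfl (fun q _ => h2 q)]
  by_cases hε : ∀ k, ε k ∈ V
  · simp only [if_pos hε]
    rw [← Finset.sum_filter, Finset.filter_mem_eq_inter, Finset.univ_inter, ← Finset.sum_mul]
    by_cases hli : LinearIndependent ℝ (fun k => v (ε k))
    · have := hcyc ε hε hli
      have h3 : (∑ q ∈ V, (Z (Fin.cons q ε) : κ)) = 0 := by exact_mod_cast congrArg (Int.cast : ℤ → κ) this
      rw [h3, zero_mul]
    · unfold Theta
      rw [if_neg hli, mul_zero]
  · simp only [if_neg hε, Finset.sum_const_zero]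


end Pool.Agent.TH564
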