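import Pool.Agent.W576.Bellows

/-!
# Causal vectors and Witt type lemmas for causal families
-/

set_option linter.unusedSectionVars false

namespace Pool.Agent.TH564

open Pool.Agent.W576 Pool.Agent.W31.Bel

section basic

variable {d : ℕ}

/-- future causal vectors -/
def Cau (x : Fin (d + 1) → ℝ) : Prop := 0 < x 0 ∧ lor x x ≤ 0

lemma Cau.of_fut {x : Fin (d + 1) → ℝ} (h : Fut x) : Cau x := ⟨h.1, h.2.le⟩

lemma cau_iff (x : Fin (d+1) → ℝ) : Cau x ↔ 0 < x 0 ∧ ∑ i : Fin d, x i.succ ^ 2 ≤ x 0 ^ 2 := by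
  unfold Cau
  rw [Pool.Agent.W378.B13.lor_succ]
  have : ∑ i : Fin d, x i.succ * x i.succ = ∑ i : Fin d, x i.succ ^ 2 :=
    Finset.sum_congr rfl (fun i _ => by ring)
  rw [this]
  constructor
  · rintro ⟨h1, h2⟩; exact ⟨h1, by nlinarith⟩
  · rintro ⟨h1, h2⟩; exact ⟨h1, by nlinarith⟩

lemma lor_nonpos {x y : Fin (d+1) → ℝ} (hx : Cau x) (hy : Cau y) : lor x y ≤ 0 := by
  rw [cau_iff] at hx hy
  rw [Pool.Agent.W378.B13.lor_succ]
  have h := Pool.Agent.W378.B13.cs x y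
  obtain ⟨hx0, hx1⟩ := hx
  obtain ⟨hy0, hy1⟩ := hy
  have hA : 0 ≤ ∑ i : Fin d, x i.succ ^ 2 := Finset.sum_nonneg (fun i _ => sq_nonneg _)
  have hB : 0 ≤ ∑ i : Fin d, y i.succ ^ 2 := Finset.sum_nonneg (fun i _ => sq_nonneg _)
  have h1 : (∑ i : Fin d, x i.succ * y i.succ)^2 ≤ (x 0 * y 0)^2 := by
    calc _ ≤ _ := h
      _ ≤ x 0 ^ 2 * y 0 ^ 2 := mul_le_mul hx1 hy1 hB (by positivity)
      _ = _ := by ring
  have h2 := abs_le_of_sq_le_sq h1 (by positivity)
  linarith [(abs_le.1 h2).2]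

lemma lor_neg_fut_cau {x y : Fin (d+1) → ℝ} (hx : Fut x) (hy : Cau y) : lor x y < 0 := by
  have hx' := (Pool.Agent.W378.B13.fut_iff x).1 hx
  rw [cau_iff] at hy
  rw [Pool.Agent.W378.B13.lor_succ]
  have h := Pool.Agent.W378.B13.cs x y
  obtain ⟨hx0, hx1⟩ := hx'
  obtain ⟨hy0, hy1⟩ := hy
  have hA : 0 ≤ ∑ i : Fin d, x i.succ ^ 2 := Finset.sum_nonneg (fun i _ => sq_nonneg _)
  have hB : 0 ≤ ∑ i : Fin d, y i.succ ^ 2 := Finset.sum_nonneg (fun i _ => sq_nonneg _)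
  have h1 : (∑ i : Fin d, x i.succ * y i.succ)^2 < (x 0 * y 0)^2 := by
    calc _ ≤ _ := h
      _ ≤ (∑ i : Fin d, x i.succ ^ 2) * y 0 ^ 2 := mul_le_mul_of_nonneg_left hy1 hA
      _ < x 0 ^ 2 * y 0 ^ 2 := by
          have : 0 < y 0 ^ 2 := by positivity
          exact mul_lt_mul_of_pos_right hx1 this
      _ = _ := by ring
  have h2 := abs_lt_of_sq_lt_sq h1 (by positivity)
  linarith [(abs_lt.1 h2).2]

lemma lor_neg_cau_fut {x y : Fin (d+1) → ℝ} (hx : Cau x) (hy : Fut y) : lor x y < 0 := by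
  rw [lor_comm']; exact lor_neg_fut_cau hy hx

lemma Cau.add_fut {x y : Fin (d+1) → ℝ} (hx : Cau x) (hy : Fut y) : Fut (x + y) := by
  refine ⟨add_pos hx.1 hy.1, ?_⟩
  rw [lor_add_left, lor_add_right, lor_add_right, lor_comm' y x]
  have h1 := lor_neg_cau_fut hx hy
  have h2 := hx.2
  have h3 := hy.2
  linarith

lemma Cau.add {x y : Fin (d+1) → ℝ} (hx : Cau x) (hy : Cau y) : Cau (x + y) := by
  refine ⟨add_pos hx.1 hy.1, ?_⟩
  rw [lor_add_left, lor_add_right, lor_add_right, lor_comm' y x]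
  have h1 := lor_nonpos hx hy
  have h2 := hx.2
  have h3 := hy.2
  linarith

lemma Cau.smul {x : Fin (d+1) → ℝ} (hx : Cau x) {c : ℝ} (hc : 0 < c) : Cau (c • x) := by
  refine ⟨by simpa using mul_pos hc hx.1, ?_⟩
  rw [lor_smul_left, lor_smul_right]
  have := hx.2
  nlinarith [mul_pos hc hc]

/-- a causal vector whose product with a future timelike vector is negative is future -/
lemma cau_of_lor {x y : Fin (d+1) → ℝ} (hx : Fut x) (h1 : lor y x < 0) (h2 : lor y y ≤ 0) :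
    Cau y := by
  refine ⟨?_, h2⟩
  by_contra hneg
  push Not at hneg
  rcases hneg.lt_or_eq with h0 | h0
  · have hy : Cau (-y) := by
      refine ⟨by simpa using h0, ?_⟩
      have : lor (-y) (-y) = lor y y := by simp [lor]
      rw [this]; exact h2
    have h3 := lor_neg_cau_fut hy hx
    have h4 : lor (-y) x = - lor y x := by simp [lor]
    rw [h4] at h3
    linarith
  · rw [Pool.Agent.W378.B13.lor_succ, h0] at h2
    have h3 : ∑ i : Fin d, y i.succ * y i.succ ≤ 0 := by linarith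
    have h4 := (Finset.sum_eq_zero_iff_of_nonneg
      (fun i _ => mul_self_nonneg (y (Fin.succ i)))).1 (le_antisymm h3
        (Finset.sum_nonneg (fun i _ => mul_self_nonneg _)))
    have h5 : y = 0 := by
      funext i
      refine Fin.cases h0 (fun i => ?_) i
      have := h4 i (Finset.mem_univ _)
      simpa using this
    rw [h5] at h1
    simp [lor] at h1

lemma sum_pos0 {ι : Type*} [Fintype ι] [Nonempty ι] (u : ι → Fin (d+1) → ℝ)
    (hu : ∀ i, Cau (u i)) : 0 < (∑ i, u i) 0 := by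
  rw [Finset.sum_apply]
  exact Finset.sum_pos (fun i _ => (hu i).1) Finset.univ_nonempty

lemma lor_sum_sum {R : Type*} [CommRing R] {ι : Type*} [Fintype ι] {d : ℕ}
    (u v : ι → Fin d → R) :
    lor (∑ i, u i) (∑ j, v j) = ∑ i, ∑ j, lor (u i) (v j) := by
  rw [lor_sum_left]
  refine Finset.sum_congr rfl (fun i _ => ?_)
  rw [lor_comm', lor_sum_left]
  exact Finset.sum_congr rfl (fun j _ => lor_comm' _ _)

/-- the sum of a causal family with a negative product is timelike -/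
lemma fut_sum {ι : Type*} [Fintype ι] (u : ι → Fin (d+1) → ℝ)
    (hu : ∀ i, Cau (u i)) (i j : ι) (h : lor (u i) (u j) < 0) : Fut (∑ i, u i) := by
  have : Nonempty ι := ⟨i⟩
  refine ⟨sum_pos0 u hu, ?_⟩
  rw [lor_sum_sum]
  have h1 : ∑ k, ∑ l, lor (u k) (u l) ≤ ∑ l, lor (u i) (u l) := by
    classical
    rw [← Finset.add_sum_erase _ _ (Finset.mem_univ i)]
    have h3 : ∑ k ∈ Finset.univ.erase i, ∑ l, lor (u k) (u l) ≤ 0 :=
      Finset.sum_nonpos (fun k _ => Finset.sum_nonpos (fun l _ => lor_nonpos (hu k) (hu l)))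
    linarith
  have h2 : ∑ l, lor (u i) (u l) ≤ lor (u i) (u j) := by
    classical
    rw [← Finset.add_sum_erase _ _ (Finset.mem_univ j)]
    have h3 : ∑ l ∈ Finset.univ.erase j, lor (u i) (u l) ≤ 0 :=
      Finset.sum_nonpos (fun l _ => lor_nonpos (hu i) (hu l))
    linarith
  linarith

lemma fut_sum_of_gram {ι : Type*} [Fintype ι] [Nonempty ι] (u v : ι → Fin (d+1) → ℝ)
    (hu : Fut (∑ i, u i)) (hv : ∀ i, Cau (v i)) (h : ∀ i j, lor (u i) (u j) = lor (v i) (v j)) :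
    Fut (∑ i, v i) := by
  refine ⟨sum_pos0 v hv, ?_⟩
  have h1 := hu.2
  rw [lor_sum_sum] at h1 ⊢
  simp only [h] at h1
  exact h1

/-- Gram determinant of an independent family whose span contains a timelike vector -/
lemma gram_det_ne' {ι : Type*} [Fintype ι] [DecidableEq ι] (u : ι → Fin (d + 1) → ℝ)
    (b : ι → ℝ) (hb : Fut (∑ i, b i • u i)) (hli : LinearIndependent ℝ u) :
    (gram u).det ≠ 0 := by
  intro h0
  obtain ⟨c, hc, hc0⟩ := Matrix.exists_mulVec_eq_zero_iff.2 h0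
  set w : Fin (d + 1) → ℝ := ∑ i, c i • u i with hw
  have h1 : ∀ i, lor w (u i) = 0 := by
    intro i
    have h2 := congrFun hc0 i
    simp only [Matrix.mulVec, dotProduct, gram, Pi.zero_apply] at h2
    rw [hw, lor_sum_left, ← h2]
    refine Finset.sum_congr rfl (fun j _ => ?_)
    rw [lor_smul_left, lor_comm' (u j)]; ring
  have h2 : ∀ e : ι → ℝ, lor w (∑ i, e i • u i) = 0 := by
    intro e
    rw [lor_comm', lor_sum_left]
    refine Finset.sum_eq_zero (fun i _ => ?_)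
    rw [lor_smul_left, lor_comm', h1, mul_zero]
  have hw0 : w = 0 := Pool.Agent.W378.B13.eq_zero_of_orth hb (h2 b) (by
    have := h2 c
    rw [← hw] at this
    exact this.le)
  exact hc (funext (Fintype.linearIndependent_iff.1 hli c hw0))

lemma gram_det_ne_cau {ι : Type*} [Fintype ι] [DecidableEq ι] (u : ι → Fin (d + 1) → ℝ)
    (hb : Fut (∑ i, u i)) (hli : LinearIndependent ℝ u) :
    (gram u).det ≠ 0 :=
  gram_det_ne' u (fun _ => 1) (by simpa using hb) hli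

lemma linInd_iff_gram_cau {ι : Type*} [Fintype ι] [DecidableEq ι]
    (u : ι → Fin (d+1) → ℝ) (hb : Fut (∑ i, u i)) :
    LinearIndependent ℝ u ↔ (gram u).det ≠ 0 :=
  ⟨gram_det_ne_cau u hb, Pool.Agent.W378.B13.linInd_of_gram u⟩

end basic

section shift

variable {d : ℕ} {ι : Type*} [Fintype ι]

/-- the shifted family -/
def sh {M : Type*} [AddCommMonoid M] (u : ι → M) (i : ι) : M := u i + ∑ j, u j

lemma sh_fut (u : ι → Fin (d+1) → ℝ) (hu : ∀ i, Cau (u i)) (hS : Fut (∑ i, u i)) (i : ι) :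
    Fut (sh u i) := (hu i).add_fut hS

lemma lor_sh {R : Type*} [CommRing R] {d : ℕ} (u : ι → Fin d → R) (i j : ι) :
    lor (sh u i) (sh u j) = lor (u i) (u j) + ∑ k, lor (u i) (u k) + ∑ k, lor (u k) (u j) +
      ∑ k, ∑ l, lor (u k) (u l) := by
  unfold sh
  rw [lor_add_left, lor_add_right, lor_add_right, lor_sum_sum, lor_sum_left,
    lor_comm' (u i) (∑ j, u j), lor_sum_left]
  simp only [lor_comm' _ (u i)]
  ring

lemma lor_sh_right {R : Type*} [CommRing R] {d : ℕ} (z : Fin d → R) (u : ι → Fin d → R) (i : ι) :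
    lor z (sh u i) = lor z (u i) + ∑ k, lor z (u k) := by
  unfold sh
  rw [lor_add_right, lor_comm' z (∑ j, u j), lor_sum_left]
  simp only [lor_comm' _ z]

lemma lor_sh_eq {R : Type*} [CommRing R] {d e : ℕ} (u : ι → Fin d → R) (v : ι → Fin e → R)
    (h : ∀ i j, lor (u i) (u j) = lor (v i) (v j)) (i j : ι) :
    lor (sh u i) (sh u j) = lor (sh v i) (sh v j) := by
  rw [lor_sh, lor_sh]; simp only [h]

lemma sum_sh (u : ι → Fin d → ℝ) : ∑ i, sh u i = ((Fintype.card ι : ℝ) + 1) • ∑ i, u i := by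
  unfold sh
  rw [Finset.sum_add_distrib, Finset.sum_const, Finset.card_univ, add_smul, one_smul,
    ← Nat.cast_smul_eq_nsmul ℝ]
  rw [add_comm]

lemma unsh (u : ι → Fin d → ℝ) (i : ι) :
    u i = sh u i - ((Fintype.card ι : ℝ) + 1)⁻¹ • ∑ j, sh u j := by
  have h : ((Fintype.card ι : ℝ) + 1) ≠ 0 := by positivity
  rw [sum_sh, smul_smul, inv_mul_cancel₀ h, one_smul]
  unfold sh; simp

/-- the shift of the unshifted family -/
lemma sh_unsh (U : ι → Fin d → ℝ) (i : ι) :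
    sh (fun i => U i - ((Fintype.card ι : ℝ) + 1)⁻¹ • ∑ j, U j) i = U i := by
  have h : ((Fintype.card ι : ℝ) + 1) ≠ 0 := by positivity
  unfold sh
  rw [Finset.sum_sub_distrib, Finset.sum_const, Finset.card_univ,
    ← Nat.cast_smul_eq_nsmul ℝ, smul_smul]
  have h2 : (∑ j, U j) - ((Fintype.card ι : ℝ) * ((Fintype.card ι : ℝ) + 1)⁻¹) • ∑ j, U j =
      ((Fintype.card ι : ℝ) + 1)⁻¹ • ∑ j, U j := by
    conv_lhs => rw [← one_smul ℝ (∑ j, U j), smul_smul, ← sub_smul]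
    congr 1
    field_simp
    ring
  rw [h2, sub_add_cancel]

lemma mulVec_sum' {n m : ℕ} (g : Matrix (Fin n) (Fin m) ℝ) (u : ι → Fin m → ℝ) :
    g.mulVec (∑ i, u i) = ∑ i, g.mulVec (u i) := by
  rw [← Matrix.mulVecLin_apply, map_sum]; rfl

end shift

lemma witt_cau {n : ℕ} {ι : Type} [Fintype ι] [Nonempty ι] (hc : Fintype.card ι < n + 1)
    (u v : ι → Fin (n+1) → ℝ) (hu : ∀ i, Cau (u i)) (hv : ∀ i, Cau (v i))
    (hS : Fut (∑ i, u i)) (h : ∀ i j, lor (u i) (u j) = lor (v i) (v j)) :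
    ∃ g : Matrix (Fin (n+1)) (Fin (n+1)) ℝ, IsSO g ∧ 0 < g 0 0 ∧ ∀ i, g.mulVec (u i) = v i := by
  have hSv := fut_sum_of_gram u v hS hv h
  obtain ⟨g, hg, g0, hgs⟩ := Pool.Agent.W867.witt hc (sh u) (sh v) (sh_fut u hu hS)
    (sh_fut v hv hSv) (lor_sh_eq u v h)
  refine ⟨g, hg, g0, fun i => ?_⟩
  rw [unsh u i, unsh v i, Matrix.mulVec_sub, Matrix.mulVec_smul, mulVec_sum', hgs]
  simp only [hgs]

lemma pad_sub {b N : ℕ} (x y : Fin b → ℝ) :
    (pad (x - y) : Fin N → ℝ) = pad x - pad y := by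
  funext i; simp only [pad, Pi.sub_apply]; split_ifs <;> simp

lemma pad_smul {b N : ℕ} (c : ℝ) (x : Fin b → ℝ) :
    (pad (c • x) : Fin N → ℝ) = c • pad x := by
  funext i; simp only [pad, Pi.smul_apply, smul_eq_mul]; split_ifs <;> simp

lemma pad_sum {b N : ℕ} {ι : Type*} [Fintype ι] (x : ι → Fin b → ℝ) :
    (pad (∑ i, x i) : Fin N → ℝ) = ∑ i, pad (x i) := by
  funext k
  rw [Finset.sum_apply]
  simp only [pad]
  split_ifs
  · rw [Finset.sum_apply]
  · simp

/-- determinant of the shifted square family -/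
lemma det_sh {b : ℕ} (x : Fin b → Fin b → ℝ) :
    (Matrix.of (sh x)).det = ((b : ℝ) + 1) * (Matrix.of x).det := by
  have h : Matrix.of (sh x) = (1 + Matrix.replicateCol Unit (fun _ => (1:ℝ)) *
      Matrix.replicateRow Unit (fun _ => (1:ℝ))) * Matrix.of x := by
    ext i j
    rw [add_mul, one_mul, Matrix.add_apply, Matrix.mul_apply]
    simp [sh, Matrix.mul_apply, Finset.sum_apply]
  rw [h, Matrix.det_mul, Matrix.det_one_add_replicateCol_mul_replicateRow]
  congr 1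
  simp [dotProduct]
  ring

lemma linInd_sh {d : ℕ} {ι : Type*} [Fintype ι] (u : ι → Fin d → ℝ)
    (h : LinearIndependent ℝ u) : LinearIndependent ℝ (sh u) := by
  classical
  rw [Fintype.linearIndependent_iff] at h ⊢
  intro g hg i
  have h1 : ∑ i, (g i + ∑ j, g j) • u i = 0 := by
    rw [← hg]
    unfold sh
    simp only [add_smul, smul_add, Finset.sum_add_distrib]
    congr 1
    rw [← Finset.smul_sum, ← Finset.sum_smul]
  have h2 := h _ h1
  have h3 : ∑ j, g j = 0 := by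
    have h4 : ∑ i, (g i + ∑ j, g j) = 0 := Finset.sum_eq_zero (fun i _ => h2 i)
    rw [Finset.sum_add_distrib, Finset.sum_const, nsmul_eq_mul] at h4
    have h5 : ((Finset.card (Finset.univ : Finset ι) : ℝ) + 1) * ∑ j, g j = 0 := by linarith
    rcases mul_eq_zero.1 h5 with h6 | h6
    · have : (0:ℝ) < (Finset.card (Finset.univ : Finset ι) : ℝ) + 1 := by positivity
      linarith
    · exact h6
  have h4 := h2 i
  rw [h3, add_zero] at h4
  exact h4

lemma witt_pad_basis_cau {b n : ℕ} (hb2 : 2 ≤ b) (hb : b < n + 1) (u : Fin b → Fin (n+1) → ℝ)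
    (hu : ∀ i, Cau (u i)) (hS : Fut (∑ i, u i)) (hli : LinearIndependent ℝ u) :
    ∃ g : Matrix (Fin (n+1)) (Fin (n+1)) ℝ, IsSO g ∧ 0 < g 0 0 ∧
      ∃ x : Fin b → Fin b → ℝ, (∀ i, u i = g.mulVec (pad (x i))) ∧ 0 < (Matrix.of x).det := by
  obtain ⟨g, hg, g0, X, hX, hXd⟩ := Pool.Agent.W867.witt_pad_basis hb2 hb (sh u) (sh_fut u hu hS)
    (linInd_sh u hli)
  refine ⟨g, hg, g0, fun i => X i - ((Fintype.card (Fin b) : ℝ) + 1)⁻¹ • ∑ j, X j, ?_, ?_⟩
  · intro i
    rw [pad_sub, pad_smul, pad_sum, Matrix.mulVec_sub, Matrix.mulVec_smul, mulVec_sum', ← hX i]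
    simp only [← hX]
    exact unsh u i
  · have h1 := det_sh (fun i => X i - ((Fintype.card (Fin b) : ℝ) + 1)⁻¹ • ∑ j, X j)
    have h2 : sh (fun i => X i - ((Fintype.card (Fin b) : ℝ) + 1)⁻¹ • ∑ j, X j) = X := by
      funext i; exact sh_unsh X i
    rw [h2] at h1
    rw [h1] at hXd
    exact (pos_iff_pos_of_mul_pos hXd).1 (by positivity)

end Pool.Agent.TH564
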