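import Pool.Agent.TH564.I0c

/-!
# Cocycle identity for causal vectors
-/

set_option linter.unusedSectionVars false

namespace Pool.Agent.TH564

open MeasureTheory Filter Topology Set
open Pool.Agent.W576 Pool.Agent.W31.Bel

section pert

variable {d : ℕ}

/-- the time vector -/
def ee {d : ℕ} : Fin (d + 1) → ℝ := Pi.single 0 1

lemma fut_ee : Fut (ee : Fin (d+1) → ℝ) := fut_e0

lemma lor_ee (x : Fin (d+1) → ℝ) : lor ee x = - x 0 := by
  unfold ee; rw [lor_succ]; simp

lemma gram_pert {ι : Type*} (y : ι → Fin (d+1) → ℝ) (ε : ℝ) (i j : ι) :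
    gram (fun i => y i + ε • ee) i j = lor (y i) (y j) - ε * (y i 0 + y j 0) - ε ^ 2 := by
  unfold gram
  rw [lor_add_left, lor_add_right, lor_add_right, lor_smul_left, lor_smul_left, lor_smul_right,
    lor_smul_right, lor_comm' (y i) ee, lor_ee, lor_ee, lor_ee]
  simp [ee]; ring

lemma Cau.pert {x : Fin (d+1) → ℝ} (hx : Cau x) {ε : ℝ} (hε : 0 < ε) : Fut (x + ε • ee) := by
  refine hx.add_fut ⟨by simp [ee, hε], ?_⟩
  rw [lor_smul_left, lor_smul_right, lor_ee]
  simp only [ee, Pi.single_eq_same]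
  nlinarith [mul_pos hε hε]

lemma Cau.pert' {x : Fin (d+1) → ℝ} (hx : Cau x) {ε : ℝ} (hε : 0 ≤ ε) : Cau (x + ε • ee) := by
  rcases hε.lt_or_eq with h | h
  · exact Cau.of_fut (hx.pert h)
  · rw [← h]; simpa using hx

end pert

lemma exists_off_delta {ι : Type*} [Finite ι] (M : Matrix ι ι ℝ) (hn : ∀ i j, i ≠ j → M i j < 0) :
    ∃ δ : ℝ, 0 < δ ∧ ∀ i j, i ≠ j → M i j ≤ -δ := by
  classical
  have := Fintype.ofFinite ι
  obtain ⟨δ, hδ, h⟩ := exists_delta (fun i j => if i = j then -1 else M i j) (fun i j => by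
    by_cases hij : i = j
    · simp [hij]
    · simp [hij, hn i j hij])
  refine ⟨δ, hδ, fun i j hij => ?_⟩
  have := h i j
  simpa [hij] using this

lemma tendsto_SV_pert {a : ℕ} (ha : 2 ≤ a) (v : Fin (a+1) → Fin (a+1) → ℝ) (hv : ∀ i, Cau (v i))
    (hn : ∀ i j, i ≠ j → lor (v i) (v j) < 0) :
    Tendsto (fun ε : ℝ => SV (fun i => v i + ε • ee)) (𝓝[>] 0) (𝓝 (SV v)) := by
  obtain ⟨δ, hδ, h⟩ := exists_off_delta (fun i j => lor (v i) (v j)) hn
  unfold SV
  refine Tendsto.mul ?_ ?_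
  · have h1 : Continuous (fun ε : ℝ => (Matrix.of (fun i => v i + ε • ee)).det) := by
      apply Continuous.matrix_det
      refine continuous_matrix (fun i j => ?_)
      simp only [Matrix.of_apply, Pi.add_apply, Pi.smul_apply, smul_eq_mul]
      fun_prop
    have h2 := (h1.tendsto 0).mono_left (nhdsWithin_le_nhds (s := Ioi 0))
    simpa using h2
  · refine tendsto_I0 (by simpa using by omega) _ _ hδ ?_ ?_ ?_
    · filter_upwards [self_mem_nhdsWithin] with ε hε i j hij
      have hε' : (0:ℝ) < ε := hε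
      rw [gram_pert]
      have h1 := h i j hij
      have h2 := (hv i).1
      have h3 := (hv j).1
      nlinarith [mul_pos hε' h2, mul_pos hε' h3, sq_nonneg ε]
    · filter_upwards [self_mem_nhdsWithin] with ε hε i
      have hε' : (0:ℝ) < ε := hε
      rw [gram_pert]
      have h1 := (hv i).2
      have h2 := (hv i).1
      nlinarith [mul_pos hε' h2, sq_nonneg ε]
    · intro i j
      simp only [gram_pert]
      have h1 : Continuous (fun ε : ℝ => lor (v i) (v j) - ε * (v i 0 + v j 0) - ε ^ 2) := by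
        fun_prop
      have h2 := (h1.tendsto 0).mono_left (nhdsWithin_le_nhds (s := Ioi 0))
      simpa [gram] using h2

theorem SV_cocycle_cau {b : ℕ} (hb : 2 ≤ b) (x : Fin (b+2) → Fin (b+1) → ℝ)
    (hx : ∀ i, Cau (x i)) (hn : ∀ i j, i ≠ j → lor (x i) (x j) < 0) :
    ∑ i : Fin (b+2), (-1 : ℝ) ^ (i : ℕ) * SV (fun j => x (i.succAbove j)) = 0 := by
  have h1 : Tendsto (fun ε : ℝ => ∑ i : Fin (b+2), (-1 : ℝ) ^ (i : ℕ) *
      SV (fun j => x (i.succAbove j) + ε • ee)) (𝓝[>] 0)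
      (𝓝 (∑ i : Fin (b+2), (-1 : ℝ) ^ (i : ℕ) * SV (fun j => x (i.succAbove j)))) := by
    refine tendsto_finsetSum _ (fun i _ => Tendsto.const_mul _ ?_)
    refine tendsto_SV_pert hb (fun j => x (i.succAbove j)) (fun j => hx _) (fun j k hjk => ?_)
    exact hn _ _ (fun h => hjk (Fin.succAbove_right_injective h))
  have h2 : Tendsto (fun ε : ℝ => ∑ i : Fin (b+2), (-1 : ℝ) ^ (i : ℕ) *
      SV (fun j => x (i.succAbove j) + ε • ee)) (𝓝[>] 0) (𝓝 0) := by
    refine tendsto_const_nhds.congr' ?_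
    filter_upwards [self_mem_nhdsWithin] with ε hε
    exact (SV_cocycle (fun i => x i + ε • ee) (fun i => (hx i).pert hε)).symm
  exact tendsto_nhds_unique h1 h2

end Pool.Agent.TH564
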