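import Pool.Agent.TH564.LB

/-!
# The pairing of a skew matrix with two vectors in dimension four
-/

set_option linter.unusedSectionVars false

namespace Pool.Agent.TH564

open MeasureTheory Filter Topology Set Pool.Agent.W576 Pool.Agent.W31.Bel

/-- the pairing of a matrix with two vectors -/
noncomputable def D2 (X : Matrix (Fin (1+3)) (Fin (1+3)) ℝ) (a b : Fin (1+3) → ℝ) : ℝ :=
  Delta (a := 1+1) X ![a, b]

lemma Delta_eq_D2 (X : Matrix (Fin (1+3)) (Fin (1+3)) ℝ) (f : Fin (1+1) → Fin (1+3) → ℝ) :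
    Delta (a := 1+1) X f = D2 X (f 0) (f 1) := by
  unfold D2
  congr 1
  funext i
  fin_cases i <;> rfl

lemma cons_det4 {R : Type*} [CommRing R] (a b x y : Fin 4 → R) :
    (Matrix.of (Fin.cons a (Fin.cons b ![x, y]) : Fin 4 → Fin 4 → R)).det =
    (a 0 * b 1 - a 1 * b 0) * (x 2 * y 3 - x 3 * y 2) - (a 0 * b 2 - a 2 * b 0) * (x 1 * y 3 - x 3 * y 1)
    + (a 0 * b 3 - a 3 * b 0) * (x 1 * y 2 - x 2 * y 1) + (a 1 * b 2 - a 2 * b 1) * (x 0 * y 3 - x 3 * y 0)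
    - (a 1 * b 3 - a 3 * b 1) * (x 0 * y 2 - x 2 * y 0) + (a 2 * b 3 - a 3 * b 2) * (x 0 * y 1 - x 1 * y 0) := by
  simp [Matrix.det_succ_row_zero, Fin.sum_univ_succ, Fin.succAbove]
  ring

lemma D2_swap (X : Matrix (Fin (1+3)) (Fin (1+3)) ℝ) (a b : Fin (1+3) → ℝ) :
    D2 X b a = - D2 X a b := by
  unfold D2 Delta
  rw [← mul_neg, ← Finset.sum_neg_distrib]
  congr 1
  refine Finset.sum_congr rfl (fun k _ => ?_)
  rw [← mul_neg]
  congr 1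
  refine (cons_det4 _ _ _ _).trans (Eq.trans ?_ (congrArg Neg.neg (cons_det4 _ _ _ _).symm))
  ring

lemma D2_sub (X Y : Matrix (Fin (1+3)) (Fin (1+3)) ℝ) (a b : Fin (1+3) → ℝ) :
    D2 (X - Y) a b = D2 X a b - D2 Y a b := by
  unfold D2 Delta
  rw [← mul_sub, ← Finset.sum_sub_distrib]
  congr 1
  refine Finset.sum_congr rfl (fun k _ => ?_)
  rw [← mul_sub]
  congr 1
  refine (cons_det4 _ _ _ _).trans (Eq.trans ?_ (congrArg₂ (fun x y => x - y)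
    (cons_det4 _ _ _ _).symm (cons_det4 _ _ _ _).symm))
  simp only [Matrix.sub_mulVec, Pi.sub_apply]
  ring

lemma D2_null {X : Matrix (Fin (1+3)) (Fin (1+3)) ℝ}
    (hX : ∀ x y, lor (X.mulVec x) y = - lor x (X.mulVec y)) {y : Fin (1+3) → ℝ}
    (hy : X.mulVec y = 0) (hyy : lor y y = 0) (z z' : Fin (1+3) → ℝ) :
    D2 X y z' * lor z y = D2 X y z * lor z' y := by
  have h := skew_key (a := 1+1) ![y, z, z'] X hX y
  rw [hy] at h
  have h0 : (Matrix.of (Fin.cons (0 : Fin (1+3) → ℝ) ![y, z, z'] :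
      Fin (1+3) → Fin (1+3) → ℝ)).det = 0 := by
    apply Matrix.det_eq_zero_of_row_eq_zero 0
    intro j
    simp
  rw [Fin.sum_univ_three] at h
  have e0 : (Matrix.of (Fin.cons (0 : Fin (1+3) → ℝ) ![y, z, z'] :
      Fin (1+1+2) → Fin (1+1+2) → ℝ)).det = 0 := h0
  rw [e0, Delta_eq_D2, Delta_eq_D2, Delta_eq_D2] at h
  have s1 : (![y, z, z'] : Fin (1+1+1) → Fin (1+3) → ℝ) ((1 : Fin (1+1+1)).succAbove 0) = y := rfl
  have s2 : (![y, z, z'] : Fin (1+1+1) → Fin (1+3) → ℝ) ((1 : Fin (1+1+1)).succAbove 1) = z' := rfl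
  have s3 : (![y, z, z'] : Fin (1+1+1) → Fin (1+3) → ℝ) ((2 : Fin (1+1+1)).succAbove 0) = y := rfl
  have s4 : (![y, z, z'] : Fin (1+1+1) → Fin (1+3) → ℝ) ((2 : Fin (1+1+1)).succAbove 1) = z := rfl
  have t0 : (![y, z, z'] : Fin (1+1+1) → Fin (1+3) → ℝ) 0 = y := rfl
  have t1 : (![y, z, z'] : Fin (1+1+1) → Fin (1+3) → ℝ) 1 = z := rfl
  have t2 : (![y, z, z'] : Fin (1+1+1) → Fin (1+3) → ℝ) 2 = z' := rfl
  rw [s1, s2, s3, s4, t0, t1, t2, hyy] at h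
  have v0 : ((0 : Fin (1+1+1)) : ℕ) = 0 := rfl
  have v1 : ((1 : Fin (1+1+1)) : ℕ) = 1 := rfl
  have v2 : ((2 : Fin (1+1+1)) : ℕ) = 2 := rfl
  rw [v1, v2] at h
  linarith

end Pool.Agent.TH564
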