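import Pool.Agent.TH564.Sym

/-!
# Steinberg relations and the flag identity
-/

set_option linter.unusedSectionVars false

namespace Pool.Agent.TH564

open Pool.Agent.W576 Pool.Agent.W31.Bel

namespace Sym

variable {K : Type} [Field K] [Algebra ℂ K] (S : Sym K)

lemma o_one : S.o 1 = 0 := by
  have := S.o_c 1 one_ne_zero; rwa [map_one] at this

lemma l_one : S.l 1 = 0 := by
  have := S.l_c 1 one_ne_zero
  rw [map_one] at this
  rw [this]; simp

lemma o_neg {x : K} (hx : x ≠ 0) : S.o (-x) = S.o x := by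
  have h1 := S.o_c (-1) (by simp)
  rw [map_neg, map_one] at h1
  have h2 := S.o_mul (-1) x (by simp) hx
  rw [h1, zero_add] at h2
  rw [← h2]; ring_nf

lemma l_neg {x : K} (hx : x ≠ 0) : S.l (-x) = S.l x := by
  have h1 := S.l_c (-1) (by simp)
  rw [map_neg, map_one] at h1
  have h2 := S.l_mul (-1) x (by simp) hx
  rw [h1] at h2
  simp only [norm_neg, norm_one, Real.log_one, zero_add] at h2
  rw [← h2]; ring_nf

lemma o_inv {x : K} (hx : x ≠ 0) : S.o x⁻¹ = - S.o x := by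
  have := S.o_mul x x⁻¹ hx (inv_ne_zero hx)
  rw [mul_inv_cancel₀ hx, S.o_one] at this
  linarith

lemma l_inv {x : K} (hx : x ≠ 0) : S.l x⁻¹ = - S.l x := by
  have := S.l_mul x x⁻¹ hx (inv_ne_zero hx)
  rw [mul_inv_cancel₀ hx, S.l_one] at this
  linarith

lemma o_div {x y : K} (hx : x ≠ 0) (hy : y ≠ 0) : S.o (x / y) = S.o x - S.o y := by
  rw [div_eq_mul_inv, S.o_mul _ _ hx (inv_ne_zero hy), S.o_inv hy]; ring

lemma l_div {x y : K} (hx : x ≠ 0) (hy : y ≠ 0) : S.l (x / y) = S.l x - S.l y := by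
  rw [div_eq_mul_inv, S.l_mul _ _ hx (inv_ne_zero hy), S.l_inv hy]; ring

lemma o_real {x : ℝ} (hx : x ≠ 0) : S.o (reHom K x) = 0 := by
  have h := S.o_c (x : ℂ) (by exact_mod_cast hx)
  exact h

lemma l_real {x : ℝ} (hx : x ≠ 0) : S.l (reHom K x) = Real.log x := by
  have h := S.l_c (x : ℂ) (by exact_mod_cast hx)
  rw [Complex.norm_real, Real.norm_eq_abs, Real.log_abs] at h
  exact h

/-- Steinberg relation -/
lemma st' {a b c : K} (ha : a ≠ 0) (hb : b ≠ 0) (hc : c ≠ 0) (h : a + b = c) :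
    (S.o b - S.o c) * (S.l a - S.l c) = (S.o a - S.o c) * (S.l b - S.l c) := by
  have := S.st (a / c) (b / c) (div_ne_zero ha hc) (div_ne_zero hb hc) (by
    rw [← add_div, h, div_self hc])
  rwa [S.o_div ha hc, S.o_div hb hc, S.l_div ha hc, S.l_div hb hc] at this

lemma flag_tl {a b γ δ : K} (ha : a ≠ 0) (hb : b ≠ 0) (hγ : γ ≠ 0) (hδ : δ ≠ 0)
    (hM : γ - δ ≠ 0) (hp : γ + δ ≠ 0) (hP : a * γ + b * δ ≠ 0) (hP' : a * δ + b * γ ≠ 0)
    (hL : a + b ≠ 0) :
    (S.o γ - S.o δ) * (S.l a - S.l b) - (S.o a - S.o b) * (S.l γ - S.l δ) +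
      ((S.o (a * γ + b * δ) - S.o (a * δ + b * γ)) *
        (2 * S.l (γ - δ) + S.l a + S.l b - S.l γ - S.l δ - 2 * S.l (a + b)) -
      (2 * S.o (γ - δ) + S.o a + S.o b - S.o γ - S.o δ - 2 * S.o (a + b)) *
        (S.l (a * γ + b * δ) - S.l (a * δ + b * γ))) = 0 := by
  have h1 := S.st' (a := δ * (a * δ + b * γ)) (b := a * ((γ - δ) * (γ + δ)))
    (c := γ * (a * γ + b * δ)) (mul_ne_zero hδ hP') (mul_ne_zero ha (mul_ne_zero hM hp))
    (mul_ne_zero hγ hP) (by ring)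
  have h2 := S.st' (a := δ * (a * γ + b * δ)) (b := b * ((γ - δ) * (γ + δ)))
    (c := γ * (a * δ + b * γ)) (mul_ne_zero hδ hP) (mul_ne_zero hb (mul_ne_zero hM hp))
    (mul_ne_zero hγ hP') (by ring)
  have h3 := S.st' (a := a * γ + b * δ) (b := a * δ + b * γ)
    (c := (a + b) * (γ + δ)) hP hP' (mul_ne_zero hL hp) (by ring)
  rw [S.o_mul _ _ hδ hP', S.o_mul _ _ ha (mul_ne_zero hM hp), S.o_mul _ _ hM hp,
    S.o_mul _ _ hγ hP, S.l_mul _ _ hδ hP', S.l_mul _ _ ha (mul_ne_zero hM hp), S.l_mul _ _ hM hp,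
    S.l_mul _ _ hγ hP] at h1
  rw [S.o_mul _ _ hδ hP, S.o_mul _ _ hb (mul_ne_zero hM hp), S.o_mul _ _ hM hp,
    S.o_mul _ _ hγ hP', S.l_mul _ _ hδ hP, S.l_mul _ _ hb (mul_ne_zero hM hp), S.l_mul _ _ hM hp,
    S.l_mul _ _ hγ hP'] at h2
  rw [S.o_mul _ _ hL hp, S.l_mul _ _ hL hp] at h3
  linear_combination h1 - h2 - 2 * h3

lemma flag_nl {γ δ : K} (hγ : γ ≠ 0) (hδ : δ ≠ 0) (hM : γ - δ ≠ 0) :
    (S.o γ - S.o δ) * (2 * S.l (γ - δ) - S.l γ - S.l δ) -
      (2 * S.o (γ - δ) - S.o γ - S.o δ) * (S.l γ - S.l δ) = 0 := by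
  have h1 := S.st' (a := δ) (b := γ - δ) (c := γ) hδ hM hγ (by ring)
  linear_combination 2 * h1

end Sym

/-- logarithm of the weight of a vertex on a line, in null coordinates -/
noncomputable def lE (p q : ℝ) : ℝ :=
  if q = 0 then 2 * Real.log p else if p = 0 then -(2 * Real.log q) else Real.log p - Real.log q

lemma lE_diff {p0 q0 p1 q1 : ℝ} (hd : 0 < p1 * q0 - p0 * q1) (h0 : 0 ≤ p0 * q0) (h1 : 0 ≤ p1 * q1)
    (hb : 0 ≤ p0 * q1 + q0 * p1) :
    lE p1 q1 - lE p0 q0 = 2 * Real.log (p1 * q0) - Real.log (p0 * q0) - Real.log (p1 * q1) := by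
  have hpq : 0 < p1 * q0 := by nlinarith
  have hp1 : p1 ≠ 0 := by rintro rfl; simp at hpq
  have hq0 : q0 ≠ 0 := by rintro rfl; simp at hpq
  rw [Real.log_mul hp1 hq0]
  unfold lE
  rw [if_neg hq0]
  by_cases hq1 : q1 = 0
  · rw [if_pos hq1, hq1]
    by_cases hp0 : p0 = 0
    · rw [if_pos hp0, hp0]; simp; ring
    · rw [if_neg hp0, Real.log_mul hp0 hq0]; simp; ring
  · rw [if_neg hq1, if_neg hp1, Real.log_mul hp1 hq1]
    by_cases hp0 : p0 = 0
    · rw [if_pos hp0, hp0]; simp; ring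
    · rw [if_neg hp0, Real.log_mul hp0 hq0]; ring

section flag

variable {K : Type} [Field K] [Algebra ℂ K] (S : Sym K)

/-- the flag identity in null coordinates -/
lemma flag_id {p q : ℝ} {α β γ δ m : K} (hpq : p ≠ 0 ∨ q ≠ 0)
    (hα : α ≠ 0) (hβ : β ≠ 0) (hγ : γ ≠ 0) (hδ : δ ≠ 0) (hM : γ - δ ≠ 0)
    (hp : γ + δ ≠ 0) (hnull : γ * δ = 4 * (α * β)) (hm : γ - δ = m * (2 * II K))
    (hP : reHom K p * α * γ + reHom K q * β * δ ≠ 0)
    (hP' : reHom K p * α * δ + reHom K q * β * γ ≠ 0)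
    (hL : reHom K p * α + reHom K q * β ≠ 0) :
    lE p q * (S.o γ - S.o δ) +
      ((S.o γ - S.o δ) * (S.l α - S.l β) - (S.o α - S.o β) * (S.l γ - S.l δ)) +
      ((S.o (reHom K p * α * γ + reHom K q * β * δ) -
          S.o (reHom K p * α * δ + reHom K q * β * γ)) *
        (2 * S.l m + (Real.log (p * q) - 2 * S.l (reHom K p * α + reHom K q * β))) -
      (2 * S.o m + (- 2 * S.o (reHom K p * α + reHom K q * β))) *
        (S.l (reHom K p * α * γ + reHom K q * β * δ) -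
          S.l (reHom K p * α * δ + reHom K q * β * γ))) = 0 := by
  have h2I : (2 : ℂ) * Complex.I ≠ 0 := by simp
  have e2I : (2 * II K : K) = algebraMap ℂ K (2 * Complex.I) := by
    unfold II; rw [map_mul, map_ofNat]
  have h2I' : (2 * II K : K) ≠ 0 := by rw [e2I]; exact (map_ne_zero _).2 h2I
  have hm0 : m ≠ 0 := by rintro rfl; rw [zero_mul] at hm; exact hM hm
  have om : S.o (γ - δ) = S.o m := by
    rw [hm, S.o_mul _ _ hm0 h2I', e2I, S.o_c _ h2I, add_zero]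
  have lm : S.l (γ - δ) = S.l m + Real.log 2 := by
    rw [hm, S.l_mul _ _ hm0 h2I', e2I, S.l_c _ h2I]; simp
  have h4 : (4 : K) = reHom K 4 := by rw [map_ofNat]
  have h40 : (4 : K) ≠ 0 := by rw [h4]; exact (map_ne_zero _).2 (by norm_num)
  have on : S.o γ + S.o δ = S.o α + S.o β := by
    rw [← S.o_mul _ _ hγ hδ, hnull, S.o_mul _ _ h40 (mul_ne_zero hα hβ), S.o_mul _ _ hα hβ, h4,
      S.o_real (by norm_num), zero_add]
  have ln : S.l γ + S.l δ = 2 * Real.log 2 + S.l α + S.l β := by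
    rw [← S.l_mul _ _ hγ hδ, hnull, S.l_mul _ _ h40 (mul_ne_zero hα hβ), S.l_mul _ _ hα hβ, h4,
      S.l_real (by norm_num)]
    have : Real.log 4 = 2 * Real.log 2 := by
      rw [show (4:ℝ) = 2 ^ 2 by norm_num, Real.log_pow]; simp
    rw [this]; ring
  have hnl := S.flag_nl hγ hδ hM
  unfold lE
  by_cases hq : q = 0
  · have hp0 : p ≠ 0 := by rcases hpq with h | h; exact h; exact absurd hq h
    have hrp : reHom K p ≠ 0 := (map_ne_zero _).2 hp0
    rw [if_pos hq, hq]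
    simp only [map_zero, zero_mul, add_zero, mul_zero, Real.log_zero]
    rw [S.o_mul _ _ (mul_ne_zero hrp hα) hγ, S.o_mul _ _ (mul_ne_zero hrp hα) hδ,
      S.l_mul _ _ (mul_ne_zero hrp hα) hγ, S.l_mul _ _ (mul_ne_zero hrp hα) hδ,
      S.o_mul _ _ hrp hα, S.l_mul _ _ hrp hα, S.o_real hp0, S.l_real hp0]
    rw [om, lm] at hnl
    have on' : S.o β = S.o γ + S.o δ - S.o α := by linarith
    have ln' : S.l β = S.l γ + S.l δ - 2 * Real.log 2 - S.l α := by linarith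
    rw [on', ln']
    linear_combination hnl
  · rw [if_neg hq]
    have hrq : reHom K q ≠ 0 := (map_ne_zero _).2 hq
    by_cases hp0 : p = 0
    · rw [if_pos hp0, hp0]
      simp only [map_zero, zero_mul, zero_add, Real.log_zero]
      rw [S.o_mul _ _ (mul_ne_zero hrq hβ) hγ, S.o_mul _ _ (mul_ne_zero hrq hβ) hδ,
        S.l_mul _ _ (mul_ne_zero hrq hβ) hγ, S.l_mul _ _ (mul_ne_zero hrq hβ) hδ,
        S.o_mul _ _ hrq hβ, S.l_mul _ _ hrq hβ, S.o_real hq, S.l_real hq]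
      rw [om, lm] at hnl
      have on' : S.o α = S.o γ + S.o δ - S.o β := by linarith
      have ln' : S.l α = S.l γ + S.l δ - 2 * Real.log 2 - S.l β := by linarith
      rw [on', ln']
      linear_combination -hnl
    · rw [if_neg hp0]
      have hrp : reHom K p ≠ 0 := (map_ne_zero _).2 hp0
      have h := S.flag_tl (mul_ne_zero hrp hα) (mul_ne_zero hrq hβ) hγ hδ hM hp hP hP' hL
      rw [om, lm, S.o_mul _ _ hrp hα, S.l_mul _ _ hrp hα, S.o_mul _ _ hrq hβ, S.l_mul _ _ hrq hβ,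
        S.o_real hp0, S.l_real hp0, S.o_real hq, S.l_real hq] at h
      rw [Real.log_mul hp0 hq]
      linear_combination h + (S.o (reHom K p * α * γ + reHom K q * β * δ) -
          S.o (reHom K p * α * δ + reHom K q * β * γ)) * ln -
        (S.l (reHom K p * α * γ + reHom K q * β * δ) -
          S.l (reHom K p * α * δ + reHom K q * β * γ)) * on

end flag

end Pool.Agent.TH564
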