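import Pool.Agent.TH564.Null4

/-!
# The flag identity in a frame
-/

set_option linter.unusedSectionVars false

namespace Pool.Agent.TH564

open Pool.Agent.W576 Pool.Agent.W31.Bel

section ff

variable {K : Type} [Field K] [Algebra ℂ K] (S : Sym K)

/-- the function of a simplex and of one of its vertices -/
noncomputable def fbA (u : K) (V N : Fin 4 → K) (n : ℝ) : ℝ :=
  (S.o (br (ov u) (wv u) V N) - S.o (br (ov u) (wv' u) V N)) *
    (2 * S.l (lor N (ov u)) + Real.log n - 2 * S.l (lor V (ov u))) -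
  (2 * S.o (lor N (ov u)) - 2 * S.o (lor V (ov u))) *
    (S.l (br (ov u) (wv u) V N) - S.l (br (ov u) (wv' u) V N))

/-- the function of an edge -/
noncomputable def ttA (u : K) (V0 V1 : Fin 4 → K) (n0 n1 : ℝ) : ℝ :=
  (S.o (br (ov u) (wv' u) V0 V1) - S.o (br (ov u) (wv u) V0 V1)) *
    (Real.log n1 - 2 * S.l (lor V1 (ov u)) - Real.log n0 + 2 * S.l (lor V0 (ov u))) +
  (2 * S.o (lor V1 (ov u)) - 2 * S.o (lor V0 (ov u))) *
    (S.l (br (ov u) (wv' u) V0 V1) - S.l (br (ov u) (wv u) V0 V1))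

lemma br_Z (u : K) (V N : Fin 4 → K) : br (ov u) (wv u) V N * br (ov u) (wv' u) V N =
    lor V (ov u) ^ 2 * lor N N - 2 * lor V (ov u) * lor N (ov u) * lor V N +
      lor N (ov u) ^ 2 * lor V V := by
  set Z : Fin 4 → K := lor V (ov u) • N - lor N (ov u) • V with hZ
  have e : ∀ y, lor Z y = lor V (ov u) * lor N y - lor N (ov u) * lor V y := by
    intro y
    rw [hZ]
    simp only [lor4, Pi.sub_apply, Pi.smul_apply, smul_eq_mul]
    ring
  have h0 : lor Z (ov u) = 0 := by rw [e]; ring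
  have h1 := lor_ZZ Z u h0
  rw [e (wv u), e (wv' u), e Z, Pool.Agent.W365.ConfRot.lor_comm N Z,
    Pool.Agent.W365.ConfRot.lor_comm V Z, e, e, Pool.Agent.W365.ConfRot.lor_comm N V] at h1
  unfold br
  linear_combination -h1

lemma pl_ov_wv (u : K) : pl (ov u) (wv u) 0 1 = -(2 * u) := by
  unfold pl ov wv; simp; ring

lemma pl_ov_wv' (u : K) : pl (ov u) (wv' u) 0 1 = -(2 * u ^ 2) := by
  unfold pl ov wv'; simp; ring

/-- one vertex -/
lemma flag_vertex {p q A B : ℝ} {α β γ0 δ0 m d d' Ab Ab' : K} (hpq : p ≠ 0 ∨ q ≠ 0)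
    (hAB : A ^ 2 + B ^ 2 = 1)
    (hα : α ≠ 0) (hβ : β ≠ 0) (hγ : γ0 ≠ 0) (hδ : δ0 ≠ 0)
    (hnull : γ0 * δ0 = 4 * (α * β))
    (hm : m = reHom K A * ((γ0 + δ0) / 2) + reHom K B * ((γ0 - δ0) / (2 * II K)))
    (hm0 : m ≠ 0)
    (hp0 : reHom K B * ((γ0 + δ0) / 2) - reHom K A * ((γ0 - δ0) / (2 * II K)) ≠ 0)
    (hL : reHom K p * α + reHom K q * β ≠ 0)
    (hA : 2 * II K * Ab = d * (reHom K p * α * ((reHom K B + II K * reHom K A) * γ0) +
      reHom K q * β * ((reHom K B - II K * reHom K A) * δ0)))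
    (hA' : 2 * II K * Ab' = d' * (reHom K p * α * ((reHom K B - II K * reHom K A) * δ0) +
      reHom K q * β * ((reHom K B + II K * reHom K A) * γ0)))
    (hA0 : Ab ≠ 0) (hA0' : Ab' ≠ 0) :
    d ≠ 0 ∧ d' ≠ 0 ∧ lE p q * (S.o γ0 - S.o δ0) +
      ((S.o γ0 - S.o δ0) * (S.l α - S.l β) - (S.o α - S.o β) * (S.l γ0 - S.l δ0)) +
      ((S.o Ab - S.o Ab' - S.o d + S.o d') *
        (2 * S.l m + (Real.log (p * q) - 2 * S.l (reHom K p * α + reHom K q * β))) -
      (2 * S.o m + (- 2 * S.o (reHom K p * α + reHom K q * β))) *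
        (S.l Ab - S.l Ab' - S.l d + S.l d')) = 0 := by
  have hI := II_mul (K := K)
  have hI0 := II_ne (K := K)
  have h2 := two_ne (K := K)
  set ω : K := reHom K B + II K * reHom K A with hω
  set ω' : K := reHom K B - II K * reHom K A with hω'
  have hAB' : reHom K A ^ 2 + reHom K B ^ 2 = 1 := by
    rw [← map_pow, ← map_pow, ← map_add, hAB, map_one]
  have hωω : ω * ω' = 1 := by
    rw [hω, hω']; linear_combination hAB' - reHom K A ^ 2 * hI
  have hω0 : ω ≠ 0 := left_ne_zero_of_mul_eq_one hωω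
  have hω0' : ω' ≠ 0 := right_ne_zero_of_mul_eq_one hωω
  -- the rotated numbers
  have eω : ω = algebraMap ℂ K ((B : ℂ) + Complex.I * (A : ℂ)) := by
    rw [hω, map_add, map_mul]; rfl
  have eω' : ω' = algebraMap ℂ K ((B : ℂ) - Complex.I * (A : ℂ)) := by
    rw [hω', map_sub, map_mul]; rfl
  have nω : ‖(B : ℂ) + Complex.I * (A : ℂ)‖ = 1 := by
    rw [mul_comm, Complex.norm_add_mul_I, add_comm, hAB, Real.sqrt_one]
  have nω' : ‖(B : ℂ) - Complex.I * (A : ℂ)‖ = 1 := by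
    have h1 : (B : ℂ) - Complex.I * (A : ℂ) = (B : ℂ) + ((-A : ℝ) : ℂ) * Complex.I := by
      push_cast; ring
    rw [h1, Complex.norm_add_mul_I, neg_sq, add_comm, hAB, Real.sqrt_one]
  have oω : S.o ω = 0 := by
    rw [eω]; apply S.o_c; intro h0; rw [h0] at nω; simp at nω
  have oω' : S.o ω' = 0 := by
    rw [eω']; apply S.o_c; intro h0; rw [h0] at nω'; simp at nω'
  have lω : S.l ω = 0 := by
    rw [eω, S.l_c _ (by intro h0; rw [h0] at nω; simp at nω), nω, Real.log_one]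
  have lω' : S.l ω' = 0 := by
    rw [eω', S.l_c _ (by intro h0; rw [h0] at nω'; simp at nω'), nω', Real.log_one]
  have oγ : S.o (ω * γ0) = S.o γ0 := by rw [S.o_mul _ _ hω0 hγ, oω, zero_add]
  have oδ : S.o (ω' * δ0) = S.o δ0 := by rw [S.o_mul _ _ hω0' hδ, oω', zero_add]
  have lγ : S.l (ω * γ0) = S.l γ0 := by rw [S.l_mul _ _ hω0 hγ, lω, zero_add]
  have lδ : S.l (ω' * δ0) = S.l δ0 := by rw [S.l_mul _ _ hω0' hδ, lω', zero_add]
  have hmm : ω * γ0 - ω' * δ0 = m * (2 * II K) := by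
    rw [hm, hω, hω']
    field_simp
    linear_combination 0 * hI
  have hpp : ω * γ0 + ω' * δ0 =
      2 * (reHom K B * ((γ0 + δ0) / 2) - reHom K A * ((γ0 - δ0) / (2 * II K))) := by
    rw [hω, hω']
    field_simp
    linear_combination (reHom K A * (γ0 - δ0)) * hI
  have h2I : 2 * II K ≠ 0 := mul_ne_zero h2 hI0
  have hd : d ≠ 0 := by
    rintro rfl; rw [zero_mul] at hA; exact mul_ne_zero h2I hA0 hA
  have hd' : d' ≠ 0 := by
    rintro rfl; rw [zero_mul] at hA'; exact mul_ne_zero h2I hA0' hA'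
  have hP : reHom K p * α * (ω * γ0) + reHom K q * β * (ω' * δ0) ≠ 0 := by
    intro h0; rw [h0, mul_zero] at hA; exact mul_ne_zero h2I hA0 hA
  have hP' : reHom K p * α * (ω' * δ0) + reHom K q * β * (ω * γ0) ≠ 0 := by
    intro h0; rw [h0, mul_zero] at hA'; exact mul_ne_zero h2I hA0' hA'
  have key := flag_id S hpq hα hβ (mul_ne_zero hω0 hγ) (mul_ne_zero hω0' hδ)
    (by rw [hmm]; exact mul_ne_zero hm0 h2I) (by rw [hpp]; exact mul_ne_zero h2 hp0)
    (by linear_combination hnull + (γ0 * δ0) * hωω) hmm hP hP' hL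
  rw [oγ, oδ, lγ, lδ] at key
  have oA := congrArg S.o hA
  have oA' := congrArg S.o hA'
  have lA := congrArg S.l hA
  have lA' := congrArg S.l hA'
  rw [S.o_mul _ _ h2I hA0, S.o_mul _ _ hd hP] at oA
  rw [S.o_mul _ _ h2I hA0', S.o_mul _ _ hd' hP'] at oA'
  rw [S.l_mul _ _ h2I hA0, S.l_mul _ _ hd hP] at lA
  rw [S.l_mul _ _ h2I hA0', S.l_mul _ _ hd' hP'] at lA'
  refine ⟨hd, hd', ?_⟩
  have e1 : S.o (reHom K p * α * (ω * γ0) + reHom K q * β * (ω' * δ0)) -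
      S.o (reHom K p * α * (ω' * δ0) + reHom K q * β * (ω * γ0)) =
      S.o Ab - S.o Ab' - S.o d + S.o d' := by linarith
  have e2 : S.l (reHom K p * α * (ω * γ0) + reHom K q * β * (ω' * δ0)) -
      S.l (reHom K p * α * (ω' * δ0) + reHom K q * β * (ω * γ0)) =
      S.l Ab - S.l Ab' - S.l d + S.l d' := by linarith
  rw [e1, e2] at key
  exact key

lemma exists_mu {a b : Fin 4 → K} (h : SDl (II K) a b) (h1 : a 1 - a 0 ≠ 0) (h2 : a 0 + a 1 ≠ 0) :
    ∃ μ1 μ2 : K, b 1 - b 0 = μ1 * (a 1 - a 0) ∧ b 0 + b 1 = μ2 * (a 0 + a 1) ∧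
      b 2 + II K * b 3 = μ2 * (a 2 + II K * a 3) ∧ b 2 - II K * b 3 = μ1 * (a 2 - II K * a 3) := by
  obtain ⟨r1, r2, r3⟩ := h.rel
  have hI := II_mul (K := K)
  unfold pl at r1 r2 r3
  refine ⟨(b 1 - b 0) / (a 1 - a 0), (b 0 + b 1) / (a 0 + a 1), by field_simp, by field_simp, ?_, ?_⟩
  · rw [div_mul_eq_mul_div, eq_div_iff h2]
    linear_combination r2 + II K * r3 + (a 1 * b 2 - a 2 * b 1) * hI
  · rw [div_mul_eq_mul_div, eq_div_iff h1]
    linear_combination -r2 + II K * r3 + (a 1 * b 2 - a 2 * b 1) * hI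

lemma exists_mu' {a b : Fin 4 → K} (h : SDl (-II K) a b) (h1 : a 1 - a 0 ≠ 0)
    (h2 : a 0 + a 1 ≠ 0) :
    ∃ μ1 μ2 : K, b 1 - b 0 = μ1 * (a 1 - a 0) ∧ b 0 + b 1 = μ2 * (a 0 + a 1) ∧
      b 2 + II K * b 3 = μ1 * (a 2 + II K * a 3) ∧ b 2 - II K * b 3 = μ2 * (a 2 - II K * a 3) := by
  obtain ⟨r1, r2, r3⟩ := h.rel
  have hI := II_mul (K := K)
  unfold pl at r1 r2 r3
  refine ⟨(b 1 - b 0) / (a 1 - a 0), (b 0 + b 1) / (a 0 + a 1), by field_simp, by field_simp, ?_, ?_⟩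
  · rw [div_mul_eq_mul_div, eq_div_iff h1]
    linear_combination -r2 - II K * r3 + (a 1 * b 2 - a 2 * b 1) * hI
  · rw [div_mul_eq_mul_div, eq_div_iff h2]
    linear_combination r2 - II K * r3 + (a 1 * b 2 - a 2 * b 1) * hI

lemma exists_mulVec {F : Matrix (Fin 4) (Fin 4) K} (hF : IsSO F) (y : Fin 4 → K) :
    ∃ a, F.mulVec a = y := by
  refine ⟨F⁻¹.mulVec y, ?_⟩
  rw [Matrix.mulVec_mulVec, Matrix.mul_nonsing_inv _ (by rw [hF.2]; exact isUnit_one),
    Matrix.one_mulVec]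

lemma frame_flag {F : Matrix (Fin 4) (Fin 4) K} (hF : IsSO F) {u : K}
    (x : Fin 2 → Fin 2 → ℝ) (hx : x 0 0 * x 1 1 - x 0 1 * x 1 0 ≠ 0)
    {A B : ℝ} (hAB : A ^ 2 + B ^ 2 = 1)
    (V : Fin 2 → Fin 4 → K) (hV : ∀ i, V i = F.mulVec ![reHom K (x i 0), reHom K (x i 1), 0, 0])
    (N : Fin 4 → K) (hN : N = F.mulVec ![0, 0, reHom K A, reHom K B])
    (g1 : lor (F.mulVec ![1, 1, 0, 0]) (ov u) ≠ 0)
    (g2 : lor (F.mulVec ![1, -1, 0, 0]) (ov u) ≠ 0)
    (g3 : lor (F.mulVec ![0, 0, 1, II K]) (ov u) ≠ 0)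
    (g4 : lor (F.mulVec ![0, 0, 1, -II K]) (ov u) ≠ 0)
    (g5 : lor N (ov u) ≠ 0)
    (g6 : lor (F.mulVec ![0, 0, reHom K B, -reHom K A]) (ov u) ≠ 0)
    (g7 : ∀ i, lor (V i) (ov u) ≠ 0)
    (gA : ∀ i, br (ov u) (wv u) (V i) N ≠ 0) (gA' : ∀ i, br (ov u) (wv' u) (V i) N ≠ 0) :
    (lE (x 1 0 + x 1 1) (x 1 0 - x 1 1) - lE (x 0 0 + x 0 1) (x 0 0 - x 0 1)) *
      (S.o (lor (F.mulVec ![0, 0, 1, II K]) (ov u)) -
        S.o (lor (F.mulVec ![0, 0, 1, -II K]) (ov u))) +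
      (fbA S u (V 1) N ((x 1 0 + x 1 1) * (x 1 0 - x 1 1)) -
        fbA S u (V 0) N ((x 0 0 + x 0 1) * (x 0 0 - x 0 1))) +
      ttA S u (V 0) (V 1) ((x 0 0 + x 0 1) * (x 0 0 - x 0 1))
        ((x 1 0 + x 1 1) * (x 1 0 - x 1 1)) = 0 := by
  have hI := II_mul (K := K)
  have hI0 := II_ne (K := K)
  have h2 := two_ne (K := K)
  obtain ⟨a, ha⟩ := exists_mulVec hF (ov u)
  obtain ⟨b, hb⟩ := exists_mulVec hF (wv u)
  obtain ⟨b', hb'⟩ := exists_mulVec hF (wv' u)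
  have hab : SDl (II K) a b := by
    apply SDl.frame hF; rw [ha, hb]; exact SDl_wv u
  have hab' : SDl (-II K) a b' := by
    apply SDl.frame hF; rw [ha, hb']; exact SDl_wv' u
  have e1 : a 1 - a 0 ≠ 0 := by
    rw [← ha, hF.1, lor4] at g1
    simp at g1
    intro h; apply g1; linear_combination h
  have e2 : a 0 + a 1 ≠ 0 := by
    rw [← ha, hF.1, lor4] at g2
    simp at g2
    intro h; apply g2; linear_combination -h
  have e3 : lor (F.mulVec ![0, 0, 1, II K]) (ov u) = a 2 + II K * a 3 := by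
    rw [← ha, hF.1, lor4]; simp
  have e4 : lor (F.mulVec ![0, 0, 1, -II K]) (ov u) = a 2 - II K * a 3 := by
    rw [← ha, hF.1, lor4]; simp; ring
  have e5 : lor N (ov u) = reHom K A * a 2 + reHom K B * a 3 := by
    rw [hN, ← ha, hF.1, lor4]; simp
  have e6 : lor (F.mulVec ![0, 0, reHom K B, -reHom K A]) (ov u) =
      reHom K B * a 2 - reHom K A * a 3 := by
    rw [← ha, hF.1, lor4]; simp; ring
  have eNw : lor N (wv u) = reHom K A * b 2 + reHom K B * b 3 := by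
    rw [hN, ← hb, hF.1, lor4]; simp
  have eNw' : lor N (wv' u) = reHom K A * b' 2 + reHom K B * b' 3 := by
    rw [hN, ← hb', hF.1, lor4]; simp
  have e7 : ∀ i, lor (V i) (ov u) = reHom K (x i 0 + x i 1) * ((a 1 - a 0) / 2) +
      reHom K (x i 0 - x i 1) * (-(a 0 + a 1) / 2) := by
    intro i
    rw [hV, ← ha, hF.1, lor4, map_add, map_sub]; simp; field_simp; ring
  have eVw : ∀ i, lor (V i) (wv u) = reHom K (x i 0 + x i 1) * ((b 1 - b 0) / 2) +
      reHom K (x i 0 - x i 1) * (-(b 0 + b 1) / 2) := by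
    intro i
    rw [hV, ← hb, hF.1, lor4, map_add, map_sub]; simp; field_simp; ring
  have eVw' : ∀ i, lor (V i) (wv' u) = reHom K (x i 0 + x i 1) * ((b' 1 - b' 0) / 2) +
      reHom K (x i 0 - x i 1) * (-(b' 0 + b' 1) / 2) := by
    intro i
    rw [hV, ← hb', hF.1, lor4, map_add, map_sub]; simp; field_simp; ring
  obtain ⟨μ1, μ2, m1, m2, m3, m4⟩ := exists_mu hab e1 e2
  obtain ⟨ν1, ν2, n1, n2, n3, n4⟩ := exists_mu' hab' e1 e2
  have hα : (a 1 - a 0) / 2 ≠ 0 := div_ne_zero e1 h2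
  have hβ : -(a 0 + a 1) / 2 ≠ 0 := div_ne_zero (neg_ne_zero.2 e2) h2
  rw [e3] at g3
  rw [e4] at g4
  have hnull : (a 2 + II K * a 3) * (a 2 - II K * a 3) =
      4 * ((a 1 - a 0) / 2 * (-(a 0 + a 1) / 2)) := by
    have h0 := lor_oo u
    rw [← ha, hF.1, lor4] at h0
    field_simp
    linear_combination 4 * h0 - 4 * a 3 ^ 2 * hI
  have hm : lor N (ov u) = reHom K A * ((a 2 + II K * a 3 + (a 2 - II K * a 3)) / 2) +
      reHom K B * ((a 2 + II K * a 3 - (a 2 - II K * a 3)) / (2 * II K)) := by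
    rw [e5]; field_simp; ring
  have hp0 : reHom K B * ((a 2 + II K * a 3 + (a 2 - II K * a 3)) / 2) -
      reHom K A * ((a 2 + II K * a 3 - (a 2 - II K * a 3)) / (2 * II K)) ≠ 0 := by
    have : reHom K B * ((a 2 + II K * a 3 + (a 2 - II K * a 3)) / 2) -
      reHom K A * ((a 2 + II K * a 3 - (a 2 - II K * a 3)) / (2 * II K)) =
      lor (F.mulVec ![0, 0, reHom K B, -reHom K A]) (ov u) := by
      rw [e6]; field_simp; ring
    rw [this]; exact g6
  have hpq : ∀ i, x i 0 + x i 1 ≠ 0 ∨ x i 0 - x i 1 ≠ 0 := by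
    intro i
    by_contra hcon
    push Not at hcon
    have f0 : x i 0 = 0 := by linarith [hcon.1, hcon.2]
    have f1 : x i 1 = 0 := by linarith [hcon.1, hcon.2]
    apply hx
    fin_cases i
    · simp only [Fin.zero_eta] at f0 f1
      rw [f0, f1]; ring
    · simp only [Fin.mk_one] at f0 f1
      rw [f0, f1]; ring
  have hA : ∀ i, 2 * II K * br (ov u) (wv u) (V i) N = (μ2 - μ1) *
      (reHom K (x i 0 + x i 1) * ((a 1 - a 0) / 2) *
        ((reHom K B + II K * reHom K A) * (a 2 + II K * a 3)) +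
      reHom K (x i 0 - x i 1) * (-(a 0 + a 1) / 2) *
        ((reHom K B - II K * reHom K A) * (a 2 - II K * a 3))) := by
    intro i
    unfold br
    rw [e7, eVw, e5, eNw]
    generalize reHom K (x i 0 + x i 1) = p
    generalize reHom K (x i 0 - x i 1) = q
    generalize reHom K A = A'
    generalize reHom K B = B'
    field_simp
    linear_combination ((p * (a 1 - a 0) - q * (a 0 + a 1)) * (II K * A' + B')) * m3 +
      ((p * (a 1 - a 0) - q * (a 0 + a 1)) * (II K * A' - B')) * m4 -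
      (2 * II K * p * (A' * a 2 + B' * a 3)) * m1 + (2 * II K * q * (A' * a 2 + B' * a 3)) * m2
  have hA' : ∀ i, 2 * II K * br (ov u) (wv' u) (V i) N = (ν1 - ν2) *
      (reHom K (x i 0 + x i 1) * ((a 1 - a 0) / 2) *
        ((reHom K B - II K * reHom K A) * (a 2 - II K * a 3)) +
      reHom K (x i 0 - x i 1) * (-(a 0 + a 1) / 2) *
        ((reHom K B + II K * reHom K A) * (a 2 + II K * a 3))) := by
    intro i
    unfold br
    rw [e7, eVw', e5, eNw']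
    generalize reHom K (x i 0 + x i 1) = p
    generalize reHom K (x i 0 - x i 1) = q
    generalize reHom K A = A'
    generalize reHom K B = B'
    field_simp
    linear_combination ((p * (a 1 - a 0) - q * (a 0 + a 1)) * (II K * A' + B')) * n3 +
      ((p * (a 1 - a 0) - q * (a 0 + a 1)) * (II K * A' - B')) * n4 -
      (2 * II K * p * (A' * a 2 + B' * a 3)) * n1 + (2 * II K * q * (A' * a 2 + B' * a 3)) * n2
  have k : ∀ i, _ := fun i => flag_vertex S (hpq i) hAB hα hβ g3 g4 hnull hm g5 hp0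
    (by rw [← e7]; exact g7 i) (hA i) (hA' i) (gA i) (gA' i)
  obtain ⟨hd, hd', k0⟩ := k 0
  obtain ⟨_, _, k1⟩ := k 1
  have hr : reHom K ((x 0 0 + x 0 1) * (x 1 0 - x 1 1) - (x 0 0 - x 0 1) * (x 1 0 + x 1 1)) ≠ 0 := by
    apply (map_ne_zero _).2
    intro h; apply hx; linarith
  have hr' : (x 0 0 + x 0 1) * (x 1 0 - x 1 1) - (x 0 0 - x 0 1) * (x 1 0 + x 1 1) ≠ 0 := by
    intro h; apply hx; linarith
  have hαβ := mul_ne_zero hα hβ
  have her : reHom K ((x 0 0 + x 0 1) * (x 1 0 - x 1 1) - (x 0 0 - x 0 1) * (x 1 0 + x 1 1)) =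
      reHom K (x 0 0 + x 0 1) * reHom K (x 1 0 - x 1 1) -
        reHom K (x 0 0 - x 0 1) * reHom K (x 1 0 + x 1 1) := by
    rw [map_sub, map_mul, map_mul]
  have hQ : br (ov u) (wv u) (V 0) (V 1) = (a 1 - a 0) / 2 * (-(a 0 + a 1) / 2) * (μ2 - μ1) *
      reHom K ((x 0 0 + x 0 1) * (x 1 0 - x 1 1) - (x 0 0 - x 0 1) * (x 1 0 + x 1 1)) := by
    unfold br
    rw [e7, e7, eVw, eVw, her]
    generalize reHom K (x 0 0 + x 0 1) = p
    generalize reHom K (x 0 0 - x 0 1) = q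
    generalize reHom K (x 1 0 + x 1 1) = p'
    generalize reHom K (x 1 0 - x 1 1) = q'
    field_simp
    linear_combination ((p * (a 1 - a 0) - q * (a 0 + a 1)) * p' -
      (p' * (a 1 - a 0) - q' * (a 0 + a 1)) * p) * m1 -
      ((p * (a 1 - a 0) - q * (a 0 + a 1)) * q' -
      (p' * (a 1 - a 0) - q' * (a 0 + a 1)) * q) * m2
  have hQ' : br (ov u) (wv' u) (V 0) (V 1) = (a 1 - a 0) / 2 * (-(a 0 + a 1) / 2) *
      (-(ν1 - ν2)) *
      reHom K ((x 0 0 + x 0 1) * (x 1 0 - x 1 1) - (x 0 0 - x 0 1) * (x 1 0 + x 1 1)) := by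
    unfold br
    rw [e7, e7, eVw', eVw', her]
    generalize reHom K (x 0 0 + x 0 1) = p
    generalize reHom K (x 0 0 - x 0 1) = q
    generalize reHom K (x 1 0 + x 1 1) = p'
    generalize reHom K (x 1 0 - x 1 1) = q'
    field_simp
    linear_combination ((p * (a 1 - a 0) - q * (a 0 + a 1)) * p' -
      (p' * (a 1 - a 0) - q' * (a 0 + a 1)) * p) * n1 -
      ((p * (a 1 - a 0) - q * (a 0 + a 1)) * q' -
      (p' * (a 1 - a 0) - q' * (a 0 + a 1)) * q) * n2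
  have oQ := congrArg S.o hQ
  have oQ' := congrArg S.o hQ'
  have lQ := congrArg S.l hQ
  have lQ' := congrArg S.l hQ'
  have hdn : -(ν1 - ν2) ≠ 0 := neg_ne_zero.2 hd'
  rw [S.o_mul _ _ (mul_ne_zero hαβ hd) hr, S.o_mul _ _ hαβ hd, S.o_real hr'] at oQ
  rw [S.o_mul _ _ (mul_ne_zero hαβ hdn) hr, S.o_mul _ _ hαβ hdn, S.o_real hr', S.o_neg hd'] at oQ'
  rw [S.l_mul _ _ (mul_ne_zero hαβ hd) hr, S.l_mul _ _ hαβ hd] at lQ
  rw [S.l_mul _ _ (mul_ne_zero hαβ hdn) hr, S.l_mul _ _ hαβ hdn, S.l_neg hd'] at lQ'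
  unfold fbA ttA
  rw [oQ, oQ', lQ, lQ', e3, e4, e7 0, e7 1]
  linear_combination k1 - k0

end ff

end Pool.Agent.TH564
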