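import Pool.Agent.TH564.ArcHi

/-!
# The bellows theorem for causal families, from the statement for arcs
-/

set_option linter.unusedSectionVars false

namespace Pool.Agent.TH564

open MeasureTheory Filter Topology Set Pool.Agent.W576 Pool.Agent.W31.Bel

/-- the volume of a causal family -/
noncomputable def Vol {r m : ℕ} (c : (Fin (r+2) → Fin m) → ℤ) (y : Fin m → Fin (r+3) → ℝ) : ℝ :=
  ∑ σ : Fin (r+2) → Fin m, (c σ : ℝ) *
    SV (Fin.cons (Pi.single 0 1) (fun i => y (σ i)) : Fin (r+3) → Fin (r+3) → ℝ)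

theorem bellows_cau_of {r m : ℕ} (hr : 1 ≤ r) (c : (Fin (r+2) → Fin m) → ℤ)
    (harc : ∀ (v : Fin m → Fin (r+3) → ℝ)
      (g g' : ℝ → Finset (Fin m) → Matrix (Fin (r+3)) (Fin (r+3)) ℝ),
      ArcHyp v c g g' → FF v c g 0 0 = FF v c g 0 1)
    (hcalt : ∀ (σ : Fin (r+2) → Fin m) (π : Equiv.Perm (Fin (r+2))),
      c (σ ∘ π) = ((Equiv.Perm.sign π : ℤˣ) : ℤ) * c σ)
    (hccyc : ∀ τ : Fin (r+1) → Fin m, ∑ q, c (Fin.cons q τ) = 0)
    (y : ℝ → Fin m → Fin (r+3) → ℝ) (hy : Continuous y) (hF : ∀ t j, Cau (y t j))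
    (hn : ∀ σ, c σ ≠ 0 → ∀ i j, i ≠ j → ∀ t, lor (y t (σ i)) (y t (σ j)) < 0)
    (hG : ∀ σ, c σ ≠ 0 → ∀ i j s t, lor (y s (σ i)) (y s (σ j)) = lor (y t (σ i)) (y t (σ j)))
    (s t : ℝ) : Vol c (y s) = Vol c (y t) := by
  classical
  set v : Fin m → Fin (r+3) → ℝ := y 0 with hv
  have hvF : ∀ j, Cau (v j) := fun j => hF 0 j
  have hinjc : ∀ σ, c σ ≠ 0 → Function.Injective σ := fun σ h => alt_inj c hcalt σ h
  have hneg : ∀ s ∈ supp c, ∀ i ∈ s, ∀ j ∈ s, i ≠ j → lor (v i) (v j) < 0 := by
    rintro s ⟨σ, hσ, rfl⟩ i hi j hj hij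
    unfold rng at hi hj
    rw [Finset.mem_image] at hi hj
    obtain ⟨a, _, rfl⟩ := hi
    obtain ⟨b, _, rfl⟩ := hj
    exact hn σ hσ a b (fun h => hij (by rw [h])) 0
  have hycont : ∀ j k, Continuous (fun t => y t j k) := by
    intro j k
    exact (continuous_apply k).comp ((continuous_apply j).comp hy)
  have hVolc : Continuous (fun t => Vol c (y t)) := by
    unfold Vol
    refine continuous_finsetSum _ (fun σ _ => ?_)
    by_cases hσ : c σ = 0
    · simp only [hσ, Int.cast_zero, zero_mul]; exact continuous_const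
    refine continuous_const.mul ?_
    rw [continuous_iff_continuousAt]
    intro t0
    obtain ⟨δ, hδ, hδ'⟩ := exists_off_delta (fun i j => lor (y t0 (σ i)) (y t0 (σ j)))
      (fun i j hij => hn σ hσ i j hij t0)
    obtain ⟨μ, hμ, hμ'⟩ := exists_common (fun (i : Fin (r+2)) μ => μ ≤ y t0 (σ i) 0)
      (fun i a b _ hab h => hab.trans h) (fun i => ⟨_, (hF t0 (σ i)).1, le_rfl⟩)
    refine tendsto_SV_cone (by omega) _ _ (lt_min hδ (half_pos hμ)) ?_ ?_ ?_ ?_
    · refine Eventually.of_forall (fun t i j hij => ?_)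
      rw [hG σ hσ i j t t0]
      exact (hδ' i j hij).trans (neg_le_neg (min_le_left _ _))
    · exact Eventually.of_forall (fun t i => (hF t (σ i)).2)
    · rw [eventually_all]
      intro i
      have h1 : ∀ᶠ t in 𝓝 t0, μ / 2 < y t (σ i) 0 :=
        (hycont (σ i) 0).continuousAt.eventually (lt_mem_nhds (by
          have := hμ' i
          linarith))
      filter_upwards [h1] with t ht
      exact (min_le_right _ _).trans ht.le
    · intro i j
      exact (hycont (σ i) j).continuousAt
  -- the configuration variety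
  set P : Set (MvPolynomial (EI r m) ℝ) :=
    {p | ∀ z, IsConf (RingHom.id ℝ) v c (dec z) → MvPolynomial.eval z p = 0} with hP
  have hPconf : ∀ z : EI r m → ℝ, (∀ p ∈ P, MvPolynomial.eval z p = 0) →
      IsConf (RingHom.id ℝ) v c (dec z) := by
    intro z hz
    set X : Finset (Fin m) → Matrix (Fin (r+3)) (Fin (r+3)) (MvPolynomial (EI r m) ℝ) :=
      dec (fun e => MvPolynomial.X e) with hX
    have hXmap : ∀ (z : EI r m → ℝ) s, (X s).map (MvPolynomial.eval z) = dec z s := by
      intro z s
      ext i j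
      simp [hX, dec]
    have hev : ∀ (z : EI r m → ℝ) s (x : Fin (r+3) → ℝ) i, MvPolynomial.eval z
        ((X s).mulVec (fun i => MvPolynomial.C (x i)) i) = (dec z s).mulVec x i := by
      intro z s x i
      rw [map_mulVec', hXmap]
      simp
    have hQ1 : ∀ s ∈ supp c, ∀ a b : Fin (r+3) → ℝ, ∀ z : EI r m → ℝ, MvPolynomial.eval z
        (lor ((X s).mulVec (fun i => MvPolynomial.C (a i)))
          ((X s).mulVec (fun i => MvPolynomial.C (b i))) - MvPolynomial.C (lor a b)) =
        lor ((dec z s).mulVec a) ((dec z s).mulVec b) - lor a b := by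
      intro s _ a b z
      rw [map_sub, map_lor, MvPolynomial.eval_C]
      simp only [hev]
    refine ⟨?_, ?_⟩
    · intro s hs
      refine ⟨fun a b => ?_, ?_⟩
      · have h1 := hz (lor ((X s).mulVec (fun i => MvPolynomial.C (a i)))
          ((X s).mulVec (fun i => MvPolynomial.C (b i))) - MvPolynomial.C (lor a b)) (by
            intro z' hz'
            rw [hQ1 s hs, (hz'.so s hs).1 a b, sub_self])
        rw [hQ1 s hs] at h1
        linarith
      · have hQ2 : ∀ z : EI r m → ℝ, MvPolynomial.eval z ((X s).det - 1) =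
            (dec z s).det - 1 := by
          intro z
          rw [map_sub, map_one, RingHom.map_det]
          congr 2
          exact hXmap z s
        have h1 := hz ((X s).det - 1) (by
            intro z' hz'
            rw [hQ2, (hz'.so s hs).2, sub_self])
        rw [hQ2] at h1
        linarith
    · intro s hs s' hs' j hj hj'
      funext k
      have hQ3 : ∀ z : EI r m → ℝ, MvPolynomial.eval z
          ((X s).mulVec (fun i => MvPolynomial.C (v j i)) k -
            (X s').mulVec (fun i => MvPolynomial.C (v j i)) k) =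
          (dec z s).mulVec (v j) k - (dec z s').mulVec (v j) k := by
        intro z
        rw [map_sub, hev, hev]
      have h1 := hz ((X s).mulVec (fun i => MvPolynomial.C (v j i)) k -
            (X s').mulVec (fun i => MvPolynomial.C (v j i)) k) (by
          intro z' hz'
          rw [hQ3]
          have := congrFun (hz'.inc s hs s' hs' j hj hj') k
          simp only [RingHom.id_apply] at this
          rw [this, sub_self])
      rw [hQ3] at h1
      simp only [RingHom.id_apply]
      linarith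
  set U : Set (EI r m → ℝ) := {z | ∀ s : Finset (Fin m), 0 < z (s, 0, 0)} with hU
  have hUo : IsOpen U := by
    have : U = ⋂ s : Finset (Fin m), {z : EI r m → ℝ | 0 < z (s, 0, 0)} := by
      ext z; simp [hU]
    rw [this]
    exact isOpen_iInter_of_finite (fun s => isOpen_lt continuous_const (continuous_apply _))
  set f : (EI r m → ℝ) → ℝ := fun z => ∑ σ : Fin (r+2) → Fin m, (c σ : ℝ) *
        SV (Fin.cons (Pi.single 0 1) (fun i => (dec z (rng σ)).mulVec (v (σ i))) :
          Fin (r+3) → Fin (r+3) → ℝ) with hf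
  have hcount := Pool.Agent.W973.countable_image P hUo f (by
    intro γ γ' h1 h2 h3
    have h4 := harc v (fun t => dec (γ t)) (fun t => dec (γ' t))
      ⟨hvF, hneg, hcalt, hccyc, fun t ht => hPconf _ (h3 t ht).2, fun t ht s => (h3 t ht).1 s,
        fun t ht s i j => hasDerivAt_pi.1 (h1 t ht) (s, i, j),
        fun s i j => (continuous_apply (s, i, j)).comp_continuousOn h2⟩
    unfold FF at h4
    simp only [UU_zero] at h4
    exact h4)
  -- every time has a configuration
  have hconf : ∀ t : ℝ, Vol c (y t) ∈ f '' {x | x ∈ U ∧ ∀ p ∈ P, MvPolynomial.eval x p = 0} := by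
    intro t
    have hw : ∀ s : Finset (Fin m), ∃ g : Matrix (Fin (r+3)) (Fin (r+3)) ℝ, 0 < g 0 0 ∧
        (s ∈ supp c → IsSO g ∧ ∀ j ∈ s, g.mulVec (v j) = y t j) := by
      intro s
      by_cases hs : s ∈ supp c
      · have hs' := hs
        obtain ⟨σ, hσ, hσs⟩ := hs
        have hcard : s.card ≤ r + 2 := by
          rw [← hσs]
          unfold rng
          calc (Finset.univ.image σ).card ≤ (Finset.univ : Finset (Fin (r+2))).card :=
                Finset.card_image_le
            _ = r + 2 := by simp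
        have hne : s.Nonempty := by
          rw [← hσs]
          unfold rng
          exact ⟨σ 0, Finset.mem_image_of_mem _ (Finset.mem_univ _)⟩
        have : Nonempty s := hne.to_subtype
        have hm0 : σ 0 ∈ s := by rw [← hσs]; exact mem_rngσ σ 0
        have hm1 : σ (Fin.last _) ∈ s := by rw [← hσs]; exact mem_rngσ σ _
        obtain ⟨g, hg1, hg2, hg3⟩ := witt_cau (n := r+2) (ι := s)
          (by rw [Fintype.card_coe]; omega) (fun j => v j) (fun j => y t j)
          (fun j => hvF _) (fun j => hF _ _)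
          (fut_sum (fun j : s => v j) (fun j => hvF _) ⟨σ 0, hm0⟩ ⟨σ (Fin.last _), hm1⟩
            (hneg s hs' _ hm0 _ hm1 (fun h => by
              have h2 := congrArg Fin.val (hinjc σ hσ h)
              simp at h2))) (by
            intro i j
            have hi : (i : Fin m) ∈ rng σ := by rw [hσs]; exact i.2
            have hj : (j : Fin m) ∈ rng σ := by rw [hσs]; exact j.2
            unfold rng at hi hj
            rw [Finset.mem_image] at hi hj
            obtain ⟨a, _, ha⟩ := hi
            obtain ⟨b, _, hb⟩ := hj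
            rw [← ha, ← hb]
            exact hG σ hσ a b 0 t)
        exact ⟨g, hg2, fun _ => ⟨hg1, fun j hj => hg3 ⟨j, hj⟩⟩⟩
      · exact ⟨1, by simp, fun h => absurd h hs⟩
    choose g hg1 hg2 using hw
    set z : EI r m → ℝ := fun e => g e.1 e.2.1 e.2.2 with hz
    have hdec : dec z = g := by
      funext s; ext i j; rfl
    have hzconf : IsConf (RingHom.id ℝ) v c (dec z) := by
      rw [hdec]
      refine ⟨fun s hs => (hg2 s hs).1, fun s hs s' hs' j hj hj' => ?_⟩
      simp only [RingHom.id_apply]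
      have e1 : (g s).mulVec (fun i => v j i) = y t j := (hg2 s hs).2 j hj
      have e2 : (g s').mulVec (fun i => v j i) = y t j := (hg2 s' hs').2 j hj'
      rw [e1, e2]
    refine ⟨z, ⟨fun s => hg1 s, fun p hp => hp z hzconf⟩, ?_⟩
    simp only [hf, Vol, hdec]
    refine Finset.sum_congr rfl (fun σ _ => ?_)
    by_cases hσ : c σ = 0
    · simp [hσ]
    · congr 3
      funext i
      refine (hg2 (rng σ) ⟨σ, hσ, rfl⟩).2 (σ i) ?_
      unfold rng
      exact Finset.mem_image_of_mem _ (Finset.mem_univ _)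
  exact const_of_countable hVolc hcount hconf s t

/-- bellows theorem for causal families in hyperbolic spaces of dimension at least four -/
theorem bellows_cau_hi {r m : ℕ} (hr : 2 ≤ r) (c : (Fin (r+2) → Fin m) → ℤ)
    (hcalt : ∀ (σ : Fin (r+2) → Fin m) (π : Equiv.Perm (Fin (r+2))),
      c (σ ∘ π) = ((Equiv.Perm.sign π : ℤˣ) : ℤ) * c σ)
    (hccyc : ∀ τ : Fin (r+1) → Fin m, ∑ q, c (Fin.cons q τ) = 0)
    (y : ℝ → Fin m → Fin (r+3) → ℝ) (hy : Continuous y) (hF : ∀ t j, Cau (y t j))
    (hn : ∀ σ, c σ ≠ 0 → ∀ i j, i ≠ j → ∀ t, lor (y t (σ i)) (y t (σ j)) < 0)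
    (hG : ∀ σ, c σ ≠ 0 → ∀ i j s t, lor (y s (σ i)) (y s (σ j)) = lor (y t (σ i)) (y t (σ j)))
    (s t : ℝ) : Vol c (y s) = Vol c (y t) :=
  bellows_cau_of (by omega) c (fun _ _ _ H => H.vol_const_hi hr) hcalt hccyc y hy hF hn hG s t

end Pool.Agent.TH564
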