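import Pool.Agent.TH564.Cau

/-!
# Gaussian orthant integrals for matrices with negative off-diagonal and nonpositive diagonal
-/

set_option linter.unusedSectionVars false

namespace Pool.Agent.TH564

open MeasureTheory Filter Topology Set
open Pool.Agent.W576 Pool.Agent.W31.Bel

section dom

variable {ι : Type} [Fintype ι] [DecidableEq ι]

/-- off-diagonal part of the sum of products -/
noncomputable def offq (s : ι → ℝ) : ℝ := ∑ i, ∑ j, if i = j then 0 else s i * s j

lemma offq_nonneg {s : ι → ℝ} (hs : ∀ i, 0 ≤ s i) : 0 ≤ offq s := by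
  unfold offq
  refine Finset.sum_nonneg (fun i _ => Finset.sum_nonneg (fun j _ => ?_))
  split_ifs
  · exact le_rfl
  · exact mul_nonneg (hs i) (hs j)

lemma continuous_offq : Continuous (offq : (ι → ℝ) → ℝ) := by
  unfold offq
  refine continuous_finsetSum _ (fun i _ => continuous_finsetSum _ (fun j _ => ?_))
  split_ifs
  · exact continuous_const
  · fun_prop

lemma offq_ge {s : ι → ℝ} (hs : ∀ i, 0 ≤ s i) (i : ι) :
    ∑ j ∈ Finset.univ.erase i, s i * s j ≤ offq s := by
  unfold offq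
  have h1 : ∑ j ∈ Finset.univ.erase i, s i * s j = ∑ j, if i = j then 0 else s i * s j := by
    rw [← Finset.add_sum_erase _ _ (Finset.mem_univ i)]
    rw [if_pos rfl, zero_add]
    refine Finset.sum_congr rfl (fun j hj => ?_)
    rw [if_neg (Finset.ne_of_mem_erase hj).symm]
  rw [h1]
  refine Finset.single_le_sum (f := fun i => ∑ j, if i = j then 0 else s i * s j)
    (fun k _ => Finset.sum_nonneg (fun j _ => ?_)) (Finset.mem_univ i)
  split_ifs
  · exact le_rfl
  · exact mul_nonneg (hs k) (hs j)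

lemma qf_le_off {G : Matrix ι ι ℝ} {δ : ℝ} (h : ∀ i j, i ≠ j → G i j ≤ -δ)
    (h0 : ∀ i, G i i ≤ 0) {s : ι → ℝ} (hs : ∀ i, 0 ≤ s i) :
    qf G s ≤ -δ * offq s := by
  unfold qf offq
  rw [Finset.mul_sum]
  refine Finset.sum_le_sum (fun i _ => ?_)
  rw [Finset.mul_sum]
  refine Finset.sum_le_sum (fun j _ => ?_)
  split_ifs with hij
  · subst hij
    rw [mul_zero]
    exact mul_nonpos_of_nonpos_of_nonneg (h0 i) (mul_nonneg (hs i) (hs i))
  · exact mul_le_mul_of_nonneg_right (h i j hij) (mul_nonneg (hs i) (hs j))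

lemma qf_le_off' {G : Matrix ι ι ℝ} {δ ε : ℝ} (h : ∀ i j, i ≠ j → G i j ≤ -δ)
    (h0 : ∀ i, G i i ≤ -ε) (hε : 0 ≤ ε) {s : ι → ℝ} (hs : ∀ i, 0 ≤ s i) (k : ι) :
    qf G s ≤ -δ * offq s - ε * (s k)^2 := by
  have h1 : qf G s ≤ -δ * offq s + ∑ i, (-ε) * (s i)^2 := by
    unfold qf offq
    rw [Finset.mul_sum, ← Finset.sum_add_distrib]
    refine Finset.sum_le_sum (fun i _ => ?_)
    have h2 : (-ε) * (s i)^2 = ∑ j, if i = j then (-ε) * (s i)^2 else 0 := by
      simp
    rw [Finset.mul_sum, h2, ← Finset.sum_add_distrib]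
    refine Finset.sum_le_sum (fun j _ => ?_)
    split_ifs with hij
    · subst hij
      rw [mul_zero, zero_add]
      have := mul_le_mul_of_nonneg_right (h0 i) (mul_nonneg (hs i) (hs i))
      nlinarith
    · rw [add_zero]
      exact mul_le_mul_of_nonneg_right (h i j hij) (mul_nonneg (hs i) (hs j))
  have h2 : ∑ i, (-ε) * (s i)^2 ≤ (-ε) * (s k)^2 := by
    rw [← Finset.mul_sum]
    have := sq_le_sum s k
    nlinarith
  linarith

/-- one variable factor -/
noncomputable def fa (x : ℝ) : ℝ := (Ioc (0:ℝ) 1).indicator (fun _ => 1) x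

/-- one variable factor -/
noncomputable def fg (x : ℝ) : ℝ := (Ioi (1:ℝ)).indicator (fun x => x ^ (-(4/3) : ℝ)) x

/-- one variable factor -/
noncomputable def fh (δ : ℝ) (x : ℝ) : ℝ :=
  (Ioi (0:ℝ)).indicator (fun x => (1 + 2/δ) * (x ^ (-(2/3) : ℝ) * Real.exp (-(δ/2) * x ^ (1:ℝ)))) x

lemma int_fa : Integrable fa := by
  unfold fa
  refine (integrable_indicator_iff measurableSet_Ioc).2 ?_
  exact integrableOn_const (by simp) (by simp)

lemma int_fg : Integrable fg := by
  unfold fg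
  refine (integrable_indicator_iff measurableSet_Ioi).2 ?_
  exact integrableOn_Ioi_rpow_of_lt (by norm_num) one_pos

lemma int_fh {δ : ℝ} (hδ : 0 < δ) : Integrable (fh δ) := by
  unfold fh
  refine (integrable_indicator_iff measurableSet_Ioi).2 ?_
  exact (integrableOn_rpow_mul_exp_neg_mul_rpow (by norm_num) one_pos (half_pos hδ)).const_mul _

lemma fa_nonneg (x : ℝ) : 0 ≤ fa x := by
  unfold fa; exact Set.indicator_nonneg (fun _ _ => zero_le_one) x

lemma fg_nonneg (x : ℝ) : 0 ≤ fg x := by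
  unfold fg
  exact Set.indicator_nonneg (fun x hx => Real.rpow_nonneg (le_trans zero_le_one (le_of_lt hx)) _) x

lemma fh_nonneg {δ : ℝ} (hδ : 0 < δ) (x : ℝ) : 0 ≤ fh δ x := by
  unfold fh
  refine Set.indicator_nonneg (fun x hx => ?_) x
  have : (0:ℝ) < x := hx
  positivity

/-- the dominating function -/
noncomputable def domf (ι : Type) [Fintype ι] [DecidableEq ι] (δ : ℝ) (s : ι → ℝ) : ℝ :=
  (∏ j, fa (s j)) + ∑ i, ∏ j, (if j = i then fg else fh δ) (s j)

lemma int_domf {δ : ℝ} (hδ : 0 < δ) : Integrable (domf ι δ) := by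
  unfold domf
  refine Integrable.add ?_ (integrable_finsetSum _ (fun i _ => ?_))
  · exact Integrable.fintype_prod (fun _ => int_fa)
  · refine Integrable.fintype_prod (f := fun j => if j = i then fg else fh δ) (fun j => ?_)
    by_cases h : j = i
    · simp only [h, if_true]; exact int_fg
    · simp only [h, if_false]; exact int_fh hδ

lemma exp_prod_le {δ : ℝ} (hδ : 0 < δ) {x y : ℝ} (hx : 1 < x) (hy : 0 < y) :
    Real.exp (-δ * (x * y)) ≤ x ^ (-(2/3) : ℝ) * fh δ y := by
  have hu : 0 < x * y := by positivity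
  have e1 : fh δ y = (1 + 2/δ) * (y ^ (-(2/3) : ℝ) * Real.exp (-(δ/2) * y)) := by
    unfold fh; rw [Set.indicator_of_mem (show y ∈ Ioi (0:ℝ) from hy), Real.rpow_one]
  rw [e1]
  have h1 : x * y ≥ y := by nlinarith
  have h2 : Real.exp (-δ * (x * y)) = Real.exp (-(δ/2) * (x * y)) * Real.exp (-(δ/2) * (x * y)) := by
    rw [← Real.exp_add]; ring_nf
  have h3 : Real.exp (-(δ/2) * (x * y)) ≤ Real.exp (-(δ/2) * y) := by
    apply Real.exp_le_exp.2; nlinarith
  have h4 : (x * y) ^ ((2/3) : ℝ) ≤ 1 + x * y := by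
    rcases le_or_gt (x * y) 1 with h | h
    · have := Real.rpow_le_one hu.le h (by norm_num : (0:ℝ) ≤ 2/3)
      linarith
    · have : (x * y) ^ ((2/3) : ℝ) ≤ (x*y) ^ (1:ℝ) :=
        Real.rpow_le_rpow_of_exponent_le h.le (by norm_num)
      rw [Real.rpow_one] at this
      linarith
  have h5 : 1 + x * y ≤ (1 + 2/δ) * Real.exp ((δ/2) * (x * y)) := by
    have h6 := Real.add_one_le_exp ((δ/2) * (x * y))
    have h7 : 0 < 1 + 2/δ := by positivity
    calc 1 + x * y ≤ (1 + 2/δ) * ((δ/2) * (x * y) + 1) := by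
          have : (1 + 2/δ) * ((δ/2) * (x * y) + 1) = 1 + x * y + (δ/2) * (x*y) + 2/δ := by
            field_simp; ring
          rw [this]
          have : 0 ≤ (δ/2) * (x*y) + 2/δ := by positivity
          linarith
      _ ≤ _ := mul_le_mul_of_nonneg_left h6 h7.le
  have h6 : Real.exp (-(δ/2) * (x * y)) ≤ (1 + 2/δ) * (x * y) ^ (-(2/3) : ℝ) := by
    have h7 : 0 < (x * y) ^ ((2/3) : ℝ) := Real.rpow_pos_of_pos hu _
    rw [Real.rpow_neg hu.le, ← div_eq_mul_inv, le_div_iff₀ h7]
    have h8 : Real.exp (-(δ/2) * (x * y)) * Real.exp ((δ/2) * (x * y)) = 1 := by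
      rw [← Real.exp_add]; simp
    calc Real.exp (-(δ/2) * (x * y)) * (x * y) ^ ((2/3) : ℝ)
        ≤ Real.exp (-(δ/2) * (x * y)) * ((1 + 2/δ) * Real.exp ((δ/2) * (x * y))) :=
          mul_le_mul_of_nonneg_left (h4.trans h5) (Real.exp_pos _).le
      _ = (1 + 2/δ) * (Real.exp (-(δ/2) * (x * y)) * Real.exp ((δ/2) * (x * y))) := by ring
      _ = 1 + 2/δ := by rw [h8, mul_one]
  calc Real.exp (-δ * (x * y)) = Real.exp (-(δ/2) * (x * y)) * Real.exp (-(δ/2) * (x * y)) := h2
    _ ≤ ((1 + 2/δ) * (x * y) ^ (-(2/3) : ℝ)) * Real.exp (-(δ/2) * y) :=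
        mul_le_mul h6 h3 (Real.exp_pos _).le (by positivity)
    _ = _ := by
        rw [Real.mul_rpow (by linarith) hy.le]; ring

lemma exp_le_domf (hc : 3 ≤ Fintype.card ι) {δ : ℝ} (hδ : 0 < δ) {s : ι → ℝ}
    (hs : s ∈ orth ι) : Real.exp (-δ * offq s) ≤ domf ι δ s := by
  have hs0 : ∀ i, 0 ≤ s i := fun i => (hs i).le
  unfold domf
  have hP : ∀ i, 0 ≤ ∏ j, (if j = i then fg else fh δ) (s j) := by
    intro i
    refine Finset.prod_nonneg (fun j _ => ?_)
    split_ifs
    · exact fg_nonneg _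
    · exact fh_nonneg hδ _
  have hA : 0 ≤ ∏ j, fa (s j) := Finset.prod_nonneg (fun j _ => fa_nonneg _)
  by_cases h1 : ∀ i, s i ≤ 1
  · have h2 : ∏ j, fa (s j) = 1 := by
      refine Finset.prod_eq_one (fun j _ => ?_)
      unfold fa
      rw [Set.indicator_of_mem (show s j ∈ Ioc (0:ℝ) 1 from ⟨hs j, h1 j⟩)]
    rw [h2]
    have h3 : Real.exp (-δ * offq s) ≤ 1 := by
      apply Real.exp_le_one_iff.2
      have := offq_nonneg hs0
      nlinarith
    have h4 : 0 ≤ ∑ i, ∏ j, (if j = i then fg else fh δ) (s j) :=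
      Finset.sum_nonneg (fun i _ => hP i)
    linarith
  · push Not at h1
    obtain ⟨i, hi⟩ := h1
    have h2 : ∏ j, (if j = i then fg else fh δ) (s j) ≤
        ∑ i, ∏ j, (if j = i then fg else fh δ) (s j) :=
      Finset.single_le_sum (f := fun i => ∏ j, (if j = i then fg else fh δ) (s j))
        (fun i _ => hP i) (Finset.mem_univ i)
    have h3 : Real.exp (-δ * offq s) ≤ ∏ j, (if j = i then fg else fh δ) (s j) := by
      rw [← Finset.mul_prod_erase _ _ (Finset.mem_univ i), if_pos rfl]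
      have e1 : fg (s i) = (s i) ^ (-(4/3) : ℝ) := by
        unfold fg; rw [Set.indicator_of_mem (show s i ∈ Ioi (1:ℝ) from hi)]
      rw [e1]
      have h4 : Real.exp (-δ * offq s) ≤ ∏ j ∈ Finset.univ.erase i, Real.exp (-δ * (s i * s j)) := by
        rw [← Real.exp_sum, ← Finset.mul_sum]
        apply Real.exp_le_exp.2
        have := offq_ge hs0 i
        nlinarith
      have h5 : ∏ j ∈ Finset.univ.erase i, Real.exp (-δ * (s i * s j)) ≤
          ∏ j ∈ Finset.univ.erase i, ((s i) ^ (-(2/3) : ℝ) * fh δ (s j)) :=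
        Finset.prod_le_prod (fun j _ => (Real.exp_pos _).le)
          (fun j _ => exp_prod_le hδ hi (hs j))
      rw [Finset.prod_mul_distrib, Finset.prod_const, Finset.card_erase_of_mem (Finset.mem_univ i),
        Finset.card_univ] at h5
      have h6 : ((s i) ^ (-(2/3) : ℝ)) ^ (Fintype.card ι - 1) ≤ (s i) ^ (-(4/3) : ℝ) := by
        rw [← Real.rpow_natCast, ← Real.rpow_mul (hs0 i)]
        apply Real.rpow_le_rpow_of_exponent_le hi.le
        have h7 : (2:ℝ) ≤ ((Fintype.card ι - 1 : ℕ) : ℝ) := by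
          have : 2 ≤ Fintype.card ι - 1 := by omega
          exact_mod_cast this
        linarith
      have h7 : ∏ j ∈ Finset.univ.erase i, (if j = i then fg else fh δ) (s j) =
          ∏ j ∈ Finset.univ.erase i, fh δ (s j) := by
        refine Finset.prod_congr rfl (fun j hj => ?_)
        rw [if_neg (Finset.ne_of_mem_erase hj)]
      rw [h7]
      refine h4.trans (h5.trans ?_)
      exact mul_le_mul_of_nonneg_right h6 (Finset.prod_nonneg (fun j _ => fh_nonneg hδ _))
    linarith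

lemma integrableOn_off (hc : 3 ≤ Fintype.card ι) {δ : ℝ} (hδ : 0 < δ) :
    IntegrableOn (fun s : ι → ℝ => Real.exp (-δ * offq s)) (orth ι) := by
  refine Integrable.mono' (int_domf (ι := ι) hδ).integrableOn ?_ ?_
  · exact (Real.continuous_exp.comp (continuous_const.mul continuous_offq)).aestronglyMeasurable
  · refine (ae_restrict_iff' measurableSet_orth).2 (Eventually.of_forall fun s hs => ?_)
    rw [Real.norm_eq_abs, abs_of_pos (Real.exp_pos _)]
    exact exp_le_domf hc hδ hs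

lemma integrableOn_cau (hc : 3 ≤ Fintype.card ι) {G : Matrix ι ι ℝ} {δ : ℝ} (hδ : 0 < δ)
    (h : ∀ i j, i ≠ j → G i j ≤ -δ) (h0 : ∀ i, G i i ≤ 0) :
    IntegrableOn (fun s : ι → ℝ => Real.exp (qf G s)) (orth ι) := by
  refine Integrable.mono' (integrableOn_off hc hδ) ?_ ?_
  · exact (Real.continuous_exp.comp (continuous_qf G)).aestronglyMeasurable
  · refine (ae_restrict_iff' measurableSet_orth).2 (Eventually.of_forall fun s hs => ?_)
    rw [Real.norm_eq_abs, abs_of_pos (Real.exp_pos _)]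
    exact Real.exp_le_exp.2 (qf_le_off h h0 (fun i => (hs i).le))

/-- continuity of the orthant integral up to the boundary -/
lemma tendsto_I0 (hc : 3 ≤ Fintype.card ι) {X : Type*} {l : Filter X} [l.IsCountablyGenerated]
    (G : X → Matrix ι ι ℝ) (G0 : Matrix ι ι ℝ) {δ : ℝ} (hδ : 0 < δ)
    (h : ∀ᶠ x in l, ∀ i j, i ≠ j → G x i j ≤ -δ) (h0 : ∀ᶠ x in l, ∀ i, G x i i ≤ 0)
    (hG : ∀ i j, Tendsto (fun x => G x i j) l (𝓝 (G0 i j))) :
    Tendsto (fun x => I0 (G x)) l (𝓝 (I0 G0)) := by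
  unfold I0
  refine tendsto_integral_filter_of_dominated_convergence (fun s => Real.exp (-δ * offq s))
    ?_ ?_ ?_ ?_
  · exact Eventually.of_forall fun x =>
      (Real.continuous_exp.comp (continuous_qf (G x))).aestronglyMeasurable
  · filter_upwards [h, h0] with x hx hx0
    refine (ae_restrict_iff' measurableSet_orth).2 (Eventually.of_forall fun s hs => ?_)
    rw [Real.norm_eq_abs, abs_of_pos (Real.exp_pos _)]
    exact Real.exp_le_exp.2 (qf_le_off hx hx0 (fun i => (hs i).le))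
  · exact integrableOn_off hc hδ
  · refine Eventually.of_forall fun s => ?_
    refine (Real.continuous_exp.tendsto _).comp ?_
    unfold qf
    exact tendsto_finsetSum _ (fun i _ => tendsto_finsetSum _ (fun j _ =>
      (hG i j).mul_const _))

/-- the constant in the bound of the first moments -/
noncomputable def KK (ι : Type) [Fintype ι] [DecidableEq ι] (δ : ℝ) : ℝ :=
  ∫ s in orth ι, Real.exp (-δ * offq s)

lemma KK_nonneg (δ : ℝ) : 0 ≤ KK ι δ :=
  integral_nonneg (fun s => (Real.exp_pos _).le)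

lemma J1_bound (hc : 3 ≤ Fintype.card ι) {G : Matrix ι ι ℝ} {δ ε : ℝ} (hδ : 0 < δ) (hε : 0 < ε)
    (h : ∀ i j, i ≠ j → G i j ≤ -δ) (h0 : ∀ i, G i i ≤ -ε) (k : ι) :
    |J1 G k| ≤ KK ι δ / Real.sqrt ε := by
  have hse : 0 < Real.sqrt ε := Real.sqrt_pos.2 hε
  unfold J1 KK
  rw [div_eq_inv_mul, ← integral_const_mul]
  rw [← Real.norm_eq_abs]
  refine norm_integral_le_of_norm_le ((integrableOn_off hc hδ).const_mul _) ?_
  refine (ae_restrict_iff' measurableSet_orth).2 (Eventually.of_forall fun s hs => ?_)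
  exact key s hs
where
  key (s : ι → ℝ) (hs : s ∈ orth ι) : ‖s k * Real.exp (qf G s)‖ ≤
      (Real.sqrt ε)⁻¹ * Real.exp (-δ * offq s) := by
    have hse : 0 < Real.sqrt ε := Real.sqrt_pos.2 hε
    have hsk : 0 < s k := hs k
    rw [Real.norm_eq_abs, abs_of_pos (mul_pos hsk (Real.exp_pos _))]
    have h1 := qf_le_off' h h0 hε.le (fun i => (hs i).le) k
    have h2 : Real.exp (qf G s) ≤ Real.exp (-δ * offq s) * Real.exp (-(ε * (s k)^2)) := by
      rw [← Real.exp_add]; exact Real.exp_le_exp.2 (by linarith)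
    have h3 : s k * Real.exp (-(ε * (s k)^2)) ≤ (Real.sqrt ε)⁻¹ := by
      have h4 : Real.sqrt ε * s k ≤ Real.exp (ε * (s k)^2) := by
        have h5 := Real.add_one_le_exp (ε * (s k)^2)
        have h6 : (Real.sqrt ε * s k)^2 = ε * (s k)^2 := by
          rw [mul_pow, Real.sq_sqrt hε.le]
        nlinarith [sq_nonneg (Real.sqrt ε * s k - 1), sq_nonneg (Real.sqrt ε * s k)]
      rw [← one_div, le_div_iff₀ hse]
      have h7 : Real.exp (ε * (s k)^2) * Real.exp (-(ε * (s k)^2)) = 1 := by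
        rw [← Real.exp_add]; simp
      calc s k * Real.exp (-(ε * (s k)^2)) * Real.sqrt ε
          = (Real.sqrt ε * s k) * Real.exp (-(ε * (s k)^2)) := by ring
        _ ≤ Real.exp (ε * (s k)^2) * Real.exp (-(ε * (s k)^2)) :=
            mul_le_mul_of_nonneg_right h4 (Real.exp_pos _).le
        _ = 1 := h7
    calc s k * Real.exp (qf G s) ≤ s k * (Real.exp (-δ * offq s) * Real.exp (-(ε * (s k)^2))) :=
          mul_le_mul_of_nonneg_left h2 hsk.le
      _ = (s k * Real.exp (-(ε * (s k)^2))) * Real.exp (-δ * offq s) := by ring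
      _ ≤ _ := mul_le_mul_of_nonneg_right h3 (Real.exp_pos _).le

end dom

end Pool.Agent.TH564
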