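import Pool.Agent.TH564.Place1b

/-!
# The Gaussian orthant integral in dimension two
-/

set_option linter.unusedSectionVars false

namespace Pool.Agent.TH564

open MeasureTheory Filter Topology Set Pool.Agent.W576 Pool.Agent.W31.Bel

lemma I0_zero (G : Matrix (Fin 0) (Fin 0) ℝ) : I0 G = 1 := by
  unfold I0
  have h1 : orth (Fin 0) = Set.univ := by
    ext s; simp [orth]
  have h2 : ∀ s : Fin 0 → ℝ, qf G s = 0 := by intro s; simp [qf]
  simp only [h1, h2, Real.exp_zero]
  rw [MeasureTheory.Measure.restrict_univ]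
  simp [volume_pi, Measure.real]

lemma J1_one {G : Matrix (Fin (0+1)) (Fin (0+1)) ℝ} (hG : G 0 0 < 0) :
    2 * (G 0 0 * J1 G 0) = -1 := by
  have h := ibp0 G (by ext i j; fin_cases i; fin_cases j; rfl)
    (fun i j => by fin_cases i; fin_cases j; exact hG) 0
  rw [I0_zero] at h
  simpa using h

/-- two by two matrix -/
noncomputable def G2 (a b c : ℝ) : Matrix (Fin (1+1)) (Fin (1+1)) ℝ := !![-a, -b; -b, -c]

lemma G2_symm (a b c : ℝ) : (G2 a b c).IsSymm := by
  unfold G2
  ext i j; fin_cases i <;> fin_cases j <;> rfl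

lemma G2_neg {a b c : ℝ} (ha : 0 < a) (hb : 0 < b) (hc : 0 < c) (i j : Fin (1+1)) :
    G2 a b c i j < 0 := by
  unfold G2
  fin_cases i <;> fin_cases j <;> simp <;> assumption

lemma J2_two {a b c : ℝ} (ha : 0 < a) (hb : 0 < b) (hc : 0 < c) :
    2 * (b ^ 2 - a * c) * J2 (G2 a b c) 0 1 = b * I0 (G2 a b c) - 1 / 2 := by
  have hs := G2_symm a b c
  have hn := fun i j => G2_neg ha hb hc i j
  have h1 := ibp1_same (G2 a b c) hs hn 0
  have h2 := ibp1_same (G2 a b c) hs hn 1
  have h3 := ibp1_ne (G2 a b c) hs hn 0 0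
  have h4 := J1_one (G := (G2 a b c).submatrix (Fin.succAbove 0) (Fin.succAbove 0)) (by
    simpa [G2] using hc)
  have h5 := J2_symm (G2 a b c) 0 1
  rw [Fin.sum_univ_two] at h1 h2 h3
  simp only [Matrix.submatrix_apply] at h4
  have e1 : (0 : Fin (1+1)).succAbove (0 : Fin 1) = 1 := rfl
  have e0 : (G2 a b c) 0 0 = -a := rfl
  have e01 : (G2 a b c) 0 1 = -b := rfl
  have e10 : (G2 a b c) 1 0 = -b := rfl
  have e11 : (G2 a b c) 1 1 = -c := rfl
  rw [e1] at h3
  have e1' : (Fin.succAbove (n := 1) 0 (0 : Fin (0+1))) = 1 := rfl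
  rw [e1'] at h4
  rw [e0, e01] at h1 h3
  rw [e10, e11] at h2
  rw [e11] at h4
  rw [← h5] at h2 h3
  set J := J2 (G2 a b c) 0 1
  set J11 := J2 (G2 a b c) 1 1
  set J1v := J1 ((G2 a b c).submatrix (Fin.succAbove 0) (Fin.succAbove 0)) 0
  -- 2 a J + 2 b J11 = J1v, 2 c J1v = 1, 2 b J + 2 c J11 = I0
  have k3 : 2 * a * J + 2 * b * J11 = J1v := by linarith
  have k4 : 2 * c * J1v = 1 := by linarith
  have k2 : 2 * b * J + 2 * c * J11 = I0 (G2 a b c) := by linarith
  linear_combination b * k2 - c * k3 - (1/2) * k4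

lemma I0_two {a b c : ℝ} (ha : 0 < a) (hb : 0 < b) (hc : 0 < c) (hD : 0 < b ^ 2 - a * c) :
    Real.sqrt (b ^ 2 - a * c) * I0 (G2 a b c) =
      (1/2) * Real.log (b + Real.sqrt (b ^ 2 - a * c)) - (1/4) * Real.log (a * c) := by
  set b0 := Real.sqrt (a * c) with hb0
  have hac : 0 < a * c := mul_pos ha hc
  have hb0p : 0 < b0 := Real.sqrt_pos.2 hac
  have hb0s : b0 ^ 2 = a * c := Real.sq_sqrt hac.le
  have hlt : b0 < b := by
    rw [hb0, Real.sqrt_lt' hb]; linarith
  set φ : ℝ → ℝ := fun x => Real.sqrt (x ^ 2 - a * c) * I0 (G2 a x c) -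
    (1/2) * Real.log (x + Real.sqrt (x ^ 2 - a * c)) with hφ
  have hI : ∀ x : ℝ, 0 < x → HasDerivAt (fun x => I0 (G2 a x c)) (-(2 * J2 (G2 a x c) 0 1)) x := by
    intro x hx
    have h := hasDerivAt_I0 (fun x => G2 a x c) !![0, -1; -1, 0] x (by
      intro i j
      fin_cases i <;> fin_cases j
      · exact hasDerivAt_const x (-a)
      · exact (hasDerivAt_id' x).neg
      · exact (hasDerivAt_id' x).neg
      · exact hasDerivAt_const x (-c)) (fun i j => G2_neg ha hx hc i j)
    refine h.congr_deriv ?_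
    rw [Fin.sum_univ_two, Fin.sum_univ_two, Fin.sum_univ_two]
    have h5 := J2_symm (G2 a x c) 0 1
    simp
    rw [← h5]; ring
  have hder : ∀ x ∈ Ioo b0 b, HasDerivAt φ 0 x := by
    intro x hx
    have hx0 : 0 < x := hb0p.trans hx.1
    have hDx : 0 < x ^ 2 - a * c := by
      rw [← hb0s]
      nlinarith [hx.1]
    have hs := Real.sqrt_pos.2 hDx
    have hss := Real.mul_self_sqrt hDx.le
    have d1 : HasDerivAt (fun x : ℝ => x ^ 2 - a * c) (2 * x) x := by
      have := (hasDerivAt_pow 2 x).sub_const (a * c)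
      simpa using this
    have d2 := d1.sqrt hDx.ne'
    have d3 := (hasDerivAt_id' x).add d2
    have hne : x + Real.sqrt (x ^ 2 - a * c) ≠ 0 := by positivity
    have d4 := d3.log hne
    have d5 := (d2.mul (hI x hx0)).sub (d4.const_mul (1/2))
    refine d5.congr_deriv ?_
    have hJ := J2_two ha hx0 hc
    set s := Real.sqrt (x ^ 2 - a * c)
    set J := J2 (G2 a x c) 0 1
    set I := I0 (G2 a x c)
    have e1 : x ^ 2 - a * c = s * s := hss.symm
    rw [e1] at hJ
    have hxs : x + s ≠ 0 := by positivity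
    simp only [Pi.add_apply]
    field_simp
    linear_combination (-2) * hJ * (x + s)
  have hcont : ContinuousOn φ (Icc b0 b) := by
    intro x hx
    have hx0 : 0 < x := hb0p.trans_le hx.1
    have hs := Real.sqrt_nonneg (x ^ 2 - a * c)
    have c1 : ContinuousAt (fun x : ℝ => Real.sqrt (x ^ 2 - a * c)) x := by fun_prop
    have c2 : ContinuousAt (fun x => I0 (G2 a x c)) x := (hI x hx0).continuousAt
    have c3 : ContinuousAt (fun x : ℝ => Real.log (x + Real.sqrt (x ^ 2 - a * c))) x :=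
      (continuousAt_id.add c1).log (by simp only [Pi.add_apply, id]; positivity)
    exact ((c1.mul c2).sub (continuousAt_const.mul c3)).continuousWithinAt
  obtain ⟨y, hy, hy'⟩ := exists_hasDerivAt_eq_slope φ (fun _ => 0) hlt hcont hder
  have h1 : φ b = φ b0 := by
    have : (φ b - φ b0) / (b - b0) = 0 := hy'.symm
    have hne : b - b0 ≠ 0 := by linarith
    rw [div_eq_zero_iff] at this
    rcases this with h | h
    · linarith
    · exact absurd h hne
  have h2 : φ b0 = -((1/4) * Real.log (a * c)) := by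
    simp only [hφ]
    rw [hb0s, sub_self, Real.sqrt_zero, zero_mul, add_zero, hb0, Real.log_sqrt hac.le]
    ring
  rw [h2] at h1
  simp only [hφ] at h1
  linarith

end Pool.Agent.TH564
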