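import Pool.Agent.TH564.Ver3

/-!
# Intersection numbers of generic rays with a simplicial cycle: the cone identity
-/

set_option linter.unusedSectionVars false

namespace Pool.Agent.TH564

open MeasureTheory Filter Topology Set Pool.Agent.W576 Pool.Agent.W31.Bel

section Cone

variable {n : ℕ} (W : Fin (n+1) → Fin n → ℝ)

/-- signed minors -/
noncomputable def mnr (j : Fin (n+1)) : ℝ :=
  (-1)^(j:ℕ) * Matrix.det (Matrix.of (fun i => W (j.succAbove i)))

/-- combination -/
noncomputable def comb (a : Fin (n+1) → ℝ) : Fin n → ℝ := ∑ l, a l • W l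

lemma comb_sub (a b : Fin (n+1) → ℝ) : comb W (a - b) = comb W a - comb W b := by
  unfold comb
  rw [← Finset.sum_sub_distrib]
  exact Finset.sum_congr rfl (fun l _ => by rw [Pi.sub_apply, sub_smul])

lemma comb_smul (s : ℝ) (a : Fin (n+1) → ℝ) : comb W (s • a) = s • comb W a := by
  unfold comb
  rw [Finset.smul_sum]
  exact Finset.sum_congr rfl (fun l _ => by rw [Pi.smul_apply, smul_eq_mul, mul_smul])

lemma comb_mnr : comb W (mnr W) = 0 := by
  funext l
  have h1 : (Matrix.of (fun j => (Fin.cons (W j l) (W j) : Fin (n+1) → ℝ))).det = 0 := by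
    refine Matrix.det_zero_of_column_eq (i := 0) (j := l.succ) (Fin.succ_ne_zero l).symm
      (fun j => ?_)
    simp
  rw [Matrix.det_succ_column_zero] at h1
  simp only [comb, Finset.sum_apply, Pi.smul_apply, smul_eq_mul, Pi.zero_apply]
  rw [← h1]
  refine Finset.sum_congr rfl (fun j _ => ?_)
  unfold mnr
  have : (Matrix.of fun j => (Fin.cons (W j l) (W j) : Fin (n+1) → ℝ)).submatrix j.succAbove
      Fin.succ = Matrix.of (fun i => W (j.succAbove i)) := by
    ext i k; simp
  rw [this]
  simp only [Matrix.of_apply, Fin.cons_zero]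
  ring

variable {W}

lemma comb_ker {i : Fin (n+1)} (hi : mnr W i ≠ 0) {a : Fin (n+1) → ℝ} (ha : comb W a = 0) :
    ∃ s : ℝ, a = s • mnr W := by
  refine ⟨a i / mnr W i, ?_⟩
  have hdet : Matrix.det (Matrix.of (fun l => W (i.succAbove l))) ≠ 0 := by
    intro h; apply hi; unfold mnr; rw [h, mul_zero]
  have h1 : comb W (a - (a i / mnr W i) • mnr W) = 0 := by
    rw [comb_sub, comb_smul, comb_mnr, ha, smul_zero, sub_zero]
  set b := a - (a i / mnr W i) • mnr W with hb
  have hbi : b i = 0 := by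
    rw [hb, Pi.sub_apply, Pi.smul_apply, smul_eq_mul, div_mul_cancel₀ _ hi, sub_self]
  unfold comb at h1
  rw [Fin.sum_univ_succAbove _ i, hbi, zero_smul, zero_add] at h1
  have h2 : Matrix.vecMul (fun l => b (i.succAbove l)) (Matrix.of (fun l => W (i.succAbove l)))
      = 0 := by
    rw [← h1]
    funext k
    simp [Matrix.vecMul, dotProduct]
  have h3 := Matrix.eq_zero_of_vecMul_eq_zero hdet h2
  have h4 : b = 0 := by
    funext l
    rcases Fin.eq_self_or_eq_succAbove i l with h | ⟨l', h⟩
    · rw [h, hbi]; rfl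
    · rw [h]; exact congrFun h3 l'
  exact sub_eq_zero.1 h4

lemma comb_surj {i : Fin (n+1)} (hi : mnr W i ≠ 0) (u : Fin n → ℝ) : ∃ b, comb W b = u := by
  have hdet : Matrix.det (Matrix.of (fun l => W (i.succAbove l))) ≠ 0 := by
    intro h; apply hi; unfold mnr; rw [h, mul_zero]
  set M := Matrix.of (fun l => W (i.succAbove l)) with hM
  refine ⟨i.insertNth 0 (Matrix.vecMul u M⁻¹), ?_⟩
  unfold comb
  rw [Fin.sum_univ_succAbove _ i]
  simp only [Fin.insertNth_apply_same, zero_smul, zero_add, Fin.insertNth_apply_succAbove]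
  have h2 : ∑ l, (Matrix.vecMul u M⁻¹) l • W (i.succAbove l) =
      Matrix.vecMul (Matrix.vecMul u M⁻¹) M := by
    funext k
    simp [Matrix.vecMul, dotProduct, hM]
  rw [h2, Matrix.vecMul_vecMul, Matrix.nonsing_inv_mul _ (isUnit_iff_ne_zero.2 hdet),
    Matrix.vecMul_one]

variable (W)

/-- the vector `u` is in the cone over the facet opposite to `j` -/
def Cn (j : Fin (n+1)) (u : Fin n → ℝ) : Prop :=
  ∃ a : Fin (n+1) → ℝ, (∀ l, 0 ≤ a l) ∧ a j = 0 ∧ comb W a = u

/-- generic vectors -/
def Gn (u : Fin n → ℝ) : Prop :=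
  ∀ j j', j ≠ j' → ¬ ∃ a : Fin (n+1) → ℝ, (∀ l, 0 ≤ a l) ∧ a j = 0 ∧ a j' = 0 ∧ comb W a = u

variable {W}

/-- uniqueness of hits -/
lemma hit_unique {d : Fin (n+1) → ℝ} {u : Fin n → ℝ} (hu : Gn W u)
    (hker : ∀ a, comb W a = 0 → ∃ s : ℝ, a = s • d) {p p' : Fin (n+1)} (hp : 0 < d p)
    (hp' : 0 < d p') (h : Cn W p u) (h' : Cn W p' u) : p = p' := by
  by_contra hne
  obtain ⟨a, ha0, hap, hau⟩ := h
  obtain ⟨b, hb0, hbp, hbu⟩ := h'
  obtain ⟨s, hs⟩ := hker (a - b) (by rw [comb_sub, hau, hbu, sub_self])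
  have e1 := congrFun hs p
  have e2 := congrFun hs p'
  simp only [Pi.sub_apply, Pi.smul_apply, smul_eq_mul, hap, hbp] at e1 e2
  have s1 : s ≤ 0 := by
    by_contra hc; push Not at hc
    have := mul_pos hc hp
    linarith [hb0 p]
  have s2 : 0 ≤ s := by
    by_contra hc; push Not at hc
    have := mul_neg_of_neg_of_pos hc hp'
    linarith [ha0 p']
  have s0 : s = 0 := le_antisymm s1 s2
  rw [s0, zero_mul] at e2
  exact hu p p' hne ⟨a, ha0, hap, by linarith, hau⟩

/-- existence of hits -/
lemma hit_exists {d : Fin (n+1) → ℝ} {u : Fin n → ℝ} (hd : comb W d = 0) {b : Fin (n+1) → ℝ}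
    (hb : ∀ l, d l ≤ 0 → 0 ≤ b l) (hneg : (∃ l, d l < 0) → ∀ l, 0 ≤ b l) (hbu : comb W b = u)
    (hpos : ∃ l, 0 < d l) : ∃ p, 0 < d p ∧ Cn W p u := by
  classical
  obtain ⟨l0, hl0⟩ := hpos
  obtain ⟨p, hp, hmin⟩ := Finset.exists_min_image (Finset.univ.filter (fun l => 0 < d l))
    (fun l => b l / d l) ⟨l0, by simp [hl0]⟩
  simp only [Finset.mem_filter, Finset.mem_univ, true_and] at hp hmin
  refine ⟨p, hp, b - (b p / d p) • d, ?_, ?_, ?_⟩
  · intro l
    simp only [Pi.sub_apply, Pi.smul_apply, smul_eq_mul]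
    rcases lt_trichotomy (d l) 0 with h | h | h
    · have h1 : 0 ≤ b p / d p := div_nonneg (hneg ⟨l, h⟩ p) hp.le
      have h2 := hb l h.le
      have h3 : b p / d p * d l ≤ 0 := mul_nonpos_of_nonneg_of_nonpos h1 h.le
      linarith
    · rw [h, mul_zero, sub_zero]; exact hb l h.le
    · have h1 := hmin l h
      have h2 : b p / d p * d l ≤ b l / d l * d l := mul_le_mul_of_nonneg_right h1 h.le
      rw [div_mul_cancel₀ _ h.ne'] at h2
      linarith
  · simp only [Pi.sub_apply, Pi.smul_apply, smul_eq_mul]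
    rw [div_mul_cancel₀ _ hp.ne', sub_self]
  · rw [comb_sub, comb_smul, hd, hbu, smul_zero, sub_zero]

open Classical in
/-- the cone identity -/
lemma cone_sum {u : Fin n → ℝ} (hu : Gn W u)
    (h1 : (∀ j, 0 ≤ mnr W j) → (∃ j, 0 < mnr W j) → ∀ j, 0 < mnr W j)
    (h2 : (∀ j, mnr W j ≤ 0) → (∃ j, mnr W j < 0) → ∀ j, mnr W j < 0) :
    ∑ j, ((SignType.sign (mnr W j) : SignType) : ℤ) * (if Cn W j u then 1 else 0) =
      if ∀ j, 0 < mnr W j then 1 else if ∀ j, mnr W j < 0 then -1 else 0 := by
  by_cases hpos : ∃ j, 0 < mnr W j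
  · obtain ⟨p0, hp0⟩ := hpos
    have hker : ∀ a, comb W a = 0 → ∃ s : ℝ, a = s • mnr W := fun a ha => comb_ker hp0.ne' ha
    by_cases hneg : ∃ j, mnr W j < 0
    · -- both signs
      obtain ⟨q0, hq0⟩ := hneg
      rw [if_neg (fun h => absurd (h q0) (not_lt.2 hq0.le)),
        if_neg (fun h => absurd (h p0) (not_lt.2 hp0.le))]
      by_cases hhit : ∃ j, mnr W j ≠ 0 ∧ Cn W j u
      · obtain ⟨j, hj, b, hb0, hbj, hbu⟩ := hhit
        obtain ⟨p, hp, hpu⟩ := hit_exists (comb_mnr W) (fun l _ => hb0 l) (fun _ => hb0) hbu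
          ⟨p0, hp0⟩
        obtain ⟨q, hq, hqu⟩ := hit_exists (d := -mnr W) (by
            have : (-mnr W) = (-1 : ℝ) • mnr W := by simp
            rw [this, comb_smul, comb_mnr, smul_zero]) (fun l _ => hb0 l) (fun _ => hb0) hbu
          ⟨q0, by simpa using hq0⟩
        simp only [Pi.neg_apply, Left.neg_pos_iff] at hq
        have hpq : p ≠ q := by rintro rfl; linarith
        rw [Finset.sum_eq_add p q hpq]
        · rw [if_pos hpu, if_pos hqu, sign_pos hp, sign_neg hq]; simp
        · intro l _ hl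
          by_cases hlu : Cn W l u
          · rcases lt_trichotomy (mnr W l) 0 with h | h | h
            · exfalso
              apply hl.2
              refine hit_unique (d := -mnr W) hu ?_ (by simpa using h) (by simpa using hq) hlu hqu
              intro a ha
              obtain ⟨s, hs⟩ := hker a ha
              exact ⟨-s, by rw [hs]; simp⟩
            · rw [h]; simp
            · exfalso
              exact hl.1 (hit_unique hu hker h hp hlu hpu)
          · rw [if_neg hlu, mul_zero]
        · intro h; exact absurd (Finset.mem_univ _) h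
        · intro h; exact absurd (Finset.mem_univ _) h
      · refine Finset.sum_eq_zero (fun j _ => ?_)
        by_cases hj : mnr W j = 0
        · rw [hj]; simp
        · rw [if_neg (fun h => hhit ⟨j, hj, h⟩), mul_zero]
    · push Not at hneg
      have hall := h1 hneg ⟨p0, hp0⟩
      rw [if_pos hall]
      obtain ⟨b, hb⟩ := comb_surj hp0.ne' u
      obtain ⟨p, hp, hpu⟩ := hit_exists (comb_mnr W)
        (fun l hl => absurd (hall l) (not_lt.2 hl))
        (fun ⟨l, hl⟩ => absurd (hall l) (not_lt.2 hl.le)) hb ⟨p0, hp0⟩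
      rw [Finset.sum_eq_single p]
      · rw [if_pos hpu, sign_pos hp]; simp
      · intro l _ hl
        by_cases hlu : Cn W l u
        · exact absurd (hit_unique hu hker (hall l) hp hlu hpu) hl
        · rw [if_neg hlu, mul_zero]
      · intro h; exact absurd (Finset.mem_univ _) h
  · push Not at hpos
    by_cases hneg : ∃ j, mnr W j < 0
    · have hall := h2 hpos hneg
      rw [if_neg (fun h => absurd (h 0) (not_lt.2 (hall 0).le)), if_pos hall]
      obtain ⟨q0, hq0⟩ := hneg
      have hker : ∀ a, comb W a = 0 → ∃ s : ℝ, a = s • (-mnr W) := by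
        intro a ha
        obtain ⟨s, hs⟩ := comb_ker hq0.ne ha
        exact ⟨-s, by rw [hs]; simp⟩
      obtain ⟨b, hb⟩ := comb_surj hq0.ne u
      obtain ⟨p, hp, hpu⟩ := hit_exists (d := -mnr W) (by
            have : (-mnr W) = (-1 : ℝ) • mnr W := by simp
            rw [this, comb_smul, comb_mnr, smul_zero])
        (fun l hl => by
          have := hall l
          simp only [Pi.neg_apply] at hl
          linarith)
        (fun ⟨l, hl⟩ => by
          have := hall l
          simp only [Pi.neg_apply] at hl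
          linarith) hb ⟨q0, by simpa using hq0⟩
      simp only [Pi.neg_apply, Left.neg_pos_iff] at hp
      rw [Finset.sum_eq_single p]
      · rw [if_pos hpu, sign_neg hp]; simp
      · intro l _ hl
        by_cases hlu : Cn W l u
        · exact absurd (hit_unique (d := -mnr W) hu hker (by simpa using hall l)
            (by simpa using hp) hlu hpu) hl
        · rw [if_neg hlu, mul_zero]
      · intro h; exact absurd (Finset.mem_univ _) h
    · push Not at hneg
      have hz : ∀ j, mnr W j = 0 := fun j => le_antisymm (hpos j) (hneg j)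
      rw [if_neg (fun h => absurd (h 0) (by rw [hz 0]; exact lt_irrefl _)),
        if_neg (fun h => absurd (h 0) (by rw [hz 0]; exact lt_irrefl _))]
      exact Finset.sum_eq_zero (fun j _ => by rw [hz j]; simp)

end Cone

end Pool.Agent.TH564
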