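import Pool.Agent.TH564.Idx

/-!
# Intersection numbers of generic rays with a simplicial cycle
-/

set_option linter.unusedSectionVars false

namespace Pool.Agent.TH564

open MeasureTheory Filter Topology Set Pool.Agent.W576 Pool.Agent.W31.Bel Pool.Agent.W409.Klein

/-- the vectors from `x` to `0` and to the vertices -/
noncomputable def WW {n : ℕ} (v : Fin n → Fin n → ℝ) (x : Fin n → ℝ) : Fin (n+1) → Fin n → ℝ :=
  Fin.cons (-x) (fun i => v i - x)

lemma WW_zero {n : ℕ} (v : Fin n → Fin n → ℝ) (x : Fin n → ℝ) : WW v x 0 = -x := rfl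

lemma WW_succ {n : ℕ} (v : Fin n → Fin n → ℝ) (x : Fin n → ℝ) (i : Fin n) :
    WW v x i.succ = v i - x := rfl

lemma comb_WW {n : ℕ} (v : Fin n → Fin n → ℝ) (x : Fin n → ℝ) (a : Fin (n+1) → ℝ) :
    comb (WW v x) a = ∑ i : Fin n, a i.succ • v i - (∑ j, a j) • x := by
  unfold comb
  rw [Fin.sum_univ_succ, Fin.sum_univ_succ, WW_zero]
  simp only [WW_succ, smul_sub, Finset.sum_sub_distrib, add_smul, Finset.sum_smul]
  rw [smul_neg]
  abel

lemma sum_mnr {n : ℕ} (v : Fin n → Fin n → ℝ) (x : Fin n → ℝ) :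
    ∑ j, mnr (WW v x) j = (Matrix.of v).det := by
  have h1 : ∑ j, mnr (WW v x) j =
      (Matrix.of (fun j => (Fin.cons 1 (WW v x j) : Fin (n+1) → ℝ))).det := by
    rw [Matrix.det_succ_column_zero]
    refine Finset.sum_congr rfl (fun j _ => ?_)
    unfold mnr
    have : (Matrix.of fun j => (Fin.cons 1 (WW v x j) : Fin (n+1) → ℝ)).submatrix j.succAbove
        Fin.succ = Matrix.of (fun i => WW v x (j.succAbove i)) := by
      ext i k; simp
    rw [this]
    simp only [Matrix.of_apply, Fin.cons_zero, mul_one]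
  rw [h1]
  set B : Matrix (Fin (n+1)) (Fin (n+1)) ℝ :=
    Matrix.of (Fin.cons (Fin.cons 1 (-x)) (fun i => Fin.cons 0 (v i)) : Fin (n+1) → Fin (n+1) → ℝ)
    with hB
  have h2 : (Matrix.of (fun j => (Fin.cons 1 (WW v x j) : Fin (n+1) → ℝ))).det = B.det := by
    refine Matrix.det_eq_of_forall_row_eq_smul_add_const (Fin.cons 0 (fun _ => 1)) 0 rfl ?_
    intro i j
    refine Fin.cases ?_ (fun i => ?_) i
    · refine Fin.cases ?_ (fun j => ?_) j
      · simp [hB]
      · simp [hB, WW_zero]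
    · refine Fin.cases ?_ (fun j => ?_) j
      · simp [hB]
      · simp [hB, WW_succ, sub_eq_add_neg]
  rw [h2, Matrix.det_succ_column_zero, Fin.sum_univ_succ]
  have h3 : ∀ i : Fin n, (-1:ℝ) ^ ((i.succ : Fin (n+1)) : ℕ) * B i.succ 0 *
      (B.submatrix i.succ.succAbove Fin.succ).det = 0 := by
    intro i; simp [hB]
  rw [Finset.sum_eq_zero (fun i _ => h3 i), add_zero]
  have h4 : B.submatrix (Fin.succAbove 0) Fin.succ = Matrix.of v := by
    ext i k; simp [hB]
  rw [h4]
  simp [hB]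

lemma mem_hull_iff {k : ℕ} (v : Fin (k+1) → Fin (k+1) → ℝ) (x : Fin (k+1) → ℝ) :
    x ∈ convexHull ℝ (insert 0 (Set.range (fun i => v i))) ↔
      ∃ a : Fin (k+1) → ℝ, (∀ i, 0 ≤ a i) ∧ ∑ i, a i ≤ 1 ∧ ∑ i, a i • v i = x := by
  have e : ∀ a : Fin (k+1) → ℝ, (Matrix.toLin' (Matrix.of v).transpose) a = ∑ i, a i • v i := by
    intro a
    rw [Matrix.toLin'_apply]
    funext j
    simp [Matrix.mulVec, dotProduct, mul_comm]
  rw [hull_eq]
  constructor
  · rintro ⟨a, ⟨h1, h2⟩, rfl⟩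
    exact ⟨a, h1, h2, (e a).symm⟩
  · rintro ⟨a, h1, h2, rfl⟩
    exact ⟨a, ⟨h1, h2⟩, e a⟩

open Classical in
lemma kap_eq {k : ℕ} (v : Fin (k+1) → Fin (k+1) → ℝ) (x : Fin (k+1) → ℝ)
    (hx : (Matrix.of v).det ≠ 0 → ∀ j, mnr (WW v x) j ≠ 0) :
    (if ∀ j, 0 < mnr (WW v x) j then (1:ℤ) else if ∀ j, mnr (WW v x) j < 0 then -1 else 0) =
      ((SignType.sign (Matrix.det (Matrix.of v)) : SignType) : ℤ) *
        (if x ∈ convexHull ℝ (insert 0 (Set.range (fun i => v i))) then 1 else 0) := by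
  have hsum := sum_mnr v x
  have hrel := comb_mnr (WW v x)
  rw [comb_WW, hsum] at hrel
  have hmem : ∀ D : ℝ, D = (Matrix.of v).det → D ≠ 0 → (∀ j, 0 ≤ mnr (WW v x) j / D) →
      x ∈ convexHull ℝ (insert 0 (Set.range (fun i => v i))) := by
    intro D hD hD0 hpos
    rw [mem_hull_iff]
    refine ⟨fun i => mnr (WW v x) i.succ / D, fun i => hpos i.succ, ?_, ?_⟩
    · rw [← Finset.sum_div]
      have h1 : ∑ i : Fin (k+1), mnr (WW v x) i.succ = D - mnr (WW v x) 0 := by
        rw [hD, ← hsum, Fin.sum_univ_succ (f := fun j => mnr (WW v x) j)]; ring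
      rw [h1, sub_div, div_self hD0]
      linarith [hpos 0]
    · have h2 : ∑ i : Fin (k+1), mnr (WW v x) i.succ • v i = D • x := by
        rw [hD]; exact sub_eq_zero.1 hrel
      have h3 : ∑ i : Fin (k+1), (mnr (WW v x) i.succ / D) • v i =
          D⁻¹ • ∑ i : Fin (k+1), mnr (WW v x) i.succ • v i := by
        rw [Finset.smul_sum]
        refine Finset.sum_congr rfl (fun i _ => ?_)
        rw [smul_smul, div_eq_inv_mul]
      rw [h3, h2, smul_smul, inv_mul_cancel₀ hD0, one_smul]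
  by_cases h1 : ∀ j, 0 < mnr (WW v x) j
  · have hD : 0 < (Matrix.of v).det := by
      rw [← hsum]; exact Finset.sum_pos (fun j _ => h1 j) Finset.univ_nonempty
    rw [if_pos h1, if_pos (hmem _ rfl hD.ne' (fun j => div_nonneg (h1 j).le hD.le)), sign_pos hD]
    simp
  · rw [if_neg h1]
    by_cases h2 : ∀ j, mnr (WW v x) j < 0
    · have hD : (Matrix.of v).det < 0 := by
        rw [← hsum]
        exact Finset.sum_neg (fun j _ => h2 j) Finset.univ_nonempty
      rw [if_pos h2, if_pos (hmem _ rfl hD.ne (fun j => div_nonneg_of_nonpos (h2 j).le hD.le)),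
        sign_neg hD]
      simp
    · rw [if_neg h2]
      by_cases hD : (Matrix.of v).det = 0
      · rw [hD]; simp
      · rw [if_neg, mul_zero]
        intro hmem2
        rw [mem_hull_iff] at hmem2
        obtain ⟨a, ha0, ha1, hax⟩ := hmem2
        have hne := hx hD
        set b : Fin (k+2) → ℝ := Fin.cons (1 - ∑ i, a i) a with hb
        have hb0 : ∀ j, 0 ≤ b j := by
          intro j
          refine Fin.cases ?_ (fun j => ?_) j
          · simp only [hb, Fin.cons_zero]; linarith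
          · simp only [hb, Fin.cons_succ]; exact ha0 j
        have hb1 : ∑ j, b j = 1 := by
          rw [Fin.sum_univ_succ]; simp [hb]
        have hbc : comb (WW v x) b = 0 := by
          rw [comb_WW, hb1, one_smul]
          simp only [hb, Fin.cons_succ]
          rw [hax, sub_self]
        obtain ⟨s, hs⟩ := comb_ker (hne 0) hbc
        have hs1 : s * (Matrix.of v).det = 1 := by
          rw [← hsum, Finset.mul_sum, ← hb1, hs]
          rfl
        have hs0 : s ≠ 0 := by rintro rfl; simp at hs1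
        have hj : ∀ j, b j = s * mnr (WW v x) j := fun j => by rw [hs]; rfl
        rcases lt_or_gt_of_ne hs0 with h | h
        · apply h2
          intro j
          refine lt_of_le_of_ne ?_ (hne j)
          by_contra hc
          push Not at hc
          have := mul_neg_of_neg_of_pos h hc
          linarith [hb0 j, hj j]
        · apply h1
          intro j
          refine lt_of_le_of_ne ?_ (hne j).symm
          by_contra hc
          push Not at hc
          have := mul_neg_of_pos_of_neg h hc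
          linarith [hb0 j, hj j]

open Classical in
/-- signed indicator function of a cone -/
noncomputable def Ph {n : ℕ} (w : Fin n → Fin n → ℝ) (u : Fin n → ℝ) : ℤ :=
  ((SignType.sign (Matrix.det (Matrix.of w)) : SignType) : ℤ) *
    (if ∃ a : Fin n → ℝ, (∀ l, 0 ≤ a l) ∧ ∑ l, a l • w l = u then 1 else 0)

lemma sign_unit (e : ℤˣ) : ((SignType.sign (((e : ℤ)) : ℝ) : SignType) : ℤ) = (e : ℤ) := by
  rcases Int.units_eq_one_or e with h | h
  · rw [h]; simp
  · rw [h]; simp

lemma Ph_perm {n : ℕ} (w : Fin n → Fin n → ℝ) (u : Fin n → ℝ) (π : Equiv.Perm (Fin n)) :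
    Ph (w ∘ π) u = ((Equiv.Perm.sign π : ℤˣ) : ℤ) * Ph w u := by
  unfold Ph
  have h1 : (Matrix.of (w ∘ π)).det = ((Equiv.Perm.sign π : ℤˣ) : ℤ) * (Matrix.of w).det := by
    rw [← Matrix.det_permute]
    rfl
  have h2 : (∃ a : Fin n → ℝ, (∀ l, 0 ≤ a l) ∧ ∑ l, a l • (w ∘ π) l = u) ↔
      (∃ a : Fin n → ℝ, (∀ l, 0 ≤ a l) ∧ ∑ l, a l • w l = u) := by
    constructor
    · rintro ⟨a, h1, h2⟩
      refine ⟨a ∘ π.symm, fun l => h1 _, ?_⟩
      rw [← h2, ← Equiv.sum_comp π]
      refine Finset.sum_congr rfl (fun l _ => ?_)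
      simp
    · rintro ⟨a, h1, h2⟩
      refine ⟨a ∘ π, fun l => h1 _, ?_⟩
      rw [← h2, ← Equiv.sum_comp π (fun l => a l • w l)]
      rfl
  rw [h1, sign_mul, SignType.coe_mul, sign_unit, mul_assoc]
  congr 2
  by_cases h : ∃ a : Fin n → ℝ, (∀ l, 0 ≤ a l) ∧ ∑ l, a l • w l = u
  · rw [if_pos h, if_pos (h2.2 h)]
  · rw [if_neg h, if_neg (fun h' => h (h2.1 h'))]

lemma sign_negpow (j : ℕ) : ((SignType.sign ((-1:ℝ)^j) : SignType) : ℤ) = (-1)^j := by
  rcases Nat.even_or_odd j with h | h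
  · rw [h.neg_one_pow, h.neg_one_pow]; simp
  · rw [h.neg_one_pow, h.neg_one_pow]; simp

open Classical in
lemma Ph_link {n : ℕ} (W : Fin (n+1) → Fin n → ℝ) (u : Fin n → ℝ) (j : Fin (n+1)) :
    ((SignType.sign (mnr W j) : SignType) : ℤ) * (if Cn W j u then 1 else 0) =
      (-1)^(j:ℕ) * Ph (fun i => W (j.succAbove i)) u := by
  unfold Ph mnr
  rw [sign_mul, SignType.coe_mul, sign_negpow, mul_assoc]
  congr 2
  have h : Cn W j u ↔ ∃ a : Fin n → ℝ, (∀ l, 0 ≤ a l) ∧ ∑ l, a l • W (j.succAbove l) = u := by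
    constructor
    · rintro ⟨a, h1, h2, h3⟩
      refine ⟨fun l => a (j.succAbove l), fun l => h1 _, ?_⟩
      rw [← h3]
      unfold comb
      rw [Fin.sum_univ_succAbove _ j, h2, zero_smul, zero_add]
    · rintro ⟨a, h1, h2⟩
      refine ⟨j.insertNth 0 a, ?_, by simp, ?_⟩
      · intro l
        rcases Fin.eq_self_or_eq_succAbove j l with h | ⟨l', h⟩
        · rw [h]; simp
        · rw [h]; simpa using h1 l'
      · unfold comb
        rw [Fin.sum_univ_succAbove _ j]
        simpa using h2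
  by_cases h' : Cn W j u
  · rw [if_pos h', if_pos (h.1 h')]
  · rw [if_neg h', if_neg (fun h'' => h' (h.2 h''))]

open Classical in
/-- **Independence of the ray.**  The intersection number of a generic ray from `x` with a cycle -/
theorem cyc_sum {k m : ℕ} (c : (Fin (k+1) → Fin m) → ℤ)
    (hc : ∀ f : (Fin k → Fin m) → ℤ,
      (∀ (τ : Fin k → Fin m) (π : Equiv.Perm (Fin k)),
          f (τ ∘ ⇑π) = ((Equiv.Perm.sign π : ℤˣ) : ℤ) * f τ) →
      ∑ σ : Fin (k+1) → Fin m,
          c σ * ∑ i : Fin (k+1), (-1 : ℤ) ^ (i : ℕ) * f (σ ∘ Fin.succAbove i) = 0)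
    (p : Fin m → Fin (k+1) → ℝ) (x u : Fin (k+1) → ℝ)
    (hx : ∀ σ : Fin (k+1) → Fin m, (Matrix.of (fun i => p (σ i))).det ≠ 0 →
      ∀ j, mnr (WW (fun i => p (σ i)) x) j ≠ 0)
    (hu : ∀ σ : Fin (k+1) → Fin m, Gn (WW (fun i => p (σ i)) x) u) :
    ∑ σ : Fin (k+1) → Fin m, c σ * Ph (fun i => p (σ i) - x) u =
    ∑ σ : Fin (k+1) → Fin m, c σ *
      (((SignType.sign (Matrix.det (Matrix.of (fun i => p (σ i)))) : SignType) : ℤ) *
        (if x ∈ convexHull ℝ (insert 0 (Set.range (fun i => p (σ i)))) then 1 else 0)) := by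
  set g : (Fin k → Fin m) → ℤ := fun τ => Ph (Fin.cons (-x) (fun l => p (τ l) - x)) u with hg
  have hcyc := hc g (by
    intro τ π
    simp only [hg]
    have h1 : (Fin.cons (-x) (fun l => p ((τ ∘ π) l) - x) : Fin (k+1) → Fin (k+1) → ℝ) =
        (Fin.cons (-x) (fun l => p (τ l) - x) : Fin (k+1) → Fin (k+1) → ℝ) ∘ extP π :=
      cons_comp_perm (-x) (fun l => p (τ l) - x) π
    rw [h1, Ph_perm, sign_extP])
  have hσ : ∀ σ : Fin (k+1) → Fin m, Ph (fun i => p (σ i) - x) u -
      ∑ i : Fin (k+1), (-1 : ℤ) ^ (i : ℕ) * g (σ ∘ Fin.succAbove i) =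
      ((SignType.sign (Matrix.det (Matrix.of (fun i => p (σ i)))) : SignType) : ℤ) *
        (if x ∈ convexHull ℝ (insert 0 (Set.range (fun i => p (σ i)))) then 1 else 0) := by
    intro σ
    rw [← kap_eq (fun i => p (σ i)) x (hx σ), ← cone_sum (hu σ)]
    · rw [Fin.sum_univ_succ (f := fun j => ((SignType.sign (mnr (WW (fun i => p (σ i)) x) j) :
        SignType) : ℤ) * (if Cn (WW (fun i => p (σ i)) x) j u then 1 else 0)), Ph_link]
      have e0 : (fun i => WW (fun i => p (σ i)) x ((0 : Fin (k+2)).succAbove i)) = fun i => p (σ i) - x := by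
        funext i
        rw [Fin.zero_succAbove, WW_succ]
      rw [e0]
      simp only [Ph_link]
      have e1 : ∀ i : Fin (k+1), (fun l => WW (fun i => p (σ i)) x (i.succ.succAbove l)) =
          (Fin.cons (-x) (fun l => p ((σ ∘ i.succAbove) l) - x) : Fin (k+1) → Fin (k+1) → ℝ) := by
        intro i
        funext l
        refine Fin.cases ?_ (fun l => ?_) l
        · rw [Fin.succ_succAbove_zero, WW_zero, Fin.cons_zero]
        · rw [Fin.succ_succAbove_succ, WW_succ, Fin.cons_succ]; rfl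
      simp only [e1, Fin.val_zero, pow_zero, one_mul, Fin.val_succ, pow_succ]
      rw [sub_eq_add_neg, ← Finset.sum_neg_distrib]
      congr 1
      refine Finset.sum_congr rfl (fun i _ => ?_)
      simp only [hg]
      ring
    · intro h1 ⟨j, hj⟩
      have hD : (Matrix.of (fun i => p (σ i))).det ≠ 0 := by
        rw [← sum_mnr (fun i => p (σ i)) x]
        exact (Finset.sum_pos' (fun j _ => h1 j) ⟨j, Finset.mem_univ _, hj⟩).ne'
      exact fun j => lt_of_le_of_ne (h1 j) (hx σ hD j).symm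
    · intro h1 ⟨j, hj⟩
      have hD : (Matrix.of (fun i => p (σ i))).det ≠ 0 := by
        rw [← sum_mnr (fun i => p (σ i)) x]
        exact (Finset.sum_neg' (fun j _ => h1 j) ⟨j, Finset.mem_univ _, hj⟩).ne
      exact fun j => lt_of_le_of_ne (h1 j) (hx σ hD j)
  rw [← sub_eq_zero, ← Finset.sum_sub_distrib]
  refine Eq.trans ?_ hcyc
  refine Finset.sum_congr rfl (fun σ _ => ?_)
  rw [← hσ σ]; ring

end Pool.Agent.TH564
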