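import Pool.Agent.TH564.Idx2

/-!
# Intersection numbers of generic rays with a simplicial cycle: almost all rays
-/

set_option linter.unusedSectionVars false

namespace Pool.Agent.TH564

open MeasureTheory Filter Topology Set Pool.Agent.W576 Pool.Agent.W31.Bel Pool.Agent.W409.Klein

lemma span_null {n : ℕ} (S : Finset (Fin n → ℝ)) (hS : S.card < n) :
    (volume : Measure (Fin n → ℝ)) (Submodule.span ℝ (S : Set (Fin n → ℝ)) :
      Set (Fin n → ℝ)) = 0 := by
  refine Measure.addHaar_submodule _ _ (fun h => ?_)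
  have h1 := finrank_span_finset_le_card (R := ℝ) S
  rw [Set.finrank, h, finrank_top, Module.finrank_fin_fun] at h1
  omega

lemma Gn_ae {k : ℕ} (W : Fin (k+2) → Fin (k+1) → ℝ) :
    ∀ᵐ u : Fin (k+1) → ℝ, Gn W u := by
  classical
  unfold Gn
  rw [ae_all_iff]; intro j
  rw [ae_all_iff]; intro j'
  by_cases hj : j = j'
  · exact Eventually.of_forall (fun u h => absurd hj h)
  set S : Finset (Fin (k+1) → ℝ) := (Finset.univ \ {j, j'}).image W with hS
  have hcard : S.card < k + 1 := by
    refine lt_of_le_of_lt Finset.card_image_le ?_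
    rw [Finset.card_sdiff_of_subset (Finset.subset_univ _), Finset.card_univ, Fintype.card_fin,
      Finset.card_pair hj]
    omega
  have h0 := span_null S hcard
  have h1 : ∀ᵐ u : Fin (k+1) → ℝ, u ∉ (Submodule.span ℝ (S : Set (Fin (k+1) → ℝ)) :
      Set (Fin (k+1) → ℝ)) := measure_eq_zero_iff_ae_notMem.1 h0
  filter_upwards [h1] with u hu _
  rintro ⟨a, -, h2, h3, h4⟩
  apply hu
  rw [← h4]
  refine Submodule.sum_mem _ (fun l _ => ?_)
  by_cases hl : l = j
  · rw [hl, h2, zero_smul]; exact Submodule.zero_mem _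
  by_cases hl' : l = j'
  · rw [hl', h3, zero_smul]; exact Submodule.zero_mem _
  refine Submodule.smul_mem _ _ (Submodule.subset_span ?_)
  rw [hS, Finset.coe_image]
  exact ⟨l, by simp [hl, hl'], rfl⟩

lemma mnr_ae {k : ℕ} (v : Fin (k+1) → Fin (k+1) → ℝ) :
    ∀ᵐ x : Fin (k+1) → ℝ, (Matrix.of v).det ≠ 0 → ∀ j, mnr (WW v x) j ≠ 0 := by
  classical
  by_cases hD : (Matrix.of v).det = 0
  · exact Eventually.of_forall (fun x h => absurd hD h)
  -- vertices
  have hA : ∀ᵐ x : Fin (k+1) → ℝ, mnr (WW v x) 0 ≠ 0 := by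
    set S : Finset (Fin (k+1) → ℝ) := (Finset.univ \ {0}).image (fun i => v i - v 0) with hS
    have hcard : S.card < k + 1 := by
      refine lt_of_le_of_lt Finset.card_image_le ?_
      rw [Finset.card_sdiff_of_subset (Finset.subset_univ _), Finset.card_univ, Fintype.card_fin,
        Finset.card_singleton]
      omega
    have h0 := span_null S hcard
    have h1 : (volume : Measure (Fin (k+1) → ℝ)) ((fun x => x + (- v 0)) ⁻¹'
        (Submodule.span ℝ (S : Set (Fin (k+1) → ℝ)) : Set (Fin (k+1) → ℝ))) = 0 := by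
      rw [measure_preimage_add_right]; exact h0
    have h2 := measure_eq_zero_iff_ae_notMem.1 h1
    filter_upwards [h2] with x hx h
    apply hx
    have hrel := comb_mnr (WW v x)
    rw [comb_WW, sum_mnr] at hrel
    have hs := sum_mnr v x
    rw [Fin.sum_univ_succ, h, zero_add] at hs
    set D := (Matrix.of v).det with hDdef
    have e1 : x + (- v 0) = ∑ i : Fin (k+1), (mnr (WW v x) i.succ / D) • (v i - v 0) := by
      have e2 : ∑ i : Fin (k+1), (mnr (WW v x) i.succ / D) • (v i - v 0) =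
          D⁻¹ • (∑ i : Fin (k+1), mnr (WW v x) i.succ • v i) -
            D⁻¹ • (∑ i : Fin (k+1), mnr (WW v x) i.succ) • v 0 := by
        rw [← smul_sub, Finset.sum_smul, ← Finset.sum_sub_distrib, Finset.smul_sum]
        refine Finset.sum_congr rfl (fun i _ => ?_)
        rw [← smul_sub, smul_smul, div_eq_inv_mul]
      rw [e2, hs, sub_eq_zero.1 hrel, smul_smul, smul_smul, inv_mul_cancel₀ hD, one_smul,
        one_smul, sub_eq_add_neg]
    show x + (- v 0) ∈ (Submodule.span ℝ (S : Set (Fin (k+1) → ℝ)) : Set (Fin (k+1) → ℝ))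
    rw [e1]
    refine Submodule.sum_mem _ (fun i _ => ?_)
    by_cases hi : i = 0
    · rw [hi, sub_self, smul_zero]; exact Submodule.zero_mem _
    · refine Submodule.smul_mem _ _ (Submodule.subset_span ?_)
      rw [hS, Finset.coe_image]
      exact ⟨i, by simp [hi], rfl⟩
  have hB : ∀ᵐ x : Fin (k+1) → ℝ, ∀ i : Fin (k+1), mnr (WW v x) i.succ ≠ 0 := by
    rw [ae_all_iff]; intro i
    set S : Finset (Fin (k+1) → ℝ) := (Finset.univ \ {i}).image v with hS
    have hcard : S.card < k + 1 := by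
      refine lt_of_le_of_lt Finset.card_image_le ?_
      rw [Finset.card_sdiff_of_subset (Finset.subset_univ _), Finset.card_univ, Fintype.card_fin,
        Finset.card_singleton]
      omega
    have h2 := measure_eq_zero_iff_ae_notMem.1 (span_null S hcard)
    filter_upwards [h2] with x hx h
    apply hx
    have hrel := comb_mnr (WW v x)
    rw [comb_WW, sum_mnr] at hrel
    set D := (Matrix.of v).det with hDdef
    have e1 : x = ∑ i : Fin (k+1), (mnr (WW v x) i.succ / D) • v i := by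
      have e2 : ∑ i : Fin (k+1), (mnr (WW v x) i.succ / D) • v i =
          D⁻¹ • (∑ i : Fin (k+1), mnr (WW v x) i.succ • v i) := by
        rw [Finset.smul_sum]
        refine Finset.sum_congr rfl (fun i _ => ?_)
        rw [smul_smul, div_eq_inv_mul]
      rw [e2, sub_eq_zero.1 hrel, smul_smul, inv_mul_cancel₀ hD, one_smul]
    rw [e1]
    refine Submodule.sum_mem _ (fun l _ => ?_)
    by_cases hl : l = i
    · rw [hl, h, zero_div, zero_smul]; exact Submodule.zero_mem _
    · refine Submodule.smul_mem _ _ (Submodule.subset_span ?_)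
      rw [hS, Finset.coe_image]
      exact ⟨l, by simp [hl], rfl⟩
  filter_upwards [hA, hB] with x h1 h2 _ j
  refine Fin.cases h1 (fun j => h2 j) j

lemma mem_hull_range {n : ℕ} (v : Fin n → Fin n → ℝ) (y : Fin n → ℝ) :
    y ∈ convexHull ℝ (Set.range v) ↔
      ∃ a : Fin n → ℝ, (∀ i, 0 ≤ a i) ∧ ∑ i, a i = 1 ∧ ∑ i, a i • v i = y := by
  have h := LinearMap.image_convexHull (Fintype.linearCombination ℝ v)
    (range fun i j : Fin n => if i = j then (1 : ℝ) else 0)
  rw [convexHull_basis_eq_stdSimplex, ← range_comp] at h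
  have h2 : (⇑(Fintype.linearCombination ℝ v) ∘ fun i j : Fin n => if i = j then (1 : ℝ) else 0) =
      v := by
    funext i
    simp [Fintype.linearCombination_apply]
  rw [h2] at h
  rw [← h]
  constructor
  · rintro ⟨a, ⟨h1, h2⟩, rfl⟩
    exact ⟨a, h1, h2, rfl⟩
  · rintro ⟨a, h1, h2, rfl⟩
    exact ⟨a, ⟨h1, h2⟩, rfl⟩

open Classical in
/-- rays and cones -/
lemma ray_link {n : ℕ} (v : Fin n → Fin n → ℝ) (x u : Fin n → ℝ) (hu : u ≠ 0) :
    ((SignType.sign (Matrix.det (Matrix.of (fun i => v i - x))) : SignType) : ℤ) *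
      (if ∃ s : ℝ, 0 ≤ s ∧ x + s • u ∈ convexHull ℝ (Set.range v) then 1 else 0) =
    Ph (fun i => v i - x) u := by
  unfold Ph
  by_cases hD : Matrix.det (Matrix.of (fun i => v i - x)) = 0
  · rw [hD]; simp
  congr 1
  have h : (∃ s : ℝ, 0 ≤ s ∧ x + s • u ∈ convexHull ℝ (Set.range v)) ↔
      (∃ a : Fin n → ℝ, (∀ l, 0 ≤ a l) ∧ ∑ l, a l • (v l - x) = u) := by
    constructor
    · rintro ⟨s, hs, hmem⟩
      rw [mem_hull_range] at hmem
      obtain ⟨a, h1, h2, h3⟩ := hmem
      have h4 : ∑ i, a i • (v i - x) = s • u := by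
        simp only [smul_sub, Finset.sum_sub_distrib]
        rw [← Finset.sum_smul, h2, one_smul, h3]; abel
      have hs0 : s ≠ 0 := by
        intro h0
        rw [h0, zero_smul] at h4
        have h5 : Matrix.vecMul a (Matrix.of (fun i => v i - x)) = 0 := by
          rw [← h4]; funext k; simp [Matrix.vecMul, dotProduct]
        have h6 := Matrix.eq_zero_of_vecMul_eq_zero hD h5
        rw [h6] at h2
        simp at h2
      refine ⟨fun i => s⁻¹ * a i, fun i => mul_nonneg (inv_nonneg.2 hs) (h1 i), ?_⟩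
      have h7 : ∑ i, (s⁻¹ * a i) • (v i - x) = s⁻¹ • ∑ i, a i • (v i - x) := by
        rw [Finset.smul_sum]
        exact Finset.sum_congr rfl (fun i _ => by rw [smul_smul])
      rw [h7, h4, smul_smul, inv_mul_cancel₀ hs0, one_smul]
    · rintro ⟨a, h1, h2⟩
      have hpos : 0 < ∑ i, a i := by
        refine lt_of_le_of_ne (Finset.sum_nonneg (fun i _ => h1 i)) (fun h0 => hu ?_)
        have h3 := (Finset.sum_eq_zero_iff_of_nonneg (fun i _ => h1 i)).1 h0.symm
        rw [← h2]
        exact Finset.sum_eq_zero (fun i hi => by rw [h3 i hi, zero_smul])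
      refine ⟨(∑ i, a i)⁻¹, (inv_pos.2 hpos).le, ?_⟩
      rw [mem_hull_range]
      refine ⟨fun i => (∑ i, a i)⁻¹ * a i, fun i => mul_nonneg (inv_pos.2 hpos).le (h1 i), ?_, ?_⟩
      · rw [← Finset.mul_sum, inv_mul_cancel₀ hpos.ne']
      · have h4 : ∑ i, ((∑ i, a i)⁻¹ * a i) • v i = (∑ i, a i)⁻¹ • ∑ i, a i • v i := by
          rw [Finset.smul_sum]
          exact Finset.sum_congr rfl (fun i _ => by rw [smul_smul])
        have h5 : ∑ i, a i • v i = u + (∑ i, a i) • x := by
          rw [← h2]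
          simp only [smul_sub, Finset.sum_sub_distrib]
          rw [← Finset.sum_smul]; abel
        rw [h4, h5, smul_add, smul_smul, inv_mul_cancel₀ hpos.ne', one_smul, add_comm]
  by_cases h' : ∃ s : ℝ, 0 ≤ s ∧ x + s • u ∈ convexHull ℝ (Set.range v)
  · rw [if_pos h', if_pos (h.1 h')]
  · rw [if_neg h', if_neg (fun h'' => h' (h.2 h''))]

open Classical in
/-- the explicit index function -/
noncomputable def idx0 {k m : ℕ} (c : (Fin (k+1) → Fin m) → ℤ) (p : Fin m → Fin (k+1) → ℝ)
    (x : Fin (k+1) → ℝ) : ℤ :=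
  ∑ σ : Fin (k+1) → Fin m, c σ *
      (((SignType.sign (Matrix.det (Matrix.of (fun i => p (σ i)))) : SignType) : ℤ) *
        (if x ∈ convexHull ℝ (insert 0 (Set.range (fun i => p (σ i)))) then 1 else 0))

open Classical in
/-- **Index function.**  For almost every point and almost every direction, the algebraic
intersection number of the ray and the cycle is the explicit index function. -/
theorem index_ae {k m : ℕ} (c : (Fin (k+1) → Fin m) → ℤ)
    (hc : ∀ f : (Fin k → Fin m) → ℤ,
      (∀ (τ : Fin k → Fin m) (π : Equiv.Perm (Fin k)),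
          f (τ ∘ ⇑π) = ((Equiv.Perm.sign π : ℤˣ) : ℤ) * f τ) →
      ∑ σ : Fin (k+1) → Fin m,
          c σ * ∑ i : Fin (k+1), (-1 : ℤ) ^ (i : ℕ) * f (σ ∘ Fin.succAbove i) = 0)
    (p : Fin m → Fin (k+1) → ℝ) :
    ∀ᵐ x : Fin (k+1) → ℝ, ∀ᵐ u : Fin (k+1) → ℝ,
      ∑ σ : Fin (k+1) → Fin m, c σ *
        (((SignType.sign (Matrix.det (Matrix.of (fun i => p (σ i) - x))) : SignType) : ℤ) *
          (if ∃ s : ℝ, 0 ≤ s ∧ x + s • u ∈ convexHull ℝ (Set.range (fun i => p (σ i)))
            then 1 else 0)) = idx0 c p x := by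
  have h1 : ∀ᵐ x : Fin (k+1) → ℝ, ∀ σ : Fin (k+1) → Fin m,
      (Matrix.of (fun i => p (σ i))).det ≠ 0 → ∀ j, mnr (WW (fun i => p (σ i)) x) j ≠ 0 := by
    rw [ae_all_iff]; intro σ; exact mnr_ae _
  filter_upwards [h1] with x hx
  have h2 : ∀ᵐ u : Fin (k+1) → ℝ, ∀ σ : Fin (k+1) → Fin m, Gn (WW (fun i => p (σ i)) x) u := by
    rw [ae_all_iff]; intro σ; exact Gn_ae _
  have h3 : ∀ᵐ u : Fin (k+1) → ℝ, u ≠ 0 := Measure.ae_ne _ 0
  filter_upwards [h2, h3] with u hu hu0
  unfold idx0
  rw [← cyc_sum c hc p x u hx hu]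
  exact Finset.sum_congr rfl (fun σ _ => by rw [ray_link (fun i => p (σ i)) x u hu0])

end Pool.Agent.TH564
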