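import Pool.Agent.TH564.Idx3

/-!
# The integral of the index function
-/

set_option linter.unusedSectionVars false

namespace Pool.Agent.TH564

open MeasureTheory Filter Topology Set Pool.Agent.W576 Pool.Agent.W31.Bel Pool.Agent.W409.Klein

/-- hyperbolic volume in the Klein model -/
noncomputable def hypm (k : ℕ) : Measure (Fin (k+1) → ℝ) :=
  ((volume : Measure (Fin (k+1) → ℝ)).restrict {x | ∑ j, (x j) ^ 2 < 1}).withDensity
    (fun y : Fin (k+1) → ℝ => ENNReal.ofReal ((1 - ∑ j, (y j) ^ 2) ^ (-((k : ℝ) + 2) / 2)))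

lemma hypm_ac (k : ℕ) : hypm k ≪ (volume : Measure (Fin (k+1) → ℝ)) :=
  (withDensity_absolutelyContinuous _ _).trans Measure.restrict_le_self.absolutelyContinuous

lemma ball_meas (k : ℕ) : MeasurableSet {x : Fin (k+1) → ℝ | ∑ j, (x j) ^ 2 < 1} :=
  measurableSet_lt (by fun_prop) measurable_const

lemma hypm_eq_kmu {k : ℕ} {S : Set (Fin (k+1) → ℝ)} (hS : MeasurableSet S)
    (hb : ∀ x ∈ S, ∑ j, (x j) ^ 2 ≤ 1) : hypm k S = kmu k S := by
  unfold hypm kmu
  rw [← restrict_withDensity (ball_meas k), Measure.restrict_apply hS]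
  rw [← measure_inter_add_sdiff S (ball_meas k) (μ := volume.withDensity _)]
  have h0 : (volume.withDensity (fun y : Fin (k+1) → ℝ =>
      ENNReal.ofReal ((1 - ∑ j, (y j) ^ 2) ^ (-((k : ℝ) + 2) / 2))))
      (S \ {x : Fin (k+1) → ℝ | ∑ j, (x j) ^ 2 < 1}) = 0 := by
    rw [withDensity_apply _ (hS.diff (ball_meas k))]
    rw [setLIntegral_congr_fun (hS.diff (ball_meas k)) (g := fun _ => 0)]
    · simp
    · intro x hx
      have h1 : ∑ j, (x j) ^ 2 = 1 := by
        refine le_antisymm (hb x hx.1) ?_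
        have := hx.2
        simp only [mem_ofPred_eq, not_lt] at this
        exact this
      simp only
      rw [h1, sub_self, Real.zero_rpow (by
        have : (0:ℝ) < (k:ℝ) + 2 := by positivity
        intro h
        have h2 : -((k:ℝ) + 2) = 0 := by linarith
        linarith)]
      simp
  rw [h0, add_zero]

lemma hull_ball {k : ℕ} (v : Fin (k+1) → Fin (k+1) → ℝ) (hv : ∀ i, ∑ j, (v i j) ^ 2 ≤ 1) :
    ∀ x ∈ convexHull ℝ (insert 0 (Set.range (fun i => v i))), ∑ j, (x j) ^ 2 ≤ 1 := by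
  intro x hx
  have hconv : Convex ℝ {x : Fin (k+1) → ℝ | ∑ j, (x j) ^ 2 ≤ 1} := by
    intro x hx y hy a b ha hb hab
    simp only [mem_ofPred_eq] at hx hy ⊢
    have h1 : ∀ j, ((a • x + b • y) j) ^ 2 ≤ a * (x j) ^ 2 + b * (y j) ^ 2 := by
      intro j
      simp only [Pi.add_apply, Pi.smul_apply, smul_eq_mul]
      have hb' : b = 1 - a := by linarith
      rw [hb']
      have ha' : 0 ≤ 1 - a := by linarith
      nlinarith [mul_nonneg (mul_nonneg ha ha') (sq_nonneg (x j - y j))]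
    calc ∑ j, ((a • x + b • y) j) ^ 2 ≤ ∑ j, (a * (x j) ^ 2 + b * (y j) ^ 2) :=
          Finset.sum_le_sum (fun j _ => h1 j)
      _ = a * ∑ j, (x j) ^ 2 + b * ∑ j, (y j) ^ 2 := by
          rw [Finset.sum_add_distrib, Finset.mul_sum, Finset.mul_sum]
      _ ≤ 1 := by nlinarith
  refine convexHull_min ?_ hconv hx
  intro y hy
  rcases hy with rfl | ⟨i, rfl⟩
  · simp
  · exact hv i

lemma hull_meas {k : ℕ} (v : Fin (k+1) → Fin (k+1) → ℝ) :
    MeasurableSet (convexHull ℝ (insert 0 (Set.range (fun i => v i)))) := by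
  have h : (insert 0 (Set.range (fun i => v i)) : Set (Fin (k+1) → ℝ)).Finite :=
    (Set.finite_range _).insert 0
  exact (Set.Finite.isClosed_convexHull (𝕜 := ℝ) h).measurableSet

lemma real_sign_eq (r : ℝ) : Real.sign r = ((SignType.sign r : SignType) : ℝ) := by
  rcases lt_trichotomy r 0 with h | h | h
  · rw [Real.sign_of_neg h, sign_neg h]; simp
  · rw [h]; simp
  · rw [Real.sign_of_pos h, sign_pos h]; simp

/-- the index function is integrable, with integral the signed sum of the volumes of the cones -/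
theorem int_idx0 {k m : ℕ} (hk : 1 ≤ k) (c : (Fin (k+1) → Fin m) → ℤ)
    (p : Fin m → Fin (k+1) → ℝ) (hp : ∀ σ, c σ ≠ 0 → ∀ i, ∑ j, (p (σ i) j) ^ 2 ≤ 1) :
    Integrable (fun x => (idx0 c p x : ℝ)) (hypm k) ∧
    ∫ x, (idx0 c p x : ℝ) ∂(hypm k) = ∑ σ : Fin (k+1) → Fin m, (c σ : ℝ) *
      (Real.sign (Matrix.det (Matrix.of (fun i j => p (σ i) j))) *
        (kmu k (convexHull ℝ (insert 0 (Set.range (fun i => p (σ i)))))).toReal) := by
  classical
  set f : (Fin (k+1) → Fin m) → (Fin (k+1) → ℝ) → ℝ := fun σ x => (c σ : ℝ) *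
      (Real.sign (Matrix.det (Matrix.of (fun i j => p (σ i) j))) *
        (convexHull ℝ (insert 0 (Set.range (fun i => p (σ i))))).indicator (fun _ => (1:ℝ)) x)
    with hf
  have he : (fun x => (idx0 c p x : ℝ)) = fun x => ∑ σ, f σ x := by
    funext x
    unfold idx0
    push_cast
    refine Finset.sum_congr rfl (fun σ _ => ?_)
    simp only [hf]
    rw [real_sign_eq, Set.indicator_apply]
  have hint : ∀ σ, Integrable (f σ) (hypm k) ∧ ∫ x, f σ x ∂(hypm k) = (c σ : ℝ) *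
      (Real.sign (Matrix.det (Matrix.of (fun i j => p (σ i) j))) *
        (kmu k (convexHull ℝ (insert 0 (Set.range (fun i => p (σ i)))))).toReal) := by
    intro σ
    by_cases hσ : c σ = 0
    · have : f σ = fun _ => 0 := by
        funext x; simp only [hf, hσ]; simp
      rw [this, hσ]
      exact ⟨integrable_zero _ _ _, by simp⟩
    · have h1 := hypm_eq_kmu (hull_meas (fun i => p (σ i)))
        (hull_ball (fun i => p (σ i)) (hp σ hσ))
      have h2 := kmu_hull_lt_top hk (fun i => p (σ i)) (hp σ hσ)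
      have h3 : Integrable ((convexHull ℝ (insert 0 (Set.range (fun i => p (σ i))))).indicator
          (fun _ => (1:ℝ))) (hypm k) := by
        rw [integrable_indicator_iff (hull_meas _)]
        refine integrableOn_const ?_
        rw [h1]; exact h2.ne
      refine ⟨(h3.const_mul _).const_mul _, ?_⟩
      simp only [hf]
      rw [integral_const_mul, integral_const_mul, integral_indicator (hull_meas _)]
      simp only [setIntegral_const, smul_eq_mul, mul_one]
      rw [Measure.real, h1]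
  rw [he]
  refine ⟨integrable_finsetSum _ (fun σ _ => (hint σ).1), ?_⟩
  rw [integral_finsetSum _ (fun σ _ => (hint σ).1)]
  exact Finset.sum_congr rfl (fun σ _ => (hint σ).2)

/-- **The bellows theorem for the integral of the index function.** -/
theorem idx_bellows {r m : ℕ} (hr : 1 ≤ r) (c : (Fin (r+2) → Fin m) → ℤ)
    (hc : ∀ f : (Fin (r+1) → Fin m) → ℤ,
      (∀ (τ : Fin (r+1) → Fin m) (π : Equiv.Perm (Fin (r+1))),
          f (τ ∘ ⇑π) = ((Equiv.Perm.sign π : ℤˣ) : ℤ) * f τ) →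
      ∑ σ : Fin (r+2) → Fin m,
          c σ * ∑ i : Fin (r+2), (-1 : ℤ) ^ (i : ℕ) * f (σ ∘ Fin.succAbove i) = 0)
    (q : ℝ → Fin m → Fin (r+2) → ℝ)
    (G : ℝ → Finset (Fin m) → Matrix (Fin (r+3)) (Fin (r+3)) ℝ)
    (H : VHyp (altc c) q G)
    (hb : ∀ σ, c σ ≠ 0 → ∀ i, ∀ t ∈ Icc (0:ℝ) 1, ∑ j, (q t (σ i) j) ^ 2 ≤ 1)
    {t : ℝ} (ht : t ∈ Icc (0:ℝ) 1) :
    ∫ x, (idx0 c (q t) x : ℝ) ∂(hypm (r+1)) = ∫ x, (idx0 c (q 0) x : ℝ) ∂(hypm (r+1)) := by
  obtain ⟨C, hC⟩ := klein_volume_cl (r+1)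
  have hI : ∀ t ∈ Icc (0:ℝ) 1, ∫ x, (idx0 c (q t) x : ℝ) ∂(hypm (r+1)) =
      C * ∑ σ : Fin (r+2) → Fin m, (c σ : ℝ) *
        SV (Fin.cons (Pi.single 0 1) (fun i => XX (q t (σ i))) : Fin (r+3) → Fin (r+3) → ℝ) := by
    intro t ht
    rw [(int_idx0 (by omega) c (q t) (fun σ hσ i => hb σ hσ i t ht)).2, Finset.mul_sum]
    refine Finset.sum_congr rfl (fun σ _ => ?_)
    by_cases hσ : c σ = 0
    · rw [hσ]; simp
    have h1 := hC (fun i => q t (σ i)) (fun i => hb σ hσ i t ht)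
    have e0 : (Fin.cons 1 0 : Fin (r+3) → ℝ) = Pi.single 0 1 := by
      funext j
      refine Fin.cases ?_ (fun j => ?_) j
      · simp
      · simp
    rw [e0] at h1
    unfold kmu
    rw [h1]
    unfold XX
    ring
  rw [hI t ht, hI 0 zero_memI]
  congr 1
  have halt : ∀ (t : ℝ) (σ : Fin (r+1+1) → Fin m) (π : Equiv.Perm (Fin (r+1+1))),
      SV (Fin.cons (Pi.single 0 1) (fun i => XX (q t ((σ ∘ π) i))) :
        Fin (r+3) → Fin (r+3) → ℝ) =
      (((Equiv.Perm.sign π : ℤˣ) : ℤ) : ℝ) *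
      SV (Fin.cons (Pi.single 0 1) (fun i => XX (q t (σ i))) : Fin (r+3) → Fin (r+3) → ℝ) := by
    intro t σ π
    have h1 : (Fin.cons (Pi.single 0 1) (fun i => XX (q t ((σ ∘ π) i))) :
        Fin (r+3) → Fin (r+3) → ℝ) =
        (Fin.cons (Pi.single 0 1) (fun i => XX (q t (σ i))) :
          Fin (r+3) → Fin (r+3) → ℝ) ∘ extP π :=
      cons_comp_perm (Pi.single 0 1) (fun i => XX (q t (σ i))) π
    rw [h1, SV_perm, sign_extP]
  have hvol : ∀ t : ℝ, ∑ σ : Fin (r+2) → Fin m, (altc c σ : ℝ) *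
        SV (Fin.cons (Pi.single 0 1) (fun i => XX (q t (σ i))) : Fin (r+3) → Fin (r+3) → ℝ) =
      ((r+2).factorial : ℝ) * ∑ σ : Fin (r+2) → Fin m, (c σ : ℝ) *
        SV (Fin.cons (Pi.single 0 1) (fun i => XX (q t (σ i))) :
          Fin (r+3) → Fin (r+3) → ℝ) := by
    intro t
    exact altc_pair c _ (fun σ π => halt t σ π)
  have hst := H.bellows hr (altc_alt c) (altc_cyc c hc) ht
  rw [hvol, hvol] at hst
  have hfac : ((r+2).factorial : ℝ) ≠ 0 := by positivity
  exact mul_left_cancel₀ hfac hst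

end Pool.Agent.TH564
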