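import Pool.Agent.TH564.Lim1d
import Pool.Agent.W409.Klein
import Pool.Agent.W31.BelFro2

/-!
# Volumes of simplices with vertices in the closed ball of the Klein model
-/

set_option linter.unusedSectionVars false

namespace Pool.Agent.TH564

open MeasureTheory Filter Topology Set Pool.Agent.W576 Pool.Agent.W31.Bel Pool.Agent.W409.Klein
open scoped ENNReal

lemma QQ_le {k : ℕ} (x : Fin (k+1) → Fin (k+1) → ℝ) (hx : ∀ i, ∑ j, (x i j) ^ 2 ≤ 1)
    (s : Fin (k+1) → ℝ) (h0 : ∀ i, 0 ≤ s i) : QQ x s ≤ (∑ i, s i) ^ 2 := by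
  have hA : ∀ j, (∑ i, s i * x i j) ^ 2 ≤ (∑ i, s i) * ∑ i, s i * (x i j) ^ 2 := by
    intro j
    exact Finset.sum_sq_le_sum_mul_sum_of_sq_le_mul (Finset.univ : Finset (Fin (k+1)))
      (f := fun i => s i) (g := fun i => s i * (x i j) ^ 2) (r := fun i => s i * x i j)
      (fun i _ => h0 i) (fun i _ => mul_nonneg (h0 i) (sq_nonneg _)) (fun i _ => le_of_eq (by ring))
  have hS : 0 ≤ ∑ i, s i := Finset.sum_nonneg (fun i _ => h0 i)
  have hB : QQ x s ≤ (∑ i, s i) * ∑ i, s i * ∑ j, (x i j) ^ 2 := by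
    unfold QQ
    refine (Finset.sum_le_sum (fun j _ => hA j)).trans ?_
    rw [← Finset.mul_sum, Finset.sum_comm]
    exact le_of_eq (by rw [Finset.sum_congr rfl (fun i _ => Finset.mul_sum _ _ _)])
  refine hB.trans ?_
  rw [sq]
  refine mul_le_mul_of_nonneg_left (Finset.sum_le_sum (fun i _ => ?_)) hS
  nlinarith [h0 i, hx i]

lemma QQ_lt_ae {k : ℕ} (x : Fin (k+1) → Fin (k+1) → ℝ) (hx : ∀ i, ∑ j, (x i j) ^ 2 ≤ 1) :
    ∀ᵐ s : Fin (k+1) → ℝ, s ∈ DD k → QQ x s < 1 := by
  -- the hyperplane of sum one is a null set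
  have hnull : ∀ᵐ s : Fin (k+1) → ℝ, ∑ i, s i ≠ 1 := by
    let L : (Fin (k+1) → ℝ) →ₗ[ℝ] ℝ := ∑ i, LinearMap.proj i
    have hL : ∀ s, L s = ∑ i, s i := fun s => by simp [L]
    set S : AffineSubspace ℝ (Fin (k+1) → ℝ) :=
      AffineSubspace.mk' (Pi.single 0 1) (LinearMap.ker L) with hS
    have hmem : ∀ s, s ∈ S ↔ ∑ i, s i = 1 := by
      intro s
      rw [hS, AffineSubspace.mem_mk', LinearMap.mem_ker, vsub_eq_sub, map_sub, hL, hL,
        Finset.sum_pi_single']
      simp [sub_eq_zero]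
    have hne : S ≠ ⊤ := by
      intro h
      have h0 : (0 : Fin (k+1) → ℝ) ∈ S := by rw [h]; exact AffineSubspace.mem_top _ _ _
      rw [hmem] at h0
      simp at h0
    have h1 := Measure.addHaar_affineSubspace (volume : Measure (Fin (k+1) → ℝ)) S hne
    rw [ae_iff]
    refine measure_mono_null (fun s hs => ?_) h1
    simp only [not_not, Set.mem_ofPred_eq] at hs
    exact (hmem s).2 hs
  filter_upwards [hnull] with s hs hsD
  have h1 : ∑ i, s i < 1 := lt_of_le_of_ne hsD.2 hs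
  have h0 : 0 ≤ ∑ i, s i := Finset.sum_nonneg (fun i _ => (hsD.1 i).le)
  have := QQ_le x hx s (fun i => (hsD.1 i).le)
  nlinarith

theorem kk_lintegral_cl {k : ℕ} (x : Fin (k+1) → Fin (k+1) → ℝ) (hx : ∀ i, ∑ j, (x i j) ^ 2 ≤ 1) :
    ∫⁻ s, ∫⁻ r, kk x s r = (∫⁻ s in DD k, ENNReal.ofReal ((1 - QQ x s) ^ (-((k : ℝ) + 2) / 2)))
      * ENNReal.ofReal (1 / 2 * Real.Gamma (((k:ℝ) + 2) / 2)) := by
  classical
  rw [lintegral_lintegral_swap (measurable_kk x).aemeasurable]
  have hpos : ∀ r : ℝ, 0 < r → ∫⁻ s, kk x s r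
      = ∫⁻ s in DD k, ENNReal.ofReal (r ^ (k+1) * Real.exp (-(1 - QQ x s) * r ^ 2)) := by
    intro r hr
    have hm : Measurable (fun s => kk x s r) :=
      (measurable_kk x).comp (measurable_id.prodMk measurable_const)
    have h1 := lintegral_map (μ := (volume : Measure (Fin (k+1) → ℝ))) hm (measurable_const_smul r)
    rw [Measure.map_addHaar_smul _ hr.ne', lintegral_smul_measure] at h1
    simp only [Module.finrank_fintype_fun_eq_card, Fintype.card_fin] at h1
    have h2 : ∫⁻ s, kk x s r = ENNReal.ofReal (r ^ (k+1)) * ∫⁻ s, kk x (r • s) r := by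
      rw [← h1, smul_eq_mul, ← mul_assoc, ← ENNReal.ofReal_mul (by positivity),
        abs_of_pos (by positivity), mul_inv_cancel₀ (by positivity), ENNReal.ofReal_one, one_mul]
    have hm' : Measurable (fun s => kk x (r • s) r) := hm.comp (measurable_const_smul r)
    rw [h2, ← lintegral_const_mul _ hm', ← lintegral_indicator (measurableSet_DD k)]
    refine lintegral_congr (fun s => ?_)
    unfold kk
    rw [Set.indicator_apply, Set.indicator_apply]
    have e : ((r • s, r) ∈ {p : (Fin (k+1) → ℝ) × ℝ | (∀ i, 0 < p.1 i) ∧ ∑ i, p.1 i ≤ p.2})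
        ↔ s ∈ DD k := by
      unfold DD
      simp only [Set.mem_ofPred_eq, Pi.smul_apply, smul_eq_mul, ← Finset.mul_sum]
      constructor
      · rintro ⟨h1, h2⟩
        exact ⟨fun i => (mul_pos_iff_of_pos_left hr).1 (h1 i), by
          by_contra hcon
          push Not at hcon
          nlinarith⟩
      · rintro ⟨h1, h2⟩
        exact ⟨fun i => mul_pos hr (h1 i), by nlinarith⟩
    simp only [e, QQ_smul]
    split_ifs
    · rw [← ENNReal.ofReal_mul (by positivity)]
      congr 3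
      ring
    · simp
  have hneg : ∀ r : ℝ, ¬ 0 < r → ∫⁻ s, kk x s r = 0 := by
    intro r hr
    rw [← lintegral_zero (μ := (volume : Measure (Fin (k+1) → ℝ)))]
    refine lintegral_congr (fun s => ?_)
    unfold kk
    rw [Set.indicator_apply, if_neg]
    rintro ⟨h1, h2⟩
    exact hr (lt_of_lt_of_le (Finset.sum_pos (fun i _ => h1 i) Finset.univ_nonempty) h2)
  have h3 : ∫⁻ r, ∫⁻ s, kk x s r = ∫⁻ r in Ioi (0:ℝ), ∫⁻ s in DD k,
      ENNReal.ofReal (r ^ (k+1) * Real.exp (-(1 - QQ x s) * r ^ 2)) := by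
    rw [← lintegral_indicator measurableSet_Ioi]
    refine lintegral_congr (fun r => ?_)
    rw [Set.indicator_apply]
    split_ifs with h
    · exact hpos r h
    · exact hneg r h
  rw [h3, lintegral_lintegral_swap]
  · have hm2 : Measurable (fun s => ENNReal.ofReal ((1 - QQ x s) ^ (-((k : ℝ) + 2) / 2))) := by
      have := (continuous_QQ x).measurable
      fun_prop
    rw [← lintegral_mul_const _ hm2]
    refine setLIntegral_congr_fun_ae (measurableSet_DD k) ?_
    filter_upwards [QQ_lt_ae x hx] with s hs hsD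
    exact inner_integral k (by linarith [hs hsD])
  · have := (continuous_QQ x).measurable
    refine Measurable.aemeasurable ?_
    unfold Function.uncurry
    have h4 : Measurable (fun a : ℝ × (Fin (k+1) → ℝ) => QQ x a.2) := this.comp measurable_snd
    fun_prop


theorem I0_vv_cl {k : ℕ} (x : Fin (k+1) → Fin (k+1) → ℝ) (hx : ∀ i, ∑ j, (x i j) ^ 2 ≤ 1) :
    I0 (gram (vv x)) = (∫⁻ s in DD k, ENNReal.ofReal ((1 - QQ x s) ^ (-((k : ℝ) + 2) / 2))).toReal
      * (1 / 2 * Real.Gamma (((k:ℝ) + 2) / 2)) := by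
  have hG : 0 < Real.Gamma (((k:ℝ) + 2) / 2) := Real.Gamma_pos_of_pos (by positivity)
  unfold I0
  rw [integral_eq_lintegral_of_nonneg_ae (Filter.Eventually.of_forall (fun s => (Real.exp_pos _).le)),
    orth_lintegral, kk_lintegral_cl x hx, ENNReal.toReal_mul, ENNReal.toReal_ofReal (by positivity)]
  refine Measurable.aestronglyMeasurable ?_
  unfold qf; fun_prop

theorem klein_volume_cl (k : ℕ) : ∃ C : ℝ, ∀ x : Fin (k+1) → Fin (k+1) → ℝ,
    (∀ i, ∑ j, (x i j) ^ 2 ≤ 1) →
    Real.sign (Matrix.det (Matrix.of (fun i j => x i j))) *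
      ((MeasureTheory.Measure.withDensity MeasureTheory.volume
        (fun y : Fin (k+1) → ℝ => ENNReal.ofReal ((1 - ∑ j, (y j) ^ 2) ^ (-((k : ℝ) + 2) / 2))))
        (convexHull ℝ (insert 0 (Set.range (fun i => x i))))).toReal
    = C * SV (Fin.cons (Fin.cons 1 0) (fun i => Fin.cons 1 (x i)) : Fin (k+2) → Fin (k+2) → ℝ) := by
  have hG : 0 < Real.Gamma (((k:ℝ) + 2) / 2) := Real.Gamma_pos_of_pos (by positivity)
  refine ⟨(1 / 2 * Real.Gamma (((k:ℝ) + 2) / 2))⁻¹, fun x hx => ?_⟩
  unfold SV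
  have h1 := det_vv x
  have h2 := I0_vv_cl x hx
  unfold vv at h1 h2
  rw [h1, h2]
  by_cases hd : Matrix.det (Matrix.of (fun i j => x i j)) = 0
  · rw [hd]; simp
  rw [vol_eq x hd, ENNReal.toReal_mul, ENNReal.toReal_ofReal (abs_nonneg _)]
  have h3 : Real.sign (Matrix.det (Matrix.of (fun i j => x i j))) * |Matrix.det (Matrix.of (fun i j => x i j))|
      = Matrix.det (Matrix.of (fun i j => x i j)) := by
    rcases lt_or_gt_of_ne hd with h | h
    · rw [Real.sign_of_neg h, abs_of_neg h]; ring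
    · rw [Real.sign_of_pos h, abs_of_pos h]; ring
  rw [← mul_assoc, h3]
  field_simp

/-- the vector of the light cone or of its interior over a point of the closed ball -/
def XX {n : ℕ} (x : Fin n → ℝ) : Fin (n+1) → ℝ := Fin.cons 1 x

lemma XX_zero {n : ℕ} (x : Fin n → ℝ) : XX x 0 = 1 := rfl

lemma XX_succ {n : ℕ} (x : Fin n → ℝ) (i : Fin n) : XX x i.succ = x i := rfl

lemma lor_XX {n : ℕ} (x y : Fin n → ℝ) : lor (XX x) (XX y) = -(1 - ∑ j, x j * y j) := lor_cons x y

lemma cau_XX {n : ℕ} {x : Fin n → ℝ} (hx : ∑ j, (x j) ^ 2 ≤ 1) : Cau (XX x) := by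
  refine ⟨by rw [XX_zero]; exact one_pos, ?_⟩
  rw [lor_XX]
  have : ∑ j, x j * x j = ∑ j, (x j) ^ 2 := Finset.sum_congr rfl (fun i _ => by ring)
  rw [this]; linarith

lemma lor_XX_neg {n : ℕ} {x y : Fin n → ℝ} (hx : ∑ j, (x j) ^ 2 ≤ 1) (hy : ∑ j, (y j) ^ 2 ≤ 1)
    (hxy : x ≠ y) : lor (XX x) (XX y) < 0 := by
  rw [lor_XX]
  have h1 : ∑ j, (x j - y j) ^ 2 = ∑ j, (x j) ^ 2 + ∑ j, (y j) ^ 2 - 2 * ∑ j, x j * y j := by
    rw [Finset.mul_sum, ← Finset.sum_add_distrib, ← Finset.sum_sub_distrib]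
    exact Finset.sum_congr rfl (fun i _ => by ring)
  have h2 : 0 < ∑ j, (x j - y j) ^ 2 := by
    obtain ⟨j, hj⟩ := Function.ne_iff.1 hxy
    refine Finset.sum_pos' (fun i _ => sq_nonneg _) ⟨j, Finset.mem_univ _, ?_⟩
    have : x j - y j ≠ 0 := sub_ne_zero.2 hj
    positivity
  linarith

/-- hyperbolic volume in the Klein model, without the restriction to the ball -/
noncomputable def kmu (k : ℕ) : Measure (Fin (k+1) → ℝ) :=
  MeasureTheory.Measure.withDensity MeasureTheory.volume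
        (fun y : Fin (k+1) → ℝ => ENNReal.ofReal ((1 - ∑ j, (y j) ^ 2) ^ (-((k : ℝ) + 2) / 2)))

lemma kmu_hull_lt_top {k : ℕ} (hk : 1 ≤ k) (x : Fin (k+1) → Fin (k+1) → ℝ)
    (hx : ∀ i, ∑ j, (x i j) ^ 2 ≤ 1) :
    kmu k (convexHull ℝ (insert 0 (Set.range (fun i => x i)))) < ⊤ := by
  classical
  by_cases hd : Matrix.det (Matrix.of (fun i j => x i j)) = 0
  · -- degenerate simplices are null sets
    have h0 : (volume : Measure (Fin (k+1) → ℝ))
        (convexHull ℝ (insert 0 (Set.range (fun i => x i)))) = 0 := by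
      rw [hull_eq]
      refine measure_mono_null (Set.image_subset_range _ _) ?_
      have h1 : Set.range (Matrix.toLin' (Matrix.of x).transpose) =
          (LinearMap.range (Matrix.toLin' (Matrix.of x).transpose) : Set (Fin (k+1) → ℝ)) := rfl
      rw [h1]
      refine Measure.addHaar_submodule _ _ (LinearMap.range_lt_top_of_det_eq_zero ?_).ne
      rw [LinearMap.det_toLin', Matrix.det_transpose]; exact hd
    unfold kmu
    rw [withDensity_apply_eq_zero' (by
      have : Measurable (fun y : Fin (k+1) → ℝ =>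
          ENNReal.ofReal ((1 - ∑ j, (y j) ^ 2) ^ (-((k : ℝ) + 2) / 2))) := by fun_prop
      exact this.aemeasurable) |>.2 (measure_mono_null Set.inter_subset_right h0)]
    exact ENNReal.zero_lt_top
  · unfold kmu
    rw [vol_eq x hd]
    refine ENNReal.mul_lt_top ENNReal.ofReal_lt_top ?_
    -- pairwise distinct vertices
    have hinj : ∀ i j, i ≠ j → x i ≠ x j := by
      intro i j hij h
      exact hd (Matrix.det_zero_of_row_eq hij (by funext l; exact congrFun h l))
    have hx0 : ∀ i, (0 : Fin (k+1) → ℝ) ≠ x i := by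
      intro i h
      exact hd (Matrix.det_eq_zero_of_row_eq_zero i (fun j => by
        have := congrFun h j
        exact this.symm))
    have hG : ∀ i j, i ≠ j → gram (vv x) i j < 0 := by
      intro i j
      refine Fin.cases ?_ (fun i => ?_) i
      · refine Fin.cases ?_ (fun j => ?_) j
        · intro h; exact absurd rfl h
        · intro _
          exact lor_XX_neg (x := 0) (y := x j) (by simp) (hx j) (hx0 j)
      · refine Fin.cases ?_ (fun j => ?_) j
        · intro _
          exact lor_XX_neg (x := x i) (y := 0) (hx i) (by simp) (hx0 i).symm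
        · intro hij
          exact lor_XX_neg (hx i) (hx j) (hinj i j (fun h => hij (by rw [h])))
    have hG0 : ∀ i, gram (vv x) i i ≤ 0 := by
      intro i
      refine Fin.cases ?_ (fun i => ?_) i
      · exact (cau_XX (x := 0) (by simp)).2
      · exact (cau_XX (hx i)).2
    obtain ⟨δ, hδ, hδ'⟩ := exists_off_delta _ hG
    have hint := integrableOn_cau (ι := Fin (k+2)) (by simp; omega) hδ hδ' hG0
    have hfin : ∫⁻ s in orth (Fin (k+2)), ENNReal.ofReal (Real.exp (qf (gram (vv x)) s)) < ⊤ :=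
      hint.lintegral_lt_top
    rw [orth_lintegral, kk_lintegral_cl x hx] at hfin
    have hΓ : 0 < Real.Gamma (((k:ℝ) + 2) / 2) := Real.Gamma_pos_of_pos (by positivity)
    have hne : ENNReal.ofReal (1 / 2 * Real.Gamma (((k:ℝ) + 2) / 2)) ≠ 0 := by
      rw [Ne, ENNReal.ofReal_eq_zero, not_le]; positivity
    by_contra hcon
    rw [not_lt, top_le_iff] at hcon
    rw [hcon, ENNReal.top_mul hne] at hfin
    exact lt_irrefl _ hfin

end Pool.Agent.TH564
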