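import Pool.Agent.TH564.I0two

/-!
# Functions on the parameter square which are bounded and Lipschitz at the bottom side
-/

set_option linter.unusedSectionVars false

namespace Pool.Agent.TH564

open MeasureTheory Filter Topology Set Pool.Agent.W576 Pool.Agent.W31.Bel

/-- bounded on the square, and Lipschitz in the second variable at zero -/
def LB (f : ℝ × ℝ → ℝ) : Prop :=
  ∃ C, 0 ≤ C ∧ ∀ p ∈ SQ, |f p| ≤ C ∧ |f p - f (p.1, 0)| ≤ C * p.2

lemma sq_base {p : ℝ × ℝ} (hp : p ∈ SQ) : (p.1, (0:ℝ)) ∈ SQ :=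
  ⟨hp.1, ⟨le_rfl, zero_le_one⟩⟩

lemma LB.const (a : ℝ) : LB (fun _ => a) :=
  ⟨|a|, abs_nonneg _, fun p hp => ⟨le_rfl, by
    simp only [sub_self, abs_zero]; exact mul_nonneg (abs_nonneg _) hp.2.1⟩⟩

lemma LB.of_fst (f : ℝ → ℝ) (hf : ContinuousOn f (Icc (0:ℝ) 1)) : LB (fun p => f p.1) := by
  obtain ⟨C, hC⟩ := isCompact_Icc.exists_bound_of_continuousOn hf
  refine ⟨max C 0, le_max_right _ _, fun p hp => ⟨?_, ?_⟩⟩
  · exact (hC p.1 hp.1).trans (le_max_left _ _)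
  · simp only [sub_self, abs_zero]; exact mul_nonneg (le_max_right _ _) hp.2.1

lemma LB.snd : LB (fun p => p.2) :=
  ⟨1, zero_le_one, fun p hp => ⟨by rw [abs_of_nonneg hp.2.1]; exact hp.2.2, by
    rw [sub_zero, abs_of_nonneg hp.2.1, one_mul]⟩⟩

lemma LB.add {f g : ℝ × ℝ → ℝ} (hf : LB f) (hg : LB g) : LB (fun p => f p + g p) := by
  obtain ⟨C, hC, h1⟩ := hf
  obtain ⟨D, hD, h2⟩ := hg
  refine ⟨C + D, add_nonneg hC hD, fun p hp => ⟨?_, ?_⟩⟩
  · exact (abs_add_le _ _).trans (add_le_add (h1 p hp).1 (h2 p hp).1)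
  · have e : f p + g p - (f (p.1, 0) + g (p.1, 0)) = (f p - f (p.1, 0)) + (g p - g (p.1, 0)) := by
      ring
    rw [e, add_mul]
    exact (abs_add_le _ _).trans (add_le_add (h1 p hp).2 (h2 p hp).2)

lemma LB.mul {f g : ℝ × ℝ → ℝ} (hf : LB f) (hg : LB g) : LB (fun p => f p * g p) := by
  obtain ⟨C, hC, h1⟩ := hf
  obtain ⟨D, hD, h2⟩ := hg
  refine ⟨C * D + C * D, by positivity, fun p hp => ⟨?_, ?_⟩⟩
  · rw [abs_mul]
    have := mul_le_mul (h1 p hp).1 (h2 p hp).1 (abs_nonneg _) hC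
    have h3 : 0 ≤ C * D := mul_nonneg hC hD
    linarith
  · have e : f p * g p - f (p.1, 0) * g (p.1, 0) =
        (f p - f (p.1, 0)) * g p + f (p.1, 0) * (g p - g (p.1, 0)) := by ring
    rw [e, add_mul]
    refine (abs_add_le _ _).trans (add_le_add ?_ ?_)
    · rw [abs_mul]
      calc |f p - f (p.1, 0)| * |g p| ≤ (C * p.2) * D :=
            mul_le_mul (h1 p hp).2 (h2 p hp).1 (abs_nonneg _) (mul_nonneg hC hp.2.1)
        _ = C * D * p.2 := by ring
    · rw [abs_mul]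
      calc |f (p.1, 0)| * |g p - g (p.1, 0)| ≤ C * (D * p.2) :=
            mul_le_mul (h1 _ (sq_base hp)).1 (h2 p hp).2 (abs_nonneg _) hC
        _ = C * D * p.2 := by ring

lemma LB.neg {f : ℝ × ℝ → ℝ} (hf : LB f) : LB (fun p => - f p) := by
  have := (LB.const (-1)).mul hf
  simpa using this

lemma LB.sub {f g : ℝ × ℝ → ℝ} (hf : LB f) (hg : LB g) : LB (fun p => f p - g p) := by
  have := hf.add hg.neg
  simpa [sub_eq_add_neg] using this

lemma LB.sum {ι : Type*} (s : Finset ι) (f : ι → ℝ × ℝ → ℝ) (hf : ∀ i ∈ s, LB (f i)) :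
    LB (fun p => ∑ i ∈ s, f i p) := by
  classical
  induction s using Finset.induction_on with
  | empty => simpa using LB.const 0
  | insert a s ha ih =>
    simp only [Finset.sum_insert ha]
    exact (hf a (Finset.mem_insert_self _ _)).add
      (ih (fun i hi => hf i (Finset.mem_insert_of_mem hi)))

lemma LB.prod {ι : Type*} (s : Finset ι) (f : ι → ℝ × ℝ → ℝ) (hf : ∀ i ∈ s, LB (f i)) :
    LB (fun p => ∏ i ∈ s, f i p) := by
  classical
  induction s using Finset.induction_on with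
  | empty => simpa using LB.const 1
  | insert a s ha ih =>
    simp only [Finset.prod_insert ha]
    exact (hf a (Finset.mem_insert_self _ _)).mul
      (ih (fun i hi => hf i (Finset.mem_insert_of_mem hi)))

lemma LB.inv_sqrt {f : ℝ × ℝ → ℝ} (hf : LB f) {δ : ℝ} (hδ : 0 < δ) :
    LB (fun p => (Real.sqrt (max (f p) δ))⁻¹) := by
  obtain ⟨C, hC, h1⟩ := hf
  have hs : 0 < Real.sqrt δ := Real.sqrt_pos.2 hδ
  have hge : ∀ x : ℝ, Real.sqrt δ ≤ Real.sqrt (max x δ) := fun x =>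
    Real.sqrt_le_sqrt (le_max_right _ _)
  refine ⟨max ((Real.sqrt δ)⁻¹) (C * (2 * (Real.sqrt δ) ^ 3)⁻¹), le_max_of_le_left (by positivity),
    fun p hp => ⟨?_, ?_⟩⟩
  · rw [abs_of_nonneg (by positivity)]
    exact (inv_anti₀ hs (hge _)).trans (le_max_left _ _)
  · set A := Real.sqrt (max (f p) δ) with hA
    set B := Real.sqrt (max (f (p.1, 0)) δ) with hB
    have hA0 : Real.sqrt δ ≤ A := hge _
    have hB0 : Real.sqrt δ ≤ B := hge _
    have hAp : 0 < A := hs.trans_le hA0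
    have hBp : 0 < B := hs.trans_le hB0
    have hAA : A * A = max (f p) δ := Real.mul_self_sqrt (hδ.le.trans (le_max_right _ _))
    have hBB : B * B = max (f (p.1, 0)) δ := Real.mul_self_sqrt (hδ.le.trans (le_max_right _ _))
    have hmax : |max (f (p.1, 0)) δ - max (f p) δ| ≤ C * p.2 := by
      refine (abs_max_sub_max_le_abs _ _ _).trans ?_
      rw [abs_sub_comm]; exact (h1 p hp).2
    have e : A⁻¹ - B⁻¹ = (max (f (p.1, 0)) δ - max (f p) δ) * (A * B * (A + B))⁻¹ := by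
      rw [← hAA, ← hBB]
      field_simp
      ring
    rw [e, abs_mul]
    have h3 : |(A * B * (A + B))⁻¹| ≤ (2 * (Real.sqrt δ) ^ 3)⁻¹ := by
      rw [abs_of_nonneg (by positivity)]
      refine inv_anti₀ (by positivity) ?_
      calc 2 * Real.sqrt δ ^ 3 = Real.sqrt δ * Real.sqrt δ * (Real.sqrt δ + Real.sqrt δ) := by ring
        _ ≤ A * B * (A + B) := by
            apply mul_le_mul _ (add_le_add hA0 hB0) (by positivity) (by positivity)
            exact mul_le_mul hA0 hB0 hs.le hAp.le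
    calc |max (f (p.1, 0)) δ - max (f p) δ| * |(A * B * (A + B))⁻¹| ≤
          (C * p.2) * (2 * (Real.sqrt δ) ^ 3)⁻¹ :=
          mul_le_mul hmax h3 (abs_nonneg _) (mul_nonneg hC hp.2.1)
      _ = (C * (2 * (Real.sqrt δ) ^ 3)⁻¹) * p.2 := by ring
      _ ≤ _ := mul_le_mul_of_nonneg_right (le_max_right _ _) hp.2.1

lemma LB.det {n : ℕ} (A : ℝ × ℝ → Fin n → Fin n → ℝ) (hA : ∀ i j, LB (fun p => A p i j)) :
    LB (fun p => (Matrix.of (A p)).det) := by
  simp only [Matrix.det_apply']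
  refine LB.sum _ _ (fun σ _ => ?_)
  exact (LB.const (((Equiv.Perm.sign σ : ℤˣ) : ℤ) : ℝ)).mul (LB.prod _ _ (fun i _ => hA _ _))

lemma LB.mulVec {n : ℕ} (A : ℝ × ℝ → Matrix (Fin n) (Fin n) ℝ) (y : Fin n → ℝ)
    (hA : ∀ i j, LB (fun p => A p i j)) (i : Fin n) : LB (fun p => (A p).mulVec y i) := by
  simp only [Matrix.mulVec, dotProduct]
  exact LB.sum _ _ (fun j _ => (hA i j).mul (LB.const (y j)))

lemma LB.cons {n d : ℕ} (a : ℝ × ℝ → Fin d → ℝ) (A : ℝ × ℝ → Fin n → Fin d → ℝ)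
    (ha : ∀ j, LB (fun p => a p j)) (hA : ∀ i j, LB (fun p => A p i j)) (i : Fin (n+1))
    (j : Fin d) : LB (fun p => (Fin.cons (a p) (A p) : Fin (n+1) → Fin d → ℝ) i j) := by
  refine Fin.cases ?_ (fun i => ?_) i
  · simpa using ha j
  · simpa using hA i j

lemma LB.Delta {a : ℕ} (A : ℝ × ℝ → Matrix (Fin (a+2)) (Fin (a+2)) ℝ)
    (f : ℝ × ℝ → Fin a → Fin (a+2) → ℝ)
    (hA : ∀ i j, LB (fun p => A p i j)) (hf : ∀ i j, LB (fun p => f p i j)) :
    LB (fun p => Pool.Agent.W576.Delta (A p) (f p)) := by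
  unfold Pool.Agent.W576.Delta
  refine (LB.const (1/2)).mul (LB.sum _ _ (fun k _ => (LB.const (eta k)).mul ?_))
  refine LB.det (fun p => (Fin.cons (Pi.single k 1)
    (Fin.cons ((A p).mulVec (Pi.single k 1)) (f p)) : Fin (a + 2) → Fin (a + 2) → ℝ)) ?_
  refine LB.cons _ _ (fun j => LB.const _) ?_
  exact LB.cons _ _ (fun j => LB.mulVec _ _ hA j) hf

lemma LB.lor {d : ℕ} (x y : ℝ × ℝ → Fin d → ℝ) (hx : ∀ j, LB (fun p => x p j))
    (hy : ∀ j, LB (fun p => y p j)) : LB (fun p => Pool.Agent.W576.lor (x p) (y p)) := by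
  unfold Pool.Agent.W576.lor
  exact LB.sum _ _ (fun k _ => (LB.const (eta k)).mul ((hx k).mul (hy k)))

section arc

variable {r m : ℕ} {v : Fin m → Fin (r+3) → ℝ} {c : (Fin (r+2) → Fin m) → ℤ}
  {g g' : ℝ → Finset (Fin m) → Matrix (Fin (r+3)) (Fin (r+3)) ℝ}

lemma ArcHyp.contY1 (H : ArcHyp v c g g') (s : Finset (Fin m)) (i j : Fin (r+3)) :
    ContinuousOn (fun t : ℝ => YY g g' t s i j) (Icc (0:ℝ) 1) := by
  unfold YY
  refine contOn_mul _ _ (H.hgc s) ?_ i j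
  refine contOn_mul _ _ ?_ (fun _ _ => continuousOn_const)
  refine contOn_mul _ _ (fun _ _ => continuousOn_const) ?_
  intro i j
  simp only [Matrix.transpose_apply]
  exact H.contg s j i

lemma ArcHyp.LB_Y (H : ArcHyp v c g g') (s : Finset (Fin m)) (i j : Fin (r+3)) :
    LB (fun p => YY g g' p.1 s i j) :=
  LB.of_fst (fun t => YY g g' t s i j) (H.contY1 s i j)

lemma ArcHyp.LB_U (H : ArcHyp v c g g') (s : Finset (Fin m)) (j : Fin m) (k : Fin (r+3)) :
    LB (fun p => UU v g p.1 s p.2 j k) := by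
  have h1 : LB (fun p => ((g p.1 s).mulVec (v j)) k) :=
    LB.of_fst (fun t => ((g t s).mulVec (v j)) k) (contOn_mulVec' _ _ (H.contg s) k)
  have h2 := h1.add (LB.snd.mul (LB.const ((ee : Fin (r+3) → ℝ) k)))
  exact h2

end arc

end Pool.Agent.TH564
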