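import Pool.Agent.TH564.Del4

/-!
# The limit of the main term in dimension three
-/

set_option linter.unusedSectionVars false

namespace Pool.Agent.TH564

open MeasureTheory Filter Topology Set Pool.Agent.W576 Pool.Agent.W31.Bel
open Pool.Agent.W365.DeltaFrame (JJ so_inv so_inv')

/-- uniform smallness near the bottom side -/
def Sm (f : ℝ × ℝ → ℝ) : Prop :=
  ∀ η > 0, ∃ ε0 > 0, ∀ ε ∈ Ioo (0:ℝ) ε0, ∀ t ∈ Ioo (0:ℝ) 1, |f (t, ε)| ≤ η

lemma Sm.of_cont {f : ℝ × ℝ → ℝ} (hf : ContinuousOn f SQ) (h0 : ∀ t ∈ Ioo (0:ℝ) 1, f (t, 0) = 0) :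
    Sm f := fun η hη => unif_small f hf h0 η hη

lemma Sm.add {f g : ℝ × ℝ → ℝ} (hf : Sm f) (hg : Sm g) : Sm (fun p => f p + g p) := by
  intro η hη
  obtain ⟨a, ha, h1⟩ := hf (η/2) (by positivity)
  obtain ⟨b, hb, h2⟩ := hg (η/2) (by positivity)
  refine ⟨min a b, lt_min ha hb, fun ε hε t ht => ?_⟩
  have k1 := h1 ε ⟨hε.1, hε.2.trans_le (min_le_left _ _)⟩ t ht
  have k2 := h2 ε ⟨hε.1, hε.2.trans_le (min_le_right _ _)⟩ t ht
  refine (abs_add_le _ _).trans ?_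
  linarith

lemma Sm.zero : Sm (fun _ => 0) := fun η hη => ⟨1, one_pos, fun ε _ t _ => by simpa using hη.le⟩

lemma Sm.sum {ι : Type*} (s : Finset ι) (f : ι → ℝ × ℝ → ℝ) (hf : ∀ i ∈ s, Sm (f i)) :
    Sm (fun p => ∑ i ∈ s, f i p) := by
  classical
  induction s using Finset.induction_on with
  | empty => simpa using Sm.zero
  | insert a s ha ih =>
    simp only [Finset.sum_insert ha]
    exact (hf a (Finset.mem_insert_self _ _)).add
      (ih (fun i hi => hf i (Finset.mem_insert_of_mem hi)))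

lemma Sm.of_le {f g : ℝ × ℝ → ℝ} (hg : Sm g) (C : ℝ) {ε1 : ℝ} (hε1 : 0 < ε1)
    (h : ∀ ε ∈ Ioo (0:ℝ) ε1, ∀ t ∈ Ioo (0:ℝ) 1, |f (t, ε)| ≤ C * |g (t, ε)|) : Sm f := by
  intro η hη
  obtain ⟨a, ha, h1⟩ := hg (η / (|C| + 1)) (by positivity)
  refine ⟨min a ε1, lt_min ha hε1, fun ε hε t ht => ?_⟩
  have k1 := h1 ε ⟨hε.1, hε.2.trans_le (min_le_left _ _)⟩ t ht
  have k2 := h ε ⟨hε.1, hε.2.trans_le (min_le_right _ _)⟩ t ht
  refine k2.trans ?_
  have h3 : C ≤ |C| + 1 := (le_abs_self C).trans (by linarith)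
  calc C * |g (t, ε)| ≤ (|C| + 1) * |g (t, ε)| := mul_le_mul_of_nonneg_right h3 (abs_nonneg _)
    _ ≤ (|C| + 1) * (η / (|C| + 1)) := mul_le_mul_of_nonneg_left k1 (by positivity)
    _ = η := by field_simp

lemma Sm.congr {f g : ℝ × ℝ → ℝ} (hg : Sm g) {ε1 : ℝ} (hε1 : 0 < ε1)
    (h : ∀ ε ∈ Ioo (0:ℝ) ε1, ∀ t ∈ Ioo (0:ℝ) 1, f (t, ε) = g (t, ε)) : Sm f :=
  hg.of_le 1 hε1 (fun ε hε t ht => by rw [h ε hε t ht, one_mul])

section defs

variable {m : ℕ} (v : Fin m → Fin (1+3) → ℝ)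
  (g g' : ℝ → Finset (Fin m) → Matrix (Fin (1+3)) (Fin (1+3)) ℝ)

/-- minus the square of the perturbed position -/
noncomputable def al (s : Finset (Fin m)) (j : Fin m) (p : ℝ × ℝ) : ℝ :=
  - lor (UU v g p.1 s p.2 j) (UU v g p.1 s p.2 j)

/-- minus the product of perturbed positions -/
noncomputable def be (s : Finset (Fin m)) (i j : Fin m) (p : ℝ × ℝ) : ℝ :=
  - lor (UU v g p.1 s p.2 i) (UU v g p.1 s p.2 j)

/-- discriminant -/
noncomputable def dd (s : Finset (Fin m)) (i j : Fin m) (p : ℝ × ℝ) : ℝ :=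
  be v g s i j p ^ 2 - al v g s i p * al v g s j p

/-- half of the discriminant at the bottom -/
noncomputable def de (i j : Fin m) : ℝ :=
  (lor (v i) (v j) ^ 2 - lor (v i) (v i) * lor (v j) (v j)) / 2

/-- root of the truncated discriminant -/
noncomputable def rt (s : Finset (Fin m)) (i j : Fin m) (p : ℝ × ℝ) : ℝ :=
  Real.sqrt (max (dd v g s i j p) (de v i j))

/-- the pairing -/
noncomputable def dl (s : Finset (Fin m)) (i j : Fin m) (p : ℝ × ℝ) : ℝ :=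
  D2 (YY g g' p.1 s) (UU v g p.1 s p.2 i) (UU v g p.1 s p.2 j)

open Classical in
/-- the regular part of the orthant integral -/
noncomputable def ww (s : Finset (Fin m)) (i j : Fin m) (p : ℝ × ℝ) : ℝ :=
  if lor (v i) (v i) = 0 ∨ lor (v j) (v j) = 0 then
    (2 * Real.log (be v g s i j p + rt v g s i j p) -
      (if lor (v i) (v i) = 0 then 0 else Real.log (al v g s i p)) -
      (if lor (v j) (v j) = 0 then 0 else Real.log (al v g s j p))) * ((rt v g s i j p)⁻¹ * (1/4))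
  else I0 (G2 (al v g s i p) (be v g s i j p) (al v g s j p))

/-- the coefficient of the singular part -/
noncomputable def ll (s : Finset (Fin m)) (i j : Fin m) (p : ℝ × ℝ) : ℝ :=
  dl v g g' s i j p * ((rt v g s i j p)⁻¹ * (1/4))

end defs

section lim

variable {m : ℕ} {v : Fin m → Fin (1+3) → ℝ} {c : (Fin (1+2) → Fin m) → ℤ}
  {g g' : ℝ → Finset (Fin m) → Matrix (Fin (1+3)) (Fin (1+3)) ℝ}

lemma gram_G2 (f : Fin (1+1) → Fin (1+3) → ℝ) :
    gram f = G2 (-lor (f 0) (f 0)) (-lor (f 0) (f 1)) (-lor (f 1) (f 1)) := by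
  ext i j
  unfold G2 gram
  fin_cases i <;> fin_cases j
  · simp
  · simp
  · simp
    rw [lor_comm']
  · simp

lemma MM_eq (t ε : ℝ) : MM v c g g' t ε = ∑ σ : Fin (1+2) → Fin m, (c σ : ℝ) *
    (dl v g g' (rng σ) (σ 1) (σ 2) (t, ε) *
      I0 (G2 (al v g (rng σ) (σ 1) (t, ε)) (be v g (rng σ) (σ 1) (σ 2) (t, ε))
        (al v g (rng σ) (σ 2) (t, ε)))) := by
  unfold MM
  rw [sum_cons_eq (n := 1+1)]
  refine Finset.sum_congr rfl (fun τ _ => Finset.sum_congr rfl (fun q _ => ?_))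
  rw [Delta_eq_D2, gram_G2]
  rfl

lemma ArcHyp.lor_base (H : ArcHyp v c g g') {t : ℝ} (ht : t ∈ Icc (0:ℝ) 1) {s : Finset (Fin m)}
    (hs : s ∈ supp c) (i j : Fin m) :
    lor (UU v g t s 0 i) (UU v g t s 0 j) = lor (v i) (v j) := by
  rw [UU_zero, UU_zero, ((H.hg t ht).so s hs).1]

lemma ArcHyp.al_base (H : ArcHyp v c g g') {t : ℝ} (ht : t ∈ Icc (0:ℝ) 1) {s : Finset (Fin m)}
    (hs : s ∈ supp c) (j : Fin m) : al v g s j (t, 0) = -lor (v j) (v j) := by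
  unfold al; rw [H.lor_base ht hs]

lemma ArcHyp.be_base (H : ArcHyp v c g g') {t : ℝ} (ht : t ∈ Icc (0:ℝ) 1) {s : Finset (Fin m)}
    (hs : s ∈ supp c) (i j : Fin m) : be v g s i j (t, 0) = -lor (v i) (v j) := by
  unfold be; rw [H.lor_base ht hs]

lemma ArcHyp.dd_base (H : ArcHyp v c g g') {t : ℝ} (ht : t ∈ Icc (0:ℝ) 1) {s : Finset (Fin m)}
    (hs : s ∈ supp c) (i j : Fin m) : dd v g s i j (t, 0) = 2 * de v i j := by
  unfold dd de; rw [H.al_base ht hs, H.al_base ht hs, H.be_base ht hs]; ring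

lemma ArcHyp.al_cont (H : ArcHyp v c g g') (s : Finset (Fin m)) (j : Fin m) :
    ContinuousOn (al v g s j) SQ :=
  (contOn_lor _ _ (H.contU s j) (H.contU s j)).neg

lemma ArcHyp.be_cont (H : ArcHyp v c g g') (s : Finset (Fin m)) (i j : Fin m) :
    ContinuousOn (be v g s i j) SQ :=
  (contOn_lor _ _ (H.contU s i) (H.contU s j)).neg

lemma ArcHyp.dd_cont (H : ArcHyp v c g g') (s : Finset (Fin m)) (i j : Fin m) :
    ContinuousOn (dd v g s i j) SQ :=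
  ((H.be_cont s i j).pow 2).sub ((H.al_cont s i).mul (H.al_cont s j))

lemma ArcHyp.rt_cont (H : ArcHyp v c g g') (s : Finset (Fin m)) (i j : Fin m) :
    ContinuousOn (rt v g s i j) SQ := by
  unfold rt
  exact Real.continuous_sqrt.comp_continuousOn ((H.dd_cont s i j).sup continuousOn_const)

lemma ArcHyp.dl_cont (H : ArcHyp v c g g') (s : Finset (Fin m)) (i j : Fin m) :
    ContinuousOn (dl v g g' s i j) SQ := by
  unfold dl D2
  refine contOn_Delta (fun p : ℝ × ℝ => YY g g' p.1 s)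
    (fun p : ℝ × ℝ => ![UU v g p.1 s p.2 i, UU v g p.1 s p.2 j]) (H.contY s) ?_
  intro k l
  fin_cases k
  · exact H.contU s i l
  · exact H.contU s j l

lemma ArcHyp.al_LB (H : ArcHyp v c g g') (s : Finset (Fin m)) (j : Fin m) :
    LB (al v g s j) := (LB.lor _ _ (H.LB_U s j) (H.LB_U s j)).neg

lemma ArcHyp.be_LB (H : ArcHyp v c g g') (s : Finset (Fin m)) (i j : Fin m) :
    LB (be v g s i j) := (LB.lor _ _ (H.LB_U s i) (H.LB_U s j)).neg

lemma ArcHyp.dd_LB (H : ArcHyp v c g g') (s : Finset (Fin m)) (i j : Fin m) :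
    LB (dd v g s i j) := by
  have := ((H.be_LB s i j).mul (H.be_LB s i j)).sub ((H.al_LB s i).mul (H.al_LB s j))
  unfold dd
  simpa only [sq] using this

lemma ArcHyp.dl_LB (H : ArcHyp v c g g') (s : Finset (Fin m)) (i j : Fin m) :
    LB (dl v g g' s i j) := by
  unfold dl D2
  refine LB.Delta (fun p : ℝ × ℝ => YY g g' p.1 s)
    (fun p : ℝ × ℝ => ![UU v g p.1 s p.2 i, UU v g p.1 s p.2 j]) (H.LB_Y s) ?_
  intro k l
  fin_cases k
  · exact H.LB_U s i l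
  · exact H.LB_U s j l

lemma ArcHyp.ll_LB (H : ArcHyp v c g g') (s : Finset (Fin m)) (i j : Fin m)
    (hd : 0 < de v i j) : LB (ll v g g' s i j) := by
  unfold ll rt
  exact (H.dl_LB s i j).mul (((H.dd_LB s i j).inv_sqrt hd).mul (LB.const (1/4)))

lemma ArcHyp.be_pos (H : ArcHyp v c g g') {s : Finset (Fin m)} (hs : s ∈ supp c)
    {i j : Fin m} (hi : i ∈ s) (hj : j ∈ s) (hij : i ≠ j) {p : ℝ × ℝ} (hp : p ∈ SQ) :
    0 < be v g s i j p := by
  unfold be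
  have h := gram_pert (fun k : Fin 2 => (g p.1 s).mulVec (v (![i, j] k))) p.2 0 1
  have e0 : gram (fun k : Fin 2 => (g p.1 s).mulVec (v (![i, j] k)) + p.2 • ee) 0 1 =
      lor (UU v g p.1 s p.2 i) (UU v g p.1 s p.2 j) := rfl
  rw [e0] at h
  rw [h, ((H.hg p.1 hp.1).so s hs).1]
  have h1 := H.hneg s hs i hi j hj hij
  have h2 := (H.cau hp.1 hs i).1
  have h3 := (H.cau hp.1 hs j).1
  have h4 := hp.2.1
  simp only [Matrix.cons_val_zero, Matrix.cons_val_one]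
  nlinarith [mul_nonneg h4 h2.le, mul_nonneg h4 h3.le, sq_nonneg p.2]

lemma ArcHyp.al_ge (H : ArcHyp v c g g') {μ : ℝ}
    (hμ : ∀ t ∈ Icc (0:ℝ) 1, ∀ s ∈ supp c, ∀ j, μ ≤ ((g t s).mulVec (v j)) 0)
    {s : Finset (Fin m)} (hs : s ∈ supp c) (j : Fin m) {p : ℝ × ℝ} (hp : p ∈ SQ) :
    - lor (v j) (v j) + 2 * μ * p.2 ≤ al v g s j p := by
  unfold al
  have h := gram_pert (fun _ : Fin 1 => (g p.1 s).mulVec (v j)) p.2 0 0
  have e0 : gram (fun _ : Fin 1 => (g p.1 s).mulVec (v j) + p.2 • ee) 0 0 =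
      lor (UU v g p.1 s p.2 j) (UU v g p.1 s p.2 j) := rfl
  rw [e0] at h
  rw [h, ((H.hg p.1 hp.1).so s hs).1]
  have h2 := hμ p.1 hp.1 s hs j
  have h4 := hp.2.1
  nlinarith [mul_le_mul_of_nonneg_left h2 h4, sq_nonneg p.2]

lemma ArcHyp.de_pos (H : ArcHyp v c g g') {s : Finset (Fin m)} (hs : s ∈ supp c)
    {i j : Fin m} (hi : i ∈ s) (hj : j ∈ s) (hij : i ≠ j)
    (hn : lor (v i) (v i) = 0 ∨ lor (v j) (v j) = 0) : 0 < de v i j := by
  unfold de
  have h1 := H.hneg s hs i hi j hj hij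
  have h2 : lor (v i) (v i) * lor (v j) (v j) = 0 := by
    rcases hn with h | h <;> rw [h] <;> ring
  rw [h2]
  have := mul_pos_of_neg_of_neg h1 h1
  nlinarith

end lim

end Pool.Agent.TH564
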