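import Pool.Agent.TH564.Lim1

/-!
# The limit of the main term in dimension three: the singular part
-/

set_option linter.unusedSectionVars false

namespace Pool.Agent.TH564

open MeasureTheory Filter Topology Set Pool.Agent.W576 Pool.Agent.W31.Bel
open Pool.Agent.W365.DeltaFrame (JJ so_inv so_inv')

section lim

variable {m : ℕ} {v : Fin m → Fin (1+3) → ℝ} {c : (Fin (1+2) → Fin m) → ℤ}
  {g g' : ℝ → Finset (Fin m) → Matrix (Fin (1+3)) (Fin (1+3)) ℝ}

open Classical in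
/-- the coefficient of the singular part at a vertex -/
noncomputable def rr (v : Fin m → Fin (1+3) → ℝ) (c : (Fin (1+2) → Fin m) → ℤ)
    (g g' : ℝ → Finset (Fin m) → Matrix (Fin (1+3)) (Fin (1+3)) ℝ) (k : Fin (1+2)) (j : Fin m)
    (p : ℝ × ℝ) : ℝ :=
  ∑ σ : Fin (1+2) → Fin m, if σ k = j then (c σ : ℝ) * ll v g g' (rng σ) (σ 1) (σ 2) p else 0

lemma ll_swap (s : Finset (Fin m)) (i j : Fin m) (p : ℝ × ℝ) :
    ll v g g' s j i p = - ll v g g' s i j p := by
  have h1 : dl v g g' s j i p = - dl v g g' s i j p := by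
    unfold dl; exact D2_swap _ _ _
  have h2 : be v g s j i p = be v g s i j p := by
    unfold be; rw [lor_comm']
  have h3 : de v j i = de v i j := by
    unfold de; rw [lor_comm' (v j) (v i)]; ring
  have h4 : rt v g s j i p = rt v g s i j p := by
    unfold rt dd; rw [h2, h3, mul_comm (al v g s j p)]
  unfold ll
  rw [h1, h4]; ring

lemma rr_two (hcalt : ∀ (σ : Fin (1+2) → Fin m) (π : Equiv.Perm (Fin (1+2))),
      c (σ ∘ π) = ((Equiv.Perm.sign π : ℤˣ) : ℤ) * c σ) (j : Fin m) (p : ℝ × ℝ) :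
    rr v c g g' 2 j p = rr v c g g' 1 j p := by
  classical
  unfold rr
  rw [← Equiv.sum_comp (Equiv.arrowCongr (Equiv.swap (1 : Fin (1+2)) 2) (Equiv.refl (Fin m)))]
  refine Finset.sum_congr rfl (fun σ _ => ?_)
  have e : (Equiv.arrowCongr (Equiv.swap (1 : Fin (1+2)) 2) (Equiv.refl (Fin m))) σ =
      σ ∘ (Equiv.swap (1 : Fin (1+2)) 2) := by
    funext i; rfl
  have e1 : (σ ∘ (Equiv.swap (1 : Fin (1+2)) 2)) 1 = σ 2 := by
    simp only [Function.comp_apply, Equiv.swap_apply_left]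
  have e2 : (σ ∘ (Equiv.swap (1 : Fin (1+2)) 2)) 2 = σ 1 := by
    simp only [Function.comp_apply, Equiv.swap_apply_right]
  rw [e, hcalt, rng_comp_perm, Equiv.Perm.sign_swap (by decide), e1, e2, ll_swap]
  congr 1
  push_cast
  ring

lemma ArcHyp.vel_eq (H : ArcHyp v c g g') {t : ℝ} (ht : t ∈ Ioo (0:ℝ) 1) {s s' : Finset (Fin m)}
    (hs : s ∈ supp c) (hs' : s' ∈ supp c) {j : Fin m} (hj : j ∈ s) (hj' : j ∈ s') :
    (g' t s).mulVec (v j) = (g' t s').mulVec (v j) := by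
  have ht' : t ∈ Icc (0:ℝ) 1 := ⟨ht.1.le, ht.2.le⟩
  funext k
  exact deriv_eq_of_eq ht (fun u hu => congrFun ((H.hg u hu).inc s hs s' hs' j hj hj') k)
        (hasDerivAt_mulVec (fun t => g t s) (g' t s) t (H.hg' t ht' s) (v j) k)
        (hasDerivAt_mulVec (fun t => g t s') (g' t s') t
          (H.hg' t ht' s') (v j) k)

lemma ArcHyp.rr_base (H : ArcHyp v c g g') {t : ℝ} (ht : t ∈ Ioo (0:ℝ) 1) {j : Fin m}
    (hj : lor (v j) (v j) = 0) : rr v c g g' 1 j (t, 0) = 0 := by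
  classical
  have ht' : t ∈ Icc (0:ℝ) 1 := ⟨ht.1.le, ht.2.le⟩
  by_cases hex : ∃ s ∈ supp c, j ∈ s
  swap
  · unfold rr
    refine Finset.sum_eq_zero (fun σ _ => ?_)
    split_ifs with h1
    · by_cases hσ : c σ = 0
      · simp [hσ]
      · exact absurd ⟨rng σ, mem_supp_of hσ, h1 ▸ mem_rngσ σ 1⟩ hex
    · rfl
  obtain ⟨s0, hs0, hjs0⟩ := hex
  set pos : Fin m → Fin (1+3) → ℝ := fun k =>
    if h : ∃ s ∈ supp c, k ∈ s then (g t h.choose).mulVec (v k) else 0 with hpos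
  have hposs : ∀ s ∈ supp c, ∀ k ∈ s, (g t s).mulVec (v k) = pos k := by
    intro s hs k hk
    have hex : ∃ s ∈ supp c, k ∈ s := ⟨s, hs, hk⟩
    simp only [hpos]
    rw [dif_pos hex]
    exact (H.hg t ht').inc s hs _ hex.choose_spec.1 k hk hex.choose_spec.2
  have hlor : ∀ s ∈ supp c, ∀ i ∈ s, ∀ k ∈ s, lor (pos i) (pos k) = lor (v i) (v k) := by
    intro s hs i hi k hk
    rw [← hposs s hs i hi, ← hposs s hs k hk, ((H.hg t ht').so s hs).1]
  set X : Finset (Fin m) → Matrix (Fin (1+3)) (Fin (1+3)) ℝ :=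
    fun s => YY g g' t s - YY g g' t s0 with hX
  have hXs : ∀ s ∈ supp c, ∀ x y, lor ((X s).mulVec x) y = - lor x ((X s).mulVec y) := by
    intro s hs x y
    simp only [hX, Matrix.sub_mulVec]
    have h1 := H.YY_skew ht hs x y
    have h2 := H.YY_skew ht hs0 x y
    rw [sub_eq_add_neg, sub_eq_add_neg, lor_add_left, lor_add_right,
      ← neg_one_smul ℝ ((YY g g' t s0).mulVec x), ← neg_one_smul ℝ ((YY g g' t s0).mulVec y),
      lor_smul_left, lor_smul_right, h1, h2]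
    ring
  have hX0 : ∀ s ∈ supp c, j ∈ s → (X s).mulVec (pos j) = 0 := by
    intro s hs hjs
    simp only [hX, Matrix.sub_mulVec]
    have h1 : (YY g g' t s).mulVec (pos j) = (g' t s).mulVec (v j) := by
      rw [← hposs s hs j hjs, H.YY_mulVec ht' hs]
    have h2 : (YY g g' t s0).mulVec (pos j) = (g' t s0).mulVec (v j) := by
      rw [← hposs s0 hs0 j hjs0, H.YY_mulVec ht' hs0]
    rw [h1, h2, H.vel_eq ht hs hs0 hjs hjs0, sub_self]
  have hpj : lor (pos j) (pos j) = 0 := by rw [hlor s0 hs0 j hjs0 j hjs0, hj]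
  -- the value of the coefficient
  have hll : ∀ σ, c σ ≠ 0 → σ 1 = j → ll v g g' (rng σ) (σ 1) (σ 2) (t, 0) =
      D2 (YY g g' t (rng σ)) (pos j) (pos (σ 2)) * ((-lor (v j) (v (σ 2)))⁻¹ * (1/4)) := by
    intro σ hσ h1
    have hs := mem_supp_of hσ
    have hne : σ 1 ≠ σ 2 := fun h => by
      have := H.inj hσ h
      simp at this
    have hneg := H.hneg _ hs _ (mem_rngσ σ 1) _ (mem_rngσ σ 2) hne
    unfold ll
    congr 1
    · unfold dl
      simp only
      rw [UU_zero, UU_zero, hposs _ hs _ (mem_rngσ σ 1), hposs _ hs _ (mem_rngσ σ 2), h1]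
    · congr 2
      unfold rt
      rw [H.dd_base ht' hs]
      rw [h1] at hneg ⊢
      unfold de
      rw [hj]
      have e1 : max (2 * ((lor (v j) (v (σ 2)) ^ 2 - 0 * lor (v (σ 2)) (v (σ 2))) / 2))
          ((lor (v j) (v (σ 2)) ^ 2 - 0 * lor (v (σ 2)) (v (σ 2))) / 2) =
          (-lor (v j) (v (σ 2))) ^ 2 := by
        rw [max_eq_left (by nlinarith [sq_nonneg (lor (v j) (v (σ 2)))])]
        ring
      rw [e1, Real.sqrt_sq (by linarith)]
  -- splitting
  have hsplit : rr v c g g' 1 j (t, 0) =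
      ∑ σ : Fin (1+2) → Fin m, (if σ 1 = j then (c σ : ℝ) *
        (D2 (X (rng σ)) (pos j) (pos (σ 2)) * ((-lor (v j) (v (σ 2)))⁻¹ * (1/4))) else 0) +
      ∑ σ : Fin (1+2) → Fin m, (c σ : ℝ) * (if σ 1 = j then
        (D2 (YY g g' t s0) (pos j) (pos (σ 2)) * ((-lor (v j) (v (σ 2)))⁻¹ * (1/4))) else 0) := by
    rw [← Finset.sum_add_distrib]
    unfold rr
    refine Finset.sum_congr rfl (fun σ _ => ?_)
    by_cases h1 : σ 1 = j
    · rw [if_pos h1, if_pos h1, if_pos h1]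
      by_cases hσ : c σ = 0
      · simp [hσ]
      · rw [hll σ hσ h1]
        simp only [hX]
        rw [D2_sub]; ring
    · rw [if_neg h1, if_neg h1, if_neg h1]; simp
  rw [hsplit]
  have hB : ∑ σ : Fin (1+2) → Fin m, (c σ : ℝ) * (if σ 1 = j then
        (D2 (YY g g' t s0) (pos j) (pos (σ 2)) * ((-lor (v j) (v (σ 2)))⁻¹ * (1/4))) else 0) = 0 := by
    rw [sum_cons_eq (n := 1+1)]
    refine Finset.sum_eq_zero (fun τ _ => ?_)
    have e : ∀ q, (c (Fin.cons q τ) : ℝ) * (if (Fin.cons q τ : Fin (1+2) → Fin m) 1 = j then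
        (D2 (YY g g' t s0) (pos j) (pos ((Fin.cons q τ : Fin (1+2) → Fin m) 2)) *
          ((-lor (v j) (v ((Fin.cons q τ : Fin (1+2) → Fin m) 2)))⁻¹ * (1/4))) else 0) =
        (if τ 0 = j then
        (D2 (YY g g' t s0) (pos j) (pos (τ 1)) *
          ((-lor (v j) (v (τ 1)))⁻¹ * (1/4))) else 0) * (c (Fin.cons q τ) : ℝ) := by
      intro q
      exact mul_comm _ _
    have h0 : ∑ q, (c (Fin.cons q τ) : ℝ) = 0 := by
      rw [← Int.cast_sum, H.hccyc, Int.cast_zero]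
    rw [Finset.sum_congr rfl (fun q _ => e q), ← Finset.mul_sum, h0, mul_zero]
  have hA : ∑ σ : Fin (1+2) → Fin m, (if σ 1 = j then (c σ : ℝ) *
        (D2 (X (rng σ)) (pos j) (pos (σ 2)) * ((-lor (v j) (v (σ 2)))⁻¹ * (1/4))) else 0) = 0 := by
    refine sum_antisymm _ 0 2 (fun σ => ?_)
    have e1 : (σ ∘ (Equiv.swap (0 : Fin (1+2)) 2)) 1 = σ 1 := by
      simp only [Function.comp_apply]
      rw [Equiv.swap_apply_of_ne_of_ne (by decide) (by decide)]
    have e2 : (σ ∘ (Equiv.swap (0 : Fin (1+2)) 2)) 2 = σ 0 := by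
      simp only [Function.comp_apply, Equiv.swap_apply_right]
    rw [e1, e2, H.hcalt, rng_comp_perm, Equiv.Perm.sign_swap (by decide)]
    by_cases h1 : σ 1 = j
    · rw [if_pos h1, if_pos h1]
      by_cases hσ : c σ = 0
      · simp [hσ]
      · have hs := mem_supp_of hσ
        have hjs : j ∈ rng σ := h1 ▸ mem_rngσ σ 1
        have hne2 : σ 1 ≠ σ 2 := fun h => by
          have := H.inj hσ h
          simp at this
        have hne0 : σ 1 ≠ σ 0 := fun h => by
          have := H.inj hσ h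
          simp at this
        have hneg2 := H.hneg _ hs _ (mem_rngσ σ 1) _ (mem_rngσ σ 2) hne2
        have hneg0 := H.hneg _ hs _ (mem_rngσ σ 1) _ (mem_rngσ σ 0) hne0
        rw [h1] at hneg2 hneg0
        have key := D2_null (hXs _ hs) (hX0 _ hs hjs) hpj (pos (σ 0)) (pos (σ 2))
        rw [hlor _ hs _ (mem_rngσ σ 0) _ hjs, hlor _ hs _ (mem_rngσ σ 2) _ hjs,
          lor_comm' (v (σ 0)), lor_comm' (v (σ 2))] at key
        have hb2 : -lor (v j) (v (σ 2)) ≠ 0 := by linarith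
        have hb0 : -lor (v j) (v (σ 0)) ≠ 0 := by linarith
        have key2 : D2 (X (rng σ)) (pos j) (pos (σ 0)) * (-lor (v j) (v (σ 0)))⁻¹ =
            D2 (X (rng σ)) (pos j) (pos (σ 2)) * (-lor (v j) (v (σ 2)))⁻¹ := by
          rw [← div_eq_mul_inv, ← div_eq_mul_inv, div_eq_div_iff hb0 hb2]
          linarith
        push_cast
        linear_combination (-(c σ : ℝ) * (1/4)) * key2
    · rw [if_neg h1, if_neg h1, neg_zero]
  rw [hA, hB, add_zero]

end lim

end Pool.Agent.TH564
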