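import Pool.Agent.TH564.Lim1b

/-!
# The limit of the main term in dimension three: the regular part and the conclusion
-/

set_option linter.unusedSectionVars false

namespace Pool.Agent.TH564

open MeasureTheory Filter Topology Set Pool.Agent.W576 Pool.Agent.W31.Bel
open Pool.Agent.W365.DeltaFrame (JJ so_inv so_inv')

section lim

variable {m : ℕ} {v : Fin m → Fin (1+3) → ℝ} {c : (Fin (1+2) → Fin m) → ℤ}
  {g g' : ℝ → Finset (Fin m) → Matrix (Fin (1+3)) (Fin (1+3)) ℝ}

lemma ne12 (H : ArcHyp v c g g') {σ : Fin (1+2) → Fin m} (hσ : c σ ≠ 0) : σ 1 ≠ σ 2 := fun h => by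
  have := H.inj hσ h
  simp at this

/-- the regular part is continuous -/
lemma ArcHyp.ww_cont (H : ArcHyp v c g g') {s : Finset (Fin m)} (hs : s ∈ supp c)
    {i j : Fin m} (hi : i ∈ s) (hj : j ∈ s) (hij : i ≠ j) :
    ContinuousOn (ww v g s i j) SQ := by
  obtain ⟨μ, hμ, hμ'⟩ := H.exists_mu
  have hal : ∀ j, lor (v j) (v j) ≠ 0 → ∀ p ∈ SQ, 0 < al v g s j p := by
    intro j hj p hp
    have h1 := H.al_ge hμ' hs j hp
    have h2 : lor (v j) (v j) < 0 := lt_of_le_of_ne (H.hv j).2 hj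
    have h3 : 0 ≤ 2 * μ * p.2 := by have := hp.2.1; positivity
    linarith
  by_cases hn : lor (v i) (v i) = 0 ∨ lor (v j) (v j) = 0
  · have hde := H.de_pos hs hi hj hij hn
    have hrt : ∀ p, 0 < rt v g s i j p := fun p =>
      Real.sqrt_pos.2 (hde.trans_le (le_max_right _ _))
    have e : ww v g s i j = fun p => (2 * Real.log (be v g s i j p + rt v g s i j p) -
      (if lor (v i) (v i) = 0 then 0 else Real.log (al v g s i p)) -
      (if lor (v j) (v j) = 0 then 0 else Real.log (al v g s j p))) *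
        ((rt v g s i j p)⁻¹ * (1/4)) := by
      funext p; unfold ww; rw [if_pos hn]
    rw [e]
    have hlog : ∀ j, ContinuousOn (fun p => if lor (v j) (v j) = 0 then (0:ℝ) else
        Real.log (al v g s j p)) SQ := by
      intro j
      by_cases h : lor (v j) (v j) = 0
      · simp only [if_pos h]; exact continuousOn_const
      · simp only [if_neg h]
        exact (H.al_cont s j).log (fun p hp => (hal j h p hp).ne')
    refine ContinuousOn.mul (ContinuousOn.sub (ContinuousOn.sub (continuousOn_const.mul ?_)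
      (hlog i)) (hlog j)) (ContinuousOn.mul ?_ continuousOn_const)
    · exact ((H.be_cont s i j).add (H.rt_cont s i j)).log (fun p hp =>
        (add_pos (H.be_pos hs hi hj hij hp) (hrt p)).ne')
    · exact (H.rt_cont s i j).inv₀ (fun p _ => (hrt p).ne')
  · have e : ww v g s i j = fun p => I0 (G2 (al v g s i p) (be v g s i j p) (al v g s j p)) := by
      funext p; unfold ww; rw [if_neg hn]
    rw [e]
    push Not at hn
    intro p hp
    have hneg : ∀ k l, (G2 (al v g s i p) (be v g s i j p) (al v g s j p)) k l < 0 :=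
      fun k l => G2_neg (hal i hn.1 p hp) (H.be_pos hs hi hj hij hp) (hal j hn.2 p hp) k l
    have h1 := (hasFDerivAt_I0 (fun k l => (G2 (al v g s i p) (be v g s i j p)
      (al v g s j p)) k l) hneg).continuousAt
    refine ContinuousAt.comp_continuousWithinAt (f := fun p =>
      (fun k l => (G2 (al v g s i p) (be v g s i j p) (al v g s j p)) k l : Fin (1+1) → Fin (1+1) → ℝ))
      (g := fun M : Fin (1+1) → Fin (1+1) → ℝ => I0 M) h1 ?_
    refine continuousWithinAt_pi.2 (fun k => continuousWithinAt_pi.2 (fun l => ?_))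
    fin_cases k <;> fin_cases l
    · exact (H.al_cont s i).neg p hp
    · exact (H.be_cont s i j).neg p hp
    · exact (H.be_cont s i j).neg p hp
    · exact (H.al_cont s j).neg p hp

lemma Wd_eq (τ : Fin (1+1) → Fin m) : Wd (gram fun k => v (τ k)) =
    (2 * Real.log (-lor (v (τ 0)) (v (τ 1)) + Real.sqrt (2 * de v (τ 0) (τ 1))) -
      Real.log (-lor (v (τ 0)) (v (τ 0))) - Real.log (-lor (v (τ 1)) (v (τ 1)))) /
      (4 * Real.sqrt (2 * de v (τ 0) (τ 1))) := by
  unfold Wd de gram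
  have e : 2 * ((lor (v (τ 0)) (v (τ 1)) ^ 2 - lor (v (τ 0)) (v (τ 0)) *
      lor (v (τ 1)) (v (τ 1))) / 2) = lor (v (τ 0)) (v (τ 1)) ^ 2 -
      lor (v (τ 0)) (v (τ 0)) * lor (v (τ 1)) (v (τ 1)) := by ring
  rw [e]

lemma ArcHyp.ww_base (H : ArcHyp v c g g') {t : ℝ} (ht : t ∈ Ioo (0:ℝ) 1)
    {T : Finset (Fin (1+1) → Fin m)}
    {h : (Fin (1+1) → Fin m) → Matrix (Fin (1+3)) (Fin (1+3)) ℝ}
    {x : (Fin (1+1) → Fin m) → Fin (1+1) → Fin (1+1) → ℝ}
    {ref : (Fin (1+1) → Fin m) → Finset (Fin m)} (hD : FaceData v c T h x ref)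
    {s : Finset (Fin m)} (hs : s ∈ supp c) (τ : Fin (1+1) → Fin m) (hτs : ∀ i, τ i ∈ s)
    (hne : τ 0 ≠ τ 1) :
    dl v g g' s (τ 0) (τ 1) (t, 0) * ww v g s (τ 0) (τ 1) (t, 0) =
      Delta (YY g g' t s) (fun i => UU v g t s 0 (τ i)) * Wd (gram fun i => v (τ i)) := by
  have ht' : t ∈ Icc (0:ℝ) 1 := ⟨ht.1.le, ht.2.le⟩
  have hdl : dl v g g' s (τ 0) (τ 1) (t, 0) =
      Delta (a := 1+1) (YY g g' t s) (fun i => UU v g t s 0 (τ i)) := by
    rw [Delta_eq_D2]; rfl
  by_cases hτ : τ ∈ T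
  swap
  · rw [hdl, H.Delta_nonface hD hs hτ hτs]; ring
  rw [hdl]
  congr 1
  -- the discriminant is positive
  have hde : 0 < 2 * de v (τ 0) (τ 1) := by
    have hdet := hD.det_pos τ hτ
    have hdet2 : (Matrix.of (x τ)).det = x τ 0 0 * x τ 1 1 - x τ 0 1 * x τ 1 0 := by
      rw [Matrix.det_fin_two]; rfl
    rw [hdet2] at hdet
    have hgx : ∀ i j, lor (v (τ i)) (v (τ j)) = -(x τ i 0 * x τ j 0) + x τ i 1 * x τ j 1 := by
      intro i j
      rw [hD.coord τ hτ i, hD.coord τ hτ j, pad_four, pad_four, (hD.so τ hτ).1]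
      refine (lor4' _ _).trans ?_
      simp
    have : 2 * de v (τ 0) (τ 1) = (x τ 0 0 * x τ 1 1 - x τ 0 1 * x τ 1 0) ^ 2 := by
      unfold de; rw [hgx, hgx, hgx]; ring
    rw [this]; positivity
  have hrt : rt v g s (τ 0) (τ 1) (t, 0) = Real.sqrt (2 * de v (τ 0) (τ 1)) := by
    unfold rt
    rw [H.dd_base ht' hs, max_eq_left (by linarith)]
  have hsq : 0 < Real.sqrt (2 * de v (τ 0) (τ 1)) := Real.sqrt_pos.2 hde
  rw [Wd_eq]
  by_cases hn : lor (v (τ 0)) (v (τ 0)) = 0 ∨ lor (v (τ 1)) (v (τ 1)) = 0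
  · unfold ww
    rw [if_pos hn, hrt, H.be_base ht' hs, H.al_base ht' hs, H.al_base ht' hs]
    have hl : ∀ j, (if lor (v j) (v j) = 0 then (0:ℝ) else Real.log (-lor (v j) (v j))) =
        Real.log (-lor (v j) (v j)) := by
      intro j
      split_ifs with h
      · rw [h]; simp
      · rfl
    rw [hl, hl]
    field_simp
  · unfold ww
    rw [if_neg hn, H.be_base ht' hs, H.al_base ht' hs, H.al_base ht' hs]
    push Not at hn
    have ha : ∀ j, lor (v j) (v j) ≠ 0 → 0 < -lor (v j) (v j) := fun j hj => by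
      have := lt_of_le_of_ne (H.hv j).2 hj
      linarith
    have hb : 0 < -lor (v (τ 0)) (v (τ 1)) := by
      have := H.hneg s hs _ (hτs 0) _ (hτs 1) hne
      linarith
    have e : (-lor (v (τ 0)) (v (τ 1))) ^ 2 - (-lor (v (τ 0)) (v (τ 0))) *
        (-lor (v (τ 1)) (v (τ 1))) = 2 * de v (τ 0) (τ 1) := by unfold de; ring
    have key := I0_two (ha _ hn.1) hb (ha _ hn.2) (by rw [e]; exact hde)
    rw [e, Real.log_mul (ha _ hn.1).ne' (ha _ hn.2).ne'] at key
    rw [eq_div_iff (by positivity)]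
    linear_combination 4 * key

/-- the regular part is small -/
lemma ArcHyp.regular (H : ArcHyp v c g g') :
    Sm (fun p => ∑ σ : Fin (1+2) → Fin m, (c σ : ℝ) *
      (dl v g g' (rng σ) (σ 1) (σ 2) p * ww v g (rng σ) (σ 1) (σ 2) p)) := by
  classical
  obtain ⟨T, h, x, ref, hD⟩ := H.exists_faceData le_rfl
  refine Sm.of_cont ?_ ?_
  · refine continuousOn_finsetSum _ (fun σ _ => ?_)
    by_cases hσ : c σ = 0
    · simp only [hσ, Int.cast_zero, zero_mul]
      exact continuousOn_const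
    · exact continuousOn_const.mul ((H.dl_cont _ _ _).mul
        (H.ww_cont (mem_supp_of hσ) (mem_rngσ σ 1) (mem_rngσ σ 2) (ne12 H hσ)))
  · intro t ht
    have h1 := H.main_zero ht hD (fun τ => Wd (gram fun i => v (τ i))) (by
      intro K _ _ κ _ p gK hgK n hn
      exact place_sum_one p v H.hv c H.hneg H.hcalt H.hccyc T h x ref hD gK hgK n hn)
    rw [sum_cons_eq (n := 1+1)]
    refine Eq.trans ?_ h1
    refine Finset.sum_congr rfl (fun τ _ => Finset.sum_congr rfl (fun q _ => ?_))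
    by_cases hq : c (Fin.cons q τ) = 0
    · simp [hq]
    · congr 1
      exact H.ww_base ht hD (mem_supp_of hq) τ (mem_rng_cons2 q τ) (ne12 H hq)

end lim

end Pool.Agent.TH564
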