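import Pool.Agent.TH564.Lim1c

/-!
# Constancy of the volume along arcs in dimension three, and the general theorem
-/

set_option linter.unusedSectionVars false

namespace Pool.Agent.TH564

open MeasureTheory Filter Topology Set Pool.Agent.W576 Pool.Agent.W31.Bel
open Pool.Agent.W365.DeltaFrame (JJ so_inv so_inv')

section lim

variable {m : ℕ} {v : Fin m → Fin (1+3) → ℝ} {c : (Fin (1+2) → Fin m) → ℤ}
  {g g' : ℝ → Finset (Fin m) → Matrix (Fin (1+3)) (Fin (1+3)) ℝ}

open Classical in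
/-- the splitting of the orthant integral -/
lemma ArcHyp.split_I0 (H : ArcHyp v c g g') {s : Finset (Fin m)} (hs : s ∈ supp c)
    {i j : Fin m} (hi : i ∈ s) (hj : j ∈ s) (hij : i ≠ j) :
    ∃ ε1 > 0, ∀ ε ∈ Ioo (0:ℝ) ε1, ∀ t ∈ Ioo (0:ℝ) 1,
      I0 (G2 (al v g s i (t, ε)) (be v g s i j (t, ε)) (al v g s j (t, ε))) =
      ww v g s i j (t, ε) +
        (if lor (v i) (v i) = 0 then -Real.log (al v g s i (t, ε)) else 0) *
          ((rt v g s i j (t, ε))⁻¹ * (1/4)) +
        (if lor (v j) (v j) = 0 then -Real.log (al v g s j (t, ε)) else 0) *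
          ((rt v g s i j (t, ε))⁻¹ * (1/4)) := by
  obtain ⟨μ, hμ, hμ'⟩ := H.exists_mu
  by_cases hn : lor (v i) (v i) = 0 ∨ lor (v j) (v j) = 0
  swap
  · refine ⟨1, one_pos, fun ε hε t ht => ?_⟩
    unfold ww
    rw [if_neg hn]
    push Not at hn
    rw [if_neg hn.1, if_neg hn.2]
    ring
  have hde := H.de_pos hs hi hj hij hn
  have hsm : Sm (fun p => dd v g s i j p - 2 * de v i j) := by
    refine Sm.of_cont ((H.dd_cont s i j).sub continuousOn_const) (fun t ht => ?_)
    rw [H.dd_base ⟨ht.1.le, ht.2.le⟩ hs, sub_self]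
  obtain ⟨ε1, hε1, hsm'⟩ := hsm _ hde
  refine ⟨min ε1 1, lt_min hε1 one_pos, fun ε hε t ht => ?_⟩
  have hp : (t, ε) ∈ SQ := ⟨⟨ht.1.le, ht.2.le⟩, ⟨hε.1.le, (hε.2.trans_le (min_le_right _ _)).le⟩⟩
  have hd1 := hsm' ε ⟨hε.1, hε.2.trans_le (min_le_left _ _)⟩ t ht
  have hd2 : de v i j ≤ dd v g s i j (t, ε) := by
    have := (abs_le.1 hd1).1
    simp only at this
    linarith
  have hal : ∀ k, 0 < al v g s k (t, ε) := by
    intro k
    have h1 := H.al_ge hμ' hs k hp
    have h2 := (H.hv k).2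
    have h3 : 0 < 2 * μ * ε := by have := hε.1; positivity
    simp only at h1
    linarith
  have hbe := H.be_pos hs hi hj hij hp
  have hrt : rt v g s i j (t, ε) = Real.sqrt (be v g s i j (t, ε) ^ 2 -
      al v g s i (t, ε) * al v g s j (t, ε)) := by
    unfold rt
    rw [max_eq_left hd2]
    rfl
  have hdd : 0 < be v g s i j (t, ε) ^ 2 - al v g s i (t, ε) * al v g s j (t, ε) :=
    hde.trans_le hd2
  have key := I0_two (hal i) hbe (hal j) hdd
  rw [← hrt, Real.log_mul (hal i).ne' (hal j).ne'] at key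
  have hrt0 : 0 < rt v g s i j (t, ε) := by rw [hrt]; exact Real.sqrt_pos.2 hdd
  unfold ww
  rw [if_pos hn]
  set R := rt v g s i j (t, ε) with hR
  set I := I0 (G2 (al v g s i (t, ε)) (be v g s i j (t, ε)) (al v g s j (t, ε))) with hI
  have e : I = ((1/2) * Real.log (be v g s i j (t, ε) + R) - (1/4) *
      (Real.log (al v g s i (t, ε)) + Real.log (al v g s j (t, ε)))) * R⁻¹ := by
    rw [← key]; field_simp
  rw [e]
  split_ifs <;> ring

open Classical in
/-- the product of the singular function of a vertex with its coefficient -/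
lemma ArcHyp.singular1 (H : ArcHyp v c g g') {s : Finset (Fin m)} (hs : s ∈ supp c)
    {j : Fin m} (hj : lor (v j) (v j) = 0) :
    Sm (fun p => -Real.log (al v g s j p) * rr v c g g' 1 j p) := by
  obtain ⟨μ, hμ, hμ'⟩ := H.exists_mu
  have hLB : LB (rr v c g g' 1 j) := by
    unfold rr
    refine LB.sum _ _ (fun σ _ => ?_)
    by_cases h1 : σ 1 = j
    · simp only [if_pos h1]
      by_cases hσ : c σ = 0
      · simp only [hσ, Int.cast_zero, zero_mul]; exact LB.const 0
      · exact (LB.const _).mul (H.ll_LB _ _ _ (H.de_pos (mem_supp_of hσ) (mem_rngσ σ 1)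
          (mem_rngσ σ 2) (ne12 H hσ) (Or.inl (by rw [h1]; exact hj))))
    · simp only [if_neg h1]; exact LB.const 0
  obtain ⟨C, hC, hCb⟩ := hLB
  have hg : Sm (fun p => al v g s j p * Real.log (al v g s j p)) := by
    refine Sm.of_cont (Real.continuous_mul_log.comp_continuousOn (H.al_cont s j)) (fun t ht => ?_)
    rw [H.al_base ⟨ht.1.le, ht.2.le⟩ hs, hj]; simp
  refine hg.of_le (C / (2 * μ)) (ε1 := 1) one_pos (fun ε hε t ht => ?_)
  have hp : (t, ε) ∈ SQ := ⟨⟨ht.1.le, ht.2.le⟩, ⟨hε.1.le, hε.2.le⟩⟩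
  have h1 := (hCb _ hp).2
  simp only at h1
  rw [H.rr_base ht hj, sub_zero] at h1
  have h2 := H.al_ge hμ' hs j hp
  simp only at h2
  rw [hj, neg_zero, zero_add] at h2
  have hal : 0 ≤ al v g s j (t, ε) := le_trans (by have := hε.1; positivity) h2
  rw [abs_mul, abs_neg, abs_mul, abs_of_nonneg hal]
  calc |Real.log (al v g s j (t, ε))| * |rr v c g g' 1 j (t, ε)| ≤
        |Real.log (al v g s j (t, ε))| * (C * ε) := mul_le_mul_of_nonneg_left h1 (abs_nonneg _)
    _ = C / (2 * μ) * ((2 * μ * ε) * |Real.log (al v g s j (t, ε))|) := by field_simp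
    _ ≤ C / (2 * μ) * (al v g s j (t, ε) * |Real.log (al v g s j (t, ε))|) := by
        apply mul_le_mul_of_nonneg_left _ (by positivity)
        exact mul_le_mul_of_nonneg_right h2 (abs_nonneg _)

open Classical in
/-- the singular part is small -/
lemma ArcHyp.singular (H : ArcHyp v c g g') (k : Fin (1+2)) (hk : k = 1 ∨ k = 2) :
    Sm (fun p => ∑ σ : Fin (1+2) → Fin m, (c σ : ℝ) * (dl v g g' (rng σ) (σ 1) (σ 2) p *
      ((if lor (v (σ k)) (v (σ k)) = 0 then -Real.log (al v g (rng σ) (σ k) p) else 0) *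
          ((rt v g (rng σ) (σ 1) (σ 2) p)⁻¹ * (1/4))))) := by
  set sj : Fin m → Finset (Fin m) := fun j => if h : ∃ s ∈ supp c, j ∈ s then h.choose else ∅
    with hsj
  have hrr : ∀ j p, rr v c g g' k j p = rr v c g g' 1 j p := by
    intro j p
    rcases hk with rfl | rfl
    · rfl
    · exact rr_two H.hcalt j p
  have hsm : Sm (fun p => ∑ j : Fin m, if (lor (v j) (v j) = 0 ∧ ∃ s ∈ supp c, j ∈ s) then
      -Real.log (al v g (sj j) j p) * rr v c g g' 1 j p else 0) := by
    refine Sm.sum _ _ (fun j _ => ?_)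
    by_cases h : lor (v j) (v j) = 0 ∧ ∃ s ∈ supp c, j ∈ s
    · simp only [if_pos h]
      refine H.singular1 ?_ h.1
      simp only [hsj]
      rw [dif_pos h.2]
      exact h.2.choose_spec.1
    · simp only [if_neg h]; exact Sm.zero
  refine hsm.congr (ε1 := 1) one_pos (fun ε hε t ht => ?_)
  have ht' : t ∈ Icc (0:ℝ) 1 := ⟨ht.1.le, ht.2.le⟩
  have e : ∀ j, (if (lor (v j) (v j) = 0 ∧ ∃ s ∈ supp c, j ∈ s) then
      -Real.log (al v g (sj j) j (t, ε)) * rr v c g g' 1 j (t, ε) else 0) =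
      ∑ σ : Fin (1+2) → Fin m, if σ k = j then
        (c σ : ℝ) * (dl v g g' (rng σ) (σ 1) (σ 2) (t, ε) *
      ((if lor (v (σ k)) (v (σ k)) = 0 then -Real.log (al v g (rng σ) (σ k) (t, ε)) else 0) *
          ((rt v g (rng σ) (σ 1) (σ 2) (t, ε))⁻¹ * (1/4)))) else 0 := by
    intro j
    rw [← hrr]
    unfold rr
    by_cases h : lor (v j) (v j) = 0 ∧ ∃ s ∈ supp c, j ∈ s
    · rw [if_pos h, Finset.mul_sum]
      refine Finset.sum_congr rfl (fun σ _ => ?_)
      by_cases h1 : σ k = j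
      · rw [if_pos h1, if_pos h1, h1, if_pos h.1]
        by_cases hσ : c σ = 0
        · simp [hσ]
        · have hal : al v g (rng σ) j (t, ε) = al v g (sj j) j (t, ε) := by
            unfold al UU
            have h2 : sj j ∈ supp c ∧ j ∈ sj j := by
              simp only [hsj]
              rw [dif_pos h.2]
              exact h.2.choose_spec
            have hinc : (g t (rng σ)).mulVec (v j) = (g t (sj j)).mulVec (v j) :=
              (H.hg t ht').inc (rng σ) (mem_supp_of hσ) (sj j) h2.1 j (h1 ▸ mem_rngσ σ k) h2.2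
            simp only
            rw [hinc]
          rw [hal]
          unfold ll
          ring
      · rw [if_neg h1, if_neg h1, mul_zero]
    · rw [if_neg h]
      symm
      refine Finset.sum_eq_zero (fun σ _ => ?_)
      by_cases h1 : σ k = j
      · rw [if_pos h1, h1]
        by_cases hσ : c σ = 0
        · simp [hσ]
        · have h2 : ¬ lor (v j) (v j) = 0 := fun h3 =>
            h ⟨h3, rng σ, mem_supp_of hσ, h1 ▸ mem_rngσ σ k⟩
          rw [if_neg h2]; ring
      · rw [if_neg h1]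
  rw [Finset.sum_congr rfl (fun j _ => e j), Finset.sum_comm]
  refine Finset.sum_congr rfl (fun σ _ => ?_)
  rw [Finset.sum_ite_eq]
  simp

/-- the volume is constant along arcs of causal configurations in dimension three -/
theorem ArcHyp.vol_const_one (H : ArcHyp v c g g') : FF v c g 0 0 = FF v c g 0 1 := by
  classical
  refine H.vol_const le_rfl ?_
  have hMM : Sm (fun p => MM v c g g' p.1 p.2) := by
    have h1 := (H.regular.add (H.singular 1 (Or.inl rfl))).add (H.singular 2 (Or.inr rfl))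
    have h2 : Sm (fun p => ∑ σ : Fin (1+2) → Fin m, (c σ : ℝ) *
        (dl v g g' (rng σ) (σ 1) (σ 2) p * (I0 (G2 (al v g (rng σ) (σ 1) p)
          (be v g (rng σ) (σ 1) (σ 2) p) (al v g (rng σ) (σ 2) p)) -
          ww v g (rng σ) (σ 1) (σ 2) p -
          (if lor (v (σ 1)) (v (σ 1)) = 0 then -Real.log (al v g (rng σ) (σ 1) p) else 0) *
          ((rt v g (rng σ) (σ 1) (σ 2) p)⁻¹ * (1/4)) -
          (if lor (v (σ 2)) (v (σ 2)) = 0 then -Real.log (al v g (rng σ) (σ 2) p) else 0) *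
          ((rt v g (rng σ) (σ 1) (σ 2) p)⁻¹ * (1/4))))) := by
      refine Sm.sum _ _ (fun σ _ => ?_)
      by_cases hσ : c σ = 0
      · refine Sm.zero.congr (ε1 := 1) one_pos (fun ε _ t _ => by simp [hσ])
      · obtain ⟨ε1, hε1, h3⟩ := H.split_I0 (mem_supp_of hσ) (mem_rngσ σ 1) (mem_rngσ σ 2)
          (ne12 H hσ)
        refine Sm.zero.congr hε1 (fun ε hε t ht => ?_)
        rw [h3 ε hε t ht]
        ring
    refine (h1.add h2).congr (ε1 := 1) one_pos (fun ε _ t _ => ?_)
    simp only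
    rw [MM_eq, ← Finset.sum_add_distrib, ← Finset.sum_add_distrib, ← Finset.sum_add_distrib]
    refine Finset.sum_congr rfl (fun σ _ => ?_)
    ring
  intro η hη
  obtain ⟨ε0, hε0, h⟩ := hMM η hη
  exact ⟨ε0, hε0, fun ε hε t ht => h ε hε t ht⟩

end lim

/-- bellows theorem for causal families in hyperbolic spaces of dimension at least three -/
theorem bellows_cau {r m : ℕ} (hr : 1 ≤ r) (c : (Fin (r+2) → Fin m) → ℤ)
    (hcalt : ∀ (σ : Fin (r+2) → Fin m) (π : Equiv.Perm (Fin (r+2))),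
      c (σ ∘ π) = ((Equiv.Perm.sign π : ℤˣ) : ℤ) * c σ)
    (hccyc : ∀ τ : Fin (r+1) → Fin m, ∑ q, c (Fin.cons q τ) = 0)
    (y : ℝ → Fin m → Fin (r+3) → ℝ) (hy : Continuous y) (hF : ∀ t j, Cau (y t j))
    (hn : ∀ σ, c σ ≠ 0 → ∀ i j, i ≠ j → ∀ t, lor (y t (σ i)) (y t (σ j)) < 0)
    (hG : ∀ σ, c σ ≠ 0 → ∀ i j s t, lor (y s (σ i)) (y s (σ j)) = lor (y t (σ i)) (y t (σ j)))
    (s t : ℝ) : Vol c (y s) = Vol c (y t) := by
  rcases Nat.lt_or_ge 1 r with h | h
  · exact bellows_cau_hi (by omega) c hcalt hccyc y hy hF hn hG s t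
  · obtain rfl : r = 1 := by omega
    exact bellows_cau_of le_rfl c (fun _ _ _ H => H.vol_const_one) hcalt hccyc y hy hF hn hG s t

end Pool.Agent.TH564
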