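import Pool.Agent.TH564.Flag

/-!
# Null vectors and null planes in dimension four
-/

set_option linter.unusedSectionVars false

namespace Pool.Agent.TH564

open Pool.Agent.W576 Pool.Agent.W31.Bel

section null4

variable {K : Type} [Field K] [Algebra ℂ K]

/-- Plücker coordinates -/
def pl (a b : Fin 4 → K) (i j : Fin 4) : K := a i * b j - a j * b i

lemma lor4 (x y : Fin 4 → K) :
    lor x y = -(x 0 * y 0) + x 1 * y 1 + x 2 * y 2 + x 3 * y 3 := by
  unfold lor
  rw [Fin.sum_univ_four]
  simp [eta]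

lemma det4 (a b x y : Fin 4 → K) : (Matrix.of ![a, b, x, y]).det =
    pl a b 0 1 * pl x y 2 3 - pl a b 0 2 * pl x y 1 3 + pl a b 0 3 * pl x y 1 2 +
    pl a b 1 2 * pl x y 0 3 - pl a b 1 3 * pl x y 0 2 + pl a b 2 3 * pl x y 0 1 := by
  simp [Matrix.det_succ_row_zero, Fin.sum_univ_succ, pl, Fin.succAbove]
  ring

/-- the bracket -/
def br (a b x y : Fin 4 → K) : K := lor x a * lor y b - lor x b * lor y a

/-- duality of the plane spanned by two vectors -/
def SDl (κ : K) (a b : Fin 4 → K) : Prop :=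
  ∀ x y, (Matrix.of ![a, b, x, y]).det = κ * br a b x y

lemma SDl_of_rel {κ : K} (hκ : κ * κ = -1) {a b : Fin 4 → K} (h1 : pl a b 0 1 = κ * pl a b 2 3)
    (h2 : pl a b 0 2 = -κ * pl a b 1 3) (h3 : pl a b 0 3 = κ * pl a b 1 2) : SDl κ a b := by
  intro x y
  rw [det4]
  have e : br a b x y = -(pl x y 0 1 * pl a b 0 1) - pl x y 0 2 * pl a b 0 2 -
      pl x y 0 3 * pl a b 0 3 + pl x y 1 2 * pl a b 1 2 + pl x y 1 3 * pl a b 1 3 +
      pl x y 2 3 * pl a b 2 3 := by
    unfold br
    rw [lor4, lor4, lor4, lor4]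
    unfold pl; ring
  rw [e, h1, h2, h3]
  linear_combination (pl a b 2 3 * pl x y 0 1 - pl a b 1 3 * pl x y 0 2 + pl a b 1 2 * pl x y 0 3) * (-hκ) * (-1)

lemma SDl.rel {κ : K} {a b : Fin 4 → K} (h : SDl κ a b) :
    pl a b 0 1 = κ * pl a b 2 3 ∧ pl a b 0 2 = -κ * pl a b 1 3 ∧ pl a b 0 3 = κ * pl a b 1 2 := by
  refine ⟨?_, ?_, ?_⟩
  · have := h (Pi.single 2 1) (Pi.single 3 1)
    rw [det4] at this
    simp only [br, lor4, pl] at this
    simp at this
    unfold pl
    linear_combination this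
  · have := h (Pi.single 1 1) (Pi.single 3 1)
    rw [det4] at this
    simp only [br, lor4, pl] at this
    simp at this
    unfold pl
    linear_combination -this
  · have := h (Pi.single 1 1) (Pi.single 2 1)
    rw [det4] at this
    simp only [br, lor4, pl] at this
    simp at this
    unfold pl
    linear_combination this

lemma SDl.frame {κ : K} {a b : Fin 4 → K} {F : Matrix (Fin 4) (Fin 4) K} (hF : IsSO F)
    (h : SDl κ (F.mulVec a) (F.mulVec b)) : SDl κ a b := by
  intro x y
  have h1 := h (F.mulVec x) (F.mulVec y)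
  have h2 : (Matrix.of ![F.mulVec a, F.mulVec b, F.mulVec x, F.mulVec y]) =
      (Matrix.of ![a, b, x, y]) * F.transpose := by
    ext i j
    rw [Matrix.mul_apply]
    fin_cases i <;> simp [Matrix.mulVec, dotProduct, mul_comm]
  rw [h2, Matrix.det_mul, Matrix.det_transpose, hF.2, mul_one] at h1
  rw [h1]
  unfold br
  rw [hF.1, hF.1, hF.1, hF.1]

/-- null vector depending on a parameter -/
noncomputable def ov (u : K) : Fin 4 → K := ![1 + u ^ 3, 1 - u ^ 3, u + u ^ 2, -(II K) * (u - u ^ 2)]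

/-- companion null vectors -/
noncomputable def wv (u : K) : Fin 4 → K := ![u, -u, 1, II K]

/-- companion null vectors -/
noncomputable def wv' (u : K) : Fin 4 → K := ![u ^ 2, -u ^ 2, 1, -II K]

lemma SDl_wv (u : K) : SDl (II K) (ov u) (wv u) := by
  have hI := II_mul (K := K)
  apply SDl_of_rel hI
  · simp only [pl, ov, wv]
    simp
    linear_combination (-2 * u) * hI
  · simp only [pl, ov, wv]
    simp
    linear_combination (1 - u ^ 3 - u ^ 2 + u ^ 3) * hI
  · simp only [pl, ov, wv]
    simp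
    ring

lemma SDl_wv' (u : K) : SDl (-II K) (ov u) (wv' u) := by
  have hI := II_mul (K := K)
  apply SDl_of_rel (by rw [neg_mul_neg]; exact hI)
  · simp only [pl, ov, wv']
    simp
    linear_combination (- 2 * u ^ 2) * hI
  · simp only [pl, ov, wv']
    simp
    linear_combination (1 - u ^ 4) * hI
  · simp only [pl, ov, wv']
    simp
    ring

lemma lor_ov (X : Fin 4 → K) (u : K) : lor X (ov u) =
    (X 1 - X 0) + u * (X 2 - II K * X 3) + u ^ 2 * (X 2 + II K * X 3) - u ^ 3 * (X 0 + X 1) := by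
  rw [lor4]
  simp only [ov]
  simp
  ring

lemma lor_ZZ (Z : Fin 4 → K) (u : K) (hZ : lor Z (ov u) = 0) :
    lor Z Z = lor Z (wv u) * lor Z (wv' u) := by
  have hI := II_mul (K := K)
  rw [lor_ov] at hZ
  rw [lor4, lor4, lor4]
  simp only [wv, wv']
  simp
  linear_combination (Z 0 + Z 1) * hZ + (Z 3 * Z 3) * hI

lemma lor_oo (u : K) : lor (ov u) (ov u) = 0 := by
  have hI := II_mul (K := K)
  rw [lor4]
  simp only [ov]
  simp
  linear_combination (u - u ^ 2) ^ 2 * hI

lemma two_ne : (2 : K) ≠ 0 := by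
  have h : (2 : K) = algebraMap ℂ K 2 := by rw [map_ofNat]
  rw [h]; exact (map_ne_zero _).2 two_ne_zero

lemma II_ne : II K ≠ 0 := by
  intro h
  have := II_mul (K := K)
  rw [h] at this
  simp at this

open Polynomial in
/-- a generic parameter -/
lemma exists_generic {ι : Type*} [Finite ι] (X : ι → Fin 4 → K) (hX : ∀ i, X i ≠ 0) :
    ∃ c : ℂ, c ≠ 0 ∧ ∀ i, lor (X i) (ov (algebraMap ℂ K c)) ≠ 0 := by
  classical
  have h2 := two_ne (K := K)
  have hI := II_ne (K := K)
  set P : ι → K[X] := fun i => C (X i 1 - X i 0) + C (X i 2 - II K * X i 3) * Polynomial.X +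
    C (X i 2 + II K * X i 3) * Polynomial.X ^ 2 - C (X i 0 + X i 1) * Polynomial.X ^ 3 with hP
  have hPe : ∀ i u, (P i).eval u = lor (X i) (ov u) := by
    intro i u
    rw [lor_ov]
    simp only [hP, eval_add, eval_sub, eval_mul, eval_C, eval_X, eval_pow]
    ring
  have hP0 : ∀ i, P i ≠ 0 := by
    intro i h0
    apply hX i
    have c0 := congrArg (fun q => q.coeff 0) h0
    have c1 := congrArg (fun q => q.coeff 1) h0
    have c2 := congrArg (fun q => q.coeff 2) h0
    have c3 := congrArg (fun q => q.coeff 3) h0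
    simp only [hP, coeff_add, coeff_sub, coeff_C_mul, coeff_C, coeff_X_pow, coeff_X, coeff_zero]
      at c0 c1 c2 c3
    norm_num at c0 c1 c2 c3
    have e0 : X i 0 = 0 := by
      apply mul_left_cancel₀ h2
      linear_combination -c0 - c3
    have e1 : X i 1 = 0 := by
      apply mul_left_cancel₀ h2
      linear_combination c0 - c3
    have e2 : X i 2 = 0 := by
      apply mul_left_cancel₀ h2
      linear_combination c1 + c2
    have e3 : X i 3 = 0 := by
      apply mul_left_cancel₀ (mul_ne_zero h2 hI)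
      linear_combination c2 - c1
    funext j
    fin_cases j <;> simp [e0, e1, e2, e3]
  have hfin : (⋃ i, {c : ℂ | (P i).eval (algebraMap ℂ K c) = 0}).Finite := by
    apply Set.finite_iUnion
    intro i
    have h1 : {c : ℂ | (P i).eval (algebraMap ℂ K c) = 0} =
        (algebraMap ℂ K) ⁻¹' ((P i).roots.toFinset : Set K) := by
      ext c
      simp [mem_roots (hP0 i)]
    rw [h1]
    exact (Finset.finite_toSet _).preimage ((algebraMap ℂ K).injective.injOn)
  obtain ⟨c, hc⟩ := (hfin.union (Set.finite_singleton (0:ℂ))).exists_notMem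
  refine ⟨c, fun h => hc (Or.inr (by simp [h])), fun i h => hc (Or.inl ?_)⟩
  rw [Set.mem_iUnion]
  refine ⟨i, ?_⟩
  change (P i).eval (algebraMap ℂ K c) = 0
  rw [hPe, h]

end null4

end Pool.Agent.TH564
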