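import Pool.Agent.TH564.ArcGen

/-!
# Perturbation of causal arcs by a timelike vector
-/

set_option linter.unusedSectionVars false

namespace Pool.Agent.TH564

open MeasureTheory Filter Topology Set Pool.Agent.W576 Pool.Agent.W31.Bel
open Pool.Agent.W365.DeltaFrame (JJ so_inv so_inv')

lemma cau_mulVec {n : ℕ} (g : Matrix (Fin (n+1)) (Fin (n+1)) ℝ) (hg : IsSO g) (h0 : 0 < g 0 0)
    (x : Fin (n+1) → ℝ) (hx : Cau x) : Cau (g.mulVec x) := by
  refine cau_of_lor (Pool.Agent.W867.fut_mulVec g hg h0 ee fut_ee) ?_ ?_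
  · rw [hg.1, lor_comm', lor_ee]; linarith [hx.1]
  · rw [hg.1]; exact hx.2

/-- hypotheses on an arc of causal configurations -/
structure ArcHyp {r m : ℕ} (v : Fin m → Fin (r+3) → ℝ) (c : (Fin (r+2) → Fin m) → ℤ)
    (g g' : ℝ → Finset (Fin m) → Matrix (Fin (r+3)) (Fin (r+3)) ℝ) : Prop where
  hv : ∀ j, Cau (v j)
  hneg : ∀ s ∈ supp c, ∀ i ∈ s, ∀ j ∈ s, i ≠ j → lor (v i) (v j) < 0
  hcalt : ∀ (σ : Fin (r+2) → Fin m) (π : Equiv.Perm (Fin (r+2))),
      c (σ ∘ π) = ((Equiv.Perm.sign π : ℤˣ) : ℤ) * c σ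
  hccyc : ∀ τ : Fin (r+1) → Fin m, ∑ q, c (Fin.cons q τ) = 0
  hg : ∀ t ∈ Set.Icc (0:ℝ) 1, IsConf (RingHom.id ℝ) v c (g t)
  hpos : ∀ t ∈ Set.Icc (0:ℝ) 1, ∀ s, 0 < g t s 0 0
  hg' : ∀ t ∈ Set.Icc (0:ℝ) 1, ∀ s i j, HasDerivAt (fun t => g t s i j) (g' t s i j) t
  hgc : ∀ s i j, ContinuousOn (fun t => g' t s i j) (Set.Icc (0:ℝ) 1)

section arc

variable {r m : ℕ} {v : Fin m → Fin (r+3) → ℝ} {c : (Fin (r+2) → Fin m) → ℤ}
  {g g' : ℝ → Finset (Fin m) → Matrix (Fin (r+3)) (Fin (r+3)) ℝ}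

/-- velocity matrix in space -/
def YY (g g' : ℝ → Finset (Fin m) → Matrix (Fin (r+3)) (Fin (r+3)) ℝ) (t : ℝ)
    (s : Finset (Fin m)) : Matrix (Fin (r+3)) (Fin (r+3)) ℝ :=
  g' t s * (JJ (r+3) * (g t s).transpose * JJ (r+3))

/-- perturbed position of a vertex -/
def UU (v : Fin m → Fin (r+3) → ℝ) (g : ℝ → Finset (Fin m) → Matrix (Fin (r+3)) (Fin (r+3)) ℝ)
    (t : ℝ) (s : Finset (Fin m)) (ε : ℝ) (j : Fin m) : Fin (r+3) → ℝ :=
  (g t s).mulVec (v j) + ε • ee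

/-- the main term of the derivative -/
noncomputable def MM (v : Fin m → Fin (r+3) → ℝ) (c : (Fin (r+2) → Fin m) → ℤ)
    (g g' : ℝ → Finset (Fin m) → Matrix (Fin (r+3)) (Fin (r+3)) ℝ) (t ε : ℝ) : ℝ :=
  ∑ τ : Fin (r+1) → Fin m, ∑ q : Fin m, (c (Fin.cons q τ) : ℝ) *
    (Delta (YY g g' t (rng (Fin.cons q τ : Fin (r+2) → Fin m)))
      (fun i => UU v g t (rng (Fin.cons q τ : Fin (r+2) → Fin m)) ε (τ i)) *
      I0 (gram (fun i => UU v g t (rng (Fin.cons q τ : Fin (r+2) → Fin m)) ε (τ i))))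

/-- the error term of the derivative -/
noncomputable def RR (v : Fin m → Fin (r+3) → ℝ) (c : (Fin (r+2) → Fin m) → ℤ)
    (g g' : ℝ → Finset (Fin m) → Matrix (Fin (r+3)) (Fin (r+3)) ℝ) (t ε : ℝ) : ℝ :=
  ∑ σ : Fin (r+2) → Fin m, (c σ : ℝ) *
    TT (fun i => UU v g t (rng σ) ε (σ i)) (fun _ => (YY g g' t (rng σ)).mulVec ee)

/-- the perturbed volume -/
noncomputable def FF (v : Fin m → Fin (r+3) → ℝ) (c : (Fin (r+2) → Fin m) → ℤ)
    (g : ℝ → Finset (Fin m) → Matrix (Fin (r+3)) (Fin (r+3)) ℝ) (ε t : ℝ) : ℝ :=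
  ∑ σ : Fin (r+2) → Fin m, (c σ : ℝ) *
    SV (Fin.cons (Pi.single 0 1) (fun i => UU v g t (rng σ) ε (σ i)) : Fin (r+3) → Fin (r+3) → ℝ)

lemma mem_supp_of {σ : Fin (r+2) → Fin m} (h : c σ ≠ 0) : rng σ ∈ supp c := ⟨σ, h, rfl⟩

lemma ArcHyp.inj (H : ArcHyp v c g g') {σ : Fin (r+2) → Fin m} (h : c σ ≠ 0) :
    Function.Injective σ := alt_inj c H.hcalt σ h

lemma ArcHyp.YY_mulVec (H : ArcHyp v c g g') {t : ℝ} (ht : t ∈ Icc (0:ℝ) 1) {s : Finset (Fin m)}
    (hs : s ∈ supp c) (y : Fin (r+3) → ℝ) :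
    (YY g g' t s).mulVec ((g t s).mulVec y) = (g' t s).mulVec y := by
  unfold YY
  rw [Matrix.mulVec_mulVec, Matrix.mul_assoc, so_inv ((H.hg t ht).so s hs), Matrix.mul_one]

lemma ArcHyp.skew0 (H : ArcHyp v c g g') {t : ℝ} (ht : t ∈ Ioo (0:ℝ) 1) {s : Finset (Fin m)}
    (hs : s ∈ supp c) (y z : Fin (r+3) → ℝ) :
    lor ((g' t s).mulVec y) ((g t s).mulVec z) = - lor ((g t s).mulVec y) ((g' t s).mulVec z) := by
  have ht' : t ∈ Icc (0:ℝ) 1 := ⟨ht.1.le, ht.2.le⟩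
  have h1 := hasDerivAt_lor (fun t => (g t s).mulVec y) (fun t => (g t s).mulVec z)
    ((g' t s).mulVec y) ((g' t s).mulVec z) t
    (fun i => hasDerivAt_mulVec (fun t => g t s) (g' t s) t (H.hg' t ht' s) y i)
    (fun i => hasDerivAt_mulVec (fun t => g t s) (g' t s) t (H.hg' t ht' s) z i)
  have h2 := deriv_eq_of_eq ht (fun u hu => ((H.hg u hu).so s hs).1 y z) h1
    (hasDerivAt_const t (lor y z))
  linarith

lemma ArcHyp.g_inv (H : ArcHyp v c g g') {t : ℝ} (ht : t ∈ Icc (0:ℝ) 1) {s : Finset (Fin m)}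
    (hs : s ∈ supp c) (y : Fin (r+3) → ℝ) :
    ∃ z, y = (g t s).mulVec z := by
  refine ⟨(JJ (r+3) * (g t s).transpose * JJ (r+3)).mulVec y, ?_⟩
  rw [Matrix.mulVec_mulVec, so_inv' ((H.hg t ht).so s hs), Matrix.one_mulVec]

lemma ArcHyp.YY_skew (H : ArcHyp v c g g') {t : ℝ} (ht : t ∈ Ioo (0:ℝ) 1) {s : Finset (Fin m)}
    (hs : s ∈ supp c) (y z : Fin (r+3) → ℝ) :
    lor ((YY g g' t s).mulVec y) z = - lor y ((YY g g' t s).mulVec z) := by
  have ht' : t ∈ Icc (0:ℝ) 1 := ⟨ht.1.le, ht.2.le⟩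
  obtain ⟨y', rfl⟩ := H.g_inv ht' hs y
  obtain ⟨z', rfl⟩ := H.g_inv ht' hs z
  rw [H.YY_mulVec ht' hs, H.YY_mulVec ht' hs, H.skew0 ht hs]

lemma ArcHyp.cau (H : ArcHyp v c g g') {t : ℝ} (ht : t ∈ Icc (0:ℝ) 1) {s : Finset (Fin m)}
    (hs : s ∈ supp c) (j : Fin m) : Cau ((g t s).mulVec (v j)) :=
  cau_mulVec _ ((H.hg t ht).so s hs) (H.hpos t ht s) _ (H.hv j)

lemma ArcHyp.fut (H : ArcHyp v c g g') {t : ℝ} (ht : t ∈ Icc (0:ℝ) 1) {s : Finset (Fin m)}
    (hs : s ∈ supp c) {ε : ℝ} (hε : 0 < ε) (j : Fin m) : Fut (UU v g t s ε j) :=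
  (H.cau ht hs j).pert hε

lemma TT_sub_smul {a : ℕ} (u w w' : Fin a → Fin (a + 1) → ℝ) (ε : ℝ) :
    TT u (fun i => w i - ε • w' i) = TT u w - ε * TT u w' := by
  unfold TT
  rw [Finset.mul_sum, ← Finset.sum_sub_distrib]
  refine Finset.sum_congr rfl (fun i _ => ?_)
  have h : ∀ z : Fin (a+1) → ℝ, (Matrix.of (Fin.cons z u : Fin (a + 1) → Fin (a + 1) → ℝ)).det =
      Pool.Agent.W378.B13.detCons u z := fun z => (Pool.Agent.W378.B13.detCons_apply u z).symm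
  rw [h, h, h, map_sub, map_smul, smul_eq_mul]; ring

/-- the derivative of the perturbed volume -/
theorem ArcHyp.deriv (H : ArcHyp v c g g') {ε : ℝ} (hε : 0 < ε) {t : ℝ} (ht : t ∈ Ioo (0:ℝ) 1) :
    HasDerivAt (FF v c g ε) (- ((1/2) * (((r+1 : ℕ) : ℝ) + 1) * MM v c g g' t ε -
      ε * RR v c g g' t ε)) t := by
  classical
  have ht' : t ∈ Icc (0:ℝ) 1 := ⟨ht.1.le, ht.2.le⟩
  set V : (Fin (r+2) → Fin m) → Fin (r+2) → Fin (r+3) → ℝ :=
    fun σ i => UU v g t (rng σ) ε (σ i) with hV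
  set V' : (Fin (r+2) → Fin m) → Fin (r+2) → Fin (r+3) → ℝ :=
    fun σ i => (g' t (rng σ)).mulVec (v (σ i)) with hV'
  set D : (Fin (r+2) → Fin m) → ℝ := fun σ =>
    -∑ j : Fin (r+3), (-1 : ℝ) ^ (j : ℕ) *
        TT (fun i => (Fin.cons (Pi.single 0 1) (V σ) : Fin (r+3) → Fin (r+3) → ℝ) (j.succAbove i))
          (fun i => (Fin.cons 0 (V' σ) : Fin (r+3) → Fin (r+3) → ℝ) (j.succAbove i)) with hD
  have hder : HasDerivAt (FF v c g ε) (∑ σ : Fin (r+2) → Fin m, (c σ : ℝ) * D σ) t := by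
    refine HasDerivAt.fun_sum (fun σ _ => ?_)
    by_cases hσ : c σ = 0
    · simp only [hσ, Int.cast_zero, zero_mul]
      exact hasDerivAt_const t 0
    · refine HasDerivAt.const_mul _ ?_
      refine hasDerivAt_SV (fun s => (Fin.cons (Pi.single 0 1)
        (fun i => UU v g s (rng σ) ε (σ i)) : Fin (r+3) → Fin (r+3) → ℝ))
        (Fin.cons 0 (V' σ)) t ?_ ?_
      · intro i j
        refine Fin.cases ?_ (fun i => ?_) i
        · simp only [Fin.cons_zero]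
          exact hasDerivAt_const t _
        · simp only [Fin.cons_succ]
          have h1 := hasDerivAt_mulVec (fun t => g t (rng σ)) (g' t (rng σ)) t
            (H.hg' t ht' (rng σ)) (v (σ i)) j
          have h2 := h1.add_const ((ε • (ee : Fin (r+3) → ℝ)) j)
          exact h2
      · have hall : ∀ i, Fut ((Fin.cons (Pi.single 0 1) (V σ) :
            Fin (r+3) → Fin (r+3) → ℝ) i) := by
          intro i
          refine Fin.cases ?_ (fun i => ?_) i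
          · exact fut_e0
          · exact H.fut ht' (mem_supp_of hσ) hε _
        intro i j
        exact lor_neg_of_fut (hall i) (hall j)
  refine hder.congr_deriv ?_
  -- splitting of D
  have hsplit : ∀ σ, D σ = -(TT (V σ) (V' σ)) + ∑ k : Fin (r+2), (-1:ℝ)^(k:ℕ) *
      TT (Fin.cons (Pi.single 0 1) (fun i => V σ (k.succAbove i)) :
          Fin (r+2) → Fin (r+3) → ℝ)
        (Fin.cons 0 (fun i => V' σ (k.succAbove i)) : Fin (r+2) → Fin (r+3) → ℝ) := by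
    intro σ
    simp only [hD]
    rw [Fin.sum_univ_succ, neg_add, ← Finset.sum_neg_distrib]
    congr 1
    · simp
    · refine Finset.sum_congr rfl (fun k _ => ?_)
      have e1 : (fun i => (Fin.cons (Pi.single 0 1) (V σ) : Fin (r+3) → Fin (r+3) → ℝ)
          (k.succ.succAbove i)) = (Fin.cons (Pi.single 0 1)
          (fun i => V σ (k.succAbove i)) : Fin (r+2) → Fin (r+3) → ℝ) := by
        funext i
        refine Fin.cases ?_ (fun i => ?_) i
        · simp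
        · simp
      have e2 : (fun i => (Fin.cons 0 (V' σ) : Fin (r+3) → Fin (r+3) → ℝ)
          (k.succ.succAbove i)) = (Fin.cons 0
          (fun i => V' σ (k.succAbove i)) : Fin (r+2) → Fin (r+3) → ℝ) := by
        funext i
        refine Fin.cases ?_ (fun i => ?_) i
        · simp
        · simp
      rw [e1, e2, Fin.val_succ, pow_succ]
      ring
  -- positions depend only on the vertex
  have hincV : ∃ VV VV' : Fin m → Fin (r+3) → ℝ, ∀ σ, c σ ≠ 0 → ∀ i,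
      V σ i = VV (σ i) ∧ V' σ i = VV' (σ i) := by
    refine ⟨fun j => if h : ∃ s, s ∈ supp c ∧ j ∈ s then (g t h.choose).mulVec (v j) + ε • ee else 0,
      fun j => if h : ∃ s, s ∈ supp c ∧ j ∈ s then (g' t h.choose).mulVec (v j) else 0, ?_⟩
    intro σ hσ i
    have hmem : σ i ∈ rng σ := by
      unfold rng; exact Finset.mem_image_of_mem _ (Finset.mem_univ i)
    have hex : ∃ s, s ∈ supp c ∧ σ i ∈ s := ⟨rng σ, mem_supp_of hσ, hmem⟩
    simp only [dif_pos hex]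
    have hinc : ∀ s ∈ Set.Icc (0:ℝ) 1, (g s (rng σ)).mulVec (v (σ i)) =
        (g s hex.choose).mulVec (v (σ i)) := by
      intro s hs
      exact (H.hg s hs).inc (rng σ) (mem_supp_of hσ) hex.choose hex.choose_spec.1 (σ i) hmem
        hex.choose_spec.2
    refine ⟨?_, ?_⟩
    · change (g t (rng σ)).mulVec (v (σ i)) + ε • ee = _
      rw [hinc t ht']
    · funext k
      exact deriv_eq_of_eq ht (fun s hs => congrFun (hinc s hs) k)
        (hasDerivAt_mulVec (fun t => g t (rng σ)) (g' t (rng σ)) t (H.hg' t ht' (rng σ)) (v (σ i)) k)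
        (hasDerivAt_mulVec (fun t => g t hex.choose) (g' t hex.choose) t
          (H.hg' t ht' hex.choose) (v (σ i)) k)
  obtain ⟨VV, VV', hVV⟩ := hincV
  -- part A
  have hA : ∑ σ : Fin (r+2) → Fin m, (c σ : ℝ) * ∑ k : Fin (r+2), (-1:ℝ)^(k:ℕ) *
      TT (Fin.cons (Pi.single 0 1) (fun i => V σ (k.succAbove i)) :
          Fin (r+2) → Fin (r+3) → ℝ)
        (Fin.cons 0 (fun i => V' σ (k.succAbove i)) : Fin (r+2) → Fin (r+3) → ℝ) = 0 := by
    have h1 := regroup c H.hcalt (fun _ τ =>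
      TT (Fin.cons (Pi.single 0 1) (fun i => VV (τ i)) : Fin (r+2) → Fin (r+3) → ℝ)
        (Fin.cons 0 (fun i => VV' (τ i)) : Fin (r+2) → Fin (r+3) → ℝ))
    have h2 : ∀ τ : Fin (r+1) → Fin m, ∑ q : Fin m, (c (Fin.cons q τ) : ℝ) *
      TT (Fin.cons (Pi.single 0 1) (fun i => VV (τ i)) : Fin (r+2) → Fin (r+3) → ℝ)
        (Fin.cons 0 (fun i => VV' (τ i)) : Fin (r+2) → Fin (r+3) → ℝ) = 0 := by
      intro τ
      rw [← Finset.sum_mul]
      have := H.hccyc τ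
      have h3 : ∑ q : Fin m, (c (Fin.cons q τ) : ℝ) = 0 := by exact_mod_cast this
      rw [h3, zero_mul]
    simp only [h2, Finset.sum_const_zero, mul_zero] at h1
    rw [← h1]
    refine Finset.sum_congr rfl (fun σ _ => ?_)
    by_cases hσ : c σ = 0
    · simp [hσ]
    · congr 1
      refine Finset.sum_congr rfl (fun k _ => ?_)
      congr 2
      · congr 1
        funext i
        exact (hVV σ hσ _).1
      · congr 1
        funext i
        exact (hVV σ hσ _).2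
  -- part B
  have hB1 : ∀ σ, c σ ≠ 0 → TT (V σ) (V' σ) = (1/2) * (∑ k : Fin (r+2), (-1:ℝ)^(k:ℕ) *
      (Delta (YY g g' t (rng σ)) (fun i => V σ (k.succAbove i)) *
        I0 (gram (fun i => V σ (k.succAbove i))))) -
      ε * TT (V σ) (fun _ => (YY g g' t (rng σ)).mulVec ee) := by
    intro σ hσ
    have hs := mem_supp_of hσ
    have h1 : V' σ = fun i => (YY g g' t (rng σ)).mulVec (V σ i) -
        ε • (YY g g' t (rng σ)).mulVec ee := by
      funext i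
      simp only [hV, hV', UU]
      rw [Matrix.mulVec_add, Matrix.mulVec_smul, H.YY_mulVec ht' hs]
      simp
    rw [h1, TT_sub_smul]
    congr 1
    exact TT_skew (V σ) (fun i j => lor_neg_of_fut (H.fut ht' hs hε _) (H.fut ht' hs hε _)) _
      (H.YY_skew ht hs)
  have hB2 : ∑ σ : Fin (r+2) → Fin m, (c σ : ℝ) * TT (V σ) (V' σ) =
      (1/2) * (((r+1 : ℕ) : ℝ) + 1) * MM v c g g' t ε - ε * RR v c g g' t ε := by
    unfold MM RR
    rw [mul_assoc, ← regroup c H.hcalt (fun s τ => Delta (YY g g' t s) (fun i => UU v g t s ε (τ i)) *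
      I0 (gram (fun i => UU v g t s ε (τ i)))), Finset.mul_sum, Finset.mul_sum,
      ← Finset.sum_sub_distrib]
    refine Finset.sum_congr rfl (fun σ _ => ?_)
    by_cases hσ : c σ = 0
    · simp [hσ]
    · rw [hB1 σ hσ]; ring
  simp only [hsplit, mul_add, mul_neg, Finset.sum_add_distrib, Finset.sum_neg_distrib]
  rw [hA, hB2]; ring

end arc

end Pool.Agent.TH564
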