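import Pool.Agent.TH564.Pert

/-!
# Bounds for the perturbed volume, and the limit
-/

set_option linter.unusedSectionVars false

namespace Pool.Agent.TH564

open MeasureTheory Filter Topology Set Pool.Agent.W576 Pool.Agent.W31.Bel
open Pool.Agent.W365.DeltaFrame (JJ so_inv so_inv')

lemma exists_common {ι : Type*} [Finite ι] (P : ι → ℝ → Prop)
    (hmono : ∀ i a b, 0 < a → a ≤ b → P i b → P i a) (h : ∀ i, ∃ μ > 0, P i μ) :
    ∃ μ > 0, ∀ i, P i μ := by
  rcases isEmpty_or_nonempty ι with he | he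
  · exact ⟨1, one_pos, fun i => (he.false i).elim⟩
  choose f hf hP using h
  obtain ⟨i0, hi0⟩ := Finite.exists_min f
  exact ⟨f i0, hf i0, fun i => hmono i _ _ (hf i0) (hi0 i) (hP i)⟩

lemma exists_common_bd {ι : Type*} [Finite ι] (P : ι → ℝ → Prop)
    (hmono : ∀ i a b, a ≤ b → P i a → P i b) (h : ∀ i, ∃ μ, P i μ) :
    ∃ μ, 0 ≤ μ ∧ ∀ i, P i μ := by
  rcases isEmpty_or_nonempty ι with he | he
  · exact ⟨1, zero_le_one, fun i => (he.false i).elim⟩
  choose f hP using h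
  obtain ⟨i0, hi0⟩ := Finite.exists_max f
  exact ⟨max (f i0) 0, le_max_right _ _, fun i => hmono i _ _ ((hi0 i).trans (le_max_left _ _)) (hP i)⟩

/-- the parameter square -/
def SQ : Set (ℝ × ℝ) := Icc (0:ℝ) 1 ×ˢ Icc (0:ℝ) 1

lemma isCompact_SQ : IsCompact SQ := isCompact_Icc.prod isCompact_Icc

lemma unif_small (f : ℝ × ℝ → ℝ) (hf : ContinuousOn f SQ)
    (h0 : ∀ t ∈ Ioo (0:ℝ) 1, f (t, 0) = 0) (η : ℝ) (hη : 0 < η) :
    ∃ ε0 > 0, ∀ ε ∈ Ioo (0:ℝ) ε0, ∀ t ∈ Ioo (0:ℝ) 1, |f (t, ε)| ≤ η := by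
  have huc := isCompact_SQ.uniformContinuousOn_of_continuous hf
  rw [Metric.uniformContinuousOn_iff] at huc
  obtain ⟨δ, hδ, h⟩ := huc η hη
  refine ⟨min δ 1, lt_min hδ one_pos, fun ε hε t ht => ?_⟩
  have hε1 : ε < δ := hε.2.trans_le (min_le_left _ _)
  have hε2 : ε < 1 := hε.2.trans_le (min_le_right _ _)
  have h1 := h (t, ε) ⟨⟨ht.1.le, ht.2.le⟩, ⟨hε.1.le, hε2.le⟩⟩ (t, 0)
    ⟨⟨ht.1.le, ht.2.le⟩, ⟨le_rfl, zero_le_one⟩⟩ (by
      rw [Prod.dist_eq]
      simp only [dist_self, Real.dist_eq, sub_zero, abs_of_pos hε.1]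
      exact max_lt hδ hε1)
  rw [h0 t ht, Real.dist_eq, sub_zero] at h1
  exact h1.le

section cont

variable {X : Type*} [TopologicalSpace X] {S : Set X}

lemma contOn_mulVec {n : ℕ} (A : X → Matrix (Fin n) (Fin n) ℝ) (y : X → Fin n → ℝ)
    (hA : ∀ i j, ContinuousOn (fun p => A p i j) S) (hy : ∀ i, ContinuousOn (fun p => y p i) S)
    (i : Fin n) : ContinuousOn (fun p => (A p).mulVec (y p) i) S := by
  simp only [Matrix.mulVec, dotProduct]
  exact continuousOn_finsetSum _ (fun j _ => (hA i j).mul (hy j))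

lemma contOn_mulVec' {n : ℕ} (A : X → Matrix (Fin n) (Fin n) ℝ) (y : Fin n → ℝ)
    (hA : ∀ i j, ContinuousOn (fun p => A p i j) S)
    (i : Fin n) : ContinuousOn (fun p => (A p).mulVec y i) S :=
  contOn_mulVec A (fun _ => y) hA (fun _ => continuousOn_const) i

lemma contOn_mul {n : ℕ} (A B : X → Matrix (Fin n) (Fin n) ℝ)
    (hA : ∀ i j, ContinuousOn (fun p => A p i j) S)
    (hB : ∀ i j, ContinuousOn (fun p => B p i j) S) (i j : Fin n) :
    ContinuousOn (fun p => (A p * B p) i j) S := by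
  simp only [Matrix.mul_apply]
  exact continuousOn_finsetSum _ (fun k _ => (hA i k).mul (hB k j))

lemma contOn_det {n : ℕ} (A : X → Fin n → Fin n → ℝ)
    (hA : ∀ i j, ContinuousOn (fun p => A p i j) S) :
    ContinuousOn (fun p => (Matrix.of (A p)).det) S := by
  have h1 : ContinuousOn A S := continuousOn_pi.2 (fun i => continuousOn_pi.2 (fun j => hA i j))
  have h2 : Continuous (fun v : Fin n → Fin n → ℝ => (Matrix.of v).det) :=
    Continuous.matrix_det continuous_id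
  exact h2.comp_continuousOn h1

lemma contOn_cons {n d : ℕ} (a : X → Fin d → ℝ) (A : X → Fin n → Fin d → ℝ)
    (ha : ∀ j, ContinuousOn (fun p => a p j) S)
    (hA : ∀ i j, ContinuousOn (fun p => A p i j) S) (i : Fin (n+1)) (j : Fin d) :
    ContinuousOn (fun p => (Fin.cons (a p) (A p) : Fin (n+1) → Fin d → ℝ) i j) S := by
  refine Fin.cases ?_ (fun i => ?_) i
  · simpa using ha j
  · simpa using hA i j

lemma contOn_Delta {a : ℕ} (A : X → Matrix (Fin (a+2)) (Fin (a+2)) ℝ) (f : X → Fin a → Fin (a+2) → ℝ)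
    (hA : ∀ i j, ContinuousOn (fun p => A p i j) S)
    (hf : ∀ i j, ContinuousOn (fun p => f p i j) S) :
    ContinuousOn (fun p => Delta (A p) (f p)) S := by
  unfold Delta
  refine continuousOn_const.mul (continuousOn_finsetSum _ (fun k _ => continuousOn_const.mul ?_))
  refine contOn_det (fun p => (Fin.cons (Pi.single k 1)
    (Fin.cons ((A p).mulVec (Pi.single k 1)) (f p)) : Fin (a + 2) → Fin (a + 2) → ℝ)) ?_
  refine contOn_cons _ _ (fun j => continuousOn_const) ?_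
  refine contOn_cons _ _ (fun j => ?_) hf
  exact contOn_mulVec' _ _ hA j

lemma contOn_lor {d : ℕ} (x y : X → Fin d → ℝ) (hx : ∀ j, ContinuousOn (fun p => x p j) S)
    (hy : ∀ j, ContinuousOn (fun p => y p j) S) : ContinuousOn (fun p => lor (x p) (y p)) S := by
  unfold lor
  exact continuousOn_finsetSum _ (fun k _ => continuousOn_const.mul ((hx k).mul (hy k)))

end cont

section arc

variable {r m : ℕ} {v : Fin m → Fin (r+3) → ℝ} {c : (Fin (r+2) → Fin m) → ℤ}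
  {g g' : ℝ → Finset (Fin m) → Matrix (Fin (r+3)) (Fin (r+3)) ℝ}

lemma ArcHyp.contg (H : ArcHyp v c g g') (s : Finset (Fin m)) (i j : Fin (r+3)) :
    ContinuousOn (fun t => g t s i j) (Icc (0:ℝ) 1) :=
  fun t ht => (H.hg' t ht s i j).continuousAt.continuousWithinAt

lemma fst_maps : MapsTo (Prod.fst : ℝ × ℝ → ℝ) SQ (Icc (0:ℝ) 1) := fun _ hp => hp.1

lemma ArcHyp.contg2 (H : ArcHyp v c g g') (s : Finset (Fin m)) (i j : Fin (r+3)) :
    ContinuousOn (fun p : ℝ × ℝ => g p.1 s i j) SQ :=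
  (H.contg s i j).comp continuousOn_fst fst_maps

lemma ArcHyp.contg2' (H : ArcHyp v c g g') (s : Finset (Fin m)) (i j : Fin (r+3)) :
    ContinuousOn (fun p : ℝ × ℝ => g' p.1 s i j) SQ :=
  (H.hgc s i j).comp continuousOn_fst fst_maps

lemma ArcHyp.contY (H : ArcHyp v c g g') (s : Finset (Fin m)) (i j : Fin (r+3)) :
    ContinuousOn (fun p : ℝ × ℝ => YY g g' p.1 s i j) SQ := by
  unfold YY
  refine contOn_mul _ _ (H.contg2' s) ?_ i j
  refine contOn_mul _ _ ?_ (fun _ _ => continuousOn_const)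
  refine contOn_mul _ _ (fun _ _ => continuousOn_const) ?_
  intro i j
  simp only [Matrix.transpose_apply]
  exact H.contg2 s j i

lemma ArcHyp.contU (H : ArcHyp v c g g') (s : Finset (Fin m)) (j : Fin m) (k : Fin (r+3)) :
    ContinuousOn (fun p : ℝ × ℝ => UU v g p.1 s p.2 j k) SQ := by
  unfold UU
  simp only [Pi.add_apply, Pi.smul_apply, smul_eq_mul]
  refine ContinuousOn.add ?_ (continuousOn_snd.mul continuousOn_const)
  exact contOn_mulVec' _ _ (H.contg2 s) k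

lemma ArcHyp.exists_mu (H : ArcHyp v c g g') :
    ∃ μ > 0, ∀ t ∈ Icc (0:ℝ) 1, ∀ s ∈ supp c, ∀ j, μ ≤ ((g t s).mulVec (v j)) 0 := by
  have h1 : ∃ μ > 0, ∀ i : (supp c) × Fin m, ∀ t ∈ Icc (0:ℝ) 1,
      μ ≤ ((g t i.1).mulVec (v i.2)) 0 := by
    refine exists_common (fun (i : (supp c) × Fin m) μ => ∀ t ∈ Icc (0:ℝ) 1,
      μ ≤ ((g t i.1).mulVec (v i.2)) 0) (fun i a b _ hab h t ht => hab.trans (h t ht)) ?_
    rintro ⟨⟨s, hs⟩, j⟩
    have hc : ContinuousOn (fun t => ((g t s).mulVec (v j)) 0) (Icc (0:ℝ) 1) :=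
      contOn_mulVec' _ _ (H.contg s) 0
    obtain ⟨t0, ht0, hmin⟩ := isCompact_Icc.exists_isMinOn
      (nonempty_Icc.2 (zero_le_one (α := ℝ))) hc
    exact ⟨_, (H.cau ht0 hs j).1, fun t ht => hmin ht⟩
  obtain ⟨μ, hμ, h⟩ := h1
  exact ⟨μ, hμ, fun t ht s hs j => h (⟨s, hs⟩, j) t ht⟩

lemma ArcHyp.exists_delta (H : ArcHyp v c g g') :
    ∃ δ > 0, ∀ s ∈ supp c, ∀ i ∈ s, ∀ j ∈ s, i ≠ j → lor (v i) (v j) ≤ -δ := by
  have h1 : ∃ δ > 0, ∀ p : Fin m × Fin m, (∃ s ∈ supp c, p.1 ∈ s ∧ p.2 ∈ s) → p.1 ≠ p.2 →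
      lor (v p.1) (v p.2) ≤ -δ := by
    refine exists_common (fun (p : Fin m × Fin m) δ => (∃ s ∈ supp c, p.1 ∈ s ∧ p.2 ∈ s) → p.1 ≠ p.2 →
      lor (v p.1) (v p.2) ≤ -δ) (fun i a b _ hab h h1 h2 => by have := h h1 h2; linarith) ?_
    rintro ⟨i, j⟩
    by_cases hij : (∃ s ∈ supp c, i ∈ s ∧ j ∈ s) ∧ i ≠ j
    · obtain ⟨⟨s, hs, hi, hj⟩, hne⟩ := hij
      exact ⟨-lor (v i) (v j), by linarith [H.hneg s hs i hi j hj hne], fun _ _ => by simp⟩
    · exact ⟨1, one_pos, fun h1 h2 => absurd ⟨h1, h2⟩ hij⟩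
  obtain ⟨δ, hδ, h⟩ := h1
  exact ⟨δ, hδ, fun s hs i hi j hj hne => h (i, j) ⟨s, hs, hi, hj⟩ hne⟩

/-- Gram matrix of the perturbed vertices -/
lemma ArcHyp.gramU (H : ArcHyp v c g g') {t : ℝ} (ht : t ∈ Icc (0:ℝ) 1) {s : Finset (Fin m)}
    (hs : s ∈ supp c) {ι : Type*} (τ : ι → Fin m) (ε : ℝ) (i j : ι) :
    gram (fun i => UU v g t s ε (τ i)) i j = lor (v (τ i)) (v (τ j)) -
      ε * (((g t s).mulVec (v (τ i))) 0 + ((g t s).mulVec (v (τ j))) 0) - ε ^ 2 := by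
  have h := gram_pert (fun i => (g t s).mulVec (v (τ i))) ε i j
  rw [((H.hg t ht).so s hs).1] at h
  exact h

lemma ArcHyp.gramU_off (H : ArcHyp v c g g') {δ : ℝ}
    (hδ : ∀ s ∈ supp c, ∀ i ∈ s, ∀ j ∈ s, i ≠ j → lor (v i) (v j) ≤ -δ)
    {t : ℝ} (ht : t ∈ Icc (0:ℝ) 1) {s : Finset (Fin m)}
    (hs : s ∈ supp c) {ι : Type*} (τ : ι → Fin m) (hτ : ∀ i, τ i ∈ s) (hinj : Function.Injective τ)
    {ε : ℝ} (hε : 0 ≤ ε) (i j : ι) (hij : i ≠ j) :
    gram (fun i => UU v g t s ε (τ i)) i j ≤ -δ := by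
  rw [H.gramU ht hs]
  have h1 := hδ s hs _ (hτ i) _ (hτ j) (fun h => hij (hinj h))
  have h2 := (H.cau ht hs (τ i)).1
  have h3 := (H.cau ht hs (τ j)).1
  nlinarith [mul_nonneg hε h2.le, mul_nonneg hε h3.le, sq_nonneg ε]

lemma ArcHyp.gramU_diag (H : ArcHyp v c g g') {μ : ℝ}
    (hμ : ∀ t ∈ Icc (0:ℝ) 1, ∀ s ∈ supp c, ∀ j, μ ≤ ((g t s).mulVec (v j)) 0)
    {t : ℝ} (ht : t ∈ Icc (0:ℝ) 1) {s : Finset (Fin m)}
    (hs : s ∈ supp c) {ι : Type*} (τ : ι → Fin m)
    {ε : ℝ} (hε : 0 ≤ ε) (i : ι) :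
    gram (fun i => UU v g t s ε (τ i)) i i ≤ -(2 * μ * ε) := by
  rw [H.gramU ht hs]
  have h1 := (H.hv (τ i)).2
  have h2 := hμ t ht s hs (τ i)
  nlinarith [mul_le_mul_of_nonneg_left h2 hε, sq_nonneg ε]

lemma mem_rngσ {n : ℕ} (σ : Fin n → Fin m) (i : Fin n) : σ i ∈ rng σ := by
  unfold rng; exact Finset.mem_image_of_mem _ (Finset.mem_univ i)

theorem ArcHyp.RR_bound (hr : 1 ≤ r) (H : ArcHyp v c g g') :
    ∃ C, 0 ≤ C ∧ ∀ t ∈ Icc (0:ℝ) 1, ∀ ε ∈ Ioc (0:ℝ) 1, |RR v c g g' t ε| ≤ C / Real.sqrt ε := by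
  classical
  obtain ⟨μ, hμ, hμ'⟩ := H.exists_mu
  obtain ⟨δ, hδ, hδ'⟩ := H.exists_delta
  -- bound of the determinants
  have hB : ∃ B, 0 ≤ B ∧ ∀ σ : Fin (r+2) → Fin m, ∀ p ∈ SQ,
      |(Matrix.of (Fin.cons ((YY g g' p.1 (rng σ)).mulVec ee)
        (fun i => UU v g p.1 (rng σ) p.2 (σ i)) : Fin (r+3) → Fin (r+3) → ℝ)).det| ≤ B := by
    refine exists_common_bd (fun (σ : Fin (r+2) → Fin m) B => ∀ p ∈ SQ,
      |(Matrix.of (Fin.cons ((YY g g' p.1 (rng σ)).mulVec ee)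
        (fun i => UU v g p.1 (rng σ) p.2 (σ i)) : Fin (r+3) → Fin (r+3) → ℝ)).det| ≤ B)
      (fun σ a b hab h p hp => (h p hp).trans hab) (fun σ => ?_)
    have hc : ContinuousOn (fun p : ℝ × ℝ => (Matrix.of (Fin.cons ((YY g g' p.1 (rng σ)).mulVec ee)
        (fun i => UU v g p.1 (rng σ) p.2 (σ i)) : Fin (r+3) → Fin (r+3) → ℝ)).det) SQ := by
      refine contOn_det _ ?_
      refine contOn_cons _ _ ?_ (fun i k => H.contU (rng σ) (σ i) k)
      exact contOn_mulVec' _ _ (H.contY (rng σ))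
    obtain ⟨B, hB⟩ := isCompact_SQ.exists_bound_of_continuousOn hc
    exact ⟨B, fun p hp => hB p hp⟩
  obtain ⟨B, hB0, hB⟩ := hB
  refine ⟨∑ σ : Fin (r+2) → Fin m, |(c σ : ℝ)| * ∑ _i : Fin (r+2),
    B * (KK (Fin (r+2)) δ / Real.sqrt (2 * μ)), ?_, ?_⟩
  · refine Finset.sum_nonneg (fun σ _ => mul_nonneg (abs_nonneg _)
      (Finset.sum_nonneg (fun i _ => mul_nonneg hB0 (div_nonneg (KK_nonneg δ) (Real.sqrt_nonneg _)))))
  · intro t ht ε hε
    unfold RR
    rw [Finset.sum_div]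
    refine (Finset.abs_sum_le_sum_abs _ _).trans (Finset.sum_le_sum (fun σ _ => ?_))
    rw [abs_mul, mul_div_assoc]
    by_cases hσ : c σ = 0
    · simp [hσ]
    · have hs := mem_supp_of hσ
      refine mul_le_mul_of_nonneg_left ?_ (abs_nonneg _)
      unfold TT
      rw [Finset.sum_div]
      refine (Finset.abs_sum_le_sum_abs _ _).trans (Finset.sum_le_sum (fun i _ => ?_))
      rw [abs_mul, mul_div_assoc, div_div, ← Real.sqrt_mul (by positivity)]
      refine mul_le_mul (hB σ (t, ε) ⟨ht, hε.1.le, hε.2⟩) ?_ (abs_nonneg _) hB0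
      refine J1_bound (by simp; omega) hδ (by have := hε.1; positivity) ?_ ?_ i
      · intro i j hij
        exact H.gramU_off hδ' ht hs σ (mem_rngσ σ) (H.inj hσ) hε.1.le i j hij
      · intro i
        exact H.gramU_diag hμ' ht hs σ hε.1.le i

lemma ArcHyp.differentiable (H : ArcHyp v c g g') {ε : ℝ} (hε : 0 < ε) {t : ℝ}
    (ht' : t ∈ Icc (0:ℝ) 1) : DifferentiableAt ℝ (FF v c g ε) t := by
  unfold FF
  refine DifferentiableAt.fun_sum (fun σ _ => ?_)
  by_cases hσ : c σ = 0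
  · simp only [hσ, Int.cast_zero, zero_mul]
    exact differentiableAt_const _
  · refine DifferentiableAt.const_mul ?_ _
    have h := hasDerivAt_SV (fun s => (Fin.cons (Pi.single 0 1)
      (fun i => UU v g s (rng σ) ε (σ i)) : Fin (r+3) → Fin (r+3) → ℝ))
      (Fin.cons 0 (fun i => (g' t (rng σ)).mulVec (v (σ i)))) t ?_ ?_
    · exact h.differentiableAt
    · intro i j
      refine Fin.cases ?_ (fun i => ?_) i
      · simp only [Fin.cons_zero]
        exact hasDerivAt_const t _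
      · simp only [Fin.cons_succ]
        have h1 := hasDerivAt_mulVec (fun t => g t (rng σ)) (g' t (rng σ)) t
          (H.hg' t ht' (rng σ)) (v (σ i)) j
        have h2 := h1.add_const ((ε • (ee : Fin (r+3) → ℝ)) j)
        exact h2
    · have hall : ∀ i, Fut ((Fin.cons (Pi.single 0 1) (fun i => UU v g t (rng σ) ε (σ i)) :
          Fin (r+3) → Fin (r+3) → ℝ) i) := by
        intro i
        refine Fin.cases ?_ (fun i => ?_) i
        · exact fut_e0
        · exact H.fut ht' (mem_supp_of hσ) hε _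
      intro i j
      exact lor_neg_of_fut (hall i) (hall j)

/-- the general limit of coned volumes -/
lemma tendsto_SV_cone {a : ℕ} (ha : 1 ≤ a) {Y : Type*} {l : Filter Y} [l.IsCountablyGenerated]
    (y : Y → Fin (a+1) → Fin (a+2) → ℝ) (y0 : Fin (a+1) → Fin (a+2) → ℝ) {δ : ℝ} (hδ : 0 < δ)
    (h : ∀ᶠ p in l, ∀ i j, i ≠ j → lor (y p i) (y p j) ≤ -δ)
    (h0 : ∀ᶠ p in l, ∀ i, lor (y p i) (y p i) ≤ 0)
    (h1 : ∀ᶠ p in l, ∀ i, δ ≤ y p i 0)
    (hy : ∀ i j, Tendsto (fun p => y p i j) l (𝓝 (y0 i j))) :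
    Tendsto (fun p => SV (Fin.cons (Pi.single 0 1) (y p) : Fin (a+2) → Fin (a+2) → ℝ)) l
      (𝓝 (SV (Fin.cons (Pi.single 0 1) y0 : Fin (a+2) → Fin (a+2) → ℝ))) := by
  have hc : ∀ i j, Tendsto (fun p => (Fin.cons (Pi.single 0 1) (y p) : Fin (a+2) → Fin (a+2) → ℝ) i j)
      l (𝓝 ((Fin.cons (Pi.single 0 1) y0 : Fin (a+2) → Fin (a+2) → ℝ) i j)) := by
    intro i j
    refine Fin.cases ?_ (fun i => ?_) i
    · simp only [Fin.cons_zero]; exact tendsto_const_nhds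
    · simp only [Fin.cons_succ]; exact hy i j
  unfold SV
  refine Tendsto.mul ?_ ?_
  · have h2 : Continuous (fun v : Fin (a+2) → Fin (a+2) → ℝ => (Matrix.of v).det) :=
      Continuous.matrix_det continuous_id
    exact (h2.tendsto _).comp (tendsto_pi_nhds.2 (fun i => tendsto_pi_nhds.2 (fun j => hc i j)))
  · refine tendsto_I0 (by simp; omega) _ _ hδ ?_ ?_ ?_
    · filter_upwards [h, h1] with p hp hp1 i j
      refine Fin.cases ?_ (fun i => ?_) i
      · refine Fin.cases ?_ (fun j => ?_) j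
        · intro h; exact absurd rfl h
        · intro _
          change lor ee (y p j) ≤ -δ
          rw [lor_ee]; linarith [hp1 j]
      · refine Fin.cases ?_ (fun j => ?_) j
        · intro _
          change lor (y p i) ee ≤ -δ
          rw [lor_comm', lor_ee]; linarith [hp1 i]
        · intro hij
          exact hp i j (fun h' => hij (by rw [h']))
    · filter_upwards [h0] with p hp i
      refine Fin.cases ?_ (fun i => ?_) i
      · exact fut_ee.2.le
      · exact hp i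
    · intro i j
      unfold gram lor
      exact tendsto_finsetSum _ (fun k _ => Tendsto.const_mul _ ((hc i k).mul (hc j k)))

lemma ArcHyp.tendsto_FF (hr : 1 ≤ r) (H : ArcHyp v c g g') {t : ℝ} (ht : t ∈ Icc (0:ℝ) 1) :
    Tendsto (fun ε => FF v c g ε t) (𝓝[>] 0) (𝓝 (FF v c g 0 t)) := by
  obtain ⟨μ, hμ, hμ'⟩ := H.exists_mu
  obtain ⟨δ, hδ, hδ'⟩ := H.exists_delta
  unfold FF
  refine tendsto_finsetSum _ (fun σ _ => ?_)
  by_cases hσ : c σ = 0
  · simp only [hσ, Int.cast_zero, zero_mul]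
    exact tendsto_const_nhds
  · refine Tendsto.const_mul _ ?_
    have hs := mem_supp_of hσ
    refine tendsto_SV_cone (by omega) _ _ (lt_min hδ hμ) ?_ ?_ ?_ ?_
    · filter_upwards [self_mem_nhdsWithin] with ε hε i j hij
      have h1 := H.gramU_off hδ' ht hs σ (mem_rngσ σ) (H.inj hσ) (le_of_lt hε) i j hij
      exact h1.trans (neg_le_neg (min_le_left _ _))
    · filter_upwards [self_mem_nhdsWithin] with ε hε i
      exact (H.fut ht hs hε (σ i)).2.le
    · filter_upwards [self_mem_nhdsWithin] with ε hε i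
      have h1 := hμ' t ht _ hs (σ i)
      have h2 : (0:ℝ) < ε := hε
      unfold UU
      simp only [Pi.add_apply, Pi.smul_apply, smul_eq_mul, ee, Pi.single_eq_same]
      have := min_le_right δ μ
      linarith
    · intro i j
      have h1 : Continuous (fun ε : ℝ => UU v g t (rng σ) ε (σ i) j) := by
        unfold UU
        simp only [Pi.add_apply, Pi.smul_apply, smul_eq_mul]
        fun_prop
      exact (h1.tendsto 0).mono_left nhdsWithin_le_nhds

/-- constancy of the volume from uniform smallness of the main term -/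
theorem ArcHyp.vol_const (hr : 1 ≤ r) (H : ArcHyp v c g g')
    (hM : ∀ η > 0, ∃ ε0 > 0, ∀ ε ∈ Ioo (0:ℝ) ε0, ∀ t ∈ Ioo (0:ℝ) 1, |MM v c g g' t ε| ≤ η) :
    FF v c g 0 0 = FF v c g 0 1 := by
  obtain ⟨C, hC0, hC⟩ := H.RR_bound hr
  have h0 := H.tendsto_FF hr (t := 0) ⟨le_rfl, zero_le_one⟩
  have h1 := H.tendsto_FF hr (t := 1) ⟨zero_le_one, le_rfl⟩
  have h2 := (h1.sub h0).abs
  set κ : ℝ := (1/2) * (((r+1 : ℕ) : ℝ) + 1) with hκ
  have hκ0 : 0 < κ := by positivity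
  have h3 : Tendsto (fun ε => |FF v c g ε 1 - FF v c g ε 0|) (𝓝[>] 0) (𝓝 0) := by
    rw [Metric.tendsto_nhdsWithin_nhds]
    intro η hη
    obtain ⟨ε0, hε0, hM'⟩ := hM (η / (4 * κ)) (by positivity)
    refine ⟨min (min ε0 1) ((η / (4 * (C + 1))) ^ 2), by positivity, fun ε hε hd => ?_⟩
    have hε' : (0:ℝ) < ε := hε
    rw [Real.dist_eq, sub_zero, abs_of_pos hε'] at hd
    have d1 : ε < ε0 := hd.trans_le ((min_le_left _ _).trans (min_le_left _ _))
    have d2 : ε < 1 := hd.trans_le ((min_le_left _ _).trans (min_le_right _ _))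
    have d3 : ε < (η / (4 * (C + 1))) ^ 2 := hd.trans_le (min_le_right _ _)
    obtain ⟨s, hs, hs2⟩ := exists_hasDerivAt_eq_slope (FF v c g ε)
      (fun t => - (κ * MM v c g g' t ε - ε * RR v c g g' t ε)) zero_lt_one
      (fun t ht => (H.differentiable hε' ht).continuousAt.continuousWithinAt)
      (fun t ht => H.deriv hε' ht)
    have h4 : FF v c g ε 1 - FF v c g ε 0 = - (κ * MM v c g g' s ε - ε * RR v c g g' s ε) := by
      rw [hs2]; simp
    rw [Real.dist_eq, sub_zero, abs_abs, h4, abs_neg]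
    have h5 : |κ * MM v c g g' s ε| ≤ η / 4 := by
      rw [abs_mul, abs_of_pos hκ0]
      calc κ * |MM v c g g' s ε| ≤ κ * (η / (4 * κ)) :=
            mul_le_mul_of_nonneg_left (hM' ε ⟨hε', d1⟩ s hs) hκ0.le
        _ = η / 4 := by field_simp
    have h6 : |ε * RR v c g g' s ε| ≤ η / 4 := by
      rw [abs_mul, abs_of_pos hε']
      have h7 := hC s ⟨hs.1.le, hs.2.le⟩ ε ⟨hε', d2.le⟩
      have hse : 0 < Real.sqrt ε := Real.sqrt_pos.2 hε'
      have h8 : Real.sqrt ε ≤ η / (4 * (C + 1)) := by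
        rw [← Real.sqrt_sq (by positivity : (0:ℝ) ≤ η / (4 * (C + 1)))]
        exact Real.sqrt_le_sqrt d3.le
      calc ε * |RR v c g g' s ε| ≤ ε * (C / Real.sqrt ε) := mul_le_mul_of_nonneg_left h7 hε'.le
        _ = C * Real.sqrt ε := by
            rw [mul_div_assoc', div_eq_iff hse.ne']
            rw [mul_assoc, Real.mul_self_sqrt hε'.le]; ring
        _ ≤ C * (η / (4 * (C + 1))) := mul_le_mul_of_nonneg_left h8 hC0
        _ ≤ η / 4 := by
            rw [mul_div_assoc', div_le_div_iff₀ (by positivity) (by positivity)]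
            nlinarith
    calc |κ * MM v c g g' s ε - ε * RR v c g g' s ε| ≤
          |κ * MM v c g g' s ε| + |ε * RR v c g g' s ε| := abs_sub _ _
      _ ≤ η / 4 + η / 4 := add_le_add h5 h6
      _ < η := by linarith
  have h4 := tendsto_nhds_unique h2 h3
  rw [abs_eq_zero] at h4
  linarith

end arc

end Pool.Agent.TH564
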