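import Pool.Agent.TH564.FrameFlag

/-!
# The place sum in dimension three
-/

set_option linter.unusedSectionVars false

namespace Pool.Agent.TH564

open Pool.Agent.W576 Pool.Agent.W31.Bel

lemma sum_antisymm {n m : ℕ} (F : (Fin n → Fin m) → ℝ) (a b : Fin n)
    (h : ∀ σ, F (σ ∘ Equiv.swap a b) = - F σ) : ∑ σ, F σ = 0 := by
  have h1 := Equiv.sum_comp (Equiv.arrowCongr (Equiv.swap a b) (Equiv.refl (Fin m))) F
  have h2 : ∀ σ, F (Equiv.arrowCongr (Equiv.swap a b) (Equiv.refl (Fin m)) σ) = - F σ := by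
    intro σ
    rw [← h σ]
    congr 1
  rw [Finset.sum_congr rfl (fun σ _ => h2 σ), Finset.sum_neg_distrib] at h1
  linarith

lemma lor_pos_of_orth {d : ℕ} {x y : Fin (d+1) → ℝ} (hx : Fut x) (hy : y ≠ 0)
    (h : lor y x = 0) : 0 < lor y y := by
  have hx' := (Pool.Agent.W378.B13.fut_iff x).1 hx
  rw [Pool.Agent.W378.B13.lor_succ] at h ⊢
  have hcs := Pool.Agent.W378.B13.cs y x
  obtain ⟨hx0, hx1⟩ := hx'
  have hA : 0 ≤ ∑ i : Fin d, y i.succ ^ 2 := Finset.sum_nonneg (fun i _ => sq_nonneg _)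
  have h1 : (y 0 * x 0) ^ 2 ≤ (∑ i : Fin d, y i.succ ^ 2) * ∑ i : Fin d, x i.succ ^ 2 := by
    have : y 0 * x 0 = ∑ i : Fin d, y i.succ * x i.succ := by linarith
    rw [this]; exact hcs
  have e : ∑ i : Fin d, y i.succ * y i.succ = ∑ i : Fin d, y i.succ ^ 2 :=
    Finset.sum_congr rfl (fun i _ => by ring)
  rw [e]
  rcases hA.eq_or_lt with h0 | h0
  · exfalso
    rw [← h0, zero_mul] at h1
    have h2 : y 0 * x 0 = 0 := by nlinarith [sq_nonneg (y 0 * x 0)]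
    have h3 : y 0 = 0 := by
      rcases mul_eq_zero.1 h2 with h | h
      · exact h
      · exact absurd h hx0.ne'
    apply hy
    have h4 := (Finset.sum_eq_zero_iff_of_nonneg (fun i _ => sq_nonneg _)).1 h0.symm
    funext i
    refine Fin.cases h3 (fun j => ?_) i
    have := h4 j (Finset.mem_univ _)
    simpa using this
  · have h2 : (∑ i : Fin d, y i.succ ^ 2) * ∑ i : Fin d, x i.succ ^ 2 <
        (∑ i : Fin d, y i.succ ^ 2) * x 0 ^ 2 := mul_lt_mul_of_pos_left hx1 h0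
    have h3 : y 0 ^ 2 * x 0 ^ 2 < (∑ i : Fin d, y i.succ ^ 2) * x 0 ^ 2 := by
      calc y 0 ^ 2 * x 0 ^ 2 = (y 0 * x 0) ^ 2 := by ring
        _ < _ := lt_of_le_of_lt h1 h2
    have h4 := lt_of_mul_lt_mul_right h3 (by positivity)
    nlinarith

/-- unit normal vectors -/
lemma exists_normal {d : ℕ} {ι : Type} [Fintype ι] (hc : Fintype.card ι < d + 1)
    (v : ι → Fin (d+1) → ℝ) (hS : Fut (∑ i, v i)) :
    ∃ ν : Fin (d+1) → ℝ, lor ν ν = 1 ∧ ∀ i, lor ν (v i) = 0 := by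
  let L : (Fin (d+1) → ℝ) →ₗ[ℝ] (ι → ℝ) :=
    { toFun := fun y i => lor y (v i)
      map_add' := fun x y => by funext i; simp [lor_add_left]
      map_smul' := fun c x => by funext i; simp [lor_smul_left] }
  have hk : LinearMap.ker L ≠ ⊥ := by
    apply LinearMap.ker_ne_bot_of_finrank_lt
    simp
    omega
  obtain ⟨y, hy, hy0⟩ := (Submodule.ne_bot_iff _).1 hk
  have hyv : ∀ i, lor y (v i) = 0 := fun i => congrFun (LinearMap.mem_ker.1 hy) i
  have hyS : lor y (∑ i, v i) = 0 := by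
    rw [lor_comm', lor_sum_left]
    exact Finset.sum_eq_zero (fun i _ => by rw [lor_comm']; exact hyv i)
  have hpos := lor_pos_of_orth hS hy0 hyS
  refine ⟨(Real.sqrt (lor y y))⁻¹ • y, ?_, ?_⟩
  · rw [lor_smul_left, Pool.Agent.W365.ConfRot.lor_smul_right]
    have := Real.mul_self_sqrt hpos.le
    have h0 := Real.sqrt_pos.2 hpos
    field_simp
    nlinarith
  · intro i
    rw [lor_smul_left, hyv, mul_zero]

lemma IsSO.mulVec_ne {K : Type} [Field K] {d : ℕ} {g : Matrix (Fin d) (Fin d) K} (hg : IsSO g)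
    {y : Fin d → K} (hy : y ≠ 0) : g.mulVec y ≠ 0 := by
  intro h
  apply hy
  have h1 : g⁻¹.mulVec (g.mulVec y) = y := by
    rw [Matrix.mulVec_mulVec, Matrix.nonsing_inv_mul _ (by rw [hg.2]; exact isUnit_one),
      Matrix.one_mulVec]
  rw [← h1, h, Matrix.mulVec_zero]

lemma exists_mulVec' {K : Type} [Field K] {d : ℕ} {g : Matrix (Fin d) (Fin d) K} (hg : IsSO g)
    (y : Fin d → K) : ∃ a, g.mulVec a = y := by
  refine ⟨g⁻¹.mulVec y, ?_⟩
  rw [Matrix.mulVec_mulVec, Matrix.mul_nonsing_inv _ (by rw [hg.2]; exact isUnit_one),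
    Matrix.one_mulVec]

/-- components of a normal vector in an adapted frame -/
lemma normal_frame {h : Matrix (Fin 4) (Fin 4) ℝ} (hh : IsSO h) (x : Fin 2 → Fin 2 → ℝ)
    (hx : x 0 0 * x 1 1 - x 0 1 * x 1 0 ≠ 0) {ν : Fin 4 → ℝ} (h1 : lor ν ν = 1)
    (h2 : ∀ i, lor ν (h.mulVec ![x i 0, x i 1, 0, 0]) = 0) :
    ∃ A B : ℝ, A ^ 2 + B ^ 2 = 1 ∧ ν = h.mulVec ![0, 0, A, B] := by
  obtain ⟨a, ha⟩ := exists_mulVec' hh ν
  have e : ∀ i, - (a 0 * x i 0) + a 1 * x i 1 = 0 := by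
    intro i
    have := h2 i
    rw [← ha, hh.1] at this
    unfold lor at this
    rw [Fin.sum_univ_four] at this
    simp [eta] at this
    linarith
  have a0 : a 0 = 0 := by
    have := e 0
    have := e 1
    have h3 : (x 0 0 * x 1 1 - x 0 1 * x 1 0) * a 0 = 0 := by
      linear_combination -(x 1 1) * e 0 + x 0 1 * e 1
    exact (mul_eq_zero.1 h3).resolve_left hx
  have a1 : a 1 = 0 := by
    have h3 : (x 0 0 * x 1 1 - x 0 1 * x 1 0) * a 1 = 0 := by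
      linear_combination -(x 1 0) * e 0 + x 0 0 * e 1
    exact (mul_eq_zero.1 h3).resolve_left hx
  refine ⟨a 2, a 3, ?_, ?_⟩
  · rw [← ha, hh.1] at h1
    unfold lor at h1
    rw [Fin.sum_univ_four] at h1
    simp [eta, a0, a1] at h1
    linarith
  · rw [← ha]
    congr 1
    funext i
    fin_cases i <;> simp [a0, a1]

section fbA

variable {K : Type} [Field K] [Algebra ℂ K] (S : Sym K)

lemma fbA_smul {u : K} {V N : Fin 4 → K} {n lam : ℝ} (hl : lam ≠ 0) (hn : n ≠ 0)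
    (gL : lor V (ov u) ≠ 0)
    (gA : br (ov u) (wv u) V N ≠ 0) (gA' : br (ov u) (wv' u) V N ≠ 0) :
    fbA S u (reHom K lam • V) N (lam ^ 2 * n) = fbA S u V N n := by
  have hl' : reHom K lam ≠ 0 := (map_ne_zero _).2 hl
  have e1 : ∀ w, br (ov u) w (reHom K lam • V) N = reHom K lam * br (ov u) w V N := by
    intro w; unfold br; rw [lor_smul_left, lor_smul_left]; ring
  unfold fbA
  rw [e1, e1, lor_smul_left, S.o_mul _ _ hl' gA, S.o_mul _ _ hl' gA', S.o_mul _ _ hl' gL,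
    S.l_mul _ _ hl' gA, S.l_mul _ _ hl' gA', S.l_mul _ _ hl' gL, S.o_real hl, S.l_real hl,
    Real.log_mul (pow_ne_zero 2 hl) hn, Real.log_pow]
  push_cast
  ring

end fbA

/-- the weight of an edge -/
noncomputable def Wd (G : Matrix (Fin (1+1)) (Fin (1+1)) ℝ) : ℝ :=
  (2 * Real.log (-(G 0 1) + Real.sqrt (G 0 1 ^ 2 - G 0 0 * G 1 1)) - Real.log (-(G 0 0)) -
    Real.log (-(G 1 1))) / (4 * Real.sqrt (G 0 1 ^ 2 - G 0 0 * G 1 1))

lemma Wd_frame (x : Fin 2 → Fin 2 → ℝ) (hx : 0 < x 0 0 * x 1 1 - x 0 1 * x 1 0)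
    (G : Matrix (Fin (1+1)) (Fin (1+1)) ℝ)
    (hG : ∀ i j, G i j = -(x i 0 * x j 0) + x i 1 * x j 1)
    (h0 : G 0 0 ≤ 0) (h1 : G 1 1 ≤ 0) (h01 : G 0 1 ≤ 0) :
    4 * (Wd G * (x 0 0 * x 1 1 - x 0 1 * x 1 0)) =
      lE (x 1 0 + x 1 1) (x 1 0 - x 1 1) - lE (x 0 0 + x 0 1) (x 0 0 - x 0 1) := by
  have hD : G 0 1 ^ 2 - G 0 0 * G 1 1 = (x 0 0 * x 1 1 - x 0 1 * x 1 0) ^ 2 := by
    rw [hG, hG, hG]; ring
  rw [lE_diff (by linarith) (by rw [hG] at h0; linarith) (by rw [hG] at h1; linarith)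
    (by rw [hG] at h01; linarith)]
  unfold Wd
  rw [hD, Real.sqrt_sq hx.le]
  have e1 : -(G 0 1) + (x 0 0 * x 1 1 - x 0 1 * x 1 0) =
      (x 1 0 + x 1 1) * (x 0 0 - x 0 1) := by
    rw [hG]; ring
  have e2 : -(G 0 0) = (x 0 0 + x 0 1) * (x 0 0 - x 0 1) := by rw [hG]; ring
  have e3 : -(G 1 1) = (x 1 0 + x 1 1) * (x 1 0 - x 1 1) := by rw [hG]; ring
  rw [e1, e2, e3]
  generalize x 0 0 * x 1 1 - x 0 1 * x 1 0 = D at hx ⊢
  field_simp

end Pool.Agent.TH564
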