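import Pool.Agent.TH564.Place1

/-!
# The place sum in dimension three, continued
-/

set_option linter.unusedSectionVars false

namespace Pool.Agent.TH564

open Pool.Agent.W576 Pool.Agent.W31.Bel

section

variable {K : Type} [Field K] [Algebra ℂ K]

lemma pad_four (x : Fin (1+1) → ℝ) : (pad x : Fin (1+3) → ℝ) = ![x 0, x 1, 0, 0] := by
  funext l
  fin_cases l <;> simp [pad]

lemma frame_vec (g : Matrix (Fin (1+3)) (Fin (1+3)) K) (h : Matrix (Fin (1+3)) (Fin (1+3)) ℝ)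
    (a b c d : ℝ) :
    g.mulVec (fun l => reHom K (h.mulVec ![a, b, c, d] l)) =
      (g * h.map (reHom K)).mulVec ![reHom K a, reHom K b, reHom K c, reHom K d] := by
  rw [← map_mulVec, Matrix.mulVec_mulVec]
  congr 1
  funext l
  fin_cases l <;> simp

lemma frame_epl (g : Matrix (Fin (1+3)) (Fin (1+3)) K) (h : Matrix (Fin (1+3)) (Fin (1+3)) ℝ) :
    g.mulVec (epl h) = (g * h.map (reHom K)).mulVec ![0, 0, 1, II K] := by
  rw [epl_eq, Matrix.mulVec_mulVec]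
  congr 1
  funext l
  fin_cases l <;> simp [ia, ib, Fin.ext_iff]

lemma frame_emi (g : Matrix (Fin (1+3)) (Fin (1+3)) K) (h : Matrix (Fin (1+3)) (Fin (1+3)) ℝ) :
    g.mulVec (emi h) = (g * h.map (reHom K)).mulVec ![0, 0, 1, -II K] := by
  rw [emi_eq, Matrix.mulVec_mulVec]
  congr 1
  funext l
  fin_cases l <;> simp [ia, ib, Fin.ext_iff]

lemma fun_smul_add (g : Matrix (Fin (1+3)) (Fin (1+3)) K) (a b : Fin (1+3) → ℝ) (c : ℝ) :
    g.mulVec (fun l => reHom K ((a + c • b) l)) =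
      g.mulVec (fun l => reHom K (a l)) + reHom K c • g.mulVec (fun l => reHom K (b l)) := by
  rw [← Matrix.mulVec_smul, ← Matrix.mulVec_add]
  congr 1
  funext l
  simp

end

lemma lor4' {R : Type*} [CommRing R] (x y : Fin 4 → R) :
    lor x y = -(x 0 * y 0) + x 1 * y 1 + x 2 * y 2 + x 3 * y 3 := by
  unfold lor
  rw [Fin.sum_univ_four]
  simp [eta]

lemma sum_cons_eq {n m : ℕ} (G : (Fin (n+1) → Fin m) → ℝ) :
    ∑ σ : Fin (n+1) → Fin m, G σ = ∑ τ : Fin n → Fin m, ∑ q, G (Fin.cons q τ) := by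
  rw [← (Fin.consEquiv (fun _ : Fin (n+1) => Fin m)).sum_comp, Fintype.sum_prod_type,
    Finset.sum_comm]
  rfl

lemma rng_comp_perm {n m : ℕ} (σ : Fin n → Fin m) (π : Equiv.Perm (Fin n)) :
    rng (σ ∘ π) = rng σ := by
  unfold rng
  ext j
  simp only [Finset.mem_image, Finset.mem_univ, true_and, Function.comp_apply]
  constructor
  · rintro ⟨i, hi⟩; exact ⟨π i, hi⟩
  · rintro ⟨i, hi⟩; exact ⟨π.symm i, by simpa using hi⟩

section main

variable {K : Type} [Field K] [Algebra ℂ K] {κ : Type} [Field κ] (p : Place K κ)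

theorem place_sum_one {m : ℕ}
    (v : Fin m → Fin (1+3) → ℝ) (hv : ∀ j, Cau (v j)) (c : (Fin (1+2) → Fin m) → ℤ)
    (hneg : ∀ s ∈ supp c, ∀ i ∈ s, ∀ j ∈ s, i ≠ j → lor (v i) (v j) < 0)
    (hcalt : ∀ (σ : Fin (1+2) → Fin m) (π : Equiv.Perm (Fin (1+2))),
      c (σ ∘ π) = ((Equiv.Perm.sign π : ℤˣ) : ℤ) * c σ)
    (hccyc : ∀ τ : Fin (1+1) → Fin m, ∑ q, c (Fin.cons q τ) = 0)
    (T : Finset (Fin (1+1) → Fin m))
    (h : (Fin (1+1) → Fin m) → Matrix (Fin (1+3)) (Fin (1+3)) ℝ)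
    (x : (Fin (1+1) → Fin m) → Fin (1+1) → Fin (1+1) → ℝ)
    (ref : (Fin (1+1) → Fin m) → Finset (Fin m)) (hD : FaceData v c T h x ref)
    (g : Finset (Fin m) → Matrix (Fin (1+3)) (Fin (1+3)) K) (hg : IsConf (reHom K) v c g)
    (n : (Fin (1+1) → Fin m) → Finset (Fin m) → ℤ)
    (hn : ∀ τ ∈ T, ∀ s ∈ supp c, (∀ i, τ i ∈ s) →
        p.t ^ (-(n τ s)) * zz (h τ) (g s) (g (ref τ)) ∈ p.O ∧
        (p.t ^ (-(n τ s)) * zz (h τ) (g s) (g (ref τ)))⁻¹ ∈ p.O) :
    ∑ τ ∈ T, (Wd (gram fun i => v (τ i)) * (Matrix.of (x τ)).det) *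
      ((∑ q, c (Fin.cons q τ) * n τ (rng (Fin.cons q τ : Fin (1+2) → Fin m)) : ℤ) : ℝ) = 0 := by
  classical
  obtain ⟨S, hS⟩ := exists_sym p
  have hinjc : ∀ σ, c σ ≠ 0 → Function.Injective σ := fun σ h => alt_inj c hcalt σ h
  -- simplices
  have hfut : ∀ s ∈ supp c, Fut (∑ j : s, v j) ∧ s.card < 3 + 1 := by
    rintro s ⟨σ, hσ, rfl⟩
    have hm0 : σ 0 ∈ rng σ := mem_rngσ σ 0
    have hm1 : σ 1 ∈ rng σ := mem_rngσ σ 1
    have hne : σ 0 ≠ σ 1 := fun h => by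
      have := hinjc σ hσ h
      simp at this
    refine ⟨?_, ?_⟩
    · exact fut_sum (fun j : rng σ => v j) (fun j => hv _) ⟨σ 0, hm0⟩ ⟨σ 1, hm1⟩
        (hneg _ ⟨σ, hσ, rfl⟩ _ hm0 _ hm1 hne)
    · unfold rng
      calc (Finset.univ.image σ).card ≤ (Finset.univ : Finset (Fin (1+2))).card :=
            Finset.card_image_le
        _ < 3 + 1 := by simp
  have hν : ∀ s ∈ supp c, ∃ ν : Fin (1+3) → ℝ, lor ν ν = 1 ∧ ∀ j ∈ s, lor ν (v j) = 0 := by
    intro s hs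
    obtain ⟨ν, h1, h2⟩ := exists_normal (d := 3) (ι := s)
      (by rw [Fintype.card_coe]; exact (hfut s hs).2) (fun j => v j) (hfut s hs).1
    exact ⟨ν, h1, fun j hj => h2 ⟨j, hj⟩⟩
  choose! ν hν1 hν2 using hν
  -- faces
  have hdet : ∀ τ, (Matrix.of (x τ)).det = x τ 0 0 * x τ 1 1 - x τ 0 1 * x τ 1 0 := by
    intro τ; rw [Matrix.det_fin_two]; rfl
  have hvx : ∀ τ ∈ T, ∀ i, v (τ i) = (h τ).mulVec ![x τ i 0, x τ i 1, 0, 0] := by
    intro τ hτ i
    rw [hD.coord τ hτ i, pad_four]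
  have hAB : ∀ τ s, τ ∈ T → s ∈ supp c → (∀ i, τ i ∈ s) →
      ∃ A B : ℝ, A ^ 2 + B ^ 2 = 1 ∧ ν s = (h τ).mulVec ![0, 0, A, B] := by
    intro τ s hτ hs hτs
    refine normal_frame (hD.so τ hτ) (x τ) ?_ (hν1 s hs) (fun i => ?_)
    · have := hD.det_pos τ hτ
      rw [hdet] at this; exact this.ne'
    · rw [← hvx τ hτ i]; exact hν2 s hs _ (hτs i)
  choose! A B hAB1 hAB2 using hAB
  -- vectors over the field
  set V : Finset (Fin m) → Fin m → Fin 4 → K :=
    fun s j => (g s).mulVec (fun l => reHom K (v j l)) with hV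
  set N : Finset (Fin m) → Fin 4 → K :=
    fun s => (g s).mulVec (fun l => reHom K (ν s l)) with hN
  set F : (Fin (1+1) → Fin m) → Finset (Fin m) → Matrix (Fin 4) (Fin 4) K :=
    fun τ s => g s * (h τ).map (reHom K) with hF
  have hFso : ∀ τ s, τ ∈ T → s ∈ supp c → IsSO (F τ s) := fun τ s hτ hs =>
    (hg.so s hs).mul ((hD.so τ hτ).map _)
  have hVF : ∀ τ s, τ ∈ T → ∀ i, V s (τ i) =
      (F τ s).mulVec ![reHom K (x τ i 0), reHom K (x τ i 1), 0, 0] := by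
    intro τ s hτ i
    have := frame_vec (g s) (h τ) (x τ i 0) (x τ i 1) 0 0
    rw [← hvx τ hτ i] at this
    simp only [map_zero] at this
    exact this
  have hNF : ∀ τ s, τ ∈ T → s ∈ supp c → (∀ i, τ i ∈ s) → N s =
      (F τ s).mulVec ![0, 0, reHom K (A τ s), reHom K (B τ s)] := by
    intro τ s hτ hs hτs
    have := frame_vec (g s) (h τ) 0 0 (A τ s) (B τ s)
    rw [← hAB2 τ s hτ hs hτs] at this
    simp only [map_zero] at this
    exact this
  set nn : Fin m → ℝ := fun j => - lor (v j) (v j) with hnn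
  -- genericity
  set X : (Fin (1+1) → Fin m) × Finset (Fin m) × Fin m → Fin 9 → Fin 4 → K := fun e =>
    ![(F e.1 e.2.1).mulVec ![1, 1, 0, 0], (F e.1 e.2.1).mulVec ![1, -1, 0, 0],
      (F e.1 e.2.1).mulVec ![0, 0, 1, II K], (F e.1 e.2.1).mulVec ![0, 0, 1, -II K],
      N e.2.1,
      (F e.1 e.2.1).mulVec ![0, 0, reHom K (B e.1 e.2.1), -reHom K (A e.1 e.2.1)],
      V e.2.1 e.2.2,
      (g e.2.1).mulVec (fun l => reHom K ((v e.2.2 + Real.sqrt (nn e.2.2) • ν e.2.1) l)),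
      (g e.2.1).mulVec (fun l => reHom K ((v e.2.2 + (-Real.sqrt (nn e.2.2)) • ν e.2.1) l))] with hX
  obtain ⟨c0, hc0, hgen⟩ := exists_generic (K := K)
    (fun e : {e : ((Fin (1+1) → Fin m) × Finset (Fin m) × Fin m) × Fin 9 // X e.1 e.2 ≠ 0} =>
      X e.1.1 e.1.2) (fun e => e.2)
  set u : K := algebraMap ℂ K c0 with hu
  have hgen' : ∀ e k, X e k ≠ 0 → lor (X e k) (ov u) ≠ 0 := fun e k hk => hgen ⟨⟨e, k⟩, hk⟩
  have hre : ∀ y : Fin (1+3) → ℝ, y ≠ 0 → (fun l => reHom K (y l)) ≠ 0 := by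
    intro y hy h0
    apply hy
    funext l
    have := congrFun h0 l
    simp only [Pi.zero_apply] at this
    exact (map_eq_zero _).1 this
  have hone : (1 : K) ≠ 0 := one_ne_zero
  have gd : ∀ τ s, τ ∈ T → s ∈ supp c → ∀ y : Fin 4 → K, y ≠ 0 → (F τ s).mulVec y ≠ 0 :=
    fun τ s hτ hs y hy => IsSO.mulVec_ne (hFso τ s hτ hs) hy
  have G1 : ∀ τ s, τ ∈ T → s ∈ supp c → lor ((F τ s).mulVec ![1, 1, 0, 0]) (ov u) ≠ 0 :=
    fun τ s hτ hs => hgen' (τ, s, τ 0) 0 (gd τ s hτ hs _ (fun h0 => by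
      have := congrFun h0 0; simp at this))
  have G2 : ∀ τ s, τ ∈ T → s ∈ supp c → lor ((F τ s).mulVec ![1, -1, 0, 0]) (ov u) ≠ 0 :=
    fun τ s hτ hs => hgen' (τ, s, τ 0) 1 (gd τ s hτ hs _ (fun h0 => by
      have := congrFun h0 0; simp at this))
  have G3 : ∀ τ s, τ ∈ T → s ∈ supp c → lor ((F τ s).mulVec ![0, 0, 1, II K]) (ov u) ≠ 0 :=
    fun τ s hτ hs => hgen' (τ, s, τ 0) 2 (gd τ s hτ hs _ (fun h0 => by
      have := congrFun h0 2; simp at this))
  have G4 : ∀ τ s, τ ∈ T → s ∈ supp c → lor ((F τ s).mulVec ![0, 0, 1, -II K]) (ov u) ≠ 0 :=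
    fun τ s hτ hs => hgen' (τ, s, τ 0) 3 (gd τ s hτ hs _ (fun h0 => by
      have := congrFun h0 2; simp at this))
  have G5 : ∀ (j : Fin m) s, s ∈ supp c → lor (N s) (ov u) ≠ 0 := by
    intro j s hs
    refine hgen' ((fun _ => j), s, j) 4 (IsSO.mulVec_ne (hg.so s hs) (hre _ (fun h0 => ?_)))
    have := hν1 s hs
    rw [h0] at this
    simp [lor] at this
  have G6 : ∀ τ s, τ ∈ T → s ∈ supp c → (∀ i, τ i ∈ s) →
      lor ((F τ s).mulVec ![0, 0, reHom K (B τ s), -reHom K (A τ s)]) (ov u) ≠ 0 := by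
    intro τ s hτ hs hτs
    refine hgen' (τ, s, τ 0) 5 (gd τ s hτ hs _ (fun h0 => ?_))
    have h2 := congrFun h0 2
    have h3 := congrFun h0 3
    simp at h2 h3
    have := hAB1 τ s hτ hs hτs
    rw [h2, h3] at this
    simp at this
  have G7 : ∀ s, s ∈ supp c → ∀ j, lor (V s j) (ov u) ≠ 0 := by
    intro s hs j
    refine hgen' ((fun _ => j), s, j) 6 (IsSO.mulVec_ne (hg.so s hs) (hre _ (fun h0 => ?_)))
    have := (hv j).1
    rw [h0] at this
    simp at this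
  have hnn0 : ∀ j, 0 ≤ nn j := fun j => by
    have := (hv j).2
    simp only [hnn]; linarith
  have hvn : ∀ s ∈ supp c, ∀ j ∈ s, ∀ a : ℝ, a ^ 2 = nn j → v j + a • ν s ≠ 0 := by
    intro s hs j hj a ha h0
    have h1 : lor (v j + a • ν s) (v j) = 0 := by rw [h0]; simp [lor]
    rw [lor_add_left, lor_smul_left, hν2 s hs j hj, mul_zero, add_zero] at h1
    have h2 : nn j = 0 := by simp only [hnn]; linarith
    rw [h2] at ha
    have h3 : a = 0 := by simpa using ha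
    rw [h3, zero_smul, add_zero] at h0
    have := (hv j).1
    rw [h0] at this
    simp at this
  have hsq : ∀ j, Real.sqrt (nn j) ^ 2 = nn j := fun j => Real.sq_sqrt (hnn0 j)
  have G8 : ∀ s, s ∈ supp c → ∀ j ∈ s,
      lor (V s j) (ov u) + reHom K (Real.sqrt (nn j)) * lor (N s) (ov u) ≠ 0 := by
    intro s hs j hj
    have := hgen' ((fun _ => j), s, j) 7 (IsSO.mulVec_ne (hg.so s hs) (hre _
      (hvn s hs j hj _ (hsq j))))
    change lor ((g s).mulVec (fun l => reHom K ((v j + Real.sqrt (nn j) • ν s) l))) (ov u) ≠ 0 at this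
    rw [fun_smul_add, lor_add_left, lor_smul_left] at this
    exact this
  have G9 : ∀ s, s ∈ supp c → ∀ j ∈ s,
      lor (V s j) (ov u) - reHom K (Real.sqrt (nn j)) * lor (N s) (ov u) ≠ 0 := by
    intro s hs j hj
    have := hgen' ((fun _ => j), s, j) 8 (IsSO.mulVec_ne (hg.so s hs) (hre _
      (hvn s hs j hj _ (by rw [neg_sq]; exact hsq j))))
    change lor ((g s).mulVec (fun l => reHom K ((v j + (-Real.sqrt (nn j)) • ν s) l))) (ov u) ≠ 0
      at this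
    rw [fun_smul_add, lor_add_left, lor_smul_left, map_neg, neg_mul, ← sub_eq_add_neg] at this
    exact this
  -- Gram products
  have hlVV : ∀ s, s ∈ supp c → ∀ j, lor (V s j) (V s j) = - reHom K (nn j) := by
    intro s hs j
    simp only [hV, hnn]
    rw [(hg.so s hs).1]
    have := reHom_lor (K := K) (v j) (v j)
    rw [map_neg, neg_neg]
    exact this
  have hlVN : ∀ s, s ∈ supp c → ∀ j ∈ s, lor (V s j) (N s) = 0 := by
    intro s hs j hj
    simp only [hV, hN]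
    rw [(hg.so s hs).1]
    have := reHom_lor (K := K) (v j) (ν s)
    rw [lor_comm' (v j), hν2 s hs j hj, map_zero] at this
    exact this
  have hlNN : ∀ s, s ∈ supp c → lor (N s) (N s) = 1 := by
    intro s hs
    simp only [hN]
    rw [(hg.so s hs).1]
    have := reHom_lor (K := K) (ν s) (ν s)
    rw [hν1 s hs, map_one] at this
    exact this
  have GA : ∀ s, s ∈ supp c → ∀ j ∈ s, br (ov u) (wv u) (V s j) (N s) ≠ 0 ∧
      br (ov u) (wv' u) (V s j) (N s) ≠ 0 := by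
    intro s hs j hj
    have h1 := br_Z u (V s j) (N s)
    rw [hlVV s hs, hlVN s hs j hj, hlNN s hs] at h1
    have h2 : lor (V s j) (ov u) ^ 2 * 1 - 2 * lor (V s j) (ov u) * lor (N s) (ov u) * 0 +
        lor (N s) (ov u) ^ 2 * -reHom K (nn j) =
        (lor (V s j) (ov u) + reHom K (Real.sqrt (nn j)) * lor (N s) (ov u)) *
        (lor (V s j) (ov u) - reHom K (Real.sqrt (nn j)) * lor (N s) (ov u)) := by
      have h3 : reHom K (nn j) = reHom K (Real.sqrt (nn j)) ^ 2 := by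
        rw [← map_pow, hsq]
      rw [h3]; ring
    rw [h2] at h1
    have h4 := mul_ne_zero (G8 s hs j hj) (G9 s hs j hj)
    rw [← h1] at h4
    exact ⟨left_ne_zero_of_mul h4, right_ne_zero_of_mul h4⟩
  -- orders of the rotations
  set zo : (Fin (1+1) → Fin m) → Finset (Fin m) → ℝ := fun τ s =>
    S.o (lor ((F τ s).mulVec ![0, 0, 1, II K]) (ov u)) -
      S.o (lor ((F τ s).mulVec ![0, 0, 1, -II K]) (ov u)) with hzo
  have hz : ∀ τ s, τ ∈ T → s ∈ supp c → (∀ i, τ i ∈ s) →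
      zo τ s = 2 * n τ s + zo τ (ref τ) := by
    intro τ s hτ hs hτs
    obtain ⟨z1, z2, z3⟩ := Pool.Agent.W365.ConfRot.conf_rot v (x τ) (h τ) (hD.so τ hτ)
      (hD.det_pos τ hτ).ne' (g s) (g (ref τ)) (hg.so s hs) (hg.so _ (hD.ref_mem τ hτ))
      (fun i => by
        rw [← hD.coord τ hτ i]
        exact hg.inc s hs _ (hD.ref_mem τ hτ) _ (hτs i) (hD.ref_sub τ hτ i))
    have hz0 := left_ne_zero_of_mul_eq_one z1
    have hz0' := right_ne_zero_of_mul_eq_one z1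
    have ho := hS _ hz0 (n τ s) (hn τ hτ s hs hτs)
    have ho' : S.o (zz (h τ) (g (ref τ)) (g s)) = - n τ s := by
      have := S.o_mul _ _ hz0 hz0'
      rw [z1, S.o_one, ho] at this; linarith
    rw [frame_epl, frame_epl] at z2
    rw [frame_emi, frame_emi] at z3
    have r3 := G3 τ (ref τ) hτ (hD.ref_mem τ hτ)
    have r4 := G4 τ (ref τ) hτ (hD.ref_mem τ hτ)
    have y2 : (F τ s).mulVec ![0, 0, 1, II K] = zz (h τ) (g s) (g (ref τ)) •
        (F τ (ref τ)).mulVec ![0, 0, 1, II K] := z2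
    have y3 : (F τ s).mulVec ![0, 0, 1, -II K] = zz (h τ) (g (ref τ)) (g s) •
        (F τ (ref τ)).mulVec ![0, 0, 1, -II K] := z3
    simp only [hzo]
    rw [y2, y3, lor_smul_left, lor_smul_left, S.o_mul _ _ hz0 r3, S.o_mul _ _ hz0' r4, ho, ho']
    ring
  -- the identity of a flag
  set fB : Finset (Fin m) → Fin m → ℝ := fun s j => fbA S u (V s j) (N s) (nn j) with hfB
  set W : (Fin (1+1) → Fin m) → ℝ := fun τ =>
    Wd (gram fun i => v (τ i)) * (Matrix.of (x τ)).det with hW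
  set tt : (Fin (1+1) → Fin m) → ℝ := fun τ =>
    ttA S u (V (ref τ) (τ 0)) (V (ref τ) (τ 1)) (nn (τ 0)) (nn (τ 1)) with htt
  have hgx : ∀ τ ∈ T, ∀ i j, lor (v (τ i)) (v (τ j)) =
      -(x τ i 0 * x τ j 0) + x τ i 1 * x τ j 1 := by
    intro τ hτ i j
    rw [hvx τ hτ i, hvx τ hτ j, (hD.so τ hτ).1]
    refine (lor4' _ _).trans ?_
    simp
  have hnx : ∀ τ ∈ T, ∀ i, nn (τ i) = (x τ i 0 + x τ i 1) * (x τ i 0 - x τ i 1) := by
    intro τ hτ i
    simp only [hnn]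
    rw [hgx τ hτ]; ring
  have hVs : ∀ s ∈ supp c, ∀ s' ∈ supp c, ∀ j, j ∈ s → j ∈ s' → V s j = V s' j :=
    fun s hs s' hs' j hj hj' => hg.inc s hs s' hs' j hj hj'
  have key : ∀ τ s, τ ∈ T → s ∈ supp c → (∀ i, τ i ∈ s) →
      4 * W τ * zo τ s + (fB s (τ 1) - fB s (τ 0)) + tt τ = 0 := by
    intro τ s hτ hs hτs
    have hdp := hD.det_pos τ hτ
    rw [hdet] at hdp
    have h1 := frame_flag S (hFso τ s hτ hs) (u := u) (x τ) hdp.ne' (hAB1 τ s hτ hs hτs)
      (fun i => V s (τ i)) (fun i => hVF τ s hτ i) (N s) (hNF τ s hτ hs hτs)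
      (G1 τ s hτ hs) (G2 τ s hτ hs) (G3 τ s hτ hs) (G4 τ s hτ hs) (G5 (τ 0) s hs)
      (G6 τ s hτ hs hτs) (fun i => G7 s hs _) (fun i => (GA s hs _ (hτs i)).1)
      (fun i => (GA s hs _ (hτs i)).2)
    rw [← hnx τ hτ 0, ← hnx τ hτ 1] at h1
    have h2 := Wd_frame (x τ) hdp (gram fun i => v (τ i)) (fun i j => hgx τ hτ i j)
      (lor_nonpos (hv _) (hv _)) (lor_nonpos (hv _) (hv _)) (lor_nonpos (hv _) (hv _))
    rw [← h2] at h1
    have e0 := hVs s hs _ (hD.ref_mem τ hτ) (τ 0) (hτs 0) (hD.ref_sub τ hτ 0)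
    have e1 := hVs s hs _ (hD.ref_mem τ hτ) (τ 1) (hτs 1) (hD.ref_sub τ hτ 1)
    simp only [htt, hfB, hW, hzo, hdet]
    rw [← e0, ← e1]
    linear_combination h1
  -- parallel vertices
  have hpar : ∀ τ : Fin (1+1) → Fin m, τ ∉ T → ∀ s ∈ supp c, (∀ i, τ i ∈ s) → τ 0 ≠ τ 1 →
      fB s (τ 1) = fB s (τ 0) := by
    intro τ hτ s hs hτs hne
    have hli : ¬ LinearIndependent ℝ (fun i => v (τ i)) := fun hcon =>
      hτ ((hD.mem_T τ).2 ⟨hcon, s, hs, hτs⟩)
    rw [Fintype.not_linearIndependent_iff] at hli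
    obtain ⟨b, hb, i0, hi0⟩ := hli
    have hb' : b 0 • v (τ 0) + b 1 • v (τ 1) = 0 := by
      rw [← hb]; exact (Fin.sum_univ_two (fun i => b i • v (τ i))).symm
    have hv0 : ∀ j, v j ≠ 0 := fun j h0 => by
      have := (hv j).1
      rw [h0] at this
      simp at this
    have hb1 : b 1 ≠ 0 := by
      intro h0
      rw [h0, zero_smul, add_zero] at hb'
      rcases smul_eq_zero.1 hb' with h1 | h1
      · apply hi0
        fin_cases i0
        · exact h1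
        · exact h0
      · exact hv0 _ h1
    set lam : ℝ := -(b 0 / b 1) with hlam
    have hv1 : v (τ 1) = lam • v (τ 0) := by
      have h1 : b 1 • v (τ 1) = -(b 0 • v (τ 0)) := eq_neg_of_add_eq_zero_right hb'
      have h2 : v (τ 1) = (b 1)⁻¹ • (b 1 • v (τ 1)) := by
        rw [smul_smul, inv_mul_cancel₀ hb1, one_smul]
      rw [h2, h1, smul_neg, smul_smul, hlam, neg_smul]
      congr 2
      field_simp
    have hl0 : lam ≠ 0 := by
      intro h0
      rw [h0, zero_smul] at hv1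
      exact hv0 _ hv1
    have hneg' := hneg s hs _ (hτs 0) _ (hτs 1) hne
    have hn0 : nn (τ 0) ≠ 0 := by
      intro h0
      simp only [hnn] at h0
      rw [hv1, Pool.Agent.W365.ConfRot.lor_smul_right] at hneg'
      have : lor (v (τ 0)) (v (τ 0)) = 0 := by linarith
      rw [this, mul_zero] at hneg'
      exact lt_irrefl _ hneg'
    have hn1 : nn (τ 1) = lam ^ 2 * nn (τ 0) := by
      simp only [hnn]
      rw [hv1, lor_smul_left, Pool.Agent.W365.ConfRot.lor_smul_right]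
      ring
    have hV1 : V s (τ 1) = reHom K lam • V s (τ 0) := by
      simp only [hV]
      rw [hv1, ← Matrix.mulVec_smul]
      congr 1
      funext l
      simp
    simp only [hfB]
    rw [hV1, hn1]
    exact fbA_smul S hl0 hn0 (G7 s hs _) (GA s hs _ (hτs 0)).1 (GA s hs _ (hτs 0)).2
  -- the antisymmetric part
  have hmem : ∀ (τ : Fin (1+1) → Fin m) q, c (Fin.cons q τ) ≠ 0 →
      rng (Fin.cons q τ : Fin (1+2) → Fin m) ∈ supp c ∧
      ∀ i, τ i ∈ rng (Fin.cons q τ : Fin (1+2) → Fin m) :=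
    fun τ q hq => ⟨⟨_, hq, rfl⟩, fun i => mem_rng_cons' q τ i⟩
  have hanti : ∀ k a b : Fin (1+2), a ≠ b → k ≠ a → k ≠ b →
      ∑ σ : Fin (1+2) → Fin m, (c σ : ℝ) * fB (rng σ) (σ k) = 0 := by
    intro k a b hab hka hkb
    refine sum_antisymm _ a b (fun σ => ?_)
    rw [hcalt σ (Equiv.swap a b), rng_comp_perm, Equiv.Perm.sign_swap hab, Function.comp_apply,
      Equiv.swap_apply_of_ne_of_ne hka hkb]
    push_cast
    ring
  have hB : ∑ τ ∈ T, ∑ q, (c (Fin.cons q τ) : ℝ) *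
      (fB (rng (Fin.cons q τ : Fin (1+2) → Fin m)) (τ 1) -
        fB (rng (Fin.cons q τ : Fin (1+2) → Fin m)) (τ 0)) = 0 := by
    have h2 := hanti 2 0 1 (by decide) (by decide) (by decide)
    have h1 := hanti 1 0 2 (by decide) (by decide) (by decide)
    have h3 : ∑ σ : Fin (1+2) → Fin m, (c σ : ℝ) * (fB (rng σ) (σ 2) - fB (rng σ) (σ 1)) = 0 := by
      rw [Finset.sum_congr rfl (fun σ _ => mul_sub (c σ : ℝ) _ _), Finset.sum_sub_distrib, h1, h2,
        sub_zero]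
    rw [sum_cons_eq (n := 1+1)] at h3
    rw [← h3]
    refine Finset.sum_subset (Finset.subset_univ _) (fun τ _ hτ => ?_)
    refine Finset.sum_eq_zero (fun q _ => ?_)
    by_cases hq : c (Fin.cons q τ) = 0
    · simp [hq]
    · obtain ⟨h4, h5⟩ := hmem τ q hq
      have hinj := (Fin.cons_injective_iff.1 (hinjc _ hq)).2
      have hne : τ 0 ≠ τ 1 := fun h => by
        have := hinj h
        simp at this
      rw [hpar τ hτ _ h4 h5 hne, sub_self, mul_zero]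
  have htot : ∑ τ ∈ T, ∑ q, (c (Fin.cons q τ) : ℝ) *
      (4 * W τ * zo τ (rng (Fin.cons q τ : Fin (1+2) → Fin m)) +
        (fB (rng (Fin.cons q τ : Fin (1+2) → Fin m)) (τ 1) -
        fB (rng (Fin.cons q τ : Fin (1+2) → Fin m)) (τ 0)) + tt τ) = 0 := by
    refine Finset.sum_eq_zero (fun τ hτ => Finset.sum_eq_zero (fun q _ => ?_))
    by_cases hq : c (Fin.cons q τ) = 0
    · simp [hq]
    · obtain ⟨h1, h2⟩ := hmem τ q hq
      rw [key τ _ hτ h1 h2, mul_zero]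
  have hccycR : ∀ τ : Fin (1+1) → Fin m, ∑ q, (c (Fin.cons q τ) : ℝ) = 0 := by
    intro τ
    rw [← Int.cast_sum, hccyc, Int.cast_zero]
  have hsum : ∑ τ ∈ T, ∑ q, (c (Fin.cons q τ) : ℝ) *
      (4 * W τ * zo τ (rng (Fin.cons q τ : Fin (1+2) → Fin m)) +
        (fB (rng (Fin.cons q τ : Fin (1+2) → Fin m)) (τ 1) -
        fB (rng (Fin.cons q τ : Fin (1+2) → Fin m)) (τ 0)) + tt τ) =
      8 * ∑ τ ∈ T, W τ *
        ((∑ q, c (Fin.cons q τ) * n τ (rng (Fin.cons q τ : Fin (1+2) → Fin m)) : ℤ) : ℝ) +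
      ∑ τ ∈ T, ∑ q, (c (Fin.cons q τ) : ℝ) *
      (fB (rng (Fin.cons q τ : Fin (1+2) → Fin m)) (τ 1) -
        fB (rng (Fin.cons q τ : Fin (1+2) → Fin m)) (τ 0)) := by
    rw [Finset.mul_sum, ← Finset.sum_add_distrib]
    refine Finset.sum_congr rfl (fun τ hτ => ?_)
    have e1 : ∀ q, (c (Fin.cons q τ) : ℝ) *
      (4 * W τ * zo τ (rng (Fin.cons q τ : Fin (1+2) → Fin m)) +
        (fB (rng (Fin.cons q τ : Fin (1+2) → Fin m)) (τ 1) -
        fB (rng (Fin.cons q τ : Fin (1+2) → Fin m)) (τ 0)) + tt τ) =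
        8 * W τ * ((c (Fin.cons q τ) : ℝ) * (n τ (rng (Fin.cons q τ : Fin (1+2) → Fin m)) : ℝ)) +
        (c (Fin.cons q τ) : ℝ) *
      (fB (rng (Fin.cons q τ : Fin (1+2) → Fin m)) (τ 1) -
        fB (rng (Fin.cons q τ : Fin (1+2) → Fin m)) (τ 0)) +
        (4 * W τ * zo τ (ref τ) + tt τ) * (c (Fin.cons q τ) : ℝ) := by
      intro q
      by_cases hq : c (Fin.cons q τ) = 0
      · simp [hq]
      · obtain ⟨h1, h2⟩ := hmem τ q hq
        rw [hz τ _ hτ h1 h2]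
        ring
    rw [Finset.sum_congr rfl (fun q _ => e1 q), Finset.sum_add_distrib, Finset.sum_add_distrib,
      ← Finset.mul_sum, ← Finset.mul_sum, hccycR, mul_zero, add_zero]
    congr 1
    push_cast
    ring
  rw [hsum, hB, add_zero] at htot
  have h8 : (8:ℝ) ≠ 0 := by norm_num
  exact (mul_eq_zero.1 htot).resolve_left h8

end main

end Pool.Agent.TH564
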