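import Pool.Agent.TH564.Act

/-!
# The bellows theorem for positions of vertices in the closed ball
-/

set_option linter.unusedSectionVars false

namespace Pool.Agent.TH564

open MeasureTheory Filter Topology Set Pool.Agent.W576 Pool.Agent.W31.Bel

lemma IsLor.scale_sq {n : ℕ} {g : Matrix (Fin (n+1)) (Fin (n+1)) ℝ} (hg : IsLor g)
    {x y z : Fin n → ℝ} (hx : ∑ j, (x j) ^ 2 ≤ 1) (hy : ∑ j, (y j) ^ 2 ≤ 1)
    (hz : ∑ j, (z j) ^ 2 ≤ 1) (_hyz : y ≠ z) :
    (g.mulVec (XX x) 0) ^ 2 * (lor (XX (pact g x)) (XX (pact g y)) *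
      lor (XX (pact g x)) (XX (pact g z))) * lor (XX y) (XX z) =
    (lor (XX x) (XX y) * lor (XX x) (XX z)) * lor (XX (pact g y)) (XX (pact g z)) := by
  obtain ⟨px, ex⟩ := hg.mulVec_XX hx
  obtain ⟨py, ey⟩ := hg.mulVec_XX hy
  obtain ⟨pz, ez⟩ := hg.mulVec_XX hz
  have l1 := hg.form (XX x) (XX y)
  have l2 := hg.form (XX x) (XX z)
  have l3 := hg.form (XX y) (XX z)
  rw [ex, ey, lor_smul_left, lor_smul_right] at l1
  rw [ex, ez, lor_smul_left, lor_smul_right] at l2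
  rw [ey, ez, lor_smul_left, lor_smul_right] at l3
  rw [← l1, ← l2, ← l3]
  ring

/-- combinatorial data: flags -/
abbrev Flg (m : ℕ) := Fin m × Finset (Fin m)

section

variable {r m : ℕ} (c : (Fin (r+2) → Fin m) → ℤ) (q0 : Fin m → Fin (r+2) → ℝ)

/-- the facets `s`, `s'` are adjacent along a hinge with pairwise distinct vertices, and `a` is a
vertex of the hinge -/
def Adj (s s' : Finset (Fin m)) (a : Fin m) : Prop :=
  ∃ (τ : Fin (r+1) → Fin m) (p p' : Fin m), c (Fin.cons p τ) ≠ 0 ∧ c (Fin.cons p' τ) ≠ 0 ∧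
    s = rng (Fin.cons p τ : Fin (r+2) → Fin m) ∧ s' = rng (Fin.cons p' τ : Fin (r+2) → Fin m) ∧
    (∀ i j, i ≠ j → q0 (τ i) ≠ q0 (τ j)) ∧ ∃ i, a = τ i

/-- elementary identifications of flags -/
def Stp (f f' : Flg m) : Prop :=
  f.2 ∈ supp c ∧ f'.2 ∈ supp c ∧ f.1 ∈ f.2 ∧ f'.1 ∈ f'.2 ∧
    ((f.2 = f'.2 ∧ q0 f.1 = q0 f'.1) ∨ (f.1 = f'.1 ∧ Adj c q0 f.2 f'.2 f.1))

/-- the number of flags -/
def nfl (m : ℕ) : ℕ := Fintype.card (Flg m)

/-- numbering of the flags -/
noncomputable def efl (m : ℕ) : Flg m ≃ Fin (nfl m) := Fintype.equivFin (Flg m)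

/-- the representative of a flag, as a number -/
noncomputable def nd (f : Flg m) : Fin (nfl m) :=
  efl m (Quotient.out (Quotient.mk (Relation.EqvGen.setoid (Stp c q0)) f))

lemma nd_eq_iff (f f' : Flg m) : nd c q0 f = nd c q0 f' ↔ Relation.EqvGen (Stp c q0) f f' := by
  unfold nd
  rw [(efl m).injective.eq_iff, Quotient.out_inj]
  constructor
  · intro h; exact Quotient.exact h
  · intro h; exact Quotient.sound h

/-- the lift of a simplex -/
noncomputable def lft (σ : Fin (r+2) → Fin m) : Fin (r+2) → Fin (nfl m) :=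
  fun i => nd c q0 (σ i, rng σ)

lemma lft_perm (σ : Fin (r+2) → Fin m) (π : Equiv.Perm (Fin (r+2))) :
    lft c q0 (σ ∘ π) = lft c q0 σ ∘ π := by
  funext i
  unfold lft
  rw [rng_comp_perm]
  rfl

/-- the split chain -/
noncomputable def cc (σ' : Fin (r+2) → Fin (nfl m)) : ℤ :=
  ∑ σ : Fin (r+2) → Fin m, if lft c q0 σ = σ' then c σ else 0

lemma cc_alt (hcalt : ∀ (σ : Fin (r+2) → Fin m) (π : Equiv.Perm (Fin (r+2))),
      c (σ ∘ π) = ((Equiv.Perm.sign π : ℤˣ) : ℤ) * c σ)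
    (σ' : Fin (r+2) → Fin (nfl m)) (π : Equiv.Perm (Fin (r+2))) :
    cc c q0 (σ' ∘ π) = ((Equiv.Perm.sign π : ℤˣ) : ℤ) * cc c q0 σ' := by
  unfold cc
  rw [Finset.mul_sum, ← Equiv.sum_comp (Equiv.arrowCongr π.symm (Equiv.refl (Fin m)))]
  refine Finset.sum_congr rfl (fun σ _ => ?_)
  have e : (Equiv.arrowCongr π.symm (Equiv.refl (Fin m))) σ = σ ∘ π := by
    funext i; simp [Equiv.arrowCongr]
  rw [e, lft_perm, hcalt]
  have h : (lft c q0 σ ∘ π = σ' ∘ π) ↔ (lft c q0 σ = σ') := by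
    constructor
    · intro h
      funext i
      have := congrFun h (π.symm i)
      simpa using this
    · intro h; rw [h]
  by_cases h1 : lft c q0 σ = σ'
  · rw [if_pos h1, if_pos (h.2 h1)]
  · rw [if_neg h1, if_neg (fun h2 => h1 (h.1 h2)), mul_zero]

/-- pairing with the split chain -/
lemma cc_sum (F : (Fin (r+2) → Fin (nfl m)) → ℝ) :
    ∑ σ', (cc c q0 σ' : ℝ) * F σ' = ∑ σ : Fin (r+2) → Fin m, (c σ : ℝ) * F (lft c q0 σ) := by
  unfold cc
  simp only [Int.cast_sum, Finset.sum_mul]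
  rw [Finset.sum_comm]
  refine Finset.sum_congr rfl (fun σ _ => ?_)
  rw [Finset.sum_eq_single (lft c q0 σ)]
  · rw [if_pos rfl]
  · intro σ' _ h
    rw [if_neg (fun h' => h h'.symm)]; simp
  · intro h; exact absurd (Finset.mem_univ _) h

lemma cc_cyc (hcalt : ∀ (σ : Fin (r+2) → Fin m) (π : Equiv.Perm (Fin (r+2))),
      c (σ ∘ π) = ((Equiv.Perm.sign π : ℤˣ) : ℤ) * c σ)
    (hccyc : ∀ τ : Fin (r+1) → Fin m, ∑ q, c (Fin.cons q τ) = 0)
    (τ' : Fin (r+1) → Fin (nfl m)) : ∑ q', cc c q0 (Fin.cons q' τ') = 0 := by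
  classical
  by_cases hinj : Function.Injective τ'
  swap
  · refine Finset.sum_eq_zero (fun q' _ => ?_)
    by_contra h
    exact hinj (Fin.cons_injective_iff.1 (alt_inj (cc c q0) (cc_alt c q0 hcalt) _ h)).2
  -- reduction to a sum over the original simplices
  have h1 : ∑ q', cc c q0 (Fin.cons q' τ') = ∑ σ : Fin (r+2) → Fin m,
      if (fun i : Fin (r+1) => lft c q0 σ i.succ) = τ' then c σ else 0 := by
    unfold cc
    rw [Finset.sum_comm]
    refine Finset.sum_congr rfl (fun σ _ => ?_)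
    by_cases h : (fun i : Fin (r+1) => lft c q0 σ i.succ) = τ'
    · rw [if_pos h, Finset.sum_eq_single (lft c q0 σ 0)]
      · rw [if_pos]
        rw [← h]
        funext i
        refine Fin.cases ?_ (fun i => ?_) i
        · simp
        · simp
      · intro q' _ hq'
        rw [if_neg]
        intro h2
        apply hq'
        have := congrFun h2 0
        simpa using this.symm
      · intro h; exact absurd (Finset.mem_univ _) h
    · rw [if_neg h]
      refine Finset.sum_eq_zero (fun q' _ => ?_)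
      rw [if_neg]
      intro h2
      apply h
      funext i
      have := congrFun h2 i.succ
      simpa using this
  rw [h1]
  have h2 : ∑ σ : Fin (r+2) → Fin m, (if (fun i : Fin (r+1) => lft c q0 σ i.succ) = τ' then c σ
      else 0) = ∑ τ : Fin (r+1) → Fin m, ∑ q, (if (fun i : Fin (r+1) =>
        lft c q0 (Fin.cons q τ) i.succ) = τ' then c (Fin.cons q τ) else 0) := by
    rw [← (Fin.consEquiv (fun _ : Fin (r+2) => Fin m)).sum_comp, Fintype.sum_prod_type,
      Finset.sum_comm]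
    rfl
  rw [h2]
  refine Finset.sum_eq_zero (fun τ _ => ?_)
  have hmove : ∀ q q' : Fin m, c (Fin.cons q τ) ≠ 0 → c (Fin.cons q' τ) ≠ 0 →
      (fun i : Fin (r+1) => lft c q0 (Fin.cons q τ) i.succ) = τ' →
      (fun i : Fin (r+1) => lft c q0 (Fin.cons q' τ) i.succ) = τ' := by
    intro q q' hq hq' h
    rw [← h]
    funext i
    have hs : rng (Fin.cons q τ : Fin (r+2) → Fin m) ∈ supp c := ⟨_, hq, rfl⟩
    have hs' : rng (Fin.cons q' τ : Fin (r+2) → Fin m) ∈ supp c := ⟨_, hq', rfl⟩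
    have hne : ∀ i j, i ≠ j → q0 (τ i) ≠ q0 (τ j) := by
      intro i j hij heq
      apply hij
      apply hinj
      rw [← h]
      change nd c q0 (τ i, rng (Fin.cons q τ : Fin (r+2) → Fin m)) =
        nd c q0 (τ j, rng (Fin.cons q τ : Fin (r+2) → Fin m))
      rw [nd_eq_iff]
      exact Relation.EqvGen.rel _ _ ⟨hs, hs, mem_rng_cons2 q τ i, mem_rng_cons2 q τ j,
        Or.inl ⟨rfl, heq⟩⟩
    change nd c q0 (τ i, rng (Fin.cons q' τ : Fin (r+2) → Fin m)) =
        nd c q0 (τ i, rng (Fin.cons q τ : Fin (r+2) → Fin m))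
    rw [nd_eq_iff]
    exact Relation.EqvGen.rel _ _ ⟨hs', hs, mem_rng_cons2 q' τ i, mem_rng_cons2 q τ i,
        Or.inr ⟨rfl, τ, q', q, hq', hq, rfl, rfl, hne, i, rfl⟩⟩
  by_cases hex : ∃ q, c (Fin.cons q τ) ≠ 0 ∧
      (fun i : Fin (r+1) => lft c q0 (Fin.cons q τ) i.succ) = τ'
  · obtain ⟨q1, hq1, h3⟩ := hex
    refine Eq.trans ?_ (hccyc τ)
    refine Finset.sum_congr rfl (fun q _ => ?_)
    by_cases hq : c (Fin.cons q τ) = 0
    · rw [hq]; simp
    · rw [if_pos (hmove q1 q hq1 hq h3)]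
  · refine Finset.sum_eq_zero (fun q _ => ?_)
    by_cases hq : c (Fin.cons q τ) = 0
    · rw [hq]; simp
    · rw [if_neg (fun h => hex ⟨q, hq, h⟩)]

end

end Pool.Agent.TH564
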