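import Pool.Agent.TH564.Gen

/-!
# A real valued symbol attached to a place
-/

set_option linter.unusedSectionVars false

namespace Pool.Agent.TH564

open Pool.Agent.W576 Pool.Agent.W31.Bel

/-- order and logarithmic residue of a place, extended to real valued homomorphisms -/
structure Sym (K : Type) [Field K] [Algebra ℂ K] where
  o : K → ℝ
  l : K → ℝ
  o_mul : ∀ x y, x ≠ 0 → y ≠ 0 → o (x * y) = o x + o y
  l_mul : ∀ x y, x ≠ 0 → y ≠ 0 → l (x * y) = l x + l y
  o_c : ∀ z : ℂ, z ≠ 0 → o (algebraMap ℂ K z) = 0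
  l_c : ∀ z : ℂ, z ≠ 0 → l (algebraMap ℂ K z) = Real.log ‖z‖
  st : ∀ a b, a ≠ 0 → b ≠ 0 → a + b = 1 → o b * l a = o a * l b

section

variable {K : Type} [Field K] [Algebra ℂ K] {κ : Type} [Field κ]

/-- extension of the logarithm of the absolute value -/
lemma exists_log (j : ℂ →+* κ) : ∃ lam : κ → ℝ, (∀ x y, x ≠ 0 → y ≠ 0 → lam (x * y) = lam x + lam y) ∧
    ∀ z : ℂ, z ≠ 0 → lam (j z) = Real.log ‖z‖ := by
  let f : Additive ℂˣ →+ Additive κˣ := MonoidHom.toAdditive (Units.map (j : ℂ →* κ))
  have hf : Function.Injective f := by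
    intro a b hab
    have h1 : (Units.map (j : ℂ →* κ)) a.toMul = (Units.map (j : ℂ →* κ)) b.toMul := hab
    have h2 := congrArg Units.val h1
    simp only [Units.coe_map, MonoidHom.coe_coe] at h2
    exact Additive.toMul.injective (Units.ext (j.injective h2))
  let G : Additive ℂˣ →+ ℝ :=
    { toFun := fun u => Real.log ‖((Additive.toMul u : ℂˣ) : ℂ)‖
      map_zero' := by simp
      map_add' := by
        intro a b
        simp only [toMul_add, Units.val_mul, norm_mul]
        exact Real.log_mul (norm_ne_zero_iff.2 (Units.ne_zero _)) (norm_ne_zero_iff.2 (Units.ne_zero _)) }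
  obtain ⟨h, hh⟩ := (Module.Baer.of_divisible ℝ).extension_property_addMonoidHom f hf G
  classical
  refine ⟨fun x => if hx : x ≠ 0 then h (Additive.ofMul (Units.mk0 x hx)) else 0, ?_, ?_⟩
  · intro x y hx hy
    simp only [dif_pos hx, dif_pos hy, dif_pos (mul_ne_zero hx hy)]
    rw [← map_add, ← ofMul_mul]
    congr 2
    exact Units.ext (by simp)
  · intro z hz
    have hz' : j z ≠ 0 := (map_ne_zero j).2 hz
    simp only [dif_pos hz']
    have h1 := DFunLike.congr_fun hh (Additive.ofMul (Units.mk0 z hz))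
    have h2 : h (Additive.ofMul (Units.mk0 (j z) hz')) = h (f (Additive.ofMul (Units.mk0 z hz))) := by
      congr 1
      change Additive.ofMul _ = Additive.ofMul _
      congr 1
      exact Units.ext (by simp)
    rw [h2]
    exact h1

lemma exists_sym (p : Place K κ) : ∃ S : Sym K, ∀ x : K, x ≠ 0 → ∀ m : ℤ,
    (p.t ^ (-m) * x ∈ p.O ∧ (p.t ^ (-m) * x)⁻¹ ∈ p.O) → S.o x = m := by
  classical
  -- the order
  have hex : ∀ x : K, x ≠ 0 → ∃ m : ℤ, p.t ^ (-m) * x ∈ p.O ∧ (p.t ^ (-m) * x)⁻¹ ∈ p.O := by
    intro x hx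
    obtain ⟨m, hm⟩ := p.zpow x hx
    exact ⟨-m, by simpa using hm⟩
  choose! od hod using hex
  have huniq : ∀ x : K, x ≠ 0 → ∀ m : ℤ, (p.t ^ (-m) * x ∈ p.O ∧ (p.t ^ (-m) * x)⁻¹ ∈ p.O) →
      od x = m := by
    intro x hx m hm
    have := p.order_unique hx (hod x hx).1 (hod x hx).2 hm.1 hm.2
    omega
  have hodmul : ∀ x y : K, x ≠ 0 → y ≠ 0 → od (x * y) = od x + od y := by
    intro x y hx hy
    apply huniq _ (mul_ne_zero hx hy)
    have h1 : p.t ^ (-(od x + od y)) * (x * y) = (p.t ^ (-od x) * x) * (p.t ^ (-od y) * y) := by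
      rw [neg_add, zpow_add₀ p.t_ne]; ring
    rw [h1, mul_inv]
    exact ⟨p.O.mul_mem (hod x hx).1 (hod y hy).1, p.O.mul_mem (hod x hx).2 (hod y hy).2⟩
  -- residues
  have hres : ∀ x : K, x ≠ 0 → ∃ u : p.O, (u : K) = p.t ^ (-od x) * x ∧ p.red u ≠ 0 := by
    intro x hx
    refine ⟨⟨_, (hod x hx).1⟩, rfl, ?_⟩
    intro h0
    have h1 : (⟨_, (hod x hx).1⟩ : p.O) * ⟨_, (hod x hx).2⟩ = 1 := by
      apply Subtype.ext
      change p.t ^ (-od x) * x * (p.t ^ (-od x) * x)⁻¹ = 1
      exact mul_inv_cancel₀ (mul_ne_zero (zpow_ne_zero _ p.t_ne) hx)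
    have h2 := congrArg p.red h1
    rw [map_mul, h0, zero_mul, map_one] at h2
    exact zero_ne_one h2
  choose! rs hrs hrs0 using hres
  let j : ℂ →+* κ := p.red.comp ((algebraMap ℂ K).codRestrict p.O p.alg)
  obtain ⟨lam, hlm, hlc⟩ := exists_log j
  have hlam1 : lam 1 = 0 := by
    have := hlm 1 1 one_ne_zero one_ne_zero
    rw [one_mul] at this
    linarith
  have hlamneg : lam (-1) = 0 := by
    have := hlm (-1) (-1) (by simp) (by simp)
    rw [neg_mul_neg, one_mul, hlam1] at this
    linarith
  have hod1 : od 1 = 0 := by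
    apply huniq 1 one_ne_zero
    simp [p.O.one_mem]
  -- uniqueness of residues
  have hru : ∀ x : K, x ≠ 0 → ∀ u : p.O, (u : K) = p.t ^ (-od x) * x → p.red u = p.red (rs x) := by
    intro x hx u hu
    congr 1
    exact Subtype.ext (hu.trans (hrs x hx).symm)
  refine ⟨⟨fun x => (od x : ℝ), fun x => lam (p.red (rs x)), ?_, ?_, ?_, ?_, ?_⟩, ?_⟩
  · intro x y hx hy
    rw [hodmul x y hx hy]; push_cast; ring
  · intro x y hx hy
    rw [← hlm _ _ (hrs0 x hx) (hrs0 y hy), ← map_mul]
    congr 1
    symm
    apply hru _ (mul_ne_zero hx hy)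
    change ((rs x : K)) * (rs y : K) = _
    rw [hrs x hx, hrs y hy, hodmul x y hx hy, neg_add, zpow_add₀ p.t_ne]; ring
  · intro z hz
    have hz' : algebraMap ℂ K z ≠ 0 := (map_ne_zero _).2 hz
    have h1 : od (algebraMap ℂ K z) = 0 := by
      apply huniq _ hz'
      rw [neg_zero, zpow_zero, one_mul, ← map_inv₀]
      exact ⟨p.alg z, p.alg _⟩
    rw [h1]; simp
  · intro z hz
    have hz' : algebraMap ℂ K z ≠ 0 := (map_ne_zero _).2 hz
    have h1 : od (algebraMap ℂ K z) = 0 := by
      apply huniq _ hz'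
      rw [neg_zero, zpow_zero, one_mul, ← map_inv₀]
      exact ⟨p.alg z, p.alg _⟩
    rw [← hlc z hz]
    congr 1
    symm
    apply hru _ hz'
    rw [h1, neg_zero, zpow_zero, one_mul]
    rfl
  · intro a b ha hb hab
    -- key: positive order
    have key : ∀ a b : K, a ≠ 0 → b ≠ 0 → a + b = 1 → 0 < od a →
        od b = 0 ∧ lam (p.red (rs b)) = 0 := by
      intro a b ha hb hab hpos
      have haO : a ∈ p.O := by
        have h1 : a = p.t ^ (od a) * (p.t ^ (-od a) * a) := by
          rw [← mul_assoc, ← zpow_add₀ p.t_ne]; simp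
        rw [h1]
        exact p.O.mul_mem (p.tpow_mem hpos.le) (hod a ha).1
      have hta : p.t⁻¹ * a ∈ p.O := by
        have h1 : p.t⁻¹ * a = p.t ^ (od a - 1) * (p.t ^ (-od a) * a) := by
          have h2 : p.t ^ (od a - 1) * p.t ^ (-od a) = p.t⁻¹ := by
            rw [← zpow_add₀ p.t_ne, show od a - 1 + -od a = -1 by ring, zpow_neg_one]
          rw [← mul_assoc, h2]
        rw [h1]
        exact p.O.mul_mem (p.tpow_mem (by omega)) (hod a ha).1
      have hra : p.red ⟨a, haO⟩ = 0 := (p.red_ker ⟨a, haO⟩).2 hta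
      have hb' : b = 1 - a := by rw [← hab]; ring
      have hbO : b ∈ p.O := by rw [hb']; exact p.O.sub_mem p.O.one_mem haO
      have hrb : p.red ⟨b, hbO⟩ = 1 := by
        have h1 : (⟨b, hbO⟩ : p.O) = 1 - ⟨a, haO⟩ := Subtype.ext hb'
        rw [h1, map_sub, map_one, hra, sub_zero]
      have hob : od b = 0 := by
        by_contra hne
        rcases lt_or_gt_of_ne hne with h | h
        · -- negative order contradicts integrality
          have h1 : p.t ^ (od b) ∈ p.O := by
            have h2 : p.t ^ (od b) = b * (p.t ^ (-od b) * b)⁻¹ := by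
              rw [zpow_neg]
              field_simp
            rw [h2]
            exact p.O.mul_mem hbO (hod b hb).2
          rw [p.tpow_mem_iff] at h1
          omega
        · have h1 : p.t⁻¹ * b ∈ p.O := by
            have h1 : p.t⁻¹ * b = p.t ^ (od b - 1) * (p.t ^ (-od b) * b) := by
              have h2 : p.t ^ (od b - 1) * p.t ^ (-od b) = p.t⁻¹ := by
                rw [← zpow_add₀ p.t_ne, show od b - 1 + -od b = -1 by ring, zpow_neg_one]
              rw [← mul_assoc, h2]
            rw [h1]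
            exact p.O.mul_mem (p.tpow_mem (by omega)) (hod b hb).1
          have h2 := (p.red_ker ⟨b, hbO⟩).2 h1
          rw [hrb] at h2
          exact one_ne_zero h2
      refine ⟨hob, ?_⟩
      rw [← hru b hb ⟨b, hbO⟩ (by rw [hob]; simp), hrb, hlam1]
    rcases lt_trichotomy (od a) 0 with h | h | h
    · -- negative order: use `1/a` and `-b/a`
      have hb2 : -b / a ≠ 0 := div_ne_zero (neg_ne_zero.2 hb) ha
      have hinv : a⁻¹ ≠ 0 := inv_ne_zero ha
      have hodinv : od a⁻¹ = - od a := by
        have h1 := hodmul a a⁻¹ ha hinv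
        rw [mul_inv_cancel₀ ha, hod1] at h1
        omega
      have h1 := key a⁻¹ (-b / a) hinv hb2 (by field_simp; rw [← hab]; ring) (by omega)
      have hodneg : od (-1) = 0 := by
        apply huniq (-1) (by simp)
        rw [neg_zero, zpow_zero, one_mul]
        exact ⟨p.O.neg_mem p.O.one_mem, by rw [inv_neg, inv_one]; exact p.O.neg_mem p.O.one_mem⟩
      have e1 : -b / a = (-1) * (b * a⁻¹) := by rw [div_eq_mul_inv]; ring
      have h2 : od (-b / a) = od b + od a⁻¹ := by
        rw [e1, hodmul _ _ (by simp) (mul_ne_zero hb hinv), hodneg, hodmul _ _ hb hinv, zero_add]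
      have lmul : ∀ x y : K, x ≠ 0 → y ≠ 0 → lam (p.red (rs (x * y))) =
          lam (p.red (rs x)) + lam (p.red (rs y)) := by
        intro x y hx hy
        rw [← hlm _ _ (hrs0 x hx) (hrs0 y hy), ← map_mul]
        congr 1
        symm
        apply hru _ (mul_ne_zero hx hy)
        change ((rs x : K)) * (rs y : K) = _
        rw [hrs x hx, hrs y hy, hodmul x y hx hy, neg_add, zpow_add₀ p.t_ne]; ring
      have l1 : lam (p.red (rs 1)) = 0 := by
        have := lmul 1 1 one_ne_zero one_ne_zero
        rw [one_mul] at this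
        linarith
      have lneg : lam (p.red (rs (-1))) = 0 := by
        have := lmul (-1) (-1) (by simp) (by simp)
        rw [neg_mul_neg, one_mul, l1] at this
        linarith
      have linv : lam (p.red (rs a⁻¹)) = - lam (p.red (rs a)) := by
        have h1 := lmul a a⁻¹ ha hinv
        rw [mul_inv_cancel₀ ha, l1] at h1
        linarith
      have h3 : lam (p.red (rs (-b / a))) = lam (p.red (rs b)) + lam (p.red (rs a⁻¹)) := by
        rw [e1, lmul _ _ (by simp) (mul_ne_zero hb hinv), lneg, lmul _ _ hb hinv, zero_add]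
      rw [h3, linv] at h1
      rw [h2, hodinv] at h1
      have h4 : od b = od a := by omega
      have h5 : lam (p.red (rs b)) = lam (p.red (rs a)) := by linarith [h1.2]
      rw [h4, h5]
    · -- zero order
      rcases lt_trichotomy (od b) 0 with h' | h' | h'
      · -- impossible or trivial: `b = 1 - a` is integral
        have haO : a ∈ p.O := by
          have h1 := (hod a ha).1
          rw [h] at h1
          simpa using h1
        have hbO : b ∈ p.O := by
          have hb' : b = 1 - a := by rw [← hab]; ring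
          rw [hb']; exact p.O.sub_mem p.O.one_mem haO
        have h1 : p.t ^ (od b) ∈ p.O := by
          have h2 : p.t ^ (od b) = b * (p.t ^ (-od b) * b)⁻¹ := by
            rw [zpow_neg]
            field_simp
          rw [h2]
          exact p.O.mul_mem hbO (hod b hb).2
        rw [p.tpow_mem_iff] at h1
        omega
      · rw [h, h']; simp
      · have := key b a hb ha (by rw [add_comm]; exact hab) h'
        rw [this.1, this.2]; simp
    · have := key a b ha hb hab h
      rw [this.1, this.2]; simp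
  · intro x hx m hm
    simp only
    rw [huniq x hx m hm]

end

end Pool.Agent.TH564
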