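import Pool.Agent.TH564.Spl

/-!
# The bellows theorem for positions of vertices in the closed ball
-/

set_option linter.unusedSectionVars false

namespace Pool.Agent.TH564

open MeasureTheory Filter Topology Set Pool.Agent.W576 Pool.Agent.W31.Bel

/-- hypotheses on the motion of the vertices -/
structure VHyp {r m : ℕ} (c : (Fin (r+2) → Fin m) → ℤ) (q : ℝ → Fin m → Fin (r+2) → ℝ)
    (G : ℝ → Finset (Fin m) → Matrix (Fin (r+3)) (Fin (r+3)) ℝ) : Prop where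
  ball : ∀ s ∈ supp c, ∀ j ∈ s, ∀ t ∈ Icc (0:ℝ) 1, ∑ k, (q t j k) ^ 2 ≤ 1
  cont : ∀ s ∈ supp c, ∀ j ∈ s, ContinuousOn (fun t => q t j) (Icc (0:ℝ) 1)
  iso : ∀ s ∈ supp c, ∀ t ∈ Icc (0:ℝ) 1, IsLor (G t s)
  act : ∀ s ∈ supp c, ∀ t ∈ Icc (0:ℝ) 1, ∀ j ∈ s, q t j = pact (G t s) (q 0 j)
  lift : ∀ (τ : Fin (r+1) → Fin m) (p p' : Fin m), c (Fin.cons p τ) ≠ 0 → c (Fin.cons p' τ) ≠ 0 →
    (∀ i j, i ≠ j → q 0 (τ i) ≠ q 0 (τ j)) → ∀ i, ∀ t ∈ Icc (0:ℝ) 1,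
    (G t (rng (Fin.cons p τ : Fin (r+2) → Fin m))).mulVec (XX (q 0 (τ i))) =
      (G t (rng (Fin.cons p' τ : Fin (r+2) → Fin m))).mulVec (XX (q 0 (τ i)))

section

variable {r m : ℕ} {c : (Fin (r+2) → Fin m) → ℤ} {q : ℝ → Fin m → Fin (r+2) → ℝ}
    {G : ℝ → Finset (Fin m) → Matrix (Fin (r+3)) (Fin (r+3)) ℝ}

/-- the lift of the vertex of a flag -/
def gX (q : ℝ → Fin m → Fin (r+2) → ℝ)
    (G : ℝ → Finset (Fin m) → Matrix (Fin (r+3)) (Fin (r+3)) ℝ) (t : ℝ) (f : Flg m) :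
    Fin (r+3) → ℝ := (G t f.2).mulVec (XX (q 0 f.1))

lemma zero_memI : (0:ℝ) ∈ Icc (0:ℝ) 1 := ⟨le_rfl, zero_le_one⟩

lemma VHyp.gX_eq (H : VHyp c q G) {t : ℝ} (ht : t ∈ Icc (0:ℝ) 1) {f : Flg m} (hs : f.2 ∈ supp c)
    (hj : f.1 ∈ f.2) : 0 < gX q G t f 0 ∧ gX q G t f = (gX q G t f 0) • XX (q t f.1) := by
  have h := (H.iso _ hs t ht).mulVec_XX (H.ball _ hs _ hj 0 zero_memI)
  rw [← H.act _ hs t ht _ hj] at h
  exact h

lemma VHyp.step (H : VHyp c q G) {t : ℝ} (ht : t ∈ Icc (0:ℝ) 1) {f f' : Flg m}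
    (h : Stp c (q 0) f f') : gX q G t f = gX q G t f' := by
  obtain ⟨hs, hs', hj, hj', h⟩ := h
  rcases h with ⟨h1, h2⟩ | ⟨h1, τ, p, p', hp, hp', e, e', hne, i, hi⟩
  · unfold gX; rw [h1, h2]
  · unfold gX
    rw [← h1, e, e', hi]
    exact H.lift τ p p' hp hp' hne i t ht

lemma VHyp.gX_congr (H : VHyp c q G) {t : ℝ} (ht : t ∈ Icc (0:ℝ) 1) {f f' : Flg m}
    (h : nd c (q 0) f = nd c (q 0) f') : gX q G t f = gX q G t f' := by
  rw [nd_eq_iff] at h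
  induction h with
  | rel x y h => exact H.step ht h
  | refl x => rfl
  | symm x y _ ih => exact ih.symm
  | trans x y z _ _ ih1 ih2 => exact ih1.trans ih2

/-- good flags -/
def Gd (c : (Fin (r+2) → Fin m) → ℤ) (q0 : Fin m → Fin (r+2) → ℝ) (f : Flg m) : Prop :=
  f.2 ∈ supp c ∧ f.1 ∈ f.2 ∧ ∃ b ∈ f.2, ∃ d ∈ f.2, q0 f.1 ≠ q0 b ∧ q0 f.1 ≠ q0 d ∧ q0 b ≠ q0 d

lemma VHyp.cont_L (H : VHyp c q G) {s : Finset (Fin m)} (hs : s ∈ supp c) {a b : Fin m}
    (ha : a ∈ s) (hb : b ∈ s) :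
    ContinuousOn (fun t => lor (XX (q t a)) (XX (q t b))) (Icc (0:ℝ) 1) := by
  simp only [lor_XX]
  refine (continuousOn_const.sub (continuousOn_finsetSum _ (fun k _ => ?_))).neg
  exact ((continuous_apply k).comp_continuousOn (H.cont s hs a ha)).mul
    ((continuous_apply k).comp_continuousOn (H.cont s hs b hb))

lemma VHyp.gX_cont (H : VHyp c q G) {f : Flg m} (hf : Gd c (q 0) f) :
    ContinuousOn (fun t => gX q G t f) (Icc (0:ℝ) 1) := by
  obtain ⟨hs, hj, b, hb, d, hd, hab, had, hbd⟩ := hf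
  set a := f.1 with ha
  -- products at time t
  have hL : ∀ t ∈ Icc (0:ℝ) 1, ∀ x ∈ f.2, ∀ y ∈ f.2, q 0 x ≠ q 0 y →
      lor (XX (q t x)) (XX (q t y)) < 0 := by
    intro t ht x hx y hy hxy
    refine lor_XX_neg (H.ball _ hs _ hx t ht) (H.ball _ hs _ hy t ht) ?_
    rw [H.act _ hs t ht _ hx, H.act _ hs t ht _ hy]
    exact (H.iso _ hs t ht).pact_inj (H.ball _ hs _ hx 0 zero_memI)
      (H.ball _ hs _ hy 0 zero_memI) hxy
  have hscale : ∀ t ∈ Icc (0:ℝ) 1, gX q G t f 0 = Real.sqrt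
      (((lor (XX (q 0 a)) (XX (q 0 b)) * lor (XX (q 0 a)) (XX (q 0 d))) *
        lor (XX (q t b)) (XX (q t d))) / ((lor (XX (q t a)) (XX (q t b)) *
        lor (XX (q t a)) (XX (q t d))) * lor (XX (q 0 b)) (XX (q 0 d)))) := by
    intro t ht
    have h1 := (H.iso _ hs t ht).scale_sq (H.ball _ hs _ hj 0 zero_memI)
      (H.ball _ hs _ hb 0 zero_memI) (H.ball _ hs _ hd 0 zero_memI) hbd
    rw [← H.act _ hs t ht _ hj, ← H.act _ hs t ht _ hb, ← H.act _ hs t ht _ hd] at h1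
    have p := (H.gX_eq ht hs hj).1
    have l1 := hL t ht a hj b hb hab
    have l2 := hL t ht a hj d hd had
    have l3 := hL 0 zero_memI b hb d hd hbd
    have hne : (lor (XX (q t a)) (XX (q t b)) *
        lor (XX (q t a)) (XX (q t d))) * lor (XX (q 0 b)) (XX (q 0 d)) ≠ 0 :=
      mul_ne_zero (mul_ne_zero l1.ne l2.ne) l3.ne
    rw [← h1, mul_assoc, mul_div_assoc, div_self hne, mul_one]
    exact (Real.sqrt_sq p.le).symm
  have hcont : ContinuousOn (fun t => (Real.sqrt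
      (((lor (XX (q 0 a)) (XX (q 0 b)) * lor (XX (q 0 a)) (XX (q 0 d))) *
        lor (XX (q t b)) (XX (q t d))) / ((lor (XX (q t a)) (XX (q t b)) *
        lor (XX (q t a)) (XX (q t d))) * lor (XX (q 0 b)) (XX (q 0 d))))) • XX (q t a))
      (Icc (0:ℝ) 1) := by
    refine ContinuousOn.smul (M := ℝ) ?_ ?_
    · refine Real.continuous_sqrt.comp_continuousOn (ContinuousOn.div ?_ ?_ ?_)
      · exact continuousOn_const.mul (H.cont_L hs hb hd)
      · exact ((H.cont_L hs hj hb).mul (H.cont_L hs hj hd)).mul continuousOn_const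
      · intro t ht
        exact mul_ne_zero (mul_ne_zero (hL t ht a hj b hb hab).ne (hL t ht a hj d hd had).ne)
          (hL 0 zero_memI b hb d hd hbd).ne
    · refine continuousOn_pi.2 (fun k => ?_)
      refine Fin.cases ?_ (fun k => ?_) k
      · simp only [XX_zero]; exact continuousOn_const
      · simp only [XX_succ]
        exact (continuous_apply k).comp_continuousOn (H.cont _ hs _ hj)
  refine hcont.congr (fun t ht => ?_)
  simp only
  rw [← hscale t ht]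
  exact (H.gX_eq ht hs hj).2

end

end Pool.Agent.TH564
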