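import Pool.Agent.TH564.Ver

/-!
# The bellows theorem for positions of vertices in the closed ball: conclusion
-/

set_option linter.unusedSectionVars false

namespace Pool.Agent.TH564

open MeasureTheory Filter Topology Set Pool.Agent.W576 Pool.Agent.W31.Bel

section

variable {r m : ℕ} {c : (Fin (r+2) → Fin m) → ℤ} {q : ℝ → Fin m → Fin (r+2) → ℝ}
    {G : ℝ → Finset (Fin m) → Matrix (Fin (r+3)) (Fin (r+3)) ℝ}

/-- the parameter, truncated to the unit interval -/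
noncomputable def prj (t : ℝ) : ℝ := (projIcc (0:ℝ) 1 zero_le_one t : ℝ)

lemma prj_mem (t : ℝ) : prj t ∈ Icc (0:ℝ) 1 := (projIcc (0:ℝ) 1 zero_le_one t).2

lemma prj_of_mem {t : ℝ} (ht : t ∈ Icc (0:ℝ) 1) : prj t = t := by
  unfold prj; rw [projIcc_of_mem _ ht]

open Classical in
/-- the lifts of the vertices of the split chain -/
noncomputable def YV (c : (Fin (r+2) → Fin m) → ℤ) (q : ℝ → Fin m → Fin (r+2) → ℝ)
    (G : ℝ → Finset (Fin m) → Matrix (Fin (r+3)) (Fin (r+3)) ℝ) (t : ℝ) (ν : Fin (nfl m)) :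
    Fin (r+3) → ℝ :=
  if h : ∃ f, Gd c (q 0) f ∧ nd c (q 0) f = ν then gX q G (prj t) h.choose else ee

lemma VHyp.YV_eq (H : VHyp c q G) {t : ℝ} (ht : t ∈ Icc (0:ℝ) 1) {f : Flg m}
    (hf : Gd c (q 0) f) : YV c q G t (nd c (q 0) f) = gX q G t f := by
  have hex : ∃ f', Gd c (q 0) f' ∧ nd c (q 0) f' = nd c (q 0) f := ⟨f, hf, rfl⟩
  unfold YV
  rw [dif_pos hex, prj_of_mem ht]
  exact H.gX_congr ht hex.choose_spec.2

lemma VHyp.YV_cont (H : VHyp c q G) : Continuous (YV c q G) := by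
  refine continuous_pi (fun ν => ?_)
  unfold YV
  by_cases h : ∃ f, Gd c (q 0) f ∧ nd c (q 0) f = ν
  · simp only [dif_pos h]
    have h1 := H.gX_cont h.choose_spec.1
    exact (continuousOn_iff_continuous_domRestrict.1 h1).comp (continuous_projIcc (h := zero_le_one))
  · simp only [dif_neg h]; exact continuous_const

lemma VHyp.YV_cau (H : VHyp c q G) (t : ℝ) (ν : Fin (nfl m)) : Cau (YV c q G t ν) := by
  unfold YV
  by_cases h : ∃ f, Gd c (q 0) f ∧ nd c (q 0) f = ν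
  · rw [dif_pos h]
    have hs := h.choose_spec.1
    exact (H.iso _ hs.1 _ (prj_mem t)).cau (cau_XX (H.ball _ hs.1 _ hs.2.1 0 zero_memI))
  · rw [dif_neg h]; exact Cau.of_fut fut_ee

/-- simplices whose lift is injective -/
lemma lft_inj_ne {σ : Fin (r+2) → Fin m} (hσ : c σ ≠ 0) (q0 : Fin m → Fin (r+2) → ℝ)
    (h : Function.Injective (lft c q0 σ)) {i j : Fin (r+2)} (hij : i ≠ j) :
    q0 (σ i) ≠ q0 (σ j) := by
  intro heq
  apply hij
  apply h
  unfold lft
  rw [nd_eq_iff]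
  exact Relation.EqvGen.rel _ _ ⟨⟨σ, hσ, rfl⟩, ⟨σ, hσ, rfl⟩, mem_rngσ σ i, mem_rngσ σ j,
    Or.inl ⟨rfl, heq⟩⟩

lemma lft_good (hr : 1 ≤ r) {σ : Fin (r+2) → Fin m} (hσ : c σ ≠ 0) (q0 : Fin m → Fin (r+2) → ℝ)
    (h : Function.Injective (lft c q0 σ)) (i : Fin (r+2)) : Gd c q0 (σ i, rng σ) := by
  refine ⟨⟨σ, hσ, rfl⟩, mem_rngσ σ i, ?_⟩
  obtain ⟨j, k, hj, hk, hjk⟩ : ∃ j k : Fin (r+2), i ≠ j ∧ i ≠ k ∧ j ≠ k := by
    have hcard : 3 ≤ Fintype.card (Fin (r+2)) := by simp; omega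
    obtain ⟨j, hj⟩ := Fintype.exists_ne_of_one_lt_card (by omega : 1 < Fintype.card (Fin (r+2))) i
    have h2 : ({i, j} : Finset (Fin (r+2))).card < Fintype.card (Fin (r+2)) := by
      have := Finset.card_le_two (a := i) (b := j)
      omega
    obtain ⟨k, hk⟩ : ∃ k, k ∉ ({i, j} : Finset (Fin (r+2))) := by
      by_contra hcon
      push Not at hcon
      have : ({i, j} : Finset (Fin (r+2))) = Finset.univ := Finset.eq_univ_iff_forall.2 hcon
      rw [this, Finset.card_univ] at h2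
      exact lt_irrefl _ h2
    simp only [Finset.mem_insert, Finset.mem_singleton, not_or] at hk
    exact ⟨j, k, hj.symm, fun h => hk.1 h.symm, fun h => hk.2 h.symm⟩
  exact ⟨σ j, mem_rngσ σ j, σ k, mem_rngσ σ k, lft_inj_ne hσ q0 h hj, lft_inj_ne hσ q0 h hk,
    lft_inj_ne hσ q0 h hjk⟩

lemma SV_eq_zero {n : ℕ} (v : Fin n → Fin n → ℝ) {i j : Fin n} (hij : i ≠ j) (h : v i = v j) :
    SV v = 0 := by
  unfold SV
  rw [Matrix.det_zero_of_row_eq hij (by funext k; exact congrFun h k), zero_mul]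

lemma VHyp.vol_eq (hr : 1 ≤ r) (H : VHyp c q G) {t : ℝ} (ht : t ∈ Icc (0:ℝ) 1) :
    Vol (cc c (q 0)) (YV c q G t) = ∑ σ : Fin (r+2) → Fin m, (c σ : ℝ) *
      SV (Fin.cons (Pi.single 0 1) (fun i => XX (q t (σ i))) : Fin (r+3) → Fin (r+3) → ℝ) := by
  unfold Vol
  rw [cc_sum c (q 0) (fun σ' => SV (Fin.cons (Pi.single 0 1) (fun i => YV c q G t (σ' i)) :
    Fin (r+3) → Fin (r+3) → ℝ))]
  refine Finset.sum_congr rfl (fun σ _ => ?_)
  by_cases hσ : c σ = 0
  · simp [hσ]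
  congr 1
  by_cases hinj : Function.Injective (lft c (q 0) σ)
  · have hY : ∀ i, YV c q G t (lft c (q 0) σ i) = (gX q G t (σ i, rng σ) 0) • XX (q t (σ i)) := by
      intro i
      have hg := lft_good hr hσ (q 0) hinj i
      unfold lft
      rw [H.YV_eq ht hg]
      exact (H.gX_eq ht hg.1 hg.2.1).2
    have h1 := SV_smul (d := r+3) (Fin.cons (Pi.single 0 1) (fun i => XX (q t (σ i))) :
      Fin (r+3) → Fin (r+3) → ℝ) (Fin.cons 1 (fun i => gX q G t (σ i, rng σ) 0) : Fin (r+3) → ℝ)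
      (by
        intro i
        refine Fin.cases ?_ (fun i => ?_) i
        · simp
        · simp only [Fin.cons_succ]
          have hg := lft_good hr hσ (q 0) hinj i
          exact (H.gX_eq ht hg.1 hg.2.1).1)
    rw [← h1]
    congr 1
    funext i
    refine Fin.cases ?_ (fun i => ?_) i
    · simp only [Fin.cons_zero, one_smul]
    · simp only [Fin.cons_succ]
      exact hY i
  · unfold Function.Injective at hinj
    push Not at hinj
    obtain ⟨i, j, hij, hne⟩ := hinj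
    have hne' : i.succ ≠ j.succ := fun h => hne (Fin.succ_injective _ h)
    rw [SV_eq_zero _ hne' (by simp only [Fin.cons_succ]; rw [hij]),
      SV_eq_zero _ hne' ?_]
    simp only [Fin.cons_succ]
    -- positions coincide
    have hs : rng σ ∈ supp c := ⟨σ, hσ, rfl⟩
    have h2 := H.gX_congr ht (f := (σ i, rng σ)) (f' := (σ j, rng σ)) hij
    obtain ⟨p1, e1⟩ := H.gX_eq ht (f := (σ i, rng σ)) hs (mem_rngσ σ i)
    obtain ⟨p2, e2⟩ := H.gX_eq ht (f := (σ j, rng σ)) hs (mem_rngσ σ j)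
    rw [h2] at e1 p1
    exact smul_right_injective _ p2.ne' (e1.symm.trans e2)

end

end Pool.Agent.TH564
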