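import Pool.Agent.TH564.Ver2

/-!
# The bellows theorem for positions of vertices in the closed ball: final form
-/

set_option linter.unusedSectionVars false

namespace Pool.Agent.TH564

open MeasureTheory Filter Topology Set Pool.Agent.W576 Pool.Agent.W31.Bel

section

variable {r m : ℕ} {c : (Fin (r+2) → Fin m) → ℤ} {q : ℝ → Fin m → Fin (r+2) → ℝ}
    {G : ℝ → Finset (Fin m) → Matrix (Fin (r+3)) (Fin (r+3)) ℝ}

lemma VHyp.YV_eq_prj (H : VHyp c q G) (t : ℝ) {f : Flg m}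
    (hf : Gd c (q 0) f) : YV c q G t (nd c (q 0) f) = gX q G (prj t) f := by
  have h := H.YV_eq (prj_mem t) hf
  rw [← h]
  unfold YV
  rw [prj_of_mem (prj_mem t)]

/-- the products of the lifts are constant -/
lemma VHyp.YV_lor (hr : 1 ≤ r) (H : VHyp c q G) (t : ℝ) {σ : Fin (r+2) → Fin m} (hσ : c σ ≠ 0)
    (hinj : Function.Injective (lft c (q 0) σ)) (i j : Fin (r+2)) :
    lor (YV c q G t (lft c (q 0) σ i)) (YV c q G t (lft c (q 0) σ j)) =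
      lor (XX (q 0 (σ i))) (XX (q 0 (σ j))) := by
  unfold lft
  rw [H.YV_eq_prj t (lft_good hr hσ (q 0) hinj i), H.YV_eq_prj t (lft_good hr hσ (q 0) hinj j)]
  unfold gX
  exact (H.iso _ ⟨σ, hσ, rfl⟩ _ (prj_mem t)).form _ _

lemma cc_ne_zero {σ' : Fin (r+2) → Fin (nfl m)} (q0 : Fin m → Fin (r+2) → ℝ)
    (h : cc c q0 σ' ≠ 0) : ∃ σ, c σ ≠ 0 ∧ lft c q0 σ = σ' := by
  unfold cc at h
  obtain ⟨σ, _, hσ⟩ := Finset.exists_ne_zero_of_sum_ne_zero h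
  by_cases h1 : lft c q0 σ = σ'
  · rw [if_pos h1] at hσ; exact ⟨σ, hσ, h1⟩
  · rw [if_neg h1] at hσ; exact absurd rfl hσ

/-- **The bellows theorem for vertices in the closed ball.** -/
theorem VHyp.bellows (hr : 1 ≤ r)
    (hcalt : ∀ (σ : Fin (r+2) → Fin m) (π : Equiv.Perm (Fin (r+2))),
      c (σ ∘ π) = ((Equiv.Perm.sign π : ℤˣ) : ℤ) * c σ)
    (hccyc : ∀ τ : Fin (r+1) → Fin m, ∑ q, c (Fin.cons q τ) = 0)
    (H : VHyp c q G) {t : ℝ} (ht : t ∈ Icc (0:ℝ) 1) :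
    ∑ σ : Fin (r+2) → Fin m, (c σ : ℝ) *
      SV (Fin.cons (Pi.single 0 1) (fun i => XX (q t (σ i))) : Fin (r+3) → Fin (r+3) → ℝ) =
    ∑ σ : Fin (r+2) → Fin m, (c σ : ℝ) *
      SV (Fin.cons (Pi.single 0 1) (fun i => XX (q 0 (σ i))) : Fin (r+3) → Fin (r+3) → ℝ) := by
  rw [← H.vol_eq hr ht, ← H.vol_eq hr zero_memI]
  have key : ∀ σ', cc c (q 0) σ' ≠ 0 → ∃ σ, c σ ≠ 0 ∧ lft c (q 0) σ = σ' ∧
      Function.Injective (lft c (q 0) σ) := by
    intro σ' h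
    obtain ⟨σ, h1, h2⟩ := cc_ne_zero (q 0) h
    refine ⟨σ, h1, h2, ?_⟩
    rw [h2]
    exact alt_inj _ (cc_alt c (q 0) hcalt) _ h
  refine bellows_cau hr (cc c (q 0)) (cc_alt c (q 0) hcalt) (cc_cyc c (q 0) hcalt hccyc)
    (YV c q G) H.YV_cont H.YV_cau ?_ ?_ t 0
  · intro σ' h i j hij s
    obtain ⟨σ, h1, rfl, h3⟩ := key σ' h
    rw [H.YV_lor hr s h1 h3]
    exact lor_XX_neg (H.ball _ ⟨σ, h1, rfl⟩ _ (mem_rngσ σ i) 0 zero_memI)
      (H.ball _ ⟨σ, h1, rfl⟩ _ (mem_rngσ σ j) 0 zero_memI) (lft_inj_ne h1 (q 0) h3 hij)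
  · intro σ' h i j s s'
    obtain ⟨σ, h1, rfl, h3⟩ := key σ' h
    rw [H.YV_lor hr s h1 h3, H.YV_lor hr s' h1 h3]

end

/-- two isometries which have the same values at three distinct points have the same lifts at
these points -/
lemma IsLor.lift_eq3 {n : ℕ} {g g' : Matrix (Fin (n+1)) (Fin (n+1)) ℝ} (hg : IsLor g)
    (hg' : IsLor g') {x y z : Fin n → ℝ}
    (hx : ∑ j, (x j) ^ 2 ≤ 1) (hy : ∑ j, (y j) ^ 2 ≤ 1) (hz : ∑ j, (z j) ^ 2 ≤ 1)
    (hxy : x ≠ y) (hxz : x ≠ z) (hyz : y ≠ z)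
    (h1 : pact g x = pact g' x) (h2 : pact g y = pact g' y) (h3 : pact g z = pact g' z) :
    g.mulVec (XX x) = g'.mulVec (XX x) := by
  obtain ⟨px, ex⟩ := hg.mulVec_XX hx
  obtain ⟨px', ex'⟩ := hg'.mulVec_XX hx
  obtain ⟨py, ey⟩ := hg.mulVec_XX hy
  obtain ⟨pz, ez⟩ := hg.mulVec_XX hz
  have e1 := hg.scale_sq hx hy hz hyz
  have e2 := hg'.scale_sq hx hy hz hyz
  rw [← h1, ← h2, ← h3, ← e1] at e2
  -- the products in the image are nonzero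
  have k1 : lor (XX (pact g x)) (XX (pact g y)) ≠ 0 := by
    intro h
    have l := hg.form (XX x) (XX y)
    rw [ex, ey, lor_smul_left, lor_smul_right, h] at l
    have := lor_XX_neg hx hy hxy
    simp at l
    linarith
  have k2 : lor (XX (pact g x)) (XX (pact g z)) ≠ 0 := by
    intro h
    have l := hg.form (XX x) (XX z)
    rw [ex, ez, lor_smul_left, lor_smul_right, h] at l
    have := lor_XX_neg hx hz hxz
    simp at l
    linarith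
  have k3 : lor (XX y) (XX z) ≠ 0 := (lor_XX_neg hy hz hyz).ne
  have e3 : (g.mulVec (XX x) 0) ^ 2 = (g'.mulVec (XX x) 0) ^ 2 :=
    (mul_right_cancel₀ (mul_ne_zero k1 k2) (mul_right_cancel₀ k3 e2)).symm
  have e4 : g.mulVec (XX x) 0 = g'.mulVec (XX x) 0 := (sq_eq_sq₀ px.le px'.le).1 e3
  rw [ex, ex', ← h1, e4]

end Pool.Agent.TH564
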